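import Mathlib

/-!
# MP_fe8e9b_al, alternating groups: definitions
-/

set_option autoImplicit false

open scoped BigOperators

namespace Pool.Agent.MPfe8e9bA

/-- Control of displacements: in every finite dimensional unitary representation, a vector which
is moved by at most `δ` by every element of `S` is moved by at most `C * δ` by every element of
`T`. -/
def Kz {Γ : Type} [Group Γ] (S : Set Γ) (C : ℝ) (T : Set Γ) : Prop :=
  ∀ (V : Type) [NormedAddCommGroup V] [InnerProductSpace ℂ V] [FiniteDimensional ℂ V]
    (ρ : Γ →* (V ≃ₗᵢ[ℂ] V)) (v : V) (δ : ℝ), 0 ≤ δ →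
    (∀ s ∈ S, ‖ρ s v - v‖ ≤ δ) → ∀ t ∈ T, ‖ρ t v - v‖ ≤ C * δ

/-- Nonzero vectors of length three. -/
abbrev Om (F : Type) [Zero F] : Type := {x : Fin 3 → F // x ≠ 0}

/-- The shear `x j ↦ x j + g (x (j + 1)) (x (j + 2)) - g 0 0`. -/
def shear {F : Type} [AddCommGroup F] (j : Fin 3) (g : F → F → F) : Equiv.Perm (Fin 3 → F) where
  toFun x := Function.update x j (x j + (g (x (j + 1)) (x (j + 2)) - g 0 0))
  invFun x := Function.update x j (x j - (g (x (j + 1)) (x (j + 2)) - g 0 0))
  left_inv := by
    intro x
    have h1 : j + 1 ≠ j := by fin_cases j <;> decide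
    have h2 : j + 2 ≠ j := by fin_cases j <;> decide
    simp
  right_inv := by
    intro x
    have h1 : j + 1 ≠ j := by fin_cases j <;> decide
    have h2 : j + 2 ≠ j := by fin_cases j <;> decide
    simp

theorem shear_apply {F : Type} [AddCommGroup F] (j : Fin 3) (g : F → F → F) (x : Fin 3 → F) :
    shear j g x = Function.update x j (x j + (g (x (j + 1)) (x (j + 2)) - g 0 0)) := rfl

theorem shear_zero_apply {F : Type} [AddCommGroup F] (j : Fin 3) (g : F → F → F) :
    shear j g 0 = 0 := by
  rw [shear_apply]
  simp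

theorem shear_mul {F : Type} [AddCommGroup F] (j : Fin 3) (g h : F → F → F) :
    shear j (g + h) = shear j g * shear j h := by
  ext x
  have h1 : j + 1 ≠ j := by fin_cases j <;> decide
  have h2 : j + 2 ≠ j := by fin_cases j <;> decide
  rw [Equiv.Perm.mul_apply, shear_apply, shear_apply, shear_apply]
  simp only [Function.update_of_ne h1, Function.update_of_ne h2, Function.update_self,
    Function.update_idem, Pi.add_apply]
  have h3 : x j + (g (x (j + 1)) (x (j + 2)) + h (x (j + 1)) (x (j + 2)) - (g 0 0 + h 0 0)) =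
      x j + (h (x (j + 1)) (x (j + 2)) - h 0 0) + (g (x (j + 1)) (x (j + 2)) - g 0 0) := by
    abel
  rw [h3]

theorem shear_ne_zero {F : Type} [AddCommGroup F] (j : Fin 3) (g : F → F → F) (x : Fin 3 → F) :
    x ≠ 0 ↔ shear j g x ≠ 0 := by
  rw [not_iff_not]
  constructor
  · rintro rfl
    exact shear_zero_apply j g
  · intro h
    apply (shear j g).injective
    rw [h, shear_zero_apply]

/-- Shears as permutations of the nonzero vectors. -/
def shO {F : Type} [AddCommGroup F] (j : Fin 3) : Multiplicative (F → F → F) →* Equiv.Perm (Om F)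
    where
  toFun g := (shear j (Multiplicative.toAdd g)).subtypePerm
    (fun x => (shear_ne_zero j (Multiplicative.toAdd g) x).symm)
  map_one' := by
    ext x
    simp [shear_apply]
  map_mul' g h := by
    ext x
    rw [Equiv.Perm.mul_apply, Equiv.Perm.subtypePerm_apply, Equiv.Perm.subtypePerm_apply,
      Equiv.Perm.subtypePerm_apply]
    show shear j (Multiplicative.toAdd g + Multiplicative.toAdd h) x.1 _ = _
    rw [shear_mul, Equiv.Perm.mul_apply]

theorem shO_apply {F : Type} [AddCommGroup F] (j : Fin 3) (g : F → F → F) (x : Om F) :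
    (shO j (Multiplicative.ofAdd g) x).1 =
      Function.update x.1 j (x.1 j + (g (x.1 (j + 1)) (x.1 (j + 2)) - g 0 0)) := rfl

theorem sign_shO {F : Type} [AddCommGroup F] [Fintype F] [DecidableEq F] [Module (ZMod 19) F]
    (j : Fin 3) (g : Multiplicative (F → F → F)) : Equiv.Perm.sign (shO j g) = 1 := by
  have h1 : g ^ 19 = 1 := by
    apply Multiplicative.toAdd.injective
    rw [toAdd_pow, toAdd_one]
    funext a b
    show 19 • (Multiplicative.toAdd g a b) = 0
    have h2 : ((19 : ℕ) : ZMod 19) • (Multiplicative.toAdd g a b) = 0 := by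
      rw [ZMod.natCast_self, zero_smul]
    rwa [Nat.cast_smul_eq_nsmul] at h2
  have h3 : (Equiv.Perm.sign (shO j g)) ^ 19 = 1 := by
    rw [← map_pow, ← map_pow, h1, map_one, map_one]
  rcases Int.units_eq_one_or (Equiv.Perm.sign (shO j g)) with h | h
  · exact h
  · rw [h] at h3
    exact absurd h3 (by decide)

/-- Shears as even permutations of the nonzero vectors. -/
def shA {F : Type} [AddCommGroup F] [Fintype F] [DecidableEq F] [Module (ZMod 19) F] (j : Fin 3) :
    Multiplicative (F → F → F) →* alternatingGroup (Om F) :=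
  (shO j).codRestrict (alternatingGroup (Om F)) fun g => sign_shO j g

theorem shA_apply {F : Type} [AddCommGroup F] [Fintype F] [DecidableEq F] [Module (ZMod 19) F]
    (j : Fin 3) (g : F → F → F) (x : Om F) :
    ((shA j (Multiplicative.ofAdd g)).1 x).1 =
      Function.update x.1 j (x.1 j + (g (x.1 (j + 1)) (x.1 (j + 2)) - g 0 0)) := rfl

section Family

variable {Y : Type} (F : Y → Type) [∀ y, CommRing (F y)] [∀ y, Fintype (F y)]
  [∀ y, DecidableEq (F y)] [∀ y, Algebra (ZMod 19) (F y)]

/-- Families of shears. -/
def shP (j : Fin 3) : Multiplicative (∀ y, F y → F y → F y) →*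
    (∀ y, alternatingGroup (Om (F y))) where
  toFun g := fun y => shA j (Multiplicative.ofAdd (Multiplicative.toAdd g y))
  map_one' := by
    funext y
    exact map_one (shA j)
  map_mul' g h := by
    funext y
    exact map_mul (shA j) (Multiplicative.ofAdd (Multiplicative.toAdd g y))
      (Multiplicative.ofAdd (Multiplicative.toAdd h y))

/-- The shears `x j ↦ x j + a * x (j + 1) ^ 2`. -/
def q2 (j : Fin 3) : Multiplicative (∀ y, F y) →* (∀ y, alternatingGroup (Om (F y))) where
  toFun a := shP F j (Multiplicative.ofAdd fun y x _ => Multiplicative.toAdd a y * x ^ 2)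
  map_one' := by
    rw [← map_one (shP F j)]
    congr 1
    apply Multiplicative.toAdd.injective
    funext y x z
    show (0 : F y) * x ^ 2 = 0
    rw [zero_mul]
  map_mul' a b := by
    rw [← map_mul]
    congr 1
    apply Multiplicative.toAdd.injective
    funext y x z
    exact add_mul _ _ _

/-- The shears `x j ↦ x j + a * x (j + 1)`. -/
def q1 (j : Fin 3) : Multiplicative (∀ y, F y) →* (∀ y, alternatingGroup (Om (F y))) where
  toFun a := shP F j (Multiplicative.ofAdd fun y x _ => Multiplicative.toAdd a y * x)
  map_one' := by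
    rw [← map_one (shP F j)]
    congr 1
    apply Multiplicative.toAdd.injective
    funext y x z
    show (0 : F y) * x = 0
    rw [zero_mul]
  map_mul' a b := by
    rw [← map_mul]
    congr 1
    apply Multiplicative.toAdd.injective
    funext y x z
    exact add_mul _ _ _

/-- The six families of generators: `θ = (j, true)` gives `q2 j`, `θ = (j, false)` gives
`q1 j`. -/
def qq (θ : Fin 3 × Bool) : Multiplicative (∀ y, F y) →* (∀ y, alternatingGroup (Om (F y))) :=
  if θ.2 then q2 F θ.1 else q1 F θ.1

/-- The generators with coefficients in `Λ`. -/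
def ckS (Λ : Submodule (ZMod 19) (∀ y, F y)) : Set (∀ y, alternatingGroup (Om (F y))) :=
  {g | ∃ (j : Fin 3) (a b : ∀ y, F y), a ∈ Λ ∧ b ∈ Λ ∧
    g = q2 F j (Multiplicative.ofAdd a) * q1 F j (Multiplicative.ofAdd b)}

end Family

/-! ### Blocks -/

/-- The block. -/
abbrev WW : Type := Om (ZMod 19)

theorem card_WW : Fintype.card WW = 6858 := by
  have h1 : Fintype.card {x : Fin 3 → ZMod 19 // x = 0} = 1 := Fintype.card_subtype_eq 0
  have h2 := Fintype.card_subtype_compl (fun x : Fin 3 → ZMod 19 => x = 0)
  rw [h1, Fintype.card_fun, ZMod.card, Fintype.card_fin] at h2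
  show Fintype.card {x : Fin 3 → ZMod 19 // ¬ x = 0} = 6858
  rw [h2]
  norm_num

variable (A : Type) [Fintype A] [DecidableEq A]

/-- Permutations of the set of blocks. -/
def bl : Equiv.Perm A →* alternatingGroup (A × WW) where
  toFun τ := ⟨Equiv.prodCongrLeft fun _ => τ, by
    rw [Equiv.Perm.mem_alternatingGroup]
    have h := Equiv.Perm.sign_prodCongrLeft (fun _ : WW => τ)
    refine h.trans ?_
    rw [Finset.prod_const, Finset.card_univ, card_WW]
    rcases Int.units_eq_one_or (Equiv.Perm.sign τ) with h | h
    · rw [h, one_pow]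
    · rw [h]
      exact Even.neg_one_pow ⟨3429, rfl⟩⟩
  map_one' := by
    apply Subtype.ext
    ext x <;> rfl
  map_mul' a b := by
    apply Subtype.ext
    ext x <;> rfl

theorem bl_apply (τ : Equiv.Perm A) (x : A × WW) : (bl A τ).1 x = (τ x.1, x.2) := rfl

/-- Even permutations inside the blocks. -/
def fb : (A → alternatingGroup WW) →* alternatingGroup (A × WW) where
  toFun b := ⟨Equiv.prodCongrRight fun a => (b a).1, by
    rw [Equiv.Perm.mem_alternatingGroup]
    have h := Equiv.Perm.sign_prodCongrRight (fun a : A => (b a).1)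
    refine h.trans ?_
    exact Finset.prod_eq_one fun a _ => (b a).2⟩
  map_one' := by
    apply Subtype.ext
    ext x <;> rfl
  map_mul' a b := by
    apply Subtype.ext
    ext x <;> rfl

theorem fb_apply (b : A → alternatingGroup WW) (x : A × WW) :
    (fb A b).1 x = (x.1, (b x.1).1 x.2) := rfl

theorem bl_conj (τ : Equiv.Perm A) (b : A → alternatingGroup WW) :
    bl A τ * fb A b * (bl A τ)⁻¹ = fb A (fun a => b (τ⁻¹ a)) := by
  rw [mul_inv_eq_iff_eq_mul]
  apply Subtype.ext
  ext x : 1
  show (bl A τ).1 ((fb A b).1 x) = (fb A fun a => b (τ⁻¹ a)).1 ((bl A τ).1 x)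
  rw [bl_apply, fb_apply, fb_apply, bl_apply]
  simp

/-- Even permutations extended along an embedding. -/
noncomputable def emb {α β : Type} [Fintype α] [DecidableEq α] [Fintype β] [DecidableEq β]
    (e : α ↪ β) : alternatingGroup α →* alternatingGroup β where
  toFun σ := ⟨Equiv.Perm.viaEmbeddingHom e σ.1, by
    rw [Equiv.Perm.mem_alternatingGroup]
    have h := @Equiv.Perm.sign_extendDomain α _ β _ _ _ σ.1 (fun x => x ∈ Set.range e)
      (Classical.decPred _) (Equiv.ofInjective e.1 e.2)
    exact h.trans σ.2⟩
  map_one' := by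
    apply Subtype.ext
    exact map_one (Equiv.Perm.viaEmbeddingHom e)
  map_mul' a b := by
    apply Subtype.ext
    exact map_mul (Equiv.Perm.viaEmbeddingHom e) _ _

theorem emb_apply {α β : Type} [Fintype α] [DecidableEq α] [Fintype β] [DecidableEq β]
    (e : α ↪ β) (σ : alternatingGroup α) (a : α) : (emb e σ).1 (e a) = e (σ.1 a) :=
  Equiv.Perm.viaEmbedding_apply σ.1 e a

theorem emb_apply_of_notMem {α β : Type} [Fintype α] [DecidableEq α] [Fintype β] [DecidableEq β]
    (e : α ↪ β) (σ : alternatingGroup α) (b : β) (hb : b ∉ Set.range e) : (emb e σ).1 b = b :=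
  Equiv.Perm.viaEmbedding_apply_of_notMem σ.1 e b hb

/-! ### The group of the construction -/

section Mid

variable {K : Type} (A I : K → Type) [∀ k, Fintype (A k)] [∀ k, DecidableEq (A k)]

/-- The group of the construction. -/
abbrev MM : Type := ∀ k : K, I k → alternatingGroup (A k × WW)

/-- Diagonal block permutations, the same for all `i : I k`. -/
def blM : (∀ k, alternatingGroup (A k)) →* MM A I where
  toFun σ := fun k _ => bl (A k) (σ k).1
  map_one' := by
    funext k i
    exact map_one (bl (A k))
  map_mul' a b := by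
    funext k i
    exact map_mul (bl (A k)) _ _

/-- All block permutations. -/
def blS : (∀ k, I k → Equiv.Perm (A k)) →* MM A I where
  toFun τ := fun k i => bl (A k) (τ k i)
  map_one' := by
    funext k i
    exact map_one (bl (A k))
  map_mul' a b := by
    funext k i
    exact map_mul (bl (A k)) _ _

/-- The index set of the fibres. -/
abbrev YY : Type := Σ k, I k × A k

/-- Permutations inside the blocks. -/
def fbM : (YY A I → alternatingGroup WW) →* MM A I where
  toFun b := fun k i => fb (A k) fun a => b ⟨k, i, a⟩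
  map_one' := by
    funext k i
    exact map_one (fb (A k))
  map_mul' a b := by
    funext k i
    exact map_mul (fb (A k)) _ _

/-- The six families of shears inside the blocks. -/
def EE (θ : Fin 3 × Bool) : Multiplicative (YY A I → ZMod 19) →* MM A I :=
  (fbM A I).comp (qq (fun _ : YY A I => ZMod 19) θ)

/-- The group without the indices `i` embedded diagonally. -/
def dgM : MM A (fun _ => Unit) →* MM A I where
  toFun g := fun k _ => g k ()
  map_one' := rfl
  map_mul' _ _ := rfl

end Mid

end Pool.Agent.MPfe8e9bA
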