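import Mathlib
import Pool.Agent.Lib.MP_fe8e9b_al_A.Defs

/-!
# MP_fe8e9b_al, alternating groups: products of three conjugates
-/

set_option autoImplicit false

open scoped BigOperators Pointwise

namespace Pool.Agent.MPfe8e9bA

/-- an injection of a small subset extends to an even permutation -/
theorem alt3_ext {β : Type} [Fintype β] [DecidableEq β] (A T : Finset β) (hT : T ⊆ A)
    (f : β → β) (hf : Set.InjOn f T) (hfA : ∀ t ∈ T, f t ∈ A) (hcard : T.card + 2 ≤ A.card) :
    ∃ c : alternatingGroup β, (∀ x, x ∉ A → c.1 x = x) ∧ ∀ t ∈ T, c.1 t = f t := by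
  classical
  -- the permutation of the subtype
  let p : {x // x ∈ A} → Prop := fun x => x.1 ∈ T
  let q : {x // x ∈ A} → Prop := fun x => x.1 ∈ T.image f
  let e0 : {x // p x} → {x // q x} := fun x =>
    ⟨⟨f x.1.1, hfA _ x.2⟩, Finset.mem_image_of_mem f x.2⟩
  have he0 : Function.Bijective e0 := by
    constructor
    · rintro ⟨⟨x, hx⟩, hx'⟩ ⟨⟨y, hy⟩, hy'⟩ hxy
      have h1 : f x = f y := congrArg (fun z : {x // q x} => z.1.1) hxy
      have h2 : x = y := hf hx' hy' h1
      subst h2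
      rfl
    · rintro ⟨⟨x, hx⟩, hx'⟩
      obtain ⟨t, ht, htx⟩ := Finset.mem_image.1 hx'
      refine ⟨⟨⟨t, hT ht⟩, ht⟩, ?_⟩
      apply Subtype.ext
      apply Subtype.ext
      exact htx
  let e1 : {x // p x} ≃ {x // q x} := Equiv.ofBijective e0 he0
  let s0 : Equiv.Perm {x // x ∈ A} := e1.extendSubtype
  have hs0 : ∀ t (ht : t ∈ T), (s0 ⟨t, hT ht⟩).1 = f t := by
    intro t ht
    have h1 : s0 ⟨t, hT ht⟩ = (e1 ⟨⟨t, hT ht⟩, ht⟩ : {x // x ∈ A}) :=
      e1.extendSubtype_apply_of_mem ⟨t, hT ht⟩ ht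
    rw [h1]
    rfl
  let s1 : Equiv.Perm β := Equiv.Perm.ofSubtype s0
  have hs1 : ∀ t ∈ T, s1 t = f t := by
    intro t ht
    rw [← hs0 t ht]
    exact Equiv.Perm.ofSubtype_apply_of_mem s0 (hT ht)
  have hs1' : ∀ x, x ∉ A → s1 x = x := fun x hx => Equiv.Perm.ofSubtype_apply_of_not_mem s0 hx
  rcases Int.units_eq_one_or (Equiv.Perm.sign s1) with h | h
  · exact ⟨⟨s1, h⟩, hs1', hs1⟩
  · have hc : 1 < (A \ T.image f).card := by
      have h1 := Finset.le_card_sdiff (T.image f) A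
      have h2 := Finset.card_image_le (s := T) (f := f)
      omega
    obtain ⟨u, hu, v, hv, huv⟩ := Finset.one_lt_card.1 hc
    rw [Finset.mem_sdiff] at hu hv
    refine ⟨⟨Equiv.swap u v * s1, ?_⟩, ?_, ?_⟩
    · rw [Equiv.Perm.mem_alternatingGroup, map_mul, Equiv.Perm.sign_swap huv, h]
      rfl
    · intro x hx
      rw [Equiv.Perm.mul_apply, hs1' x hx, Equiv.swap_apply_of_ne_of_ne]
      · rintro rfl
        exact hx hu.1
      · rintro rfl
        exact hx hv.1
    · intro t ht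
      rw [Equiv.Perm.mul_apply, hs1 t ht, Equiv.swap_apply_of_ne_of_ne]
      · intro h1
        exact hu.2 (h1 ▸ Finset.mem_image_of_mem f ht)
      · intro h1
        exact hv.2 (h1 ▸ Finset.mem_image_of_mem f ht)

/-- an even permutation supported in the range of an embedding -/
theorem alt3_emb {α β : Type} [Fintype α] [DecidableEq α] [Fintype β] [DecidableEq β]
    (e : α ↪ β) (σ : alternatingGroup β) (hσ : ∀ x, x ∉ Set.range e → σ.1 x = x) :
    ∃ a : alternatingGroup α, σ = emb e a := by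
  classical
  have hr : ∀ x, x ∈ Set.range e ↔ σ.1 x ∈ Set.range e := by
    intro x
    constructor
    · intro hx
      by_contra hcon
      have h1 := hσ _ hcon
      have h2 : σ.1 x = x := σ.1.injective h1
      rw [h2] at hcon
      exact hcon hx
    · intro hx
      by_contra hcon
      rw [hσ x hcon] at hx
      exact hcon hx
  let s : Equiv.Perm {x // x ∈ Set.range e} := σ.1.subtypePerm (fun x => (hr x).symm)
  let a0 : Equiv.Perm α := (Equiv.ofInjective e.1 e.2).symm.permCongr s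
  have ha0 : ∀ a, e (a0 a) = σ.1 (e a) := by
    intro a
    have h1 : Equiv.ofInjective e.1 e.2 (a0 a) = s (Equiv.ofInjective e.1 e.2 a) := by
      show Equiv.ofInjective e.1 e.2 ((Equiv.ofInjective e.1 e.2).symm
        (s ((Equiv.ofInjective e.1 e.2).symm.symm a))) = _
      rw [Equiv.apply_symm_apply]
      rfl
    exact congrArg Subtype.val h1
  have heq : Equiv.Perm.viaEmbeddingHom e a0 = σ.1 := by
    ext x
    by_cases hx : x ∈ Set.range e
    · obtain ⟨a, rfl⟩ := hx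
      rw [← ha0]
      exact Equiv.Perm.viaEmbedding_apply a0 e a
    · rw [hσ x hx]
      exact Equiv.Perm.viaEmbedding_apply_of_notMem a0 e x hx
  have hsign : Equiv.Perm.sign a0 = 1 := by
    have h := @Equiv.Perm.sign_extendDomain α _ β _ _ _ a0 (fun x => x ∈ Set.range e)
      (Classical.decPred _) (Equiv.ofInjective e.1 e.2)
    rw [← h]
    have h2 : Equiv.Perm.sign (Equiv.Perm.viaEmbeddingHom e a0) = 1 := by
      rw [heq]
      exact σ.2
    exact h2
  refine ⟨⟨a0, hsign⟩, ?_⟩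
  apply Subtype.ext
  exact heq.symm

/-- One step. -/
theorem alt_three {α β : Type} [Fintype α] [DecidableEq α] [Fintype β] [DecidableEq β]
    (e : α ↪ β) (h : 2 * Fintype.card β + 2 ≤ 3 * Fintype.card α) :
    ∃ g : alternatingGroup β, ∀ σ : alternatingGroup β, ∃ a b c : alternatingGroup α,
      σ = emb e a * (g * emb e b * g⁻¹) * emb e c := by
  classical
  set A : Finset β := Finset.univ.map e with hA
  have hmemA : ∀ x, x ∈ A ↔ x ∈ Set.range e := by
    intro x
    rw [hA, Finset.mem_map]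
    simp
  have hAc : A.card = Fintype.card α := by rw [hA, Finset.card_map, Finset.card_univ]
  have hRc : (Aᶜ).card = Fintype.card β - Fintype.card α := by rw [Finset.card_compl, hAc]
  have hle : Fintype.card α ≤ Fintype.card β := Fintype.card_le_of_embedding e
  -- the element g
  obtain ⟨T0, hT0, hT0c⟩ := Finset.exists_subset_card_eq (s := A) (n := (Aᶜ).card)
    (by rw [hRc, hAc]; omega)
  obtain ⟨g, -, hg⟩ : ∃ g : alternatingGroup β, (∀ x, x ∉ (Finset.univ : Finset β) → g.1 x = x) ∧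
      ∀ x ∈ Aᶜ, ∃ t ∈ T0, g.1 t = x := by
    obtain ⟨ψ⟩ : Nonempty (T0 ≃ (Aᶜ : Finset β)) := by
      rw [← Fintype.card_eq]
      simp only [Fintype.card_coe]
      exact hT0c
    let f : β → β := fun x => if hx : x ∈ T0 then (ψ ⟨x, hx⟩).1 else x
    have hfT : ∀ x (hx : x ∈ T0), f x = (ψ ⟨x, hx⟩).1 := fun x hx => dif_pos hx
    obtain ⟨g, hg1, hg2⟩ := alt3_ext Finset.univ T0 (Finset.subset_univ _) f (by
      intro x hx y hy hxy
      rw [hfT x hx, hfT y hy] at hxy
      have := ψ.injective (Subtype.ext hxy)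
      exact congrArg Subtype.val this) (fun _ _ => Finset.mem_univ _) (by
      rw [hT0c, hRc, Finset.card_univ]
      omega)
    refine ⟨g, hg1, fun x hx => ?_⟩
    refine ⟨(ψ.symm ⟨x, hx⟩).1, (ψ.symm ⟨x, hx⟩).2, ?_⟩
    rw [hg2 _ (ψ.symm ⟨x, hx⟩).2, hfT _ (ψ.symm ⟨x, hx⟩).2]
    have : ψ ⟨(ψ.symm ⟨x, hx⟩).1, (ψ.symm ⟨x, hx⟩).2⟩ = ⟨x, hx⟩ := ψ.apply_symm_apply ⟨x, hx⟩
    rw [this]
  refine ⟨g, fun σ => ?_⟩
  set B : Finset β := A.map g.1.toEmbedding with hB
  have hBc : B.card = A.card := by rw [hB, Finset.card_map]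
  have hmemB : ∀ x, g.1 x ∈ B ↔ x ∈ A := by
    intro x
    rw [hB, Finset.mem_map]
    constructor
    · rintro ⟨y, hy, hxy⟩
      have : y = x := g.1.injective hxy
      rwa [← this]
    · intro hx
      exact ⟨x, hx, rfl⟩
  have hRB : Aᶜ ⊆ B := by
    intro x hx
    obtain ⟨t, ht, rfl⟩ := hg x hx
    exact (hmemB t).2 (hT0 ht)
  have hABc : (Aᶜ).card + 2 ≤ (A ∩ B).card := by
    have h1 : (A ∩ B) = B \ Aᶜ := by
      ext x
      simp only [Finset.mem_inter, Finset.mem_sdiff, Finset.mem_compl, not_not]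
      tauto
    rw [h1, Finset.card_sdiff_of_subset hRB, hBc, hRc, hAc]
    omega
  -- the element c
  set T : Finset β := A.filter (fun x => σ.1 x ∉ A) with hTdef
  have hTc : T.card ≤ (Aᶜ).card := by
    refine Finset.card_le_card_of_injOn (fun x => σ.1 x) ?_ (fun x _ y _ hxy => σ.1.injective hxy)
    intro x hx
    rw [hTdef, Finset.coe_filter] at hx
    simp only [Finset.coe_compl, Set.mem_compl_iff, Finset.mem_coe]
    exact hx.2
  obtain ⟨c, hc1, hc2⟩ : ∃ c : alternatingGroup β, (∀ x, x ∉ A → c.1 x = x) ∧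
      ∀ t ∈ T, c.1 t ∈ A ∩ B := by
    obtain ⟨ψ⟩ : Nonempty (T ↪ (A ∩ B : Finset β)) := by
      rw [Function.Embedding.nonempty_iff_card_le]
      simp only [Fintype.card_coe]
      omega
    let f : β → β := fun x => if hx : x ∈ T then (ψ ⟨x, hx⟩).1 else x
    have hfT : ∀ x (hx : x ∈ T), f x = (ψ ⟨x, hx⟩).1 := fun x hx => dif_pos hx
    obtain ⟨c, hc1, hc2⟩ := alt3_ext A T (Finset.filter_subset _ _) f (by
      intro x hx y hy hxy
      rw [hfT x hx, hfT y hy] at hxy
      have := ψ.injective (Subtype.ext hxy)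
      exact congrArg Subtype.val this) (fun t ht => by
        rw [hfT t ht]
        exact (Finset.mem_inter.1 (ψ ⟨t, ht⟩).2).1) (by
      rw [hRc] at hTc
      rw [hAc]
      omega)
    refine ⟨c, hc1, fun t ht => ?_⟩
    rw [hc2 t ht, hfT t ht]
    exact (ψ ⟨t, ht⟩).2
  -- the element b1
  set S : Finset β := (Aᶜ).image (fun x => c.1 (σ.1.symm x)) with hS
  have hSB : S ⊆ B := by
    intro s hs
    obtain ⟨x, hx, rfl⟩ := Finset.mem_image.1 hs
    by_cases hy : σ.1.symm x ∈ A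
    · have hyT : σ.1.symm x ∈ T := by
        rw [hTdef, Finset.mem_filter]
        refine ⟨hy, ?_⟩
        rw [Equiv.apply_symm_apply]
        exact Finset.mem_compl.1 hx
      exact (Finset.mem_inter.1 (hc2 _ hyT)).2
    · show c.1 (σ.1.symm x) ∈ B
      rw [hc1 _ hy]
      exact hRB (Finset.mem_compl.2 hy)
  obtain ⟨b1, hb1, hb2⟩ := alt3_ext B S hSB (fun x => σ.1 (c.1.symm x))
    (fun x _ y _ hxy => by simpa using hxy) (by
      intro s hs
      obtain ⟨x, hx, rfl⟩ := Finset.mem_image.1 hs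
      show σ.1 (c.1.symm (c.1 (σ.1.symm x))) ∈ B
      rw [Equiv.symm_apply_apply, Equiv.apply_symm_apply]
      exact hRB hx) (by
      have h1 : S.card ≤ (Aᶜ).card := Finset.card_image_le
      rw [hBc, hAc]
      rw [hRc] at h1
      omega)
  have hfix : ∀ x, x ∉ A → b1.1 (c.1 (σ.1.symm x)) = x := by
    intro x hx
    rw [hb2 _ (Finset.mem_image_of_mem _ (Finset.mem_compl.2 hx)), Equiv.symm_apply_apply,
      Equiv.apply_symm_apply]
  -- the three factors
  obtain ⟨a, ha⟩ := alt3_emb e (σ * c⁻¹ * b1⁻¹) (by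
    intro x hx
    have hx' : x ∉ A := fun h => hx ((hmemA x).1 h)
    show σ.1 (c.1⁻¹ (b1.1⁻¹ x)) = x
    have h1 := hfix x hx'
    have h2 : b1.1⁻¹ x = c.1 (σ.1.symm x) := by
      rw [Equiv.Perm.inv_eq_iff_eq]
      exact h1.symm
    rw [h2]
    show σ.1 (c.1.symm (c.1 (σ.1.symm x))) = x
    rw [Equiv.symm_apply_apply, Equiv.apply_symm_apply])
  obtain ⟨c', hc'⟩ := alt3_emb e c (by
    intro x hx
    exact hc1 x fun h => hx ((hmemA x).1 h))
  obtain ⟨b, hb⟩ := alt3_emb e (g⁻¹ * b1 * g) (by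
    intro x hx
    have hx' : x ∉ A := fun h => hx ((hmemA x).1 h)
    show g.1⁻¹ (b1.1 (g.1 x)) = x
    rw [hb1 (g.1 x) (fun h => hx' ((hmemB x).1 h))]
    exact Equiv.symm_apply_apply g.1 x)
  refine ⟨a, b, c', ?_⟩
  rw [← ha, ← hb, ← hc']
  group

end Pool.Agent.MPfe8e9bA
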