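import Mathlib
import Pool.Agent.Lib.MP_fe8e9b_al_A.Alt3

/-!
# MP_fe8e9b_al, alternating groups: products of boundedly many conjugates
-/

set_option autoImplicit false

open scoped BigOperators Pointwise

namespace Pool.Agent.MPfe8e9bA

private theorem altp_emb_trans {α β γ : Type} [Fintype α] [DecidableEq α] [Fintype β]
    [DecidableEq β] [Fintype γ] [DecidableEq γ] (e : α ↪ β) (f : β ↪ γ) (g : α ↪ γ)
    (hg : ∀ a, g a = f (e a)) (σ : alternatingGroup α) : emb g σ = emb f (emb e σ) := by
  apply Subtype.ext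
  ext c : 1
  by_cases h1 : c ∈ Set.range f
  · obtain ⟨b, rfl⟩ := h1
    rw [emb_apply f]
    by_cases h2 : b ∈ Set.range e
    · obtain ⟨a, rfl⟩ := h2
      rw [emb_apply e, ← hg, ← hg, emb_apply g]
    · rw [emb_apply_of_notMem e σ b h2, emb_apply_of_notMem]
      rintro ⟨a, ha⟩
      rw [hg] at ha
      exact h2 ⟨a, f.injective ha⟩
  · rw [emb_apply_of_notMem f _ c h1, emb_apply_of_notMem]
    rintro ⟨a, ha⟩
    rw [hg] at ha
    exact h1 ⟨_, ha⟩

private theorem altp_emb_surj {α β : Type} [Fintype α] [DecidableEq α] [Fintype β]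
    [DecidableEq β] (e : α ↪ β) (h : Fintype.card β ≤ Fintype.card α)
    (σ : alternatingGroup β) : ∃ x : alternatingGroup α, emb e x = σ := by
  have hb : Function.Bijective e := by
    rw [Fintype.bijective_iff_injective_and_card]
    exact ⟨e.injective, le_antisymm (Fintype.card_le_of_embedding e) h⟩
  have hx : (Equiv.ofBijective e hb).symm.permCongr σ.1 ∈ alternatingGroup α := by
    rw [Equiv.Perm.mem_alternatingGroup, Equiv.Perm.sign_permCongr]
    exact σ.2
  refine ⟨⟨_, hx⟩, ?_⟩
  apply Subtype.ext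
  ext b : 1
  obtain ⟨a, rfl⟩ := hb.2 b
  rw [emb_apply]
  show (Equiv.ofBijective e hb) ((Equiv.ofBijective e hb).symm.permCongr σ.1 a) = _
  rw [Equiv.permCongr_apply, Equiv.apply_symm_apply, Equiv.symm_symm]
  rfl

/-- All conjugates by a fixed element of the even permutations of the subset. -/
private def altp_C {α β : Type} [Fintype α] [DecidableEq α] [Fintype β] [DecidableEq β]
    (e : α ↪ β) (h : alternatingGroup β) : Set (alternatingGroup β) :=
  Set.range fun x : alternatingGroup α => h * emb e x * h⁻¹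

private theorem altp_flat {α β γ : Type} [Fintype α] [DecidableEq α] [Fintype β]
    [DecidableEq β] [Fintype γ] [DecidableEq γ] (e : α ↪ β) (f : γ ↪ β) (G : alternatingGroup β)
    (hC : ∀ h, altp_C f h ⊆ altp_C e h * altp_C e (h * G) * altp_C e h)
    (l : List (alternatingGroup β)) :
    (l.map (altp_C f)).prod ⊆ ((l.flatMap fun h => [h, h * G, h]).map (altp_C e)).prod := by
  induction l with
  | nil => simp
  | cons a l ih =>
    rw [List.map_cons, List.prod_cons, List.flatMap_cons, List.map_append, List.prod_append]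
    refine Set.mul_subset_mul ?_ ih
    refine (hC a).trans ?_
    rw [List.map_cons, List.map_cons, List.map_cons, List.map_nil, List.prod_cons,
      List.prod_cons, List.prod_cons, List.prod_nil, mul_one, mul_assoc]

private theorem altp_claim (T : ℕ) : ∀ (α β : Type) [Fintype α] [DecidableEq α] [Fintype β]
    [DecidableEq β] (e : α ↪ β), 9 ≤ Fintype.card α →
    3 ^ T * Fintype.card β ≤ 4 ^ T * Fintype.card α →
    ∃ l : List (alternatingGroup β), l.length = 3 ^ T ∧ (l.map (altp_C e)).prod = Set.univ := by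
  induction T with
  | zero =>
    intro α β _ _ _ _ e _ h
    rw [pow_zero, pow_zero, one_mul, one_mul] at h
    refine ⟨[1], rfl, ?_⟩
    rw [List.map_cons, List.map_nil, List.prod_cons, List.prod_nil, mul_one]
    refine Set.eq_univ_of_forall fun σ => ?_
    obtain ⟨x, hx⟩ := altp_emb_surj e h σ
    refine ⟨x, ?_⟩
    show 1 * emb e x * 1⁻¹ = σ
    rw [hx, one_mul, inv_one, mul_one]
  | succ T ih =>
    intro α β _ _ _ _ e h9 hT
    have hab := Fintype.card_le_of_embedding e
    obtain ⟨s, hs1, -, hs2⟩ := Finset.exists_subsuperset_card_eq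
      (s := Finset.univ.map e) (t := Finset.univ)
      (n := min (Fintype.card β) ((3 * Fintype.card α - 2) / 2)) (Finset.subset_univ _)
      (by rw [Finset.card_map, Finset.card_univ]; omega)
      (by rw [Finset.card_univ]; omega)
    have hmem : ∀ a, e a ∈ s := fun a => hs1 (Finset.mem_map_of_mem e (Finset.mem_univ a))
    have hcard : Fintype.card s = min (Fintype.card β) ((3 * Fintype.card α - 2) / 2) := by
      rw [Fintype.card_coe, hs2]
    let e0 : α ↪ s := ⟨fun a => ⟨e a, hmem a⟩, fun a b h => e.injective (congrArg Subtype.val h)⟩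
    let e1 : s ↪ β := Function.Embedding.subtype _
    obtain ⟨g, hg⟩ := alt_three e0 (by rw [hcard]; omega)
    obtain ⟨l, hl, hprod⟩ := ih s β e1 (by rw [hcard]; omega) (by
      rcases le_total (Fintype.card β) ((3 * Fintype.card α - 2) / 2) with h | h
      · rw [hcard, min_eq_left h]
        exact Nat.mul_le_mul_right _ (Nat.pow_le_pow_left (by norm_num) T)
      · have h1 : 4 * Fintype.card α ≤ 3 * Fintype.card s := by
          rw [hcard, min_eq_right h]
          omega
        have h2 : 3 * (3 ^ T * Fintype.card β) ≤ 3 * (4 ^ T * Fintype.card s) := by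
          calc 3 * (3 ^ T * Fintype.card β) = 3 ^ (T + 1) * Fintype.card β := by ring
            _ ≤ 4 ^ (T + 1) * Fintype.card α := hT
            _ = 4 ^ T * (4 * Fintype.card α) := by ring
            _ ≤ 4 ^ T * (3 * Fintype.card s) := Nat.mul_le_mul_left _ h1
            _ = 3 * (4 ^ T * Fintype.card s) := by ring
        omega)
    refine ⟨l.flatMap fun h => [h, h * emb e1 g, h], ?_, ?_⟩
    · rw [List.length_flatMap]
      have h3 : (l.map fun h => [h, h * emb e1 g, h].length) = List.replicate l.length 3 := by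
        rw [List.eq_replicate_iff]
        refine ⟨by rw [List.length_map], ?_⟩
        intro b hb
        obtain ⟨a, -, rfl⟩ := List.mem_map.1 hb
        rfl
      rw [h3, List.sum_replicate, hl, smul_eq_mul, pow_succ]
    · refine Set.eq_univ_of_univ_subset ?_
      rw [← hprod]
      refine altp_flat e e1 (emb e1 g) ?_ l
      rintro h _ ⟨y, rfl⟩
      obtain ⟨a, b, c, rfl⟩ := hg y
      refine ⟨_, ⟨_, ⟨a, rfl⟩, _, ⟨b, rfl⟩, rfl⟩, _, ⟨c, rfl⟩, ?_⟩
      show h * emb e a * h⁻¹ * (h * emb e1 g * emb e b * (h * emb e1 g)⁻¹) *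
        (h * emb e c * h⁻¹) = h * emb e1 (emb e0 a * (g * emb e0 b * g⁻¹) * emb e0 c) * h⁻¹
      rw [altp_emb_trans e0 e1 e (fun _ => rfl) a, altp_emb_trans e0 e1 e (fun _ => rfl) b,
        altp_emb_trans e0 e1 e (fun _ => rfl) c]
      simp only [map_mul, map_inv]
      group

/-- Every even permutation is a product of boundedly many conjugates of even permutations of a
subset of positive density. -/
theorem alt_prod (c : ℕ) : ∃ L : ℕ, ∀ (α β : Type) [Fintype α] [DecidableEq α] [Fintype β]
    [DecidableEq β] (e : α ↪ β), 9 ≤ Fintype.card α → Fintype.card β ≤ c * Fintype.card α →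
    ∃ h : Fin L → alternatingGroup β, ∀ σ : alternatingGroup β,
      ∃ x : Fin L → alternatingGroup α,
        σ = (List.ofFn fun i => h i * emb e (x i) * (h i)⁻¹).prod := by
  obtain ⟨T, hT⟩ := pow_unbounded_of_one_lt (c : ℝ) (show (1 : ℝ) < 4 / 3 by norm_num)
  have hT' : 3 ^ T * c ≤ 4 ^ T := by
    have h1 : (3 : ℝ) ^ T * c ≤ 4 ^ T := by
      rw [div_pow, lt_div_iff₀ (by positivity)] at hT
      rw [mul_comm]
      exact hT.le
    exact_mod_cast h1
  refine ⟨3 ^ T, fun α β _ _ _ _ e h9 hc => ?_⟩
  obtain ⟨l, hl, hprod⟩ := altp_claim T α β e h9 (by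
    calc 3 ^ T * Fintype.card β ≤ 3 ^ T * (c * Fintype.card α) := Nat.mul_le_mul_left _ hc
      _ = (3 ^ T * c) * Fintype.card α := by ring
      _ ≤ 4 ^ T * Fintype.card α := Nat.mul_le_mul_right _ hT')
  rw [← hl]
  refine ⟨l.get, fun σ => ?_⟩
  have h1 : σ ∈ (List.ofFn fun i => altp_C e (l.get i)).prod := by
    have h2 : (List.ofFn fun i => altp_C e (l.get i)) = l.map (altp_C e) := by
      have h3 := List.map_ofFn (f := l.get) (g := altp_C e)
      rw [List.ofFn_get] at h3
      exact h3.symm
    rw [h2, hprod]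
    trivial
  rw [Set.mem_prod_list_ofFn] at h1
  obtain ⟨f, hf⟩ := h1
  choose x hx using fun i => (f i).2
  refine ⟨x, ?_⟩
  rw [← hf]
  congr 1
  congr 1
  funext i
  exact (hx i).symm

end Pool.Agent.MPfe8e9bA
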