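import Mathlib
import Pool.Agent.Lib.MP_fe8e9b_al_A.Defs

/-!
# MP_fe8e9b_al, alternating groups: averages
-/

set_option autoImplicit false

open scoped BigOperators Pointwise

namespace Pool.Agent.MPfe8e9bA

section

variable {H : Type} [Group H] [Fintype H] {V : Type} [NormedAddCommGroup V]
  [InnerProductSpace ℂ V]

/-- Average over a finite group. -/
noncomputable def av (ρ : H →* (V ≃ₗᵢ[ℂ] V)) : V →ₗ[ℂ] V where
  toFun v := ((Fintype.card H : ℂ))⁻¹ • ∑ h, ρ h v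
  map_add' u v := by
    simp only [map_add, Finset.sum_add_distrib, smul_add]
  map_smul' c v := by
    simp only [map_smul, ← Finset.smul_sum, RingHom.id_apply]
    rw [smul_comm]

theorem av_apply (ρ : H →* (V ≃ₗᵢ[ℂ] V)) (v : V) :
    av ρ v = ((Fintype.card H : ℂ))⁻¹ • ∑ h, ρ h v := rfl

theorem rho_av (ρ : H →* (V ≃ₗᵢ[ℂ] V)) (h : H) (v : V) : ρ h (av ρ v) = av ρ v := by
  rw [av_apply, map_smul, map_sum]
  congr 1
  exact Fintype.sum_equiv (Equiv.mulLeft h) _ _ (fun x => by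
    simp only [Equiv.coe_mulLeft, map_mul]
    rfl)

theorem av_of_fix (ρ : H →* (V ≃ₗᵢ[ℂ] V)) {v : V} (h : ∀ h, ρ h v = v) : av ρ v = v := by
  have hc : (Fintype.card H : ℂ) ≠ 0 := by
    exact_mod_cast Fintype.card_ne_zero
  rw [av_apply, Finset.sum_congr rfl (fun x _ => h x), Finset.sum_const, Finset.card_univ,
    ← Nat.cast_smul_eq_nsmul ℂ, smul_smul, inv_mul_cancel₀ hc, one_smul]

theorem av_eq_iff (ρ : H →* (V ≃ₗᵢ[ℂ] V)) {v : V} : av ρ v = v ↔ ∀ h, ρ h v = v := by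
  refine ⟨fun hv h => ?_, av_of_fix ρ⟩
  rw [← hv]
  exact rho_av ρ h v

theorem av_idem (ρ : H →* (V ≃ₗᵢ[ℂ] V)) (v : V) : av ρ (av ρ v) = av ρ v :=
  av_of_fix ρ (fun h => rho_av ρ h v)

omit [Fintype H] in
theorem av_inner_rho (ρ : H →* (V ≃ₗᵢ[ℂ] V)) (h : H) (u v : V) :
    inner ℂ (ρ h u) v = inner ℂ u (ρ h⁻¹ v) := by
  rw [← LinearIsometryEquiv.inner_map_map (ρ h⁻¹) (ρ h u) v]
  congr 1
  have h1 : (ρ h⁻¹) ((ρ h) u) = (ρ (h⁻¹ * h)) u := by
    rw [map_mul]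
    rfl
  rw [h1, inv_mul_cancel, map_one]
  rfl

theorem av_symm (ρ : H →* (V ≃ₗᵢ[ℂ] V)) : (av ρ).IsSymmetric := by
  intro u v
  rw [av_apply, av_apply, inner_smul_left, inner_smul_right, sum_inner, inner_sum]
  congr 1
  · rw [map_inv₀, Complex.conj_natCast]
  · exact Fintype.sum_equiv (Equiv.inv H) _ _ (fun x => av_inner_rho ρ x u v)

theorem norm_sub_av_le (ρ : H →* (V ≃ₗᵢ[ℂ] V)) (v : V) {δ : ℝ} (h : ∀ h, ‖ρ h v - v‖ ≤ δ) :
    ‖v - av ρ v‖ ≤ δ := by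
  have hc : (Fintype.card H : ℂ) ≠ 0 := by
    exact_mod_cast Fintype.card_ne_zero
  have h1 : v - av ρ v = ((Fintype.card H : ℂ))⁻¹ • ∑ x, (v - ρ x v) := by
    rw [Finset.sum_sub_distrib, smul_sub, Finset.sum_const, Finset.card_univ,
      ← Nat.cast_smul_eq_nsmul ℂ, smul_smul, inv_mul_cancel₀ hc, one_smul, av_apply]
  have hc' : (0 : ℝ) < (Fintype.card H : ℝ) := by
    exact_mod_cast Fintype.card_pos
  have h2 : ‖∑ x, (v - ρ x v)‖ ≤ (Fintype.card H : ℝ) * δ := by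
    calc ‖∑ x, (v - ρ x v)‖ ≤ ∑ x, ‖v - ρ x v‖ := norm_sum_le _ _
      _ ≤ ∑ _x : H, δ := Finset.sum_le_sum (fun x _ => by
          rw [norm_sub_rev]
          exact h x)
      _ = (Fintype.card H : ℝ) * δ := by
          rw [Finset.sum_const, Finset.card_univ, nsmul_eq_mul]
  rw [h1, norm_smul, norm_inv, Complex.norm_natCast]
  rw [inv_mul_le_iff₀ hc']
  exact h2

/-- The displacement is at most twice the distance to an invariant vector. -/
theorem disp_le_of_fix {G : Type} [Group G] (ρ : G →* (V ≃ₗᵢ[ℂ] V)) {u v : V} {g : G}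
    (hu : ρ g u = u) : ‖ρ g v - v‖ ≤ 2 * ‖v - u‖ := by
  have h1 : ρ g v - v = ρ g (v - u) - (v - u) := by
    rw [map_sub, hu]
    abel
  rw [h1]
  calc ‖ρ g (v - u) - (v - u)‖ ≤ ‖ρ g (v - u)‖ + ‖v - u‖ := norm_sub_le _ _
    _ = 2 * ‖v - u‖ := by
        rw [LinearIsometryEquiv.norm_map]
        ring

/-- An isometry which normalizes the group commutes with the average. -/
theorem av_comm (ρ : H →* (V ≃ₗᵢ[ℂ] V)) (T : V ≃ₗᵢ[ℂ] V) (a : H ≃ H)
    (h : ∀ h v, T (ρ h v) = ρ (a h) (T v)) (v : V) : T (av ρ v) = av ρ (T v) := by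
  rw [av_apply, av_apply, map_smul, map_sum]
  congr 1
  exact Fintype.sum_equiv a _ _ (fun x => h x v)

end

end Pool.Agent.MPfe8e9bA
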