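import Mathlib
import Pool.Agent.Lib.MP_fe8e9b_al_A.Av

/-!
# MP_fe8e9b_al, alternating groups: spectral measure of a representation of a finite vector space over the field with 19 elements
-/

set_option autoImplicit false

open scoped BigOperators Pointwise

namespace Pool.Agent.MPfe8e9bA

/-- A linear map as a homomorphism of multiplicative groups. -/
def lmul {H U : Type} [AddCommGroup H] [Module (ZMod 19) H] [AddCommGroup U] [Module (ZMod 19) U]
    (j : H →ₗ[ZMod 19] U) : Multiplicative H →* Multiplicative U :=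
  AddMonoidHom.toMultiplicative j.toAddMonoidHom

/-- The standard additive character modulo 19. -/
noncomputable def fou_e (a : ZMod 19) : ℂ := ZMod.stdAddChar (N := 19) a

theorem fou_e_add (a b : ZMod 19) : fou_e (a + b) = fou_e a * fou_e b :=
  AddChar.map_add_eq_mul _ a b

theorem fou_e_zero : fou_e 0 = 1 := AddChar.map_zero_eq_one _

theorem fou_norm_e (a : ZMod 19) : ‖fou_e a‖ = 1 := by
  unfold fou_e
  rw [ZMod.stdAddChar_apply]
  exact Circle.norm_coe _

theorem fou_e_ne {a : ZMod 19} (h : a ≠ 0) : fou_e a ≠ 1 := by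
  intro h1
  apply h
  apply ZMod.injective_stdAddChar (N := 19)
  rw [AddChar.map_zero_eq_one]
  exact h1

theorem fou_e_ne_zero (a : ZMod 19) : fou_e a ≠ 0 := by
  intro h
  have := fou_norm_e a
  rw [h, norm_zero] at this
  exact zero_ne_one this

theorem fou_conj_e (a : ZMod 19) : (starRingEnd ℂ) (fou_e a) = fou_e (-a) := by
  have h1 : fou_e a * fou_e (-a) = 1 := by
    rw [← fou_e_add, add_neg_cancel, fou_e_zero]
  have h2 : fou_e a * (starRingEnd ℂ) (fou_e a) = 1 := by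
    rw [Complex.mul_conj, Complex.normSq_eq_norm_sq, fou_norm_e]
    simp
  exact mul_left_cancel₀ (fou_e_ne_zero a) (h2.trans h1.symm)

theorem fou_pow_sub {z : ℂ} (hz : ‖z‖ = 1) (n : ℕ) : ‖z ^ n - 1‖ ≤ n * ‖z - 1‖ := by
  induction n with
  | zero => simp
  | succ n ih =>
      have h1 : z ^ (n + 1) - 1 = z * (z ^ n - 1) + (z - 1) := by ring
      rw [h1]
      calc ‖z * (z ^ n - 1) + (z - 1)‖ ≤ ‖z * (z ^ n - 1)‖ + ‖z - 1‖ := norm_add_le _ _
        _ = ‖z ^ n - 1‖ + ‖z - 1‖ := by rw [norm_mul, hz, one_mul]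
        _ ≤ n * ‖z - 1‖ + ‖z - 1‖ := by linarith
        _ = ((n + 1 : ℕ) : ℝ) * ‖z - 1‖ := by push_cast; ring

theorem fou_pow_sub_pow {z : ℂ} (hz : ‖z‖ = 1) (a n : ℕ) :
    ‖z ^ (a + n) - z ^ a‖ ≤ n * ‖z - 1‖ := by
  have h1 : z ^ (a + n) - z ^ a = z ^ a * (z ^ n - 1) := by ring
  rw [h1, norm_mul, norm_pow, hz, one_pow, one_mul]
  exact fou_pow_sub hz n

theorem fou_gap {k : ZMod 19} (hk : k ≠ 0) : 1 ≤ 25 * ‖fou_e k - 1‖ ^ 2 := by
  set z := fou_e k with hz
  have hn : ‖z‖ = 1 := fou_norm_e k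
  have hne : z ≠ 1 := fou_e_ne hk
  have h19 : z ^ 19 = 1 := by
    rw [hz]
    unfold fou_e
    rw [← AddChar.map_nsmul_eq_pow]
    have : (19 : ℕ) • k = 0 := by
      rw [nsmul_eq_mul]
      have : ((19 : ℕ) : ZMod 19) = 0 := by decide
      rw [this, zero_mul]
    rw [this, AddChar.map_zero_eq_one]
  have hsum : ∑ j ∈ Finset.range 19, z ^ j = 0 := by
    have h := mul_neg_geom_sum z 19
    rw [h19, sub_self] at h
    rcases mul_eq_zero.1 h with h | h
    · exact absurd (sub_eq_zero.1 h).symm hne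
    · exact h
  have hb : ∀ j ∈ Finset.range 19, ‖z ^ j - z ^ 9‖ ≤
      (((j - 9) + (9 - j) : ℕ) : ℝ) * ‖z - 1‖ := by
    intro j _
    rcases le_total j 9 with h | h
    · obtain ⟨n, hjn⟩ : ∃ n, 9 = j + n := ⟨9 - j, by omega⟩
      rw [norm_sub_rev]
      have h3 := fou_pow_sub_pow hn j n
      have h2 : (j - 9) + (9 - j) = n := by omega
      rw [h2]
      rw [← hjn] at h3
      exact h3
    · obtain ⟨n, rfl⟩ : ∃ n, j = 9 + n := ⟨j - 9, by omega⟩
      have := fou_pow_sub_pow hn 9 n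
      have h2 : (9 + n - 9) + (9 - (9 + n)) = n := by omega
      rw [h2]
      exact this
  have h1 : ‖∑ j ∈ Finset.range 19, (z ^ j - z ^ 9)‖ ≤ 90 * ‖z - 1‖ := by
    refine (norm_sum_le_of_le _ hb).trans ?_
    rw [← Finset.sum_mul]
    apply le_of_eq
    congr 1
    rw [← Nat.cast_sum]
    have : ∑ i ∈ Finset.range 19, (i - 9 + (9 - i)) = 90 := by decide
    rw [this]
    norm_num
  have h2 : ‖∑ j ∈ Finset.range 19, (z ^ j - z ^ 9)‖ = 19 := by
    rw [Finset.sum_sub_distrib, hsum, zero_sub, norm_neg, Finset.sum_const, Finset.card_range,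
      nsmul_eq_mul, norm_mul, norm_pow, hn]
    norm_num
  rw [h2] at h1
  have h3 : 19 / 90 ≤ ‖z - 1‖ := by linarith
  nlinarith [h3, norm_nonneg (z - 1)]

section

variable {U : Type} [AddCommGroup U] [Module (ZMod 19) U] [Fintype U]
  [Fintype (U →ₗ[ZMod 19] ZMod 19)] {V : Type} [NormedAddCommGroup V] [InnerProductSpace ℂ V]

/-- The component of a vector at a functional. -/
noncomputable def fou_c (ρ : Multiplicative U →* (V ≃ₗᵢ[ℂ] V)) (v : V)
    (l : U →ₗ[ZMod 19] ZMod 19) : V :=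
  ((Fintype.card U : ℂ))⁻¹ • ∑ u : U, fou_e (-(l u)) • ρ (Multiplicative.ofAdd u) v

omit [Fintype (U →ₗ[ZMod 19] ZMod 19)] in
theorem fou_rho_c (ρ : Multiplicative U →* (V ≃ₗᵢ[ℂ] V)) (v : V)
    (l : U →ₗ[ZMod 19] ZMod 19) (u₀ : U) :
    ρ (Multiplicative.ofAdd u₀) (fou_c ρ v l) = fou_e (l u₀) • fou_c ρ v l := by
  unfold fou_c
  rw [map_smul, map_sum, smul_comm]
  congr 1
  rw [Finset.smul_sum]
  refine Fintype.sum_equiv (Equiv.addLeft u₀) _ _ fun u => ?_
  rw [map_smul, Equiv.coe_addLeft, ofAdd_add, map_mul, map_add, smul_smul, ← fou_e_add]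
  congr 2
  abel

omit [Fintype (U →ₗ[ZMod 19] ZMod 19)] in
theorem fou_inner {ρ : Multiplicative U →* (V ≃ₗᵢ[ℂ] V)} {v : V}
    {l m : U →ₗ[ZMod 19] ZMod 19} (h : l ≠ m) : inner ℂ (fou_c ρ v l) (fou_c ρ v m) = 0 := by
  obtain ⟨u, hu⟩ : ∃ u, l u ≠ m u := by
    by_contra hc
    push Not at hc
    exact h (LinearMap.ext hc)
  have h1 := LinearIsometryEquiv.inner_map_map (ρ (Multiplicative.ofAdd u)) (fou_c ρ v l)
    (fou_c ρ v m)
  rw [fou_rho_c, fou_rho_c, inner_smul_left, inner_smul_right, fou_conj_e, ← mul_assoc,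
    ← fou_e_add] at h1
  have h2 : (fou_e (-(l u) + m u) - 1) * inner ℂ (fou_c ρ v l) (fou_c ρ v m) = 0 := by
    rw [sub_mul, one_mul, h1, sub_self]
  rcases mul_eq_zero.1 h2 with h3 | h3
  · exfalso
    apply fou_e_ne (a := -(l u) + m u) _ (sub_eq_zero.1 h3)
    intro h4
    apply hu
    have : m u = l u := by
      have h5 : m u = l u + (-(l u) + m u) := by abel
      rw [h5, h4, add_zero]
    exact this.symm
  · exact h3

theorem fou_pyth (ρ : Multiplicative U →* (V ≃ₗᵢ[ℂ] V)) (v : V)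
    (c : (U →ₗ[ZMod 19] ZMod 19) → ℂ) :
    ‖∑ l, c l • fou_c ρ v l‖ ^ 2 = ∑ l, ‖c l‖ ^ 2 * ‖fou_c ρ v l‖ ^ 2 := by
  classical
  have h1 : inner ℂ (∑ l, c l • fou_c ρ v l) (∑ l, c l • fou_c ρ v l) =
      ((∑ l, ‖c l‖ ^ 2 * ‖fou_c ρ v l‖ ^ 2 : ℝ) : ℂ) := by
    rw [sum_inner]
    push_cast
    refine Finset.sum_congr rfl fun l _ => ?_
    rw [inner_sum, Finset.sum_eq_single l]
    · rw [inner_smul_left, inner_smul_right, inner_self_eq_norm_sq_to_K, ← mul_assoc,
        Complex.conj_mul']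
      rfl
    · intro m _ hm
      rw [inner_smul_left, inner_smul_right, fou_inner hm.symm, mul_zero, mul_zero]
    · intro h
      exact absurd (Finset.mem_univ l) h
  rw [inner_self_eq_norm_sq_to_K] at h1
  have h2 : (((‖∑ l, c l • fou_c ρ v l‖ ^ 2 : ℝ)) : ℂ) =
      ((∑ l, ‖c l‖ ^ 2 * ‖fou_c ρ v l‖ ^ 2 : ℝ) : ℂ) := by
    rw [← h1]
    push_cast
    rfl
  exact Complex.ofReal_injective h2

omit [Fintype U] in
theorem fou_sep [Finite U] {u : U} (hu : u ≠ 0) : ∃ l : U →ₗ[ZMod 19] ZMod 19, l u ≠ 0 := by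
  have : Fact (Nat.Prime 19) := ⟨by norm_num⟩
  by_contra hc
  push Not at hc
  exact hu ((Module.forall_dual_apply_eq_zero_iff (ZMod 19) u).1 hc)

theorem fou_card : Fintype.card (U →ₗ[ZMod 19] ZMod 19) = Fintype.card U := by
  have : Fact (Nat.Prime 19) := ⟨by norm_num⟩
  have : Module.Finite (ZMod 19) U := Module.Finite.of_finite
  classical
  exact (Fintype.card_congr (Module.finBasis (ZMod 19) U).toDualEquiv.toEquiv).symm

theorem fou_sum_e [DecidableEq U] (u : U) : ∑ l : U →ₗ[ZMod 19] ZMod 19, fou_e (-(l u)) =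
    if u = 0 then (Fintype.card U : ℂ) else 0 := by
  by_cases hu : u = 0
  · rw [if_pos hu, hu]
    simp only [map_zero, neg_zero, fou_e_zero, Finset.sum_const, Finset.card_univ, fou_card]
    rw [nsmul_eq_mul, mul_one]
  · rw [if_neg hu]
    obtain ⟨l₀, h0⟩ := fou_sep hu
    have h1 : ∑ l : U →ₗ[ZMod 19] ZMod 19, fou_e (-(l u)) =
        fou_e (-(l₀ u)) * ∑ l : U →ₗ[ZMod 19] ZMod 19, fou_e (-(l u)) := by
      rw [Finset.mul_sum]
      refine (Fintype.sum_equiv (Equiv.addLeft l₀) _ _ fun l => ?_).symm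
      rw [Equiv.coe_addLeft, ← fou_e_add, LinearMap.add_apply, neg_add]
    have h2 : (1 - fou_e (-(l₀ u))) * ∑ l : U →ₗ[ZMod 19] ZMod 19, fou_e (-(l u)) = 0 := by
      rw [sub_mul, one_mul, ← h1, sub_self]
    rcases mul_eq_zero.1 h2 with h3 | h3
    · exact absurd (sub_eq_zero.1 h3).symm (fou_e_ne (neg_ne_zero.2 h0))
    · exact h3

theorem fou_sum_c (ρ : Multiplicative U →* (V ≃ₗᵢ[ℂ] V)) (v : V) :
    ∑ l, fou_c ρ v l = v := by
  classical
  have hc : (Fintype.card U : ℂ) ≠ 0 := by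
    exact_mod_cast Fintype.card_ne_zero
  unfold fou_c
  rw [← Finset.smul_sum, Finset.sum_comm]
  have h1 : ∀ u : U, ∑ l : U →ₗ[ZMod 19] ZMod 19, fou_e (-(l u)) • ρ (Multiplicative.ofAdd u) v =
      if u = 0 then (Fintype.card U : ℂ) • v else 0 := by
    intro u
    rw [← Finset.sum_smul, fou_sum_e]
    by_cases hu : u = 0
    · rw [if_pos hu, if_pos hu, hu, ofAdd_zero, map_one]
      rfl
    · rw [if_neg hu, if_neg hu, zero_smul]
  rw [Finset.sum_congr rfl fun u _ => h1 u, Finset.sum_ite_eq', if_pos (Finset.mem_univ _),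
    smul_smul, inv_mul_cancel₀ hc, one_smul]

omit [Fintype (U →ₗ[ZMod 19] ZMod 19)] in
/-- The average of a component along a linear map. -/
theorem fou_av_c {H : Type} [AddCommGroup H] [Module (ZMod 19) H] [Fintype H]
    (ρ : Multiplicative U →* (V ≃ₗᵢ[ℂ] V)) (v : V) (j : H →ₗ[ZMod 19] U)
    (l : U →ₗ[ZMod 19] ZMod 19) [Decidable (l ∘ₗ j = 0)] :
    av (ρ.comp (lmul j)) (fou_c ρ v l) = (if l ∘ₗ j = 0 then (1 : ℂ) else 0) • fou_c ρ v l := by
  have hr : ∀ h : H, (ρ.comp (lmul j)) (Multiplicative.ofAdd h) (fou_c ρ v l) =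
      fou_e (l (j h)) • fou_c ρ v l := fun h => fou_rho_c ρ v l (j h)
  by_cases h0 : l ∘ₗ j = 0
  · rw [if_pos h0, one_smul]
    refine av_of_fix _ fun h => ?_
    have h1 := hr (Multiplicative.toAdd h)
    have h2 : l (j (Multiplicative.toAdd h)) = 0 := by
      have := LinearMap.congr_fun h0 (Multiplicative.toAdd h)
      simpa using this
    rw [h2, fou_e_zero, one_smul] at h1
    exact h1
  · rw [if_neg h0, zero_smul]
    obtain ⟨h, hh⟩ : ∃ h, l (j h) ≠ 0 := by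
      by_contra hc
      push Not at hc
      exact h0 (LinearMap.ext hc)
    have h1 := rho_av (ρ.comp (lmul j)) (Multiplicative.ofAdd h) (fou_c ρ v l)
    have h2 := av_comm (ρ.comp (lmul j)) ((ρ.comp (lmul j)) (Multiplicative.ofAdd h))
      (Equiv.refl _) (by
        intro g w
        have : (ρ.comp (lmul j)) (Multiplicative.ofAdd h * g) w =
            (ρ.comp (lmul j)) (g * Multiplicative.ofAdd h) w := by rw [mul_comm]
        rw [map_mul, map_mul] at this
        exact this) (fou_c ρ v l)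
    rw [h1, hr h, map_smul] at h2
    have h3 : (fou_e (l (j h)) - 1) • av (ρ.comp (lmul j)) (fou_c ρ v l) = 0 := by
      rw [sub_smul, one_smul, ← h2, sub_self]
    rcases smul_eq_zero.1 h3 with h4 | h4
    · exact absurd (sub_eq_zero.1 h4) (fou_e_ne hh)
    · exact h4

theorem fou_av {H : Type} [AddCommGroup H] [Module (ZMod 19) H] [Fintype H]
    (ρ : Multiplicative U →* (V ≃ₗᵢ[ℂ] V)) (v : V) (j : H →ₗ[ZMod 19] U)
    [DecidableEq (H →ₗ[ZMod 19] ZMod 19)] :
    av (ρ.comp (lmul j)) v = ∑ l, (if l ∘ₗ j = 0 then (1 : ℂ) else 0) • fou_c ρ v l := by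
  conv_lhs => rw [← fou_sum_c ρ v]
  rw [map_sum]
  exact Finset.sum_congr rfl fun l _ => fou_av_c ρ v j l

end

/-- Spectral measure. -/
theorem spectral {U : Type} [AddCommGroup U] [Module (ZMod 19) U] [Fintype U]
    [Fintype (U →ₗ[ZMod 19] ZMod 19)] {V : Type} [NormedAddCommGroup V] [InnerProductSpace ℂ V]
    [FiniteDimensional ℂ V] (ρ : Multiplicative U →* (V ≃ₗᵢ[ℂ] V)) (v : V) :
    ∃ μ : (U →ₗ[ZMod 19] ZMod 19) → ℝ, (∀ l, 0 ≤ μ l) ∧ (∑ l, μ l = ‖v‖ ^ 2) ∧
      (∀ u : U, ∑ l, (if l u = 0 then 0 else μ l) ≤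
        25 * ‖ρ (Multiplicative.ofAdd u) v - v‖ ^ 2) ∧
      (∀ (H : Type) [AddCommGroup H] [Module (ZMod 19) H] [Fintype H] (j : H →ₗ[ZMod 19] U),
        ‖av (ρ.comp (lmul j)) v‖ ^ 2 = ∑ l, (if l ∘ₗ j = 0 then μ l else 0)) ∧
      (‖v - av ρ v‖ ^ 2 = ∑ l, (if l = 0 then 0 else μ l)) ∧
      (∀ (a : U ≃ₗ[ZMod 19] U) (T : V ≃ₗᵢ[ℂ] V), T v = v →
        (∀ u w, T (ρ (Multiplicative.ofAdd u) w) = ρ (Multiplicative.ofAdd (a u)) (T w)) →
        ∀ l, μ (l ∘ₗ a.toLinearMap) = μ l) := by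
  classical
  refine ⟨fun l => ‖fou_c ρ v l‖ ^ 2, fun l => by positivity, ?_, ?_, ?_, ?_, ?_⟩
  · have h := fou_pyth ρ v (fun _ => 1)
    simp only [one_smul, norm_one, one_pow, one_mul] at h
    rw [← h, fou_sum_c]
  · intro u
    have h1 : ρ (Multiplicative.ofAdd u) v - v = ∑ l, (fou_e (l u) - 1) • fou_c ρ v l := by
      simp only [sub_smul, one_smul]
      rw [Finset.sum_sub_distrib, fou_sum_c]
      congr 1
      conv_lhs => rw [← fou_sum_c ρ v]
      rw [map_sum]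
      exact Finset.sum_congr rfl fun l _ => fou_rho_c ρ v l u
    rw [h1, fou_pyth, Finset.mul_sum]
    refine Finset.sum_le_sum fun l _ => ?_
    by_cases hl : l u = 0
    · rw [if_pos hl]
      positivity
    · rw [if_neg hl]
      have := fou_gap hl
      nlinarith [sq_nonneg ‖fou_c ρ v l‖, this]
  · intro H _ _ _ j
    rw [fou_av, fou_pyth]
    refine Finset.sum_congr rfl fun l _ => ?_
    by_cases hl : l ∘ₗ j = 0
    · rw [if_pos hl, if_pos hl]
      simp
    · rw [if_neg hl, if_neg hl]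
      simp
  · have hid : ρ.comp (lmul (LinearMap.id : U →ₗ[ZMod 19] U)) = ρ := by
      ext x
      rfl
    have h0 := fou_av ρ v (LinearMap.id : U →ₗ[ZMod 19] U)
    rw [hid] at h0
    have h1 : v - av ρ v = ∑ l, (if l = 0 then (0 : ℂ) else 1) • fou_c ρ v l := by
      rw [h0]
      conv_lhs =>
        enter [1]
        rw [← fou_sum_c ρ v]
      rw [← Finset.sum_sub_distrib]
      refine Finset.sum_congr rfl fun l _ => ?_
      rw [LinearMap.comp_id]
      by_cases hl : l = 0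
      · rw [if_pos hl, if_pos hl, one_smul, zero_smul, sub_self]
      · rw [if_neg hl, if_neg hl, one_smul, zero_smul, sub_zero]
    rw [h1, fou_pyth]
    refine Finset.sum_congr rfl fun l _ => ?_
    by_cases hl : l = 0
    · rw [if_pos hl, if_pos hl]
      simp
    · rw [if_neg hl, if_neg hl]
      simp
  · intro a T hT h l
    have h1 : T (fou_c ρ v (l ∘ₗ a.toLinearMap)) = fou_c ρ v l := by
      unfold fou_c
      rw [map_smul, map_sum]
      congr 1
      refine Fintype.sum_equiv a.toEquiv _ _ fun u => ?_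
      rw [map_smul, h, hT]
      rfl
    show ‖fou_c ρ v (l ∘ₗ a.toLinearMap)‖ ^ 2 = ‖fou_c ρ v l‖ ^ 2
    rw [← h1, LinearIsometryEquiv.norm_map]

end Pool.Agent.MPfe8e9bA
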