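import Mathlib
import Pool.Agent.Lib.MP_fe8e9b_al_A.Fou

/-!
# MP_fe8e9b_al, alternating groups: the angle lemma
-/

set_option autoImplicit false

open scoped BigOperators Pointwise

namespace Pool.Agent.MPfe8e9bA

/-- Precomposition with a linear equivalence as a permutation of the dual. -/
private def ang_e {U : Type} [AddCommGroup U] [Module (ZMod 19) U] (a : U ≃ₗ[ZMod 19] U) :
    (U →ₗ[ZMod 19] ZMod 19) ≃ (U →ₗ[ZMod 19] ZMod 19) where
  toFun l := l ∘ₗ a.toLinearMap
  invFun l := l ∘ₗ a.symm.toLinearMap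
  left_inv l := by
    ext u
    simp
  right_inv l := by
    ext u
    simp

/-- The angle between an abelian normal subgroup and a complement. -/
theorem angle {Γ : Type} [Group Γ] {U B H : Type} [AddCommGroup U] [Module (ZMod 19) U]
    [Fintype U] [Group B] [Fintype B] [AddCommGroup H] [Module (ZMod 19) H] [Fintype H]
    (ε : Multiplicative U →* Γ) (β : B →* Γ) (j : H →ₗ[ZMod 19] U)
    (a : B → U ≃ₗ[ZMod 19] U)
    (hconj : ∀ b u, β b * ε (Multiplicative.ofAdd u) * (β b)⁻¹ =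
      ε (Multiplicative.ofAdd (a b u)))
    (hcount : ∀ l : U →ₗ[ZMod 19] ZMod 19, l ≠ 0 →
      9 * Nat.card {b : B // ∀ h, l (a b (j h)) = 0} ≤ Nat.card B)
    {V : Type} [NormedAddCommGroup V] [InnerProductSpace ℂ V] [FiniteDimensional ℂ V]
    (ρ : Γ →* (V ≃ₗᵢ[ℂ] V)) (w : V) (hw : ∀ b, ρ (β b) w = w)
    (hperp : ∀ u, (∀ h, ρ (ε (Multiplicative.ofAdd (j h))) u = u) → (∀ b, ρ (β b) u = u) →
      inner ℂ u w = 0) :
    ‖av ((ρ.comp ε).comp (lmul j)) w‖ ≤ 1 / 3 * ‖w‖ := by
  classical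
  have hfin : Finite (U →ₗ[ZMod 19] ZMod 19) :=
    Finite.of_injective (fun l => (l : U → ZMod 19)) DFunLike.coe_injective
  have hft : Fintype (U →ₗ[ZMod 19] ZMod 19) := Fintype.ofFinite _
  obtain ⟨μ, h0, hsum, -, hav, hsub, hT⟩ := spectral (ρ.comp ε) w
  have hcomm : ∀ b u v, ρ (β b) (ρ (ε (Multiplicative.ofAdd u)) v) =
      ρ (ε (Multiplicative.ofAdd (a b u))) (ρ (β b) v) := by
    intro b u v
    have h1 : β b * ε (Multiplicative.ofAdd u) = ε (Multiplicative.ofAdd (a b u)) * β b := by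
      rw [← hconj, inv_mul_cancel_right]
    have h2 := congrArg (fun g => ρ g v) h1
    simp only [map_mul] at h2
    exact h2
  have hinv : ∀ b l, μ (l ∘ₗ (a b).toLinearMap) = μ l := fun b l =>
    hT (a b) (ρ (β b)) (hw b) (fun u v => hcomm b u v) l
  -- the invariant part vanishes
  have hu2 : ∀ b, ρ (β b) (av (ρ.comp ε) w) = av (ρ.comp ε) w := by
    intro b
    have h1 := av_comm (ρ.comp ε) (ρ (β b))
      (Multiplicative.toAdd.trans ((a b).toEquiv.trans Multiplicative.ofAdd)) (fun x v => by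
        exact hcomm b (Multiplicative.toAdd x) v) w
    rw [h1, hw b]
  have hin : inner ℂ (av (ρ.comp ε) w) w = 0 :=
    hperp _ (fun h => rho_av (ρ.comp ε) _ w) hu2
  have hu0 : av (ρ.comp ε) w = 0 := by
    have h1 : inner ℂ (av (ρ.comp ε) (av (ρ.comp ε) w)) w =
        inner ℂ (av (ρ.comp ε) w) (av (ρ.comp ε) w) := av_symm (ρ.comp ε) _ w
    rw [av_idem, hin] at h1
    exact inner_self_eq_zero.1 h1.symm
  have hμ0 : μ 0 = 0 := by
    rw [hu0, sub_zero, ← hsum] at hsub
    have h1 : ∑ l, (if l = 0 then 0 else μ l) + ∑ l, (if l = 0 then μ l else 0) = ∑ l, μ l := by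
      rw [← Finset.sum_add_distrib]
      refine Finset.sum_congr rfl fun l _ => ?_
      by_cases hl : l = 0
      · rw [if_pos hl, if_pos hl, zero_add]
      · rw [if_neg hl, if_neg hl, add_zero]
    rw [Finset.sum_ite_eq' Finset.univ (0 : U →ₗ[ZMod 19] ZMod 19) μ,
      if_pos (Finset.mem_univ _)] at h1
    linarith
  -- the count
  have hX := hav H j
  obtain ⟨X, hXX⟩ : ∃ X, X = ‖av ((ρ.comp ε).comp (lmul j)) w‖ ^ 2 := ⟨_, rfl⟩
  rw [← hXX] at hX
  have hb : ∀ b, X = ∑ l, (if ∀ h, l (a b (j h)) = 0 then μ l else 0) := by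
    intro b
    rw [hX, ← (ang_e (a b)).sum_comp]
    refine Finset.sum_congr rfl fun l _ => ?_
    have h1 : ((ang_e (a b)) l) ∘ₗ j = 0 ↔ ∀ h, l (a b (j h)) = 0 := by
      rw [LinearMap.ext_iff]
      rfl
    by_cases h2 : ∀ h, l (a b (j h)) = 0
    · rw [if_pos h2, if_pos (h1.2 h2)]
      exact hinv b l
    · rw [if_neg h2, if_neg (fun h3 => h2 (h1.1 h3))]
  have hcard : (0 : ℝ) < Fintype.card B := by
    exact_mod_cast Fintype.card_pos
  have hmain : (Fintype.card B : ℝ) * X ≤ (Fintype.card B : ℝ) / 9 * ‖w‖ ^ 2 := by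
    calc (Fintype.card B : ℝ) * X = ∑ _b : B, X := by
          rw [Finset.sum_const, Finset.card_univ, nsmul_eq_mul]
      _ = ∑ b : B, ∑ l, (if ∀ h, l (a b (j h)) = 0 then μ l else 0) :=
          Finset.sum_congr rfl fun b _ => hb b
      _ = ∑ l, ∑ b : B, (if ∀ h, l (a b (j h)) = 0 then μ l else 0) := Finset.sum_comm
      _ ≤ ∑ l, (Fintype.card B : ℝ) / 9 * μ l := by
          refine Finset.sum_le_sum fun l _ => ?_
          by_cases hl : l = 0
          · rw [hl, hμ0, mul_zero]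
            simp
          · have h1 := hcount l hl
            rw [Nat.card_eq_fintype_card, Nat.card_eq_fintype_card, Fintype.card_subtype] at h1
            rw [← Finset.sum_filter, Finset.sum_const, nsmul_eq_mul]
            refine mul_le_mul_of_nonneg_right ?_ (h0 l)
            rw [le_div_iff₀ (by norm_num)]
            have h2 : ((9 * (Finset.univ.filter fun b : B => ∀ h, l (a b (j h)) = 0).card : ℕ) : ℝ)
                ≤ (Fintype.card B : ℝ) := by exact_mod_cast h1
            push_cast at h2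
            linarith
      _ = (Fintype.card B : ℝ) / 9 * ‖w‖ ^ 2 := by rw [← Finset.mul_sum, hsum]
  have hX2 : X ≤ (1 / 3 * ‖w‖) ^ 2 := by
    have h1 : (Fintype.card B : ℝ) * X ≤ (Fintype.card B : ℝ) * ((1 / 3 * ‖w‖) ^ 2) := by
      refine hmain.trans (le_of_eq ?_)
      ring
    exact le_of_mul_le_mul_left h1 hcard
  rw [hXX] at hX2
  exact le_of_sq_le_sq hX2 (by positivity)

end Pool.Agent.MPfe8e9bA
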