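import Mathlib
import Pool.Agent.Lib.MP_fe8e9b_al_A.Defs

/-!
# MP_fe8e9b_al, alternating groups: conjugation of shears
-/

set_option autoImplicit false

open scoped BigOperators Pointwise

namespace Pool.Agent.MPfe8e9bA

variable {Y : Type} (F : Y → Type) [∀ y, CommRing (F y)] [∀ y, Fintype (F y)]
  [∀ y, DecidableEq (F y)] [∀ y, Algebra (ZMod 19) (F y)]

theorem conj_apply (j : Fin 3) (G : ∀ y, F y → F y → F y) (y : Y) (x : Om (F y)) :
    ((shP F j (Multiplicative.ofAdd G) y).1 x).1 =
      Function.update x.1 j (x.1 j + (G y (x.1 (j + 1)) (x.1 (j + 2)) - G y 0 0)) := rfl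

/-- Conjugation by a shear in the next direction. -/
theorem shP_conj1 (j : Fin 3) (G : ∀ y, F y → F y → F y) (h : ∀ y, F y → F y)
    (h0 : ∀ y, h y 0 = 0) :
    (shP F (j + 1) (Multiplicative.ofAdd fun y x _ => h y x))⁻¹ *
      shP F j (Multiplicative.ofAdd G) *
      shP F (j + 1) (Multiplicative.ofAdd fun y x _ => h y x) =
    shP F j (Multiplicative.ofAdd fun y b c => G y (b + h y c) c) := by
  rw [mul_assoc, inv_mul_eq_iff_eq_mul]
  funext y
  apply Subtype.ext
  apply Equiv.ext
  intro x
  apply Subtype.ext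
  show ((shP F j (Multiplicative.ofAdd G) y).1
      ((shP F (j + 1) (Multiplicative.ofAdd fun y x _ => h y x) y).1 x)).1 =
    ((shP F (j + 1) (Multiplicative.ofAdd fun y x _ => h y x) y).1
      ((shP F j (Multiplicative.ofAdd fun y b c => G y (b + h y c) c) y).1 x)).1
  rw [conj_apply, conj_apply, conj_apply, conj_apply]
  funext i
  fin_cases j <;> fin_cases i <;> simp [h0]

/-- Conjugation by a shear in the second next direction. -/
theorem shP_conj2 (j : Fin 3) (G : ∀ y, F y → F y → F y) (h : ∀ y, F y → F y)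
    (h0 : ∀ y, h y 0 = 0) :
    (shP F (j + 2) (Multiplicative.ofAdd fun y _ x => h y x))⁻¹ *
      shP F j (Multiplicative.ofAdd G) *
      shP F (j + 2) (Multiplicative.ofAdd fun y _ x => h y x) =
    shP F j (Multiplicative.ofAdd fun y b c => G y b (c + h y b)) := by
  rw [mul_assoc, inv_mul_eq_iff_eq_mul]
  funext y
  apply Subtype.ext
  apply Equiv.ext
  intro x
  apply Subtype.ext
  show ((shP F j (Multiplicative.ofAdd G) y).1
      ((shP F (j + 2) (Multiplicative.ofAdd fun y _ x => h y x) y).1 x)).1 =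
    ((shP F (j + 2) (Multiplicative.ofAdd fun y _ x => h y x) y).1
      ((shP F j (Multiplicative.ofAdd fun y b c => G y b (c + h y b)) y).1 x)).1
  rw [conj_apply, conj_apply, conj_apply, conj_apply]
  funext i
  fin_cases j <;> fin_cases i <;> simp [h0]

end Pool.Agent.MPfe8e9bA
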