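import Mathlib
import Pool.Agent.Lib.MP_fe8e9b_al_A.Defs

/-!
# MP_fe8e9b_al, alternating groups: calculus of control
-/

set_option autoImplicit false

open scoped BigOperators Pointwise

namespace Pool.Agent.MPfe8e9bA

variable {Γ Γ' : Type} [Group Γ] [Group Γ']

theorem disp_mul {V : Type} [NormedAddCommGroup V] [InnerProductSpace ℂ V]
    (ρ : Γ →* (V ≃ₗᵢ[ℂ] V)) (v : V) (s t : Γ) :
    ‖ρ (s * t) v - v‖ ≤ ‖ρ s v - v‖ + ‖ρ t v - v‖ := by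
  have h1 : ρ (s * t) v - v = ρ s (ρ t v - v) + (ρ s v - v) := by
    rw [map_mul, map_sub]
    show ρ s (ρ t v) - v = _
    abel
  rw [h1]
  refine (norm_add_le _ _).trans ?_
  rw [LinearIsometryEquiv.norm_map, add_comm]

theorem disp_inv {V : Type} [NormedAddCommGroup V] [InnerProductSpace ℂ V]
    (ρ : Γ →* (V ≃ₗᵢ[ℂ] V)) (v : V) (s : Γ) :
    ‖ρ s⁻¹ v - v‖ = ‖ρ s v - v‖ := by
  have h1 : ρ s (ρ s⁻¹ v - v) = v - ρ s v := by
    rw [map_sub]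
    have h2 : ρ s (ρ s⁻¹ v) = (ρ (s * s⁻¹)) v := by
      rw [map_mul]
      rfl
    rw [h2, mul_inv_cancel, map_one]
    rfl
  rw [← LinearIsometryEquiv.norm_map (ρ s), h1, norm_sub_rev]

theorem disp_one {V : Type} [NormedAddCommGroup V] [InnerProductSpace ℂ V]
    (ρ : Γ →* (V ≃ₗᵢ[ℂ] V)) (v : V) : ‖ρ 1 v - v‖ = 0 := by
  rw [map_one]
  show ‖v - v‖ = 0
  rw [sub_self, norm_zero]

theorem Kz.mono {S S' T T' : Set Γ} {C C' : ℝ} (h : Kz S C T) (hS : S ⊆ S') (hC : C ≤ C')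
    (hT : T' ⊆ T) : Kz S' C' T' := by
  intro V _ _ _ ρ v δ hδ hs t ht
  refine (h V ρ v δ hδ (fun s h' => hs s (hS h')) t (hT ht)).trans ?_
  exact mul_le_mul_of_nonneg_right hC hδ

theorem Kz.self (S : Set Γ) : Kz S 1 S := by
  intro V _ _ _ ρ v δ hδ hs t ht
  rw [one_mul]
  exact hs t ht

theorem Kz.trans {S T U : Set Γ} {C C' : ℝ} (h : Kz S C T) (hC : 0 ≤ C) (h' : Kz T C' U) :
    Kz S (C' * C) U := by
  intro V _ _ _ ρ v δ hδ hs u hu
  rw [mul_assoc]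
  exact h' V ρ v (C * δ) (mul_nonneg hC hδ) (fun t ht => h V ρ v δ hδ hs t ht) u hu

theorem Kz.union {S T U : Set Γ} {C : ℝ} (h : Kz S C T) (h' : Kz S C U) : Kz S C (T ∪ U) := by
  intro V _ _ _ ρ v δ hδ hs u hu
  rcases hu with hu | hu
  · exact h V ρ v δ hδ hs u hu
  · exact h' V ρ v δ hδ hs u hu

theorem Kz.mul {S T U : Set Γ} {C C' : ℝ} (h : Kz S C T) (h' : Kz S C' U) :
    Kz S (C + C') (T * U) := by
  intro V _ _ _ ρ v δ hδ hs u hu
  obtain ⟨a, ha, b, hb, rfl⟩ := hu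
  refine (disp_mul ρ v a b).trans ?_
  rw [add_mul]
  exact add_le_add (h V ρ v δ hδ hs a ha) (h' V ρ v δ hδ hs b hb)

theorem Kz.inv {S T : Set Γ} {C : ℝ} (h : Kz S C T) : Kz S C T⁻¹ := by
  intro V _ _ _ ρ v δ hδ hs u hu
  rw [← disp_inv]
  exact h V ρ v δ hδ hs _ hu

theorem Kz.map {S T : Set Γ} {C : ℝ} (φ : Γ →* Γ') (h : Kz S C T) :
    Kz (φ '' S) C (φ '' T) := by
  intro V _ _ _ ρ v δ hδ hs u hu
  obtain ⟨t, ht, rfl⟩ := hu
  exact h V (ρ.comp φ) v δ hδ (fun s hs' => hs _ ⟨s, hs', rfl⟩) t ht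

theorem Kz.conj {S T : Set Γ} {C : ℝ} (h : Kz S C T) {g : Γ} (hg : g ∈ S) :
    Kz S (C + 2) {x | ∃ t ∈ T, x = g * t * g⁻¹} := by
  intro V _ _ _ ρ v δ hδ hs u hu
  obtain ⟨t, ht, rfl⟩ := hu
  have h1 := disp_mul ρ v (g * t) g⁻¹
  have h2 := disp_mul ρ v g t
  have h3 := disp_inv ρ v g
  have h4 := hs g hg
  have h5 := h V ρ v δ hδ hs t ht
  linarith

theorem Kz.conj' {S T : Set Γ} {C : ℝ} (h : Kz S C T) {g : Γ} (hg : g ∈ S) :
    Kz S (C + 2) {x | ∃ t ∈ T, x = g⁻¹ * t * g} := by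
  intro V _ _ _ ρ v δ hδ hs u hu
  obtain ⟨t, ht, rfl⟩ := hu
  have h1 := disp_mul ρ v (g⁻¹ * t) g
  have h2 := disp_mul ρ v g⁻¹ t
  have h3 := disp_inv ρ v g
  have h4 := hs g hg
  have h5 := h V ρ v δ hδ hs t ht
  linarith

/-- Products of at most `n` elements. -/
theorem Kz.prod {S T : Set Γ} {C : ℝ} (hC : 0 ≤ C) (h : Kz S C T) (n : ℕ) :
    Kz S (n * C) {x | ∃ l : List Γ, l.length ≤ n ∧ (∀ y ∈ l, y ∈ T) ∧ x = l.prod} := by
  intro V _ _ _ ρ v δ hδ hs u hu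
  obtain ⟨l, hl, hT, rfl⟩ := hu
  have key : ∀ l : List Γ, (∀ y ∈ l, y ∈ T) → ‖ρ l.prod v - v‖ ≤ l.length * (C * δ) := by
    intro l
    induction l with
    | nil =>
      intro _
      rw [List.prod_nil, disp_one]
      simp
    | cons a l ih =>
      intro hl
      rw [List.prod_cons, List.length_cons]
      have h1 := disp_mul ρ v a l.prod
      have h2 := ih fun y hy => hl y (List.mem_cons_of_mem _ hy)
      have h3 := h V ρ v δ hδ hs a (hl a List.mem_cons_self)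
      push_cast
      linarith
  refine (key l hT).trans ?_
  have h1 : (l.length : ℝ) ≤ n := by exact_mod_cast hl
  have h2 : 0 ≤ C * δ := mul_nonneg hC hδ
  calc (l.length : ℝ) * (C * δ) ≤ n * (C * δ) := mul_le_mul_of_nonneg_right h1 h2
    _ = n * C * δ := by ring

theorem Kz.empty (S : Set Γ) (C : ℝ) : Kz S C ∅ := by
  intro V _ _ _ ρ v δ hδ hs u hu
  exact absurd hu (Set.notMem_empty u)

end Pool.Agent.MPfe8e9bA
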