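import Mathlib

/-!
# MP_fe8e9b_al, alternating groups: three subspaces
-/

set_option autoImplicit false

open scoped BigOperators Pointwise

namespace Pool.Agent.MPfe8e9bA

section spec

variable {V : Type} [NormedAddCommGroup V] [InnerProductSpace ℂ V] [FiniteDimensional ℂ V]

omit [FiniteDimensional ℂ V] in
theorem spec3_re_self (x : V) : (inner ℂ x x).re = ‖x‖ ^ 2 := by
  rw [inner_self_eq_norm_sq_to_K]
  norm_cast

/-- a symmetric operator whose nonzero eigenvalues are at least `c` -/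
theorem spec3_gap (T : V →ₗ[ℂ] V) (hT : T.IsSymmetric) (c : ℝ)
    (hgap : ∀ (μ : ℝ) (e : V), e ≠ 0 → μ ≠ 0 → T e = (μ : ℂ) • e → c ≤ μ)
    (hpos : ∀ v : V, 0 ≤ (inner ℂ (T v) v).re) (v : V) :
    c * (inner ℂ (T v) v).re ≤ ‖T v‖ ^ 2 ∧
      ∃ u : V, T u = 0 ∧ c * ‖v - u‖ ^ 2 ≤ (inner ℂ (T v) v).re := by
  classical
  set b := hT.eigenvectorBasis rfl with hb
  set μ := hT.eigenvalues rfl with hμ
  have hTb : ∀ i, T (b i) = (μ i : ℂ) • b i := fun i => hT.apply_eigenvectorBasis rfl i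
  have hb0 : ∀ i, b i ≠ 0 := fun i => b.orthonormal.ne_zero i
  have hmu : ∀ i, μ i = 0 ∨ c ≤ μ i := by
    intro i
    by_cases h : μ i = 0
    · exact Or.inl h
    · exact Or.inr (hgap (μ i) (b i) (hb0 i) h (hTb i))
  have hmu0 : ∀ i, 0 ≤ μ i := by
    intro i
    have h1 := hpos (b i)
    rw [hTb, inner_smul_left, Complex.conj_ofReal, Complex.re_ofReal_mul, spec3_re_self,
      b.orthonormal.norm_eq_one i] at h1
    simpa using h1
  have hco : ∀ i, inner ℂ (b i) (T v) = (μ i : ℂ) * inner ℂ (b i) v := by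
    intro i
    rw [← hT (b i) v, hTb, inner_smul_left, Complex.conj_ofReal]
  have hn : ‖T v‖ ^ 2 = ∑ i, (μ i) ^ 2 * ‖inner ℂ (b i) v‖ ^ 2 := by
    rw [← b.sum_sq_norm_inner_right (T v)]
    refine Finset.sum_congr rfl fun i _ => ?_
    rw [hco, norm_mul, mul_pow, Complex.norm_real, Real.norm_eq_abs, sq_abs]
  have hi : (inner ℂ (T v) v).re = ∑ i, (μ i) * ‖inner ℂ (b i) v‖ ^ 2 := by
    rw [← b.sum_inner_mul_inner (T v) v, Complex.re_sum]
    refine Finset.sum_congr rfl fun i _ => ?_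
    have h1 : inner ℂ (T v) (b i) = (μ i : ℂ) * (starRingEnd ℂ) (inner ℂ (b i) v) := by
      rw [← inner_conj_symm, hco, map_mul, Complex.conj_ofReal]
    rw [h1, mul_assoc, Complex.re_ofReal_mul, ← Complex.normSq_eq_conj_mul_self,
      Complex.ofReal_re, Complex.normSq_eq_norm_sq]
  constructor
  · rw [hn, hi, Finset.mul_sum]
    refine Finset.sum_le_sum fun i _ => ?_
    rw [← mul_assoc]
    refine mul_le_mul_of_nonneg_right ?_ (by positivity)
    rcases hmu i with h | h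
    · rw [h]
      simp
    · rw [sq]
      exact mul_le_mul_of_nonneg_right h (hmu0 i)
  · refine ⟨∑ i ∈ Finset.univ.filter (fun i => μ i = 0), (inner ℂ (b i) v) • b i, ?_, ?_⟩
    · rw [map_sum]
      refine Finset.sum_eq_zero fun i hi' => ?_
      rw [map_smul, hTb, (Finset.mem_filter.1 hi').2]
      simp
    · rw [hi, ← b.sum_sq_norm_inner_right, Finset.mul_sum]
      refine Finset.sum_le_sum fun i _ => ?_
      have h1 : inner ℂ (b i) (v - ∑ j ∈ Finset.univ.filter (fun j => μ j = 0),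
          (inner ℂ (b j) v) • b j) = if μ i = 0 then 0 else inner ℂ (b i) v := by
        rw [inner_sub_right, inner_sum]
        have h2 : ∀ j, inner ℂ (b i) ((inner ℂ (b j) v) • b j) =
            if i = j then inner ℂ (b i) v else 0 := by
          intro j
          rw [inner_smul_right, orthonormal_iff_ite.1 b.orthonormal i j]
          split_ifs with h
          · rw [h, mul_one]
          · rw [mul_zero]
        simp only [h2, Finset.sum_ite_eq, Finset.mem_filter, Finset.mem_univ, true_and]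
        split_ifs <;> simp
      rw [h1]
      rcases hmu i with h | h
      · rw [if_pos h, h]
        simp
      · by_cases h0 : μ i = 0
        · rw [if_pos h0, h0]
          simp
        · rw [if_neg h0]
          exact mul_le_mul_of_nonneg_right h (by positivity)

theorem spec3_pair (P R : V →ₗ[ℂ] V) (hP : P.IsSymmetric) (hR : R.IsSymmetric)
    (hPi : ∀ v, P (P v) = P v) (hRi : ∀ v, R (R v) = R v)
    (hang : ∀ w : V, R w = w → (∀ u, P u = u → R u = u → inner ℂ u w = 0) →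
      ‖P w‖ ≤ 1 / 3 * ‖w‖) (v : V) :
    -(1 / 3) * (‖v - P v‖ ^ 2 + ‖v - R v‖ ^ 2) ≤ 2 * (inner ℂ (v - P v) (v - R v)).re := by
  have hPP : ∀ x y, inner ℂ (P x) (P y) = inner ℂ (P x) y := by
    intro x y
    rw [← hP (P x) y, hPi]
  have hRR : ∀ x y, inner ℂ (R x) (R y) = inner ℂ (R x) y := by
    intro x y
    rw [← hR (R x) y, hRi]
  have hPn : ∀ x, (inner ℂ (P x) x).re = ‖P x‖ ^ 2 := by
    intro x
    rw [← hPP, spec3_re_self]
  have hRn : ∀ x, (inner ℂ (R x) x).re = ‖R x‖ ^ 2 := by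
    intro x
    rw [← hRR, spec3_re_self]
  set D : V →ₗ[ℂ] V := (LinearMap.id - P) + (LinearMap.id - R) with hD
  have hDv : ∀ x, D x = (x - P x) + (x - R x) := fun x => rfl
  have hDs : D.IsSymmetric := by
    intro x y
    rw [hDv, hDv, inner_add_left, inner_add_right, inner_sub_left, inner_sub_left,
      inner_sub_right, inner_sub_right, hP x y, hR x y]
  have hDi : ∀ x, (inner ℂ (D x) x).re = ‖x - P x‖ ^ 2 + ‖x - R x‖ ^ 2 := by
    intro x
    rw [hDv, inner_add_left, Complex.add_re]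
    have h1 : inner ℂ (x - P x) x = inner ℂ (x - P x) (x - P x) := by
      rw [inner_sub_right, inner_sub_left x (P x) (P x), hPP, ← hP x x, sub_self, sub_zero]
    have h2 : inner ℂ (x - R x) x = inner ℂ (x - R x) (x - R x) := by
      rw [inner_sub_right, inner_sub_left x (R x) (R x), hRR, ← hR x x, sub_self, sub_zero]
    rw [h1, h2, spec3_re_self, spec3_re_self]
  have hgap : ∀ (μ : ℝ) (e : V), e ≠ 0 → μ ≠ 0 → D e = (μ : ℂ) • e → 2 / 3 ≤ μ := by
    intro μ e he hμ hDe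
    by_contra hcon
    push Not at hcon
    have hE : 0 < ‖e‖ ^ 2 := by positivity
    have hsum : P e + R e = ((2 - μ : ℝ) : ℂ) • e := by
      have h1 : P e + R e = (2 : ℂ) • e - D e := by
        rw [hDv, two_smul]
        abel
      rw [h1, hDe, ← sub_smul]
      push_cast
      rfl
    have horth : ∀ u, P u = u → R u = u → inner ℂ u e = (0 : ℂ) := by
      intro u hu1 hu2
      have h1 : D u = 0 := by
        rw [hDv, hu1, hu2]
        simp
      have h2 : inner ℂ (D u) e = inner ℂ u (D e) := hDs u e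
      rw [h1, inner_zero_left, hDe, inner_smul_right] at h2
      rcases mul_eq_zero.1 h2.symm with h3 | h3
      · exact absurd (by exact_mod_cast h3) hμ
      · exact h3
    have hPR : ‖P (R e)‖ ≤ 1 / 3 * ‖R e‖ := by
      refine hang (R e) (hRi e) fun u hu1 hu2 => ?_
      rw [← hR u e, hu2]
      exact horth u hu1 hu2
    have h1 : (inner ℂ (P e) (R e)).re ≤ 1 / 3 * (‖P e‖ * ‖R e‖) := by
      rw [← hPP]
      refine (Complex.re_le_norm _).trans ((norm_inner_le_norm _ _).trans ?_)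
      have := mul_le_mul_of_nonneg_left hPR (norm_nonneg (P e))
      linarith
    have h2 : ‖P e‖ ^ 2 + ‖R e‖ ^ 2 = (2 - μ) * ‖e‖ ^ 2 := by
      rw [← hPn, ← hRn, ← Complex.add_re, ← inner_add_left, hsum, inner_smul_left,
        Complex.conj_ofReal, Complex.re_ofReal_mul, spec3_re_self]
    have h3 : ‖P e + R e‖ ^ 2 = (2 - μ) ^ 2 * ‖e‖ ^ 2 := by
      rw [hsum, norm_smul, mul_pow, Complex.norm_real, Real.norm_eq_abs, sq_abs]
    have h4 : ‖P e + R e‖ ^ 2 = ‖P e‖ ^ 2 + 2 * (inner ℂ (P e) (R e)).re + ‖R e‖ ^ 2 :=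
      norm_add_sq (𝕜 := ℂ) (P e) (R e)
    have h5 : ‖P e‖ * ‖R e‖ ≤ (‖P e‖ ^ 2 + ‖R e‖ ^ 2) / 2 := by
      nlinarith [sq_nonneg (‖P e‖ - ‖R e‖)]
    have h6 : (2 - μ) ^ 2 * ‖e‖ ^ 2 ≤ 4 / 3 * ((2 - μ) * ‖e‖ ^ 2) := by
      linarith
    nlinarith [mul_pos hE (show (0 : ℝ) < 2 - μ by linarith)]
  have hpos : ∀ x, 0 ≤ (inner ℂ (D x) x).re := by
    intro x
    rw [hDi]
    positivity
  have h1 := (spec3_gap D hDs (2 / 3) hgap hpos v).1
  rw [hDi, hDv] at h1
  have h2 : ‖(v - P v) + (v - R v)‖ ^ 2 = ‖v - P v‖ ^ 2 + 2 * (inner ℂ (v - P v) (v - R v)).re +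
      ‖v - R v‖ ^ 2 := norm_add_sq (𝕜 := ℂ) (v - P v) (v - R v)
  rw [h2] at h1
  linarith

end spec

/-- Three orthogonal projections with small angles. -/
theorem three_sub {V : Type} [NormedAddCommGroup V] [InnerProductSpace ℂ V]
    [FiniteDimensional ℂ V] (P : Fin 3 → V →ₗ[ℂ] V) (hsym : ∀ j, (P j).IsSymmetric)
    (hidem : ∀ j v, P j (P j v) = P j v)
    (hang : ∀ (j : Fin 3) (w : V), P (j + 1) w = w →
      (∀ u, P j u = u → P (j + 1) u = u → inner ℂ u w = 0) → ‖P j w‖ ≤ 1 / 3 * ‖w‖) (v : V) :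
    ∃ u : V, (∀ j, P j u = u) ∧ ‖v - u‖ ^ 2 ≤ 3 * ∑ j, ‖v - P j v‖ ^ 2 := by
  have hQ : ∀ j x, (inner ℂ (x - P j x) x).re = ‖x - P j x‖ ^ 2 := by
    intro j x
    have hPP : inner ℂ (P j x) (P j x) = inner ℂ (P j x) x := by
      rw [← hsym j (P j x) x, hidem]
    have h1 : inner ℂ (x - P j x) x = inner ℂ (x - P j x) (x - P j x) := by
      rw [inner_sub_right, inner_sub_left x (P j x) (P j x), hPP, ← hsym j x x, sub_self, sub_zero]
    rw [h1, spec3_re_self]
  have hpair : ∀ (j : Fin 3) (x : V), -(1 / 3) * (‖x - P j x‖ ^ 2 + ‖x - P (j + 1) x‖ ^ 2) ≤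
      2 * (inner ℂ (x - P j x) (x - P (j + 1) x)).re := fun j x =>
    spec3_pair (P j) (P (j + 1)) (hsym j) (hsym (j + 1)) (hidem j) (hidem (j + 1)) (hang j) x
  set D : V →ₗ[ℂ] V := (LinearMap.id - P 0) + (LinearMap.id - P 1) + (LinearMap.id - P 2) with hD
  have hDv : ∀ x, D x = (x - P 0 x) + (x - P 1 x) + (x - P 2 x) := fun x => rfl
  have hDs : D.IsSymmetric := by
    intro x y
    simp only [hDv, inner_add_left, inner_add_right, inner_sub_left, inner_sub_right, hsym 0 x y,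
      hsym 1 x y, hsym 2 x y]
  have hDi : ∀ x, (inner ℂ (D x) x).re = ∑ j, ‖x - P j x‖ ^ 2 := by
    intro x
    rw [hDv, inner_add_left, inner_add_left, Complex.add_re, Complex.add_re, hQ, hQ, hQ,
      Fin.sum_univ_three]
  have hDn : ∀ x, 1 / 3 * (inner ℂ (D x) x).re ≤ ‖D x‖ ^ 2 := by
    intro x
    rw [hDi, hDv, Fin.sum_univ_three]
    have h0 := hpair 0 x
    have h1 := hpair 1 x
    have h2 := hpair 2 x
    have e0 : (0 : Fin 3) + 1 = 1 := rfl
    have e1 : (1 : Fin 3) + 1 = 2 := rfl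
    have e2 : (2 : Fin 3) + 1 = 0 := rfl
    rw [e0] at h0
    rw [e1] at h1
    rw [e2] at h2
    have h3 : ‖(x - P 0 x) + (x - P 1 x) + (x - P 2 x)‖ ^ 2 =
        ‖(x - P 0 x) + (x - P 1 x)‖ ^ 2 +
          2 * (inner ℂ ((x - P 0 x) + (x - P 1 x)) (x - P 2 x)).re + ‖x - P 2 x‖ ^ 2 :=
      norm_add_sq (𝕜 := ℂ) _ _
    have h4 : ‖(x - P 0 x) + (x - P 1 x)‖ ^ 2 = ‖x - P 0 x‖ ^ 2 +
        2 * (inner ℂ (x - P 0 x) (x - P 1 x)).re + ‖x - P 1 x‖ ^ 2 :=
      norm_add_sq (𝕜 := ℂ) _ _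
    have h5 : (inner ℂ (x - P 2 x) (x - P 0 x)).re = (inner ℂ (x - P 0 x) (x - P 2 x)).re := by
      rw [← inner_conj_symm, Complex.conj_re]
    rw [inner_add_left, Complex.add_re] at h3
    rw [h5] at h2
    rw [h3, h4]
    linarith
  have hgap : ∀ (μ : ℝ) (e : V), e ≠ 0 → μ ≠ 0 → D e = (μ : ℂ) • e → 1 / 3 ≤ μ := by
    intro μ e he hμ hDe
    have hE : 0 < ‖e‖ ^ 2 := by positivity
    have h1 := hDn e
    rw [hDe, inner_smul_left, Complex.conj_ofReal, Complex.re_ofReal_mul, spec3_re_self,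
      norm_smul, mul_pow, Complex.norm_real, Real.norm_eq_abs, sq_abs] at h1
    have h2 : 0 ≤ (inner ℂ (D e) e).re := by
      rw [hDi]
      positivity
    rw [hDe, inner_smul_left, Complex.conj_ofReal, Complex.re_ofReal_mul, spec3_re_self] at h2
    have h3 : 0 < μ := by
      rcases lt_or_gt_of_ne hμ with h | h
      · nlinarith
      · exact h
    have h4 : 1 / 3 * μ ≤ μ ^ 2 := by
      by_contra hcon
      push Not at hcon
      nlinarith
    nlinarith
  have hpos : ∀ x, 0 ≤ (inner ℂ (D x) x).re := by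
    intro x
    rw [hDi]
    positivity
  obtain ⟨u, hu0, hu⟩ := (spec3_gap D hDs (1 / 3) hgap hpos v).2
  refine ⟨u, fun j => ?_, ?_⟩
  · have h1 := hDi u
    rw [hu0, inner_zero_left, Complex.zero_re] at h1
    have h2 := (Finset.sum_eq_zero_iff_of_nonneg (fun i _ => by positivity)).1 h1.symm j
      (Finset.mem_univ j)
    have h3 : ‖u - P j u‖ = 0 := by
      have := pow_eq_zero_iff (n := 2) (by norm_num) |>.1 h2
      exact this
    rw [norm_eq_zero, sub_eq_zero] at h3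
    exact h3.symm
  · rw [hDi] at hu
    linarith

end Pool.Agent.MPfe8e9bA
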