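import Mathlib

/-!
# MP_fe8e9b_al, alternating groups: zeros of quadratic functions
-/

set_option autoImplicit false

open scoped BigOperators Pointwise

namespace Pool.Agent.MPfe8e9bA

/-- Interpolation at three points. -/
theorem zero_interp {A : Type} [AddCommGroup A] [Module (ZMod 19) A]
    (K : Submodule (ZMod 19) A) (a g₁ g₂ : A) (t₁ t₂ t₃ : ZMod 19)
    (h12 : t₁ ≠ t₂) (h13 : t₁ ≠ t₃) (h23 : t₂ ≠ t₃)
    (h1 : a + t₁ • g₁ + t₁ ^ 2 • g₂ ∈ K) (h2 : a + t₂ • g₁ + t₂ ^ 2 • g₂ ∈ K)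
    (h3 : a + t₃ • g₁ + t₃ ^ 2 • g₂ ∈ K) : a ∈ K := by
  have : Fact (Nat.Prime 19) := ⟨by norm_num⟩
  have hV : (t₂ - t₁) * (t₃ - t₁) * (t₃ - t₂) ≠ 0 :=
    mul_ne_zero (mul_ne_zero (sub_ne_zero.mpr h12.symm) (sub_ne_zero.mpr h13.symm))
      (sub_ne_zero.mpr h23.symm)
  have hk : ((t₂ - t₁) * (t₃ - t₁) * (t₃ - t₂)) • a ∈ K := by
    have e : ((t₂ - t₁) * (t₃ - t₁) * (t₃ - t₂)) • a =
        (t₂ * t₃ * (t₃ - t₂)) • (a + t₁ • g₁ + t₁ ^ 2 • g₂) +
        (t₃ * t₁ * (t₁ - t₃)) • (a + t₂ • g₁ + t₂ ^ 2 • g₂) +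
        (t₁ * t₂ * (t₂ - t₁)) • (a + t₃ • g₁ + t₃ ^ 2 • g₂) := by
      module
    rw [e]
    exact K.add_mem (K.add_mem (K.smul_mem _ h1) (K.smul_mem _ h2)) (K.smul_mem _ h3)
  have := K.smul_mem ((t₂ - t₁) * (t₃ - t₁) * (t₃ - t₂))⁻¹ hk
  rwa [smul_smul, inv_mul_cancel₀ hV, one_smul] at this

/-- Zeros of a function which is quadratic on lines. -/
theorem zero_count {B A : Type} [AddCommGroup B] [Module (ZMod 19) B] [Fintype B]
    [AddCommGroup A] [Module (ZMod 19) A] (K : Submodule (ZMod 19) A) (f : B → A)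
    (hf : ∀ x d, ∃ g₁ g₂ : A, ∀ t : ZMod 19, f (x + t • d) = f x + t • g₁ + t ^ 2 • g₂)
    (h : ∃ x, f x ∉ K) : 9 * Nat.card {x // f x ∈ K} ≤ Nat.card B := by
  classical
  have : Fact (Nat.Prime 19) := ⟨by norm_num⟩
  obtain ⟨x0, hx0⟩ := h
  set T : Finset (ZMod 19) := Finset.univ.filter (fun t => t ≠ 0) with hT
  have hTc : T.card = 18 := by
    rw [hT, Finset.filter_ne', Finset.card_erase_of_mem (Finset.mem_univ _), Finset.card_univ,
      ZMod.card]
  set Z : Finset B := Finset.univ.filter (fun x => f x ∈ K) with hZ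
  have hcard : Nat.card {x // f x ∈ K} = Z.card := by
    rw [Nat.card_eq_fintype_card, Fintype.card_subtype]
  rw [hcard, Nat.card_eq_fintype_card]
  have hrow : ∀ t ∈ T, (Finset.univ.filter (fun d : B => f (x0 + t • d) ∈ K)).card = Z.card := by
    intro t ht
    have ht0 : t ≠ 0 := by simpa [hT] using ht
    refine Finset.card_bij (fun d _ => x0 + t • d) ?_ ?_ ?_
    · intro d hd
      simpa [hZ] using hd
    · intro d _ d' _ hdd
      have h1 : t • d = t • d' := add_left_cancel hdd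
      have h2 := congrArg (fun z => t⁻¹ • z) h1
      simpa [smul_smul, inv_mul_cancel₀ ht0] using h2
    · intro x hx
      refine ⟨t⁻¹ • (x - x0), ?_, ?_⟩
      · have hx' : f x ∈ K := by simpa [hZ] using hx
        simp only [Finset.mem_filter, Finset.mem_univ, true_and]
        rw [smul_smul, mul_inv_cancel₀ ht0, one_smul, add_sub_cancel]
        exact hx'
      · rw [smul_smul, mul_inv_cancel₀ ht0, one_smul, add_sub_cancel]
  have hcol : ∀ d : B, (T.filter (fun t => f (x0 + t • d) ∈ K)).card ≤ 2 := by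
    intro d
    by_contra hc
    have hc' : 2 < (T.filter (fun t => f (x0 + t • d) ∈ K)).card := not_le.mp hc
    obtain ⟨t₁, t₂, t₃, m1, m2, m3, n12, n13, n23⟩ := Finset.two_lt_card_iff.mp hc'
    obtain ⟨g₁, g₂, hg⟩ := hf x0 d
    have k1 : f (x0 + t₁ • d) ∈ K := (Finset.mem_filter.mp m1).2
    have k2 : f (x0 + t₂ • d) ∈ K := (Finset.mem_filter.mp m2).2
    have k3 : f (x0 + t₃ • d) ∈ K := (Finset.mem_filter.mp m3).2
    rw [hg] at k1 k2 k3
    exact hx0 (zero_interp K (f x0) g₁ g₂ t₁ t₂ t₃ n12 n13 n23 k1 k2 k3)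
  have hdc : ∑ t ∈ T, (Finset.univ.filter (fun d : B => f (x0 + t • d) ∈ K)).card =
      ∑ d : B, (T.filter (fun t => f (x0 + t • d) ∈ K)).card :=
    Finset.sum_card_bipartiteAbove_eq_sum_card_bipartiteBelow
      (r := fun (t : ZMod 19) (d : B) => f (x0 + t • d) ∈ K)
  have hl : ∑ t ∈ T, (Finset.univ.filter (fun d : B => f (x0 + t • d) ∈ K)).card =
      18 * Z.card := by
    rw [Finset.sum_congr rfl hrow, Finset.sum_const, hTc, smul_eq_mul]
  have hr : ∑ d : B, (T.filter (fun t => f (x0 + t • d) ∈ K)).card ≤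
      Fintype.card B * 2 := by
    have := Finset.sum_le_card_nsmul (Finset.univ : Finset B)
      (fun d => (T.filter (fun t => f (x0 + t • d) ∈ K)).card) 2 (fun d _ => hcol d)
    simpa [Finset.card_univ] using this
  omega

end Pool.Agent.MPfe8e9bA
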