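import Mathlib
import Pool.Agent.Lib.MP_fe8e9b_al_A.KzB
import Pool.Agent.Lib.MP_fe8e9b_al_A.Spec3
import Pool.Agent.Lib.MP_fe8e9b_al_A.Ang
import Pool.Agent.Lib.MP_fe8e9b_al_A.Conj
import Pool.Agent.Lib.MP_fe8e9b_al_A.Zero

/-!
# MP_fe8e9b_al, alternating groups: Kazhdan constant of the group generated by quadratic shears
-/

set_option autoImplicit false

open scoped BigOperators Pointwise

namespace Pool.Agent.MPfe8e9bA

section

variable {Y : Type} (F : Y → Type) [∀ y, CommRing (F y)] [∀ y, Algebra (ZMod 19) (F y)]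

/-- The spanning functions. -/
private def cka_f (a a1 m m1 : ∀ y, F y) : ∀ y, F y → F y → F y := fun y b c =>
  a y * (b + (m y * c ^ 2 + m1 y * c)) ^ 2 + a1 y * (b + (m y * c ^ 2 + m1 y * c))

/-- The substitution. -/
private def cka_T (m m1 : ∀ y, F y) :
    (∀ y, F y → F y → F y) →ₗ[ZMod 19] (∀ y, F y → F y → F y) where
  toFun G := fun y b c => G y (b + (m y * c ^ 2 + m1 y * c)) c
  map_add' _ _ := rfl
  map_smul' _ _ := rfl

private theorem cka_T_f (a a1 m m1 e e1 : ∀ y, F y) :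
    cka_T F e e1 (cka_f F a a1 m m1) = cka_f F a a1 (m + e) (m1 + e1) := by
  funext y b c
  show a y * ((b + (e y * c ^ 2 + e1 y * c)) + (m y * c ^ 2 + m1 y * c)) ^ 2 +
    a1 y * ((b + (e y * c ^ 2 + e1 y * c)) + (m y * c ^ 2 + m1 y * c)) =
    a y * (b + ((m y + e y) * c ^ 2 + (m1 y + e1 y) * c)) ^ 2 +
    a1 y * (b + ((m y + e y) * c ^ 2 + (m1 y + e1 y) * c))
  ring

private theorem cka_T_T (m m1 : ∀ y, F y) (G : ∀ y, F y → F y → F y) :
    cka_T F (-m) (-m1) (cka_T F m m1 G) = G := by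
  funext y b c
  show G y ((b + ((-m y) * c ^ 2 + (-m1 y) * c)) + (m y * c ^ 2 + m1 y * c)) c = G y b c
  congr 1
  ring

/-- The span. -/
private def cka_U (Λ : Submodule (ZMod 19) (∀ y, F y)) :
    Submodule (ZMod 19) (∀ y, F y → F y → F y) :=
  Submodule.span (ZMod 19) {G | ∃ a ∈ Λ, ∃ a1 ∈ Λ, ∃ m ∈ Λ, ∃ m1 ∈ Λ, G = cka_f F a a1 m m1}

private theorem cka_T_mem (Λ : Submodule (ZMod 19) (∀ y, F y)) {m m1 : ∀ y, F y} (hm : m ∈ Λ)
    (hm1 : m1 ∈ Λ) : ∀ G ∈ cka_U F Λ, cka_T F m m1 G ∈ cka_U F Λ := by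
  intro G hG
  have h1 : cka_U F Λ ≤ (cka_U F Λ).comap (cka_T F m m1) := by
    refine Submodule.span_le.2 ?_
    rintro _ ⟨a, ha, a1, ha1, e, he, e1, he1, rfl⟩
    show cka_T F m m1 (cka_f F a a1 e e1) ∈ cka_U F Λ
    rw [cka_T_f]
    exact Submodule.subset_span ⟨a, ha, a1, ha1, _, Λ.add_mem he hm, _, Λ.add_mem he1 hm1, rfl⟩
  exact h1 hG

/-- The functions of one variable. -/
private def cka_j (Λ : Submodule (ZMod 19) (∀ y, F y)) :
    (Λ × Λ) →ₗ[ZMod 19] (∀ y, F y → F y → F y) where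
  toFun z := fun y x _ => z.1.1 y * x ^ 2 + z.2.1 y * x
  map_add' z w := by
    funext y x t
    show (z.1.1 y + w.1.1 y) * x ^ 2 + (z.2.1 y + w.2.1 y) * x =
      (z.1.1 y * x ^ 2 + z.2.1 y * x) + (w.1.1 y * x ^ 2 + w.2.1 y * x)
    ring
  map_smul' c z := by
    funext y x t
    show (c • z.1.1 y) * x ^ 2 + (c • z.2.1 y) * x = c • (z.1.1 y * x ^ 2 + z.2.1 y * x)
    rw [smul_add, smul_mul_assoc, smul_mul_assoc]

private theorem cka_j_eq (Λ : Submodule (ZMod 19) (∀ y, F y)) (z : Λ × Λ) :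
    cka_j F Λ z = cka_f F z.1.1 z.2.1 0 0 := by
  funext y x t
  show z.1.1 y * x ^ 2 + z.2.1 y * x = z.1.1 y * (x + (0 * t ^ 2 + 0 * t)) ^ 2 +
    z.2.1 y * (x + (0 * t ^ 2 + 0 * t))
  ring

private theorem cka_j_mem (Λ : Submodule (ZMod 19) (∀ y, F y)) (z : Λ × Λ) :
    cka_j F Λ z ∈ cka_U F Λ := by
  rw [cka_j_eq]
  exact Submodule.subset_span ⟨_, z.1.2, _, z.2.2, 0, Λ.zero_mem, 0, Λ.zero_mem, rfl⟩

/-- The action. -/
private def cka_a (Λ : Submodule (ZMod 19) (∀ y, F y)) (z : Multiplicative (Λ × Λ)) :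
    cka_U F Λ ≃ₗ[ZMod 19] cka_U F Λ :=
  LinearEquiv.ofLinearMap
    ((cka_T F (-(Multiplicative.toAdd z).1.1) (-(Multiplicative.toAdd z).2.1)).restrict
      (cka_T_mem F Λ (Λ.neg_mem (Multiplicative.toAdd z).1.2)
        (Λ.neg_mem (Multiplicative.toAdd z).2.2)))
    ((cka_T F ((Multiplicative.toAdd z).1.1) ((Multiplicative.toAdd z).2.1)).restrict
      (cka_T_mem F Λ ((Multiplicative.toAdd z).1.2) ((Multiplicative.toAdd z).2.2)))
    (by
      ext G : 2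
      exact cka_T_T F _ _ G.1)
    (by
      ext G : 2
      have h1 := cka_T_T F (-(Multiplicative.toAdd z).1.1) (-(Multiplicative.toAdd z).2.1) G.1
      rw [neg_neg, neg_neg] at h1
      exact h1)

private theorem cka_a_coe (Λ : Submodule (ZMod 19) (∀ y, F y)) (z : Multiplicative (Λ × Λ))
    (u : cka_U F Λ) : ((cka_a F Λ z u : cka_U F Λ) : ∀ y, F y → F y → F y) =
      cka_T F (-(Multiplicative.toAdd z).1.1) (-(Multiplicative.toAdd z).2.1) u.1 := rfl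

private theorem cka_quad (a a1 : ∀ y, F y) (Λ : Submodule (ZMod 19) (∀ y, F y))
    (x d : Λ × Λ) : ∃ g₁ g₂ : ∀ y, F y → F y → F y, ∀ t : ZMod 19,
      cka_f F a a1 (x + t • d).1.1 (x + t • d).2.1 =
        cka_f F a a1 x.1.1 x.2.1 + t • g₁ + t ^ 2 • g₂ := by
  refine ⟨fun y b c => 2 * a y * (b + (x.1.1 y * c ^ 2 + x.2.1 y * c)) *
      (d.1.1 y * c ^ 2 + d.2.1 y * c) + a1 y * (d.1.1 y * c ^ 2 + d.2.1 y * c),
    fun y b c => a y * (d.1.1 y * c ^ 2 + d.2.1 y * c) ^ 2, fun t => ?_⟩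
  funext y b c
  show a y * (b + ((x.1.1 y + t • d.1.1 y) * c ^ 2 + (x.2.1 y + t • d.2.1 y) * c)) ^ 2 +
    a1 y * (b + ((x.1.1 y + t • d.1.1 y) * c ^ 2 + (x.2.1 y + t • d.2.1 y) * c)) =
    a y * (b + (x.1.1 y * c ^ 2 + x.2.1 y * c)) ^ 2 +
      a1 y * (b + (x.1.1 y * c ^ 2 + x.2.1 y * c)) +
    t • (2 * a y * (b + (x.1.1 y * c ^ 2 + x.2.1 y * c)) *
      (d.1.1 y * c ^ 2 + d.2.1 y * c) + a1 y * (d.1.1 y * c ^ 2 + d.2.1 y * c)) +
    t ^ 2 • (a y * (d.1.1 y * c ^ 2 + d.2.1 y * c) ^ 2)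
  simp only [Algebra.smul_def, map_pow]
  ring

private theorem cka_count (Λ : Submodule (ZMod 19) (∀ y, F y)) [Fintype Λ]
    (l : cka_U F Λ →ₗ[ZMod 19] ZMod 19) (hl : l ≠ 0) :
    9 * Nat.card {b : Multiplicative (Λ × Λ) // ∀ h : Λ × Λ,
      l (cka_a F Λ b ⟨cka_j F Λ h, cka_j_mem F Λ h⟩) = 0} ≤
      Nat.card (Multiplicative (Λ × Λ)) := by
  classical
  set K : Submodule (ZMod 19) (∀ y, F y → F y → F y) :=
    (LinearMap.ker l).map (cka_U F Λ).subtype with hK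
  have hex : ∃ a ∈ Λ, ∃ a1 ∈ Λ, ∃ m ∈ Λ, ∃ m1 ∈ Λ, cka_f F a a1 m m1 ∉ K := by
    by_contra hc
    push Not at hc
    apply hl
    have h1 : cka_U F Λ ≤ K := by
      refine Submodule.span_le.2 ?_
      rintro _ ⟨a, ha, a1, ha1, m, hm, m1, hm1, rfl⟩
      exact hc a ha a1 ha1 m hm m1 hm1
    ext u
    obtain ⟨v, hv, hvu⟩ := Submodule.mem_map.1 (h1 u.2)
    have h2 : v = u := Subtype.ext hvu
    rw [← h2]
    exact hv
  obtain ⟨a, ha, a1, ha1, m, hm, m1, hm1, hG⟩ := hex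
  have hz := zero_count K (fun x : Λ × Λ => cka_f F a a1 x.1.1 x.2.1)
    (fun x d => cka_quad F a a1 Λ x d) ⟨(⟨m, hm⟩, ⟨m1, hm1⟩), hG⟩
  have hle : Nat.card {b : Multiplicative (Λ × Λ) // ∀ h : Λ × Λ,
      l (cka_a F Λ b ⟨cka_j F Λ h, cka_j_mem F Λ h⟩) = 0} ≤
      Nat.card {x : Λ × Λ // cka_f F a a1 x.1.1 x.2.1 ∈ K} := by
    refine Nat.card_le_card_of_injective
      (fun b => ⟨-(Multiplicative.toAdd b.1), ?_⟩) ?_
    · rw [hK, Submodule.mem_map]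
      refine ⟨_, b.2 (⟨a, ha⟩, ⟨a1, ha1⟩), ?_⟩
      show cka_T F (-(Multiplicative.toAdd b.1).1.1) (-(Multiplicative.toAdd b.1).2.1)
        (cka_j F Λ (⟨a, ha⟩, ⟨a1, ha1⟩)) = _
      rw [cka_j_eq, cka_T_f, zero_add, zero_add]
      rfl
    · intro b b' hbb
      have h1 := congrArg Subtype.val hbb
      exact Subtype.ext (Multiplicative.toAdd.injective (neg_injective h1))
  have hcd : Nat.card (Multiplicative (Λ × Λ)) = Nat.card (Λ × Λ) :=
    Nat.card_congr Multiplicative.toAdd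
  rw [hcd]
  exact (Nat.mul_le_mul_left 9 hle).trans hz

end

section

variable {Y : Type} (F : Y → Type) [∀ y, CommRing (F y)]
  [∀ y, Fintype (F y)] [∀ y, DecidableEq (F y)] [∀ y, Algebra (ZMod 19) (F y)]

private theorem cka_shP (Λ : Submodule (ZMod 19) (∀ y, F y)) (j : Fin 3) (z : Λ × Λ) :
    q2 F j (Multiplicative.ofAdd z.1.1) * q1 F j (Multiplicative.ofAdd z.2.1) =
      shP F j (Multiplicative.ofAdd (cka_j F Λ z)) := by
  show shP F j (Multiplicative.ofAdd fun y x _ => z.1.1 y * x ^ 2) *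
    shP F j (Multiplicative.ofAdd fun y x _ => z.2.1 y * x) = _
  rw [← map_mul]
  rfl

private theorem cka_conj (Λ : Submodule (ZMod 19) (∀ y, F y)) (j : Fin 3)
    (b : Multiplicative (Λ × Λ)) (u : cka_U F Λ) :
    shP F (j + 1) (Multiplicative.ofAdd (cka_j F Λ (Multiplicative.toAdd b))) *
      shP F j (Multiplicative.ofAdd u.1) *
      (shP F (j + 1) (Multiplicative.ofAdd (cka_j F Λ (Multiplicative.toAdd b))))⁻¹ =
    shP F j (Multiplicative.ofAdd (cka_a F Λ b u).1) := by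
  have h1 := shP_conj1 F j u.1 (fun y c => (-(Multiplicative.toAdd b).1.1 y) * c ^ 2 +
    (-(Multiplicative.toAdd b).2.1 y) * c) (fun y => by ring)
  have h2 : shP F (j + 1) (Multiplicative.ofAdd fun y x _ =>
      (-(Multiplicative.toAdd b).1.1 y) * x ^ 2 + (-(Multiplicative.toAdd b).2.1 y) * x) =
      (shP F (j + 1) (Multiplicative.ofAdd (cka_j F Λ (Multiplicative.toAdd b))))⁻¹ := by
    rw [← map_inv]
    congr 1
    apply Multiplicative.toAdd.injective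
    funext y x t
    show (-(Multiplicative.toAdd b).1.1 y) * x ^ 2 + (-(Multiplicative.toAdd b).2.1 y) * x =
      -((Multiplicative.toAdd b).1.1 y * x ^ 2 + (Multiplicative.toAdd b).2.1 y * x)
    ring
  rw [h2, inv_inv] at h1
  exact h1

end

/-- The angle between consecutive generating subgroups. -/
theorem ck_angle {Y : Type} [Fintype Y] [DecidableEq Y] (F : Y → Type) [∀ y, CommRing (F y)]
    [∀ y, Fintype (F y)] [∀ y, DecidableEq (F y)] [∀ y, Algebra (ZMod 19) (F y)]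
    (Λ : Submodule (ZMod 19) (∀ y, F y)) [Fintype Λ] (j : Fin 3)
    {V : Type} [NormedAddCommGroup V] [InnerProductSpace ℂ V] [FiniteDimensional ℂ V]
    (ρ : (∀ y, alternatingGroup (Om (F y))) →* (V ≃ₗᵢ[ℂ] V))
    (P : V →ₗ[ℂ] V) (hP : ∀ v, P v = ((Fintype.card (Λ × Λ) : ℂ))⁻¹ • ∑ z : Λ × Λ,
      ρ (q2 F j (Multiplicative.ofAdd z.1.1) * q1 F j (Multiplicative.ofAdd z.2.1)) v)
    (w : V) (hw : ∀ a ∈ Λ, ∀ b ∈ Λ, ρ (q2 F (j + 1) (Multiplicative.ofAdd a) *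
      q1 F (j + 1) (Multiplicative.ofAdd b)) w = w)
    (hperp : ∀ u, (∀ a ∈ Λ, ∀ b ∈ Λ, ρ (q2 F j (Multiplicative.ofAdd a) *
      q1 F j (Multiplicative.ofAdd b)) u = u) →
      (∀ a ∈ Λ, ∀ b ∈ Λ, ρ (q2 F (j + 1) (Multiplicative.ofAdd a) *
      q1 F (j + 1) (Multiplicative.ofAdd b)) u = u) → inner ℂ u w = 0) :
    ‖P w‖ ≤ 1 / 3 * ‖w‖ := by
  classical
  let _ : Fintype (cka_U F Λ) := Fintype.ofFinite _
  have key := angle ((shP F j).comp (lmul (cka_U F Λ).subtype))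
    ((shP F (j + 1)).comp (lmul (cka_j F Λ)))
    ((cka_j F Λ).codRestrict (cka_U F Λ) (cka_j_mem F Λ)) (cka_a F Λ)
    (fun b u => cka_conj F Λ j b u) (fun l hl => cka_count F Λ l hl) ρ w
    (fun b => by
      have h1 := hw _ (Multiplicative.toAdd b).1.2 _ (Multiplicative.toAdd b).2.2
      rw [cka_shP] at h1
      exact h1)
    (fun u h1 h2 => by
      refine hperp u (fun a ha b hb => ?_) (fun a ha b hb => ?_)
      · have h3 := h1 (⟨a, ha⟩, ⟨b, hb⟩)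
        have h4 := cka_shP F Λ j (⟨a, ha⟩, ⟨b, hb⟩)
        rw [h4]
        exact h3
      · have h3 := h2 (Multiplicative.ofAdd ((⟨a, ha⟩ : Λ), (⟨b, hb⟩ : Λ)))
        have h4 := cka_shP F Λ (j + 1) (⟨a, ha⟩, ⟨b, hb⟩)
        rw [h4]
        exact h3)
  refine le_trans (le_of_eq ?_) key
  congr 1
  rw [hP, av_apply, Fintype.card_multiplicative]
  congr 1
  refine (Fintype.sum_equiv Multiplicative.toAdd _ _ fun z => ?_).symm
  rw [cka_shP]
  rfl

end Pool.Agent.MPfe8e9bA
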