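import Mathlib
import Pool.Agent.Lib.MP_fe8e9b_al_A.Av
import Pool.Agent.Lib.MP_fe8e9b_al_A.CkA

/-!
# MP_fe8e9b_al, alternating groups: Kazhdan constant of the group generated by quadratic shears, assembly
-/

set_option autoImplicit false

open scoped BigOperators Pointwise

namespace Pool.Agent.MPfe8e9bA

/-- The pure and linear shears in a fixed direction, as one homomorphism. -/
private noncomputable def ckt_hom {Y : Type} (F : Y → Type) [∀ y, CommRing (F y)]
    [∀ y, Fintype (F y)] [∀ y, DecidableEq (F y)] [∀ y, Algebra (ZMod 19) (F y)]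
    (Λ : Submodule (ZMod 19) (∀ y, F y)) (j : Fin 3) :
    Multiplicative (Λ × Λ) →* (∀ y, alternatingGroup (Om (F y))) where
  toFun z := q2 F j (Multiplicative.ofAdd ((Multiplicative.toAdd z).1.1)) *
    q1 F j (Multiplicative.ofAdd ((Multiplicative.toAdd z).2.1))
  map_one' := by
    have h1 : q2 F j (Multiplicative.ofAdd ((Multiplicative.toAdd
        (1 : Multiplicative (Λ × Λ))).1.1)) = 1 := map_one (q2 F j)
    have h2 : q1 F j (Multiplicative.ofAdd ((Multiplicative.toAdd
        (1 : Multiplicative (Λ × Λ))).2.1)) = 1 := map_one (q1 F j)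
    rw [h1, h2, mul_one]
  map_mul' a b := by
    have h1 : q2 F j (Multiplicative.ofAdd ((Multiplicative.toAdd (a * b)).1.1)) =
        q2 F j (Multiplicative.ofAdd ((Multiplicative.toAdd a).1.1)) *
        q2 F j (Multiplicative.ofAdd ((Multiplicative.toAdd b).1.1)) := map_mul (q2 F j) _ _
    have h2 : q1 F j (Multiplicative.ofAdd ((Multiplicative.toAdd (a * b)).2.1)) =
        q1 F j (Multiplicative.ofAdd ((Multiplicative.toAdd a).2.1)) *
        q1 F j (Multiplicative.ofAdd ((Multiplicative.toAdd b).2.1)) := map_mul (q1 F j) _ _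
    have h3 : Commute (q2 F j (Multiplicative.ofAdd ((Multiplicative.toAdd b).1.1)))
        (q1 F j (Multiplicative.ofAdd ((Multiplicative.toAdd a).2.1))) :=
      (Commute.all _ _).map (shP F j)
    rw [h1, h2, mul_assoc, mul_assoc, ← mul_assoc (q2 F j _) (q1 F j _) (q1 F j _),
      ← mul_assoc (q1 F j _) (q2 F j _) (q1 F j _), h3.eq]

/-- The subgroup generated by the shears with coefficients in `Λ` has Kazhdan constant bounded
below, with respect to the shears with coefficients in `Λ`. -/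
theorem ckt {Y : Type} [Fintype Y] [DecidableEq Y] (F : Y → Type) [∀ y, CommRing (F y)]
    [∀ y, Fintype (F y)] [∀ y, DecidableEq (F y)] [∀ y, Algebra (ZMod 19) (F y)]
    (Λ : Submodule (ZMod 19) (∀ y, F y)) :
    Kz (ckS F Λ) 6 (Subgroup.closure (ckS F Λ) : Set (∀ y, alternatingGroup (Om (F y)))) := by
  classical
  let _ : Fintype Λ := Fintype.ofFinite Λ
  intro V _ _ _ ρ v δ hδ hs t ht
  have hfix : ∀ (j : Fin 3) (u : V), av (ρ.comp (ckt_hom F Λ j)) u = u ↔
      ∀ a ∈ Λ, ∀ b ∈ Λ, ρ (q2 F j (Multiplicative.ofAdd a) *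
        q1 F j (Multiplicative.ofAdd b)) u = u := by
    intro j u
    rw [av_eq_iff]
    constructor
    · intro h a ha b hb
      exact h (Multiplicative.ofAdd ((⟨a, ha⟩ : Λ), (⟨b, hb⟩ : Λ)))
    · intro h z
      exact h _ (Multiplicative.toAdd z).1.2 _ (Multiplicative.toAdd z).2.2
  obtain ⟨u, hu, hvu⟩ := three_sub (fun j => av (ρ.comp (ckt_hom F Λ j)))
    (fun j => av_symm _) (fun j w => av_idem _ w)
    (by
      intro j w hw hperp
      refine ck_angle F Λ j ρ (av (ρ.comp (ckt_hom F Λ j))) (fun x => ?_) w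
        ((hfix (j + 1) w).1 hw) (fun x h1 h2 => ?_)
      · rw [av_apply, Fintype.card_multiplicative]
        congr 1
        exact Fintype.sum_equiv Multiplicative.toAdd _ _ fun _ => rfl
      · exact hperp x ((hfix j x).2 h1) ((hfix (j + 1) x).2 h2)) v
  have hle : ∀ j : Fin 3, ‖v - av (ρ.comp (ckt_hom F Λ j)) v‖ ^ 2 ≤ δ ^ 2 := by
    intro j
    refine pow_le_pow_left₀ (norm_nonneg _) ?_ 2
    refine norm_sub_av_le _ v fun z => hs _ ?_
    exact ⟨j, _, _, (Multiplicative.toAdd z).1.2, (Multiplicative.toAdd z).2.2, rfl⟩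
  have hd : ‖v - u‖ ≤ 3 * δ := by
    refine le_of_sq_le_sq ?_ (by positivity)
    refine hvu.trans ?_
    have h3 : ∑ j : Fin 3, ‖v - av (ρ.comp (ckt_hom F Λ j)) v‖ ^ 2 ≤ ∑ _j : Fin 3, δ ^ 2 :=
      Finset.sum_le_sum fun j _ => hle j
    rw [Finset.sum_const, Finset.card_univ, Fintype.card_fin, nsmul_eq_mul] at h3
    push_cast at h3
    nlinarith [h3]
  have hut : ρ t u = u := by
    refine Subgroup.closure_induction (p := fun g _ => ρ g u = u) ?_ ?_ ?_ ?_ ht
    · rintro g ⟨j, a, b, ha, hb, rfl⟩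
      exact (hfix j u).1 (hu j) a ha b hb
    · rw [map_one]
      rfl
    · intro g h _ _ hg hh
      rw [map_mul]
      show ρ g (ρ h u) = u
      rw [hh, hg]
    · intro g _ hg
      have h1 : ρ g⁻¹ (ρ g u) = u := by
        have h2 : ρ g⁻¹ (ρ g u) = (ρ (g⁻¹ * g)) u := by
          rw [map_mul]
          rfl
        rw [h2, inv_mul_cancel, map_one]
        rfl
      rwa [hg] at h1
  refine (disp_le_of_fix ρ hut).trans ?_
  linarith

end Pool.Agent.MPfe8e9bA
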