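import Mathlib
import Pool.Agent.Lib.MP_fe8e9b_al_A.Conj

/-!
# MP_fe8e9b_al, alternating groups: generation, linear and quadratic shears
-/

set_option autoImplicit false

open scoped BigOperators Pointwise

namespace Pool.Agent.MPfe8e9bA

section gen1

variable {Y : Type} (F : Y → Type) [∀ y, CommRing (F y)] [∀ y, Fintype (F y)]
  [∀ y, DecidableEq (F y)] [∀ y, Algebra (ZMod 19) (F y)]
  (N : Subgroup (∀ y, alternatingGroup (Om (F y))))

/-- The shears in direction `j` that lie in `N`. -/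
def gen1_P (j : Fin 3) : AddSubgroup (∀ y, F y → F y → F y) where
  carrier := {G | shP F j (Multiplicative.ofAdd G) ∈ N}
  zero_mem' := by
    show shP F j 1 ∈ N
    rw [map_one]
    exact N.one_mem
  add_mem' := by
    intro a b ha hb
    show shP F j (Multiplicative.ofAdd a * Multiplicative.ofAdd b) ∈ N
    rw [map_mul]
    exact N.mul_mem ha hb
  neg_mem' := by
    intro a ha
    show shP F j (Multiplicative.ofAdd a)⁻¹ ∈ N
    rw [map_inv]
    exact N.inv_mem ha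

variable {F N}

theorem gen1_mem {j : Fin 3} {G : ∀ y, F y → F y → F y} :
    G ∈ gen1_P F N j ↔ shP F j (Multiplicative.ofAdd G) ∈ N := Iff.rfl

theorem gen1_conj1 {j : Fin 3} {G : ∀ y, F y → F y → F y} {h : ∀ y, F y → F y}
    (h0 : ∀ y, h y 0 = 0) (hG : G ∈ gen1_P F N j)
    (hh : (fun y x _ => h y x) ∈ gen1_P F N (j + 1)) :
    (fun y b c => G y (b + h y c) c) ∈ gen1_P F N j := by
  rw [gen1_mem, ← shP_conj1 F j G h h0]
  exact N.mul_mem (N.mul_mem (N.inv_mem hh) hG) hh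

theorem gen1_conj2 {j : Fin 3} {G : ∀ y, F y → F y → F y} {h : ∀ y, F y → F y}
    (h0 : ∀ y, h y 0 = 0) (hG : G ∈ gen1_P F N j)
    (hh : (fun y _ x => h y x) ∈ gen1_P F N (j + 2)) :
    (fun y b c => G y b (c + h y b)) ∈ gen1_P F N j := by
  rw [gen1_mem, ← shP_conj2 F j G h h0]
  exact N.mul_mem (N.mul_mem (N.inv_mem hh) hG) hh

/-- The generators. -/
theorem gen1_ck {Λ : Submodule (ZMod 19) (∀ y, F y)} (hN : ckS F Λ ⊆ N) (j : Fin 3)
    {a b : ∀ y, F y} (ha : a ∈ Λ) (hb : b ∈ Λ) :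
    (fun y x _ => a y * x ^ 2 + b y * x) ∈ gen1_P F N j := by
  have h1 : q2 F j (Multiplicative.ofAdd a) * q1 F j (Multiplicative.ofAdd b) ∈ N :=
    hN ⟨j, a, b, ha, hb, rfl⟩
  have e1 : q2 F j (Multiplicative.ofAdd a) =
      shP F j (Multiplicative.ofAdd fun y x _ => a y * x ^ 2) := rfl
  have e2 : q1 F j (Multiplicative.ofAdd b) =
      shP F j (Multiplicative.ofAdd fun y x _ => b y * x) := rfl
  have e3 : (fun y (x : F y) (_ : F y) => a y * x ^ 2 + b y * x) =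
      (fun y x _ => a y * x ^ 2) + fun y x _ => b y * x := rfl
  rw [e1, e2, ← map_mul, ← ofAdd_add] at h1
  rw [gen1_mem, e3]
  exact h1

theorem gen1_mul1 {r s : ∀ y, F y} (hr : ∀ j, (fun y b _ => r y * b) ∈ gen1_P F N j)
    (hs : ∀ j, (fun y b _ => s y * b) ∈ gen1_P F N j) (j : Fin 3) :
    (fun y _ c => (r y * s y) * c) ∈ gen1_P F N j := by
  have h1 := gen1_conj1 (h := fun y x => s y * x) (fun y => mul_zero _) (hr j) (hs (j + 1))
  have h2 := (gen1_P F N j).sub_mem h1 (hr j)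
  convert h2 using 1
  funext y b c
  show r y * s y * c = r y * (b + s y * c) - r y * b
  ring

theorem gen1_mul2 {r s : ∀ y, F y} (hr : ∀ j, (fun y _ c => r y * c) ∈ gen1_P F N j)
    (hs : ∀ j, (fun y _ c => s y * c) ∈ gen1_P F N j) (j : Fin 3) :
    (fun y b _ => (r y * s y) * b) ∈ gen1_P F N j := by
  have h1 := gen1_conj2 (h := fun y x => s y * x) (fun y => mul_zero _) (hr j) (hs (j + 2))
  have h2 := (gen1_P F N j).sub_mem h1 (hr j)
  convert h2 using 1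
  funext y b c
  show r y * s y * b = r y * (c + s y * b) - r y * c
  ring

/-- Linear shears. -/
theorem gen1_lin {Λ : Submodule (ZMod 19) (∀ y, F y)} (h1 : (1 : ∀ y, F y) ∈ Λ)
    (hgen : Algebra.adjoin (ZMod 19) (Λ : Set (∀ y, F y)) = ⊤) (hN : ckS F Λ ⊆ N)
    (r : ∀ y, F y) : (∀ j, (fun y b _ => r y * b) ∈ gen1_P F N j) ∧
      ∀ j, (fun y _ c => r y * c) ∈ gen1_P F N j := by
  have hΛ : ∀ r ∈ Λ, ∀ j, (fun y b _ => r y * b) ∈ gen1_P F N j := by
    intro r hr j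
    have h2 := gen1_ck hN j Λ.zero_mem hr
    convert h2 using 1
    funext y b c
    show r y * b = 0 * b ^ 2 + r y * b
    ring
  have hone1 := hΛ 1 h1
  have hone2 : ∀ j, (fun y (_ : F y) c => (1 : ∀ y, F y) y * c) ∈ gen1_P F N j := by
    intro j
    have h2 := gen1_mul1 hone1 hone1 j
    convert h2 using 1
    funext y b c
    show (1 : F y) * c = 1 * 1 * c
    ring
  have h12 : ∀ r : ∀ y, F y, (∀ j, (fun y b _ => r y * b) ∈ gen1_P F N j) →
      ∀ j, (fun y _ c => r y * c) ∈ gen1_P F N j := by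
    intro r hr j
    have h2 := gen1_mul1 hr hone1 j
    convert h2 using 1
    funext y b c
    show r y * c = r y * 1 * c
    ring
  have h21 : ∀ r : ∀ y, F y, (∀ j, (fun y _ c => r y * c) ∈ gen1_P F N j) →
      ∀ j, (fun y b _ => r y * b) ∈ gen1_P F N j := by
    intro r hr j
    have h2 := gen1_mul2 hr hone2 j
    convert h2 using 1
    funext y b c
    show r y * b = r y * 1 * b
    ring
  have hmem : r ∈ Algebra.adjoin (ZMod 19) (Λ : Set (∀ y, F y)) := by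
    rw [hgen]
    exact Algebra.mem_top
  have hmain : ∀ j, (fun y b _ => r y * b) ∈ gen1_P F N j := by
    induction hmem using Algebra.adjoin_induction with
    | mem x hx => exact hΛ x hx
    | algebraMap k =>
      intro j
      have h2 := (gen1_P F N j).nsmul_mem (hone1 j) k.val
      convert h2 using 1
      funext y b c
      show algebraMap (ZMod 19) (F y) k * b = k.val • ((1 : F y) * b)
      rw [one_mul, nsmul_eq_mul]
      congr 1
      conv_lhs => rw [← ZMod.natCast_zmod_val k]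
      rw [map_natCast]
    | add x z _ _ hx hz =>
      intro j
      have h2 := (gen1_P F N j).add_mem (hx j) (hz j)
      convert h2 using 1
      funext y b c
      show (x y + z y) * b = x y * b + z y * b
      ring
    | mul x z _ _ hx hz => exact gen1_mul2 (h12 x hx) (h12 z hz)
  exact ⟨hmain, h12 r hmain⟩

omit [∀ y, Fintype (F y)] [∀ y, DecidableEq (F y)] in
/-- Division by four. -/
theorem gen1_four (r : ∀ y, F y) : ∃ s : ∀ y, F y, ∀ y, r y = 4 * s y := by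
  refine ⟨fun y => algebraMap (ZMod 19) (F y) 5 * r y, fun y => ?_⟩
  have h1 : (4 : F y) * algebraMap (ZMod 19) (F y) 5 = 1 := by
    have h2 : (4 : F y) = algebraMap (ZMod 19) (F y) 4 := by
      rw [map_ofNat]
    rw [h2, ← map_mul, show (4 : ZMod 19) * 5 = 1 from by decide, map_one]
  rw [← mul_assoc, h1, one_mul]

section gen1b

variable {Λ : Submodule (ZMod 19) (∀ y, F y)}

theorem gen1_sq (h1 : (1 : ∀ y, F y) ∈ Λ) (hN : ckS F Λ ⊆ N) (j : Fin 3) :
    (fun _ b _ => b ^ 2) ∈ gen1_P F N j := by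
  have h2 := gen1_ck hN j h1 Λ.zero_mem
  have e : (fun y (b : F y) (_ : F y) => b ^ 2) =
      fun y x _ => (1 : ∀ y, F y) y * x ^ 2 + (0 : ∀ y, F y) y * x := by
    funext y b c
    show b ^ 2 = 1 * b ^ 2 + 0 * b
    ring
  rw [e]
  exact h2

theorem gen1_p (h1 : (1 : ∀ y, F y) ∈ Λ)
    (hgen : Algebra.adjoin (ZMod 19) (Λ : Set (∀ y, F y)) = ⊤) (hN : ckS F Λ ⊆ N)
    (r : ∀ y, F y) (j : Fin 3) :
    (fun y b c => (b + r y * c) ^ 2) ∈ gen1_P F N j := by
  have h2 := gen1_conj1 (G := fun y b _ => b ^ 2) (h := fun y x => r y * x)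
    (fun y => mul_zero (r y)) (gen1_sq h1 hN j) ((gen1_lin h1 hgen hN r).1 (j + 1))
  exact h2

theorem gen1_bc (h1 : (1 : ∀ y, F y) ∈ Λ)
    (hgen : Algebra.adjoin (ZMod 19) (Λ : Set (∀ y, F y)) = ⊤) (hN : ckS F Λ ⊆ N)
    (r : ∀ y, F y) (j : Fin 3) : (fun y b c => r y * (b * c)) ∈ gen1_P F N j := by
  obtain ⟨s, hs⟩ := gen1_four r
  have h2 := (gen1_P F N j).sub_mem (gen1_p h1 hgen hN s j) (gen1_p h1 hgen hN (fun y => - s y) j)
  have e : (fun y (b c : F y) => r y * (b * c)) =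
      (fun y b c => (b + s y * c) ^ 2) - fun y b c => (b + (fun y => - s y) y * c) ^ 2 := by
    funext y b c
    show r y * (b * c) = (b + s y * c) ^ 2 - (b + - s y * c) ^ 2
    rw [hs y]
    ring
  rw [e]
  exact h2

theorem gen1_2c (h1 : (1 : ∀ y, F y) ∈ Λ)
    (hgen : Algebra.adjoin (ZMod 19) (Λ : Set (∀ y, F y)) = ⊤) (hN : ckS F Λ ⊆ N)
    (r : ∀ y, F y) (j : Fin 3) : (fun y _ c => 2 * r y ^ 2 * c ^ 2) ∈ gen1_P F N j := by
  have h2 := (gen1_P F N j).sub_mem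
    ((gen1_P F N j).add_mem (gen1_p h1 hgen hN r j) (gen1_p h1 hgen hN (fun y => - r y) j))
    ((gen1_P F N j).add_mem (gen1_sq h1 hN j) (gen1_sq h1 hN j))
  have e : (fun y (_ c : F y) => 2 * r y ^ 2 * c ^ 2) =
      ((fun y b c => (b + r y * c) ^ 2) + fun y b c => (b + (fun y => - r y) y * c) ^ 2) -
      ((fun y b _ => b ^ 2) + fun y b _ => b ^ 2) := by
    funext y b c
    show 2 * r y ^ 2 * c ^ 2 = ((b + r y * c) ^ 2 + (b + - r y * c) ^ 2) - (b ^ 2 + b ^ 2)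
    ring
  rw [e]
  exact h2

theorem gen1_cc (h1 : (1 : ∀ y, F y) ∈ Λ)
    (hgen : Algebra.adjoin (ZMod 19) (Λ : Set (∀ y, F y)) = ⊤) (hN : ckS F Λ ⊆ N)
    (r : ∀ y, F y) (j : Fin 3) : (fun y _ c => r y * c ^ 2) ∈ gen1_P F N j := by
  obtain ⟨s, hs⟩ := gen1_four r
  have h2 := (gen1_P F N j).sub_mem
    ((gen1_P F N j).sub_mem (gen1_2c h1 hgen hN (fun y => s y + 1) j) (gen1_2c h1 hgen hN s j))
    (gen1_2c h1 hgen hN (fun _ => 1) j)
  have e : (fun y (_ c : F y) => r y * c ^ 2) =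
      (fun y _ c => 2 * (fun y => s y + 1) y ^ 2 * c ^ 2) - (fun y _ c => 2 * s y ^ 2 * c ^ 2) -
      fun y _ c => 2 * (fun _ => 1 : ∀ y, F y) y ^ 2 * c ^ 2 := by
    funext y b c
    show r y * c ^ 2 = 2 * (s y + 1) ^ 2 * c ^ 2 - 2 * s y ^ 2 * c ^ 2 - 2 * 1 ^ 2 * c ^ 2
    rw [hs y]
    ring
  rw [e]
  exact h2

theorem gen1_bb (h1 : (1 : ∀ y, F y) ∈ Λ)
    (hgen : Algebra.adjoin (ZMod 19) (Λ : Set (∀ y, F y)) = ⊤) (hN : ckS F Λ ⊆ N)
    (r : ∀ y, F y) (j : Fin 3) : (fun y b _ => r y * b ^ 2) ∈ gen1_P F N j := by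
  have h5 := gen1_conj2 (h := fun y x => (1 : ∀ y, F y) y * x) (fun y => mul_zero _)
    (gen1_cc h1 hgen hN r j) ((gen1_lin h1 hgen hN 1).2 (j + 2))
  have h2 := (gen1_P F N j).sub_mem ((gen1_P F N j).sub_mem h5 (gen1_cc h1 hgen hN r j))
    ((gen1_P F N j).add_mem (gen1_bc h1 hgen hN r j) (gen1_bc h1 hgen hN r j))
  have e : (fun y (b _ : F y) => r y * b ^ 2) =
      (fun y b c => (fun y _ c => r y * c ^ 2) y b (c + (fun y x => (1 : ∀ y, F y) y * x) y b)) -
      (fun y _ c => r y * c ^ 2) -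
      ((fun y b c => r y * (b * c)) + fun y b c => r y * (b * c)) := by
    funext y b c
    show r y * b ^ 2 = r y * (c + 1 * b) ^ 2 - r y * c ^ 2 - (r y * (b * c) + r y * (b * c))
    ring
  rw [e]
  exact h2

end gen1b

end gen1

/-- Linear and quadratic shears with arbitrary coefficients. -/
theorem gen_quad {Y : Type} [Fintype Y] [DecidableEq Y] (F : Y → Type) [∀ y, CommRing (F y)]
    [∀ y, Fintype (F y)] [∀ y, DecidableEq (F y)] [∀ y, Algebra (ZMod 19) (F y)]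
    (Λ : Submodule (ZMod 19) (∀ y, F y)) (h1 : (1 : ∀ y, F y) ∈ Λ)
    (hgen : Algebra.adjoin (ZMod 19) (Λ : Set (∀ y, F y)) = ⊤)
    (N : Subgroup (∀ y, alternatingGroup (Om (F y)))) (hN : ckS F Λ ⊆ N) (j : Fin 3)
    (r : ∀ y, F y) :
    shP F j (Multiplicative.ofAdd fun y b _ => r y * b) ∈ N ∧
    shP F j (Multiplicative.ofAdd fun y _ c => r y * c) ∈ N ∧
    shP F j (Multiplicative.ofAdd fun y b _ => r y * b ^ 2) ∈ N ∧
    shP F j (Multiplicative.ofAdd fun y b c => r y * (b * c)) ∈ N ∧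
    shP F j (Multiplicative.ofAdd fun y _ c => r y * c ^ 2) ∈ N := by
  exact ⟨gen1_mem.1 ((gen1_lin h1 hgen hN r).1 j), gen1_mem.1 ((gen1_lin h1 hgen hN r).2 j),
    gen1_mem.1 (gen1_bb h1 hgen hN r j), gen1_mem.1 (gen1_bc h1 hgen hN r j),
    gen1_mem.1 (gen1_cc h1 hgen hN r j)⟩

end Pool.Agent.MPfe8e9bA
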