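import Mathlib
import Pool.Agent.Lib.MP_fe8e9b_al_A.Conj

/-!
# MP_fe8e9b_al, alternating groups: generation, shears by functions of one variable
-/

set_option autoImplicit false

open scoped BigOperators Pointwise

namespace Pool.Agent.MPfe8e9bA

section gen2

variable {Y : Type} (F : Y → Type) [∀ y, CommRing (F y)] [∀ y, Fintype (F y)]
  [∀ y, DecidableEq (F y)] [∀ y, Algebra (ZMod 19) (F y)]

omit [∀ y, Fintype (F y)] [∀ y, DecidableEq (F y)] in
private theorem gen2_19 (y : Y) : (19 : F y) = 0 := by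
  have h : algebraMap (ZMod 19) (F y) ((19 : ℕ) : ZMod 19) = ((19 : ℕ) : F y) :=
    map_natCast (algebraMap (ZMod 19) (F y)) 19
  rw [ZMod.natCast_self, map_zero] at h
  have h2 : ((19 : ℕ) : F y) = (19 : F y) := by norm_num
  rw [← h2, ← h]

/-- Shears in direction `j` lying in `N`. -/
private def gen2_T (N : Subgroup (∀ y, alternatingGroup (Om (F y)))) (j : Fin 3) :
    AddSubgroup (∀ y, F y → F y → F y) where
  carrier := {G | shP F j (Multiplicative.ofAdd G) ∈ N}
  zero_mem' := by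
    show shP F j (Multiplicative.ofAdd 0) ∈ N
    rw [ofAdd_zero, map_one]
    exact N.one_mem
  add_mem' := by
    intro a b ha hb
    show shP F j (Multiplicative.ofAdd (a + b)) ∈ N
    rw [ofAdd_add, map_mul]
    exact N.mul_mem ha hb
  neg_mem' := by
    intro a ha
    show shP F j (Multiplicative.ofAdd (-a)) ∈ N
    rw [ofAdd_neg, map_inv]
    exact N.inv_mem ha

/-- Functions of one variable all of whose shears are in `N`. -/
private def gen2_U (N : Subgroup (∀ y, alternatingGroup (Om (F y)))) :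
    AddSubgroup (∀ y, F y → F y) where
  carrier := {h | (∀ y, h y 0 = 0) ∧ ∀ j, (fun y b _ => h y b) ∈ gen2_T F N j ∧
    (fun y _ c => h y c) ∈ gen2_T F N j}
  zero_mem' := ⟨fun _ => rfl, fun j => ⟨(gen2_T F N j).zero_mem, (gen2_T F N j).zero_mem⟩⟩
  add_mem' := by
    rintro a b ⟨ha, ha'⟩ ⟨hb, hb'⟩
    refine ⟨fun y => ?_, fun j => ⟨(gen2_T F N j).add_mem (ha' j).1 (hb' j).1,
      (gen2_T F N j).add_mem (ha' j).2 (hb' j).2⟩⟩
    show a y 0 + b y 0 = 0
    rw [ha, hb, add_zero]
  neg_mem' := by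
    rintro a ⟨ha, ha'⟩
    refine ⟨fun y => ?_, fun j => ⟨(gen2_T F N j).neg_mem (ha' j).1,
      (gen2_T F N j).neg_mem (ha' j).2⟩⟩
    show - a y 0 = 0
    rw [ha, neg_zero]

private theorem gen2_conj1 (N : Subgroup (∀ y, alternatingGroup (Om (F y)))) (j : Fin 3)
    (G : ∀ y, F y → F y → F y) (hG : G ∈ gen2_T F N j) (h : ∀ y, F y → F y)
    (hh : h ∈ gen2_U F N) : (fun y b c => G y (b + h y c) c) ∈ gen2_T F N j := by
  show shP F j (Multiplicative.ofAdd fun y b c => G y (b + h y c) c) ∈ N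
  rw [← shP_conj1 F j G h hh.1]
  exact N.mul_mem (N.mul_mem (N.inv_mem (hh.2 (j + 1)).1) hG) (hh.2 (j + 1)).1

private theorem gen2_conj2 (N : Subgroup (∀ y, alternatingGroup (Om (F y)))) (j : Fin 3)
    (G : ∀ y, F y → F y → F y) (hG : G ∈ gen2_T F N j) (h : ∀ y, F y → F y)
    (hh : h ∈ gen2_U F N) : (fun y b c => G y b (c + h y b)) ∈ gen2_T F N j := by
  show shP F j (Multiplicative.ofAdd fun y b c => G y b (c + h y b)) ∈ N
  rw [← shP_conj2 F j G h hh.1]
  exact N.mul_mem (N.mul_mem (N.inv_mem (hh.2 (j + 2)).2) hG) (hh.2 (j + 2)).2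

private theorem gen2_sq (N : Subgroup (∀ y, alternatingGroup (Om (F y))))
    (h1 : ∀ (j : Fin 3) (r : ∀ y, F y), (fun y b _ => r y * b ^ 2) ∈ gen2_T F N j)
    (h2 : ∀ (j : Fin 3) (r : ∀ y, F y), (fun y _ c => r y * c ^ 2) ∈ gen2_T F N j)
    (h : ∀ y, F y → F y) (hh : h ∈ gen2_U F N) (r : ∀ y, F y) :
    (fun y b => r y * h y b ^ 2) ∈ gen2_U F N := by
  refine ⟨fun y => ?_, fun j => ⟨?_, ?_⟩⟩
  · show r y * h y 0 ^ 2 = 0
    rw [hh.1]
    ring
  · have a1 := gen2_conj2 F N j _ (h2 j fun y => 10 * r y) h hh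
    have a2 := gen2_conj2 F N j _ (h2 j fun y => 10 * r y) (-h) ((gen2_U F N).neg_mem hh)
    have a3 := h2 j fun y => 20 * r y
    have a4 := (gen2_T F N j).sub_mem ((gen2_T F N j).add_mem a1 a2) a3
    have e : (fun y b c => 10 * r y * (c + h y b) ^ 2 : ∀ y, F y → F y → F y) +
        (fun y b c => 10 * r y * (c + (-h) y b) ^ 2) - (fun y _ c => 20 * r y * c ^ 2) =
        fun y b _ => r y * h y b ^ 2 := by
      funext y b c
      show 10 * r y * (c + h y b) ^ 2 + 10 * r y * (c + - h y b) ^ 2 - 20 * r y * c ^ 2 =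
        r y * h y b ^ 2
      linear_combination (r y * h y b ^ 2) * gen2_19 F y
    rw [← e]
    exact a4
  · have a1 := gen2_conj1 F N j _ (h1 j fun y => 10 * r y) h hh
    have a2 := gen2_conj1 F N j _ (h1 j fun y => 10 * r y) (-h) ((gen2_U F N).neg_mem hh)
    have a3 := h1 j fun y => 20 * r y
    have a4 := (gen2_T F N j).sub_mem ((gen2_T F N j).add_mem a1 a2) a3
    have e : (fun y b c => 10 * r y * (b + h y c) ^ 2 : ∀ y, F y → F y → F y) +
        (fun y b c => 10 * r y * (b + (-h) y c) ^ 2) - (fun y b _ => 20 * r y * b ^ 2) =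
        fun y _ c => r y * h y c ^ 2 := by
      funext y b c
      show 10 * r y * (b + h y c) ^ 2 + 10 * r y * (b + - h y c) ^ 2 - 20 * r y * b ^ 2 =
        r y * h y c ^ 2
      linear_combination (r y * h y c ^ 2) * gen2_19 F y
    rw [← e]
    exact a4

private theorem gen2_mul (N : Subgroup (∀ y, alternatingGroup (Om (F y))))
    (h1 : ∀ (j : Fin 3) (r : ∀ y, F y), (fun y b _ => r y * b ^ 2) ∈ gen2_T F N j)
    (h2 : ∀ (j : Fin 3) (r : ∀ y, F y), (fun y _ c => r y * c ^ 2) ∈ gen2_T F N j)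
    (h k : ∀ y, F y → F y) (hh : h ∈ gen2_U F N) (hk : k ∈ gen2_U F N) :
    (fun y b => h y b * k y b) ∈ gen2_U F N := by
  have a1 := gen2_sq F N h1 h2 (h + k) ((gen2_U F N).add_mem hh hk) fun y => 10
  have a2 := gen2_sq F N h1 h2 h hh fun y => 10
  have a3 := gen2_sq F N h1 h2 k hk fun y => 10
  have a4 := (gen2_U F N).sub_mem ((gen2_U F N).sub_mem a1 a2) a3
  have e : (fun y b => 10 * (h + k) y b ^ 2 : ∀ y, F y → F y) - (fun y b => 10 * h y b ^ 2) -
      (fun y b => 10 * k y b ^ 2) = fun y b => h y b * k y b := by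
    funext y b
    show 10 * (h y b + k y b) ^ 2 - 10 * h y b ^ 2 - 10 * k y b ^ 2 = h y b * k y b
    linear_combination (h y b * k y b) * gen2_19 F y
  rw [← e]
  exact a4

private theorem gen2_prod [DecidableEq Y] (N : Subgroup (∀ y, alternatingGroup (Om (F y))))
    (h0 : ∀ (r : ∀ y, F y), (fun y b => r y * b) ∈ gen2_U F N)
    (h1 : ∀ (j : Fin 3) (r : ∀ y, F y), (fun y b _ => r y * b ^ 2) ∈ gen2_T F N j)
    (h2 : ∀ (j : Fin 3) (r : ∀ y, F y), (fun y _ c => r y * c ^ 2) ∈ gen2_T F N j)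
    (y0 : Y) (S : Finset (F y0)) : ∀ r : F y0,
    (Pi.single y0 (fun b => r * b * ∏ w ∈ S, (b - w)) : ∀ y, F y → F y) ∈ gen2_U F N := by
  induction S using Finset.induction_on with
  | empty =>
    intro r
    have e : (Pi.single y0 (fun b => r * b * ∏ w ∈ (∅ : Finset (F y0)), (b - w)) :
        ∀ y, F y → F y) = fun y b => (Pi.single y0 r : ∀ y, F y) y * b := by
      funext y b
      by_cases hy : y = y0
      · subst hy
        rw [Pi.single_eq_same, Pi.single_eq_same]
        simp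
      · rw [Pi.single_eq_of_ne hy, Pi.single_eq_of_ne hy]
        simp
    rw [e]
    exact h0 _
  | insert w S hw ih =>
    intro r
    have a1 := gen2_mul F N h1 h2 _ _ (h0 fun _ => 1) (ih r)
    have a2 := (gen2_U F N).sub_mem a1 (ih (w * r))
    have e : (fun y b => 1 * b * (Pi.single y0 (fun b => r * b * ∏ w ∈ S, (b - w)) :
        ∀ y, F y → F y) y b : ∀ y, F y → F y) -
        Pi.single y0 (fun b => w * r * b * ∏ w ∈ S, (b - w)) =
        Pi.single y0 (fun b => r * b * ∏ w ∈ insert w S, (b - w)) := by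
      funext y b
      rw [Pi.sub_apply, Pi.sub_apply]
      by_cases hy : y = y0
      · subst hy
        rw [Pi.single_eq_same, Pi.single_eq_same, Pi.single_eq_same]
        rw [Finset.prod_insert hw]
        ring
      · rw [Pi.single_eq_of_ne hy, Pi.single_eq_of_ne hy, Pi.single_eq_of_ne hy]
        simp
    rw [← e]
    exact a2

end gen2

private theorem gen2_ind {Y : Type} [DecidableEq Y] (F : Y → Type) [∀ y, Field (F y)]
    [∀ y, Fintype (F y)] [∀ y, DecidableEq (F y)] [∀ y, Algebra (ZMod 19) (F y)]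
    (N : Subgroup (∀ y, alternatingGroup (Om (F y))))
    (h0 : ∀ (r : ∀ y, F y), (fun y b => r y * b) ∈ gen2_U F N)
    (h1 : ∀ (j : Fin 3) (r : ∀ y, F y), (fun y b _ => r y * b ^ 2) ∈ gen2_T F N j)
    (h2 : ∀ (j : Fin 3) (r : ∀ y, F y), (fun y _ c => r y * c ^ 2) ∈ gen2_T F N j)
    (y0 : Y) (u s : F y0) (hu : u ≠ 0) :
    (Pi.single y0 (fun b => if b = u then s else 0) : ∀ y, F y → F y) ∈ gen2_U F N := by
  have hne : u * ∏ w ∈ (Finset.univ.erase u), (u - w) ≠ 0 := by
    refine mul_ne_zero hu (Finset.prod_ne_zero_iff.2 fun w hw => sub_ne_zero.2 ?_)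
    exact (Finset.ne_of_mem_erase hw).symm
  have a := gen2_prod F N h0 h1 h2 y0 (Finset.univ.erase u)
    (s / (u * ∏ w ∈ (Finset.univ.erase u), (u - w)))
  have e : (fun b : F y0 => if b = u then s else 0) = fun b =>
      s / (u * ∏ w ∈ (Finset.univ.erase u), (u - w)) * b *
        ∏ w ∈ (Finset.univ.erase u), (b - w) := by
    funext b
    split_ifs with hb
    · subst hb
      rw [mul_assoc, div_mul_cancel₀ _ hne]
    · rw [Finset.prod_eq_zero (Finset.mem_erase.2 ⟨hb, Finset.mem_univ b⟩) (sub_self b),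
        mul_zero]
  rw [e]
  exact a

/-- Shears by functions of one variable. -/
theorem gen_uni {Y : Type} [Fintype Y] [DecidableEq Y] (F : Y → Type) [∀ y, Field (F y)]
    [∀ y, Fintype (F y)] [∀ y, DecidableEq (F y)] [∀ y, Algebra (ZMod 19) (F y)]
    (N : Subgroup (∀ y, alternatingGroup (Om (F y))))
    (hN : ∀ (j : Fin 3) (r : ∀ y, F y),
      shP F j (Multiplicative.ofAdd fun y b _ => r y * b) ∈ N ∧
      shP F j (Multiplicative.ofAdd fun y _ c => r y * c) ∈ N ∧
      shP F j (Multiplicative.ofAdd fun y b _ => r y * b ^ 2) ∈ N ∧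
      shP F j (Multiplicative.ofAdd fun y _ c => r y * c ^ 2) ∈ N)
    (j : Fin 3) (h : ∀ y, F y → F y) (h0 : ∀ y, h y 0 = 0) :
    shP F j (Multiplicative.ofAdd fun y b _ => h y b) ∈ N ∧
    shP F j (Multiplicative.ofAdd fun y _ c => h y c) ∈ N := by
  have g0 : ∀ (r : ∀ y, F y), (fun y b => r y * b) ∈ gen2_U F N := fun r =>
    ⟨fun y => mul_zero _, fun j => ⟨(hN j r).1, (hN j r).2.1⟩⟩
  have g1 : ∀ (j : Fin 3) (r : ∀ y, F y), (fun y b _ => r y * b ^ 2) ∈ gen2_T F N j :=
    fun j r => (hN j r).2.2.1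
  have g2 : ∀ (j : Fin 3) (r : ∀ y, F y), (fun y _ c => r y * c ^ 2) ∈ gen2_T F N j :=
    fun j r => (hN j r).2.2.2
  have key : h ∈ gen2_U F N := by
    have e : h = ∑ y0, ∑ u ∈ (Finset.univ : Finset (F y0)).erase 0,
        (Pi.single y0 (fun b => if b = u then h y0 u else 0) : ∀ y, F y → F y) := by
      funext y b
      rw [Finset.sum_apply, Finset.sum_apply, Finset.sum_eq_single y]
      · rw [Finset.sum_apply, Finset.sum_apply]
        simp only [Pi.single_eq_same]
        by_cases hb : b = 0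
        · subst hb
          rw [h0]
          symm
          refine Finset.sum_eq_zero fun u hu => ?_
          rw [if_neg]
          exact fun h3 => Finset.ne_of_mem_erase hu h3.symm
        · rw [Finset.sum_eq_single b]
          · rw [if_pos rfl]
          · intro u _ hub
            rw [if_neg]
            exact fun h3 => hub h3.symm
          · intro h3
            exact absurd (Finset.mem_erase.2 ⟨hb, Finset.mem_univ b⟩) h3
      · intro y' _ hy'
        rw [Finset.sum_apply, Finset.sum_apply]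
        refine Finset.sum_eq_zero fun u _ => ?_
        rw [Pi.single_eq_of_ne (Ne.symm hy')]
        rfl
      · intro h3
        exact absurd (Finset.mem_univ y) h3
    rw [e]
    refine (gen2_U F N).sum_mem fun y0 _ => (gen2_U F N).sum_mem fun u hu => ?_
    exact gen2_ind F N g0 g1 g2 y0 u (h y0 u) (Finset.ne_of_mem_erase hu)
  exact key.2 j

end Pool.Agent.MPfe8e9bA
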