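import Mathlib
import Pool.Agent.Lib.MP_fe8e9b_al_A.Conj

/-!
# MP_fe8e9b_al, alternating groups: generation, shears supported on two lines
-/

set_option autoImplicit false

open scoped BigOperators Pointwise

namespace Pool.Agent.MPfe8e9bA

open Classical in
/-- The function with value `r` at `p`, value `-r` at `p'` and `0` elsewhere. -/
noncomputable def dd {F : Type} [Field F] (r : F) (p p' : F × F) : F → F → F :=
  fun b c => (if (b, c) = p then r else 0) - (if (b, c) = p' then r else 0)

theorem gen3_dd_add {F : Type} [Field F] (r : F) (p p' p'' : F × F) :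
    dd r p p' + dd r p' p'' = dd r p p'' := by
  funext b c
  show dd r p p' b c + dd r p' p'' b c = dd r p p'' b c
  unfold dd
  ring

theorem gen3_dd_neg {F : Type} [Field F] (r : F) (p p' : F × F) :
    - dd r p p' = dd r p' p := by
  funext b c
  show - dd r p p' b c = dd r p' p b c
  unfold dd
  ring

section

variable {Y : Type} [Fintype Y] [DecidableEq Y] (F : Y → Type) [∀ y, Field (F y)]
    [∀ y, Fintype (F y)] [∀ y, DecidableEq (F y)] [∀ y, Algebra (ZMod 19) (F y)]

omit [Fintype Y] in
theorem gen3_single (j : Fin 3) (y : Y) (g : F y → F y → F y) :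
    shP F j (Multiplicative.ofAdd (Pi.single (M := fun y' => F y' → F y' → F y') y g)) =
      Pi.mulSingle y (shA j (Multiplicative.ofAdd g)) := by
  funext y'
  show shA j (Multiplicative.ofAdd ((Pi.single (M := fun y' => F y' → F y' → F y') y g) y')) =
    (Pi.mulSingle y (shA j (Multiplicative.ofAdd g)) : ∀ y, alternatingGroup (Om (F y))) y'
  rcases eq_or_ne y' y with rfl | hne
  · rw [Pi.single_eq_same, Pi.mulSingle_eq_same]
  · rw [Pi.single_eq_of_ne hne, Pi.mulSingle_eq_of_ne hne]
    exact map_one (shA j)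

omit [Fintype Y] [∀ y, Fintype (F y)] [∀ y, DecidableEq (F y)] in
theorem gen3_h0 (y : Y) (H : F y → F y) (hH : H 0 = 0) (y' : Y) :
    (Pi.single (M := fun y' => F y' → F y') y H) y' 0 = 0 := by
  rcases eq_or_ne y' y with rfl | hne
  · rw [Pi.single_eq_same]
    exact hH
  · rw [Pi.single_eq_of_ne hne]
    rfl

variable (N : Subgroup (∀ y, alternatingGroup (Om (F y))))
    (hN : ∀ (j : Fin 3) (h : ∀ y, F y → F y), (∀ y, h y 0 = 0) →
      shP F j (Multiplicative.ofAdd fun y b _ => h y b) ∈ N ∧
      shP F j (Multiplicative.ofAdd fun y _ c => h y c) ∈ N)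

include hN

omit [Fintype Y] in
theorem gen3_A1 (j : Fin 3) (y : Y) (H : F y → F y) (hH : H 0 = 0) :
    (Pi.mulSingle y (shA j (Multiplicative.ofAdd fun b _ => H b)) :
      ∀ y, alternatingGroup (Om (F y))) ∈ N := by
  have h1 := (hN j (Pi.single (M := fun y' => F y' → F y') y H) (gen3_h0 F y H hH)).1
  have h2 : (fun y' b (_ : F y') => (Pi.single (M := fun y' => F y' → F y') y H) y' b) =
      Pi.single (M := fun y' => F y' → F y' → F y') y (fun b _ => H b) := by
    funext y' b c
    rcases eq_or_ne y' y with rfl | hne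
    · rw [Pi.single_eq_same, Pi.single_eq_same]
    · rw [Pi.single_eq_of_ne hne, Pi.single_eq_of_ne hne]
      rfl
  rw [h2, gen3_single] at h1
  exact h1

omit [Fintype Y] in
theorem gen3_A2 (j : Fin 3) (y : Y) (H : F y → F y) (hH : H 0 = 0) :
    (Pi.mulSingle y (shA j (Multiplicative.ofAdd fun _ c => H c)) :
      ∀ y, alternatingGroup (Om (F y))) ∈ N := by
  have h1 := (hN j (Pi.single (M := fun y' => F y' → F y') y H) (gen3_h0 F y H hH)).2
  have h2 : (fun y' (_ : F y') c => (Pi.single (M := fun y' => F y' → F y') y H) y' c) =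
      Pi.single (M := fun y' => F y' → F y' → F y') y (fun _ c => H c) := by
    funext y' b c
    rcases eq_or_ne y' y with rfl | hne
    · rw [Pi.single_eq_same, Pi.single_eq_same]
    · rw [Pi.single_eq_of_ne hne, Pi.single_eq_of_ne hne]
      rfl
  rw [h2, gen3_single] at h1
  exact h1

omit [Fintype Y] in
theorem gen3_B1 (j : Fin 3) (y : Y) (H G : F y → F y) (hH : H 0 = 0) (hG : G 0 = 0) :
    (Pi.mulSingle y (shA j (Multiplicative.ofAdd fun b c => H (b + G c))) :
      ∀ y, alternatingGroup (Om (F y))) ∈ N := by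
  have h1 := gen3_A1 F N hN j y H hH
  have h2 := (hN (j + 1) (Pi.single (M := fun y' => F y' → F y') y G) (gen3_h0 F y G hG)).1
  have h3 := shP_conj1 F j (Pi.single (M := fun y' => F y' → F y' → F y') y (fun b _ => H b))
    (Pi.single (M := fun y' => F y' → F y') y G) (gen3_h0 F y G hG)
  have h4 : (fun y' b c => (Pi.single (M := fun y' => F y' → F y' → F y') y (fun b _ => H b)) y'
      (b + (Pi.single (M := fun y' => F y' → F y') y G) y' c) c) =
      Pi.single (M := fun y' => F y' → F y' → F y') y (fun b c => H (b + G c)) := by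
    funext y' b c
    rcases eq_or_ne y' y with rfl | hne
    · rw [Pi.single_eq_same, Pi.single_eq_same, Pi.single_eq_same]
    · rw [Pi.single_eq_of_ne hne, Pi.single_eq_of_ne hne, Pi.single_eq_of_ne hne]
      rfl
  rw [h4, gen3_single, gen3_single] at h3
  rw [← h3]
  exact N.mul_mem (N.mul_mem (N.inv_mem h2) h1) h2

omit [Fintype Y] in
theorem gen3_B2 (j : Fin 3) (y : Y) (H G : F y → F y) (hH : H 0 = 0) (hG : G 0 = 0) :
    (Pi.mulSingle y (shA j (Multiplicative.ofAdd fun b c => H (c + G b))) :
      ∀ y, alternatingGroup (Om (F y))) ∈ N := by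
  have h1 := gen3_A2 F N hN j y H hH
  have h2 := (hN (j + 2) (Pi.single (M := fun y' => F y' → F y') y G) (gen3_h0 F y G hG)).2
  have h3 := shP_conj2 F j (Pi.single (M := fun y' => F y' → F y' → F y') y (fun _ c => H c))
    (Pi.single (M := fun y' => F y' → F y') y G) (gen3_h0 F y G hG)
  have h4 : (fun y' b c => (Pi.single (M := fun y' => F y' → F y' → F y') y (fun _ c => H c)) y'
      b (c + (Pi.single (M := fun y' => F y' → F y') y G) y' b)) =
      Pi.single (M := fun y' => F y' → F y' → F y') y (fun b c => H (c + G b)) := by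
    funext y' b c
    rcases eq_or_ne y' y with rfl | hne
    · rw [Pi.single_eq_same, Pi.single_eq_same, Pi.single_eq_same]
    · rw [Pi.single_eq_of_ne hne, Pi.single_eq_of_ne hne, Pi.single_eq_of_ne hne]
      rfl
  rw [h4, gen3_single, gen3_single] at h3
  rw [← h3]
  exact N.mul_mem (N.mul_mem (N.inv_mem h2) h1) h2

omit hN [Fintype Y] in
theorem gen3_mul (j : Fin 3) (y : Y) (g h : F y → F y → F y) :
    (Pi.mulSingle y (shA j (Multiplicative.ofAdd (g + h))) :
      ∀ y, alternatingGroup (Om (F y))) =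
    Pi.mulSingle y (shA j (Multiplicative.ofAdd g)) *
      Pi.mulSingle y (shA j (Multiplicative.ofAdd h)) := by
  rw [ofAdd_add, map_mul, Pi.mulSingle_mul]

omit hN [Fintype Y] in
theorem gen3_neg (j : Fin 3) (y : Y) (g : F y → F y → F y) :
    (Pi.mulSingle y (shA j (Multiplicative.ofAdd (-g))) :
      ∀ y, alternatingGroup (Om (F y))) =
    (Pi.mulSingle y (shA j (Multiplicative.ofAdd g)))⁻¹ := by
  rw [ofAdd_neg, map_inv, Pi.mulSingle_inv]

omit [Fintype Y] in
theorem gen3_hor (j : Fin 3) (y : Y) (r u w b1 : F y) (hu : u ≠ 0) (hw : w ≠ 0) :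
    (Pi.mulSingle y (shA j (Multiplicative.ofAdd (dd r (b1, w) (u, w)))) :
      ∀ y, alternatingGroup (Om (F y))) ∈ N := by
  have hH : (fun b : F y => if b = u then r else 0) 0 = 0 := if_neg hu.symm
  have hG : (fun c : F y => if c = w then u - b1 else 0) 0 = 0 := if_neg hw.symm
  have h1 := gen3_B1 F N hN j y (fun b => if b = u then r else 0)
    (fun c => if c = w then u - b1 else 0) hH hG
  have h2 := gen3_A1 F N hN j y (fun b => if b = u then r else 0) hH
  have h3 : dd r (b1, w) (u, w) =
      (fun b c => if b + (if c = w then u - b1 else 0) = u then r else 0) +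
        -(fun b _ => if b = u then r else 0) := by
    funext b c
    show dd r (b1, w) (u, w) b c = (if b + (if c = w then u - b1 else 0) = u then r else 0) +
      -(if b = u then r else 0)
    unfold dd
    simp only [Prod.mk.injEq]
    by_cases hc : c = w
    · have e1 : (b = b1 ∧ c = w) ↔ b + (u - b1) = u := by
        constructor
        · rintro ⟨h, -⟩
          rw [h]
          ring
        · intro h
          exact ⟨by linear_combination h, hc⟩
      have e2 : (b = u ∧ c = w) ↔ b = u := ⟨fun h => h.1, fun h => ⟨h, hc⟩⟩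
      simp only [e1, e2, if_pos hc]
      ring
    · have e1 : ¬ (b = b1 ∧ c = w) := fun h => hc h.2
      have e2 : ¬ (b = u ∧ c = w) := fun h => hc h.2
      rw [if_neg e1, if_neg e2, if_neg hc, add_zero]
      ring
  rw [h3, gen3_mul, gen3_neg]
  exact N.mul_mem h1 (N.inv_mem h2)

omit [Fintype Y] in
theorem gen3_ver (j : Fin 3) (y : Y) (r u w c1 : F y) (hu : u ≠ 0) (hw : w ≠ 0) :
    (Pi.mulSingle y (shA j (Multiplicative.ofAdd (dd r (w, c1) (w, u)))) :
      ∀ y, alternatingGroup (Om (F y))) ∈ N := by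
  have hH : (fun b : F y => if b = u then r else 0) 0 = 0 := if_neg hu.symm
  have hG : (fun c : F y => if c = w then u - c1 else 0) 0 = 0 := if_neg hw.symm
  have h1 := gen3_B2 F N hN j y (fun b => if b = u then r else 0)
    (fun c => if c = w then u - c1 else 0) hH hG
  have h2 := gen3_A2 F N hN j y (fun b => if b = u then r else 0) hH
  have h3 : dd r (w, c1) (w, u) =
      (fun b c => if c + (if b = w then u - c1 else 0) = u then r else 0) +
        -(fun _ c => if c = u then r else 0) := by
    funext b c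
    show dd r (w, c1) (w, u) b c = (if c + (if b = w then u - c1 else 0) = u then r else 0) +
      -(if c = u then r else 0)
    unfold dd
    simp only [Prod.mk.injEq]
    by_cases hb : b = w
    · have e1 : (b = w ∧ c = c1) ↔ c + (u - c1) = u := by
        constructor
        · rintro ⟨-, h⟩
          rw [h]
          ring
        · intro h
          exact ⟨hb, by linear_combination h⟩
      have e2 : (b = w ∧ c = u) ↔ c = u := ⟨fun h => h.2, fun h => ⟨hb, h⟩⟩
      simp only [e1, e2, if_pos hb]
      ring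
    · have e1 : ¬ (b = w ∧ c = c1) := fun h => hb h.1
      have e2 : ¬ (b = w ∧ c = u) := fun h => hb h.1
      rw [if_neg e1, if_neg e2, if_neg hb, add_zero]
      ring
  rw [h3, gen3_mul, gen3_neg]
  exact N.mul_mem h1 (N.inv_mem h2)

end

/-- Shears supported on two lines, at one index. -/
theorem gen_two {Y : Type} [Fintype Y] [DecidableEq Y] (F : Y → Type) [∀ y, Field (F y)]
    [∀ y, Fintype (F y)] [∀ y, DecidableEq (F y)] [∀ y, Algebra (ZMod 19) (F y)]
    (N : Subgroup (∀ y, alternatingGroup (Om (F y))))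
    (hN : ∀ (j : Fin 3) (h : ∀ y, F y → F y), (∀ y, h y 0 = 0) →
      shP F j (Multiplicative.ofAdd fun y b _ => h y b) ∈ N ∧
      shP F j (Multiplicative.ofAdd fun y _ c => h y c) ∈ N)
    (j : Fin 3) (y : Y) (r : F y) (p p' : F y × F y) (hp : p ≠ 0) (hp' : p' ≠ 0) :
    Pi.mulSingle y (shA j (Multiplicative.ofAdd (dd r p p'))) ∈ N := by
  have htr : ∀ p1 p2 p3 : F y × F y,
      (Pi.mulSingle y (shA j (Multiplicative.ofAdd (dd r p1 p2))) :
        ∀ y, alternatingGroup (Om (F y))) ∈ N →
      (Pi.mulSingle y (shA j (Multiplicative.ofAdd (dd r p2 p3))) :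
        ∀ y, alternatingGroup (Om (F y))) ∈ N →
      (Pi.mulSingle y (shA j (Multiplicative.ofAdd (dd r p1 p3))) :
        ∀ y, alternatingGroup (Om (F y))) ∈ N := by
    intro p1 p2 p3 h1 h2
    rw [← gen3_dd_add r p1 p2 p3, gen3_mul]
    exact N.mul_mem h1 h2
  have hsy : ∀ p1 p2 : F y × F y,
      (Pi.mulSingle y (shA j (Multiplicative.ofAdd (dd r p1 p2))) :
        ∀ y, alternatingGroup (Om (F y))) ∈ N →
      (Pi.mulSingle y (shA j (Multiplicative.ofAdd (dd r p2 p1))) :
        ∀ y, alternatingGroup (Om (F y))) ∈ N := by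
    intro p1 p2 h1
    rw [← gen3_dd_neg r p1 p2, gen3_neg]
    exact N.inv_mem h1
  have hone : ∀ p : F y × F y, p ≠ 0 →
      (Pi.mulSingle y (shA j (Multiplicative.ofAdd (dd r p (1, 1)))) :
        ∀ y, alternatingGroup (Om (F y))) ∈ N := by
    rintro ⟨b, c⟩ hbc
    by_cases hc : c = 0
    · have hb : b ≠ 0 := by
        intro hb
        exact hbc (by rw [hb, hc]; rfl)
      rw [hc]
      exact htr _ (b, 1) _ (gen3_ver F N hN j y r 1 b 0 one_ne_zero hb)
        (gen3_hor F N hN j y r 1 1 b one_ne_zero one_ne_zero)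
    · exact htr _ (1, c) _ (gen3_hor F N hN j y r 1 c b one_ne_zero hc)
        (gen3_ver F N hN j y r 1 1 c one_ne_zero one_ne_zero)
  exact htr p (1, 1) p' (hone p hp) (hsy _ _ (hone p' hp'))

end Pool.Agent.MPfe8e9bA
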