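import Mathlib
import Pool.Agent.Lib.MP_fe8e9b_al_A.Gen3

/-!
# MP_fe8e9b_al, alternating groups: generation, cycles of length three
-/

set_option autoImplicit false

open scoped BigOperators Pointwise

namespace Pool.Agent.MPfe8e9bA

theorem gen4_ai {α : Type} (e : Equiv.Perm α) (x : α) : e (e⁻¹ x) = x := e.apply_symm_apply x

theorem gen4_ia {α : Type} (e : Equiv.Perm α) (x : α) : e⁻¹ (e x) = x := e.symm_apply_apply x

/-- A commutator of two permutations whose supports meet in one point. -/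
theorem gen4_comm {α : Type} [Fintype α] [DecidableEq α] (g k : Equiv.Perm α) (z : α)
    (hg : g z ≠ z) (hk : k z ≠ z) (h : ∀ x, g x ≠ x → k x ≠ x → x = z) :
    (g * k * g⁻¹ * k⁻¹).IsThreeCycle ∧ (g * k * g⁻¹ * k⁻¹) z = g z := by
  have hgk : ∀ x, g x ≠ x → x ≠ z → k x = x := by
    intro x h1 h2
    by_contra h3
    exact h2 (h x h1 h3)
  have hkg : ∀ x, k x ≠ x → x ≠ z → g x = x := by
    intro x h1 h2
    by_contra h3
    exact h2 (h x h3 h1)
  have hgi : ∀ x, g x = x → g⁻¹ x = x := fun x hx => by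
    rw [Equiv.Perm.inv_eq_iff_eq]
    exact hx.symm
  have hki : ∀ x, k x = x → k⁻¹ x = x := fun x hx => by
    rw [Equiv.Perm.inv_eq_iff_eq]
    exact hx.symm
  have app : ∀ x, (g * k * g⁻¹ * k⁻¹) x = g (k (g⁻¹ (k⁻¹ x))) := fun x => rfl
  have mk : ∀ x, k x ≠ x → k (k⁻¹ x) ≠ k⁻¹ x := by
    intro x hx h1
    rw [gen4_ai] at h1
    apply hx
    conv_lhs => rw [h1]
    exact k.apply_symm_apply x
  have mg : ∀ x, g x ≠ x → g (g⁻¹ x) ≠ g⁻¹ x := by
    intro x hx h1
    rw [gen4_ai] at h1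
    apply hx
    conv_lhs => rw [h1]
    exact g.apply_symm_apply x
  have mg2 : g (g z) ≠ g z := fun h1 => hg (g.injective h1)
  have mk2 : k (k z) ≠ k z := fun h1 => hk (k.injective h1)
  have hkiz : k⁻¹ z ≠ z := by
    intro h1
    rw [Equiv.Perm.inv_eq_iff_eq] at h1
    exact hk h1.symm
  have hgiz : g⁻¹ z ≠ z := by
    intro h1
    rw [Equiv.Perm.inv_eq_iff_eq] at h1
    exact hg h1.symm
  have c1 : (g * k * g⁻¹ * k⁻¹) z = g z := by
    rw [app, hgi _ (hkg _ (mk z hk) hkiz), gen4_ai]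
  have c2 : (g * k * g⁻¹ * k⁻¹) (g z) = k z := by
    rw [app, hki _ (hgk _ mg2 hg), gen4_ia, hkg _ mk2 hk]
  have c3 : (g * k * g⁻¹ * k⁻¹) (k z) = z := by
    rw [app, gen4_ia, hgk _ (mg z hg) hgiz, gen4_ai]
  have hne : g z ≠ k z := by
    intro h1
    have h2 := hgk _ mg2 hg
    rw [h1] at h2
    exact mk2 h2
  have c4 : ∀ x, x ≠ z → x ≠ g z → x ≠ k z → (g * k * g⁻¹ * k⁻¹) x = x := by
    intro x h1 h2 h3
    rw [app]
    by_cases h4 : k x = x
    · rw [hki x h4]
      by_cases h5 : g x = x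
      · rw [hgi x h5, h4, h5]
      · have h6 : g⁻¹ x ≠ z := by
          intro h7
          rw [Equiv.Perm.inv_eq_iff_eq] at h7
          exact h2 h7
        rw [hgk _ (mg x h5) h6, gen4_ai]
    · have h6 : k⁻¹ x ≠ z := by
        intro h7
        rw [Equiv.Perm.inv_eq_iff_eq] at h7
        exact h3 h7
      rw [hgi _ (hkg _ (mk x h4) h6), gen4_ai, hkg x h4 h1]
  refine ⟨?_, c1⟩
  rw [← card_support_eq_three_iff]
  have hs : (g * k * g⁻¹ * k⁻¹).support = {z, g z, k z} := by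
    ext x
    rw [Equiv.Perm.mem_support]
    simp only [Finset.mem_insert, Finset.mem_singleton]
    constructor
    · intro h1
      by_contra h2
      push Not at h2
      exact h1 (c4 x h2.1 h2.2.1 h2.2.2)
    · rintro (rfl | rfl | rfl)
      · rw [c1]
        exact hg
      · rw [c2]
        exact hne.symm
      · rw [c3]
        exact hk.symm
  rw [hs, Finset.card_insert_of_notMem, Finset.card_insert_of_notMem, Finset.card_singleton]
  · simpa using hne
  · simp only [Finset.mem_insert, Finset.mem_singleton, not_or]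
    exact ⟨hg.symm, hk.symm⟩

theorem gen4_dd0 {F : Type} [Field F] (r : F) (p p' : F × F) (hp : p ≠ 0) (hp' : p' ≠ 0) :
    dd r p p' 0 0 = 0 := by
  unfold dd
  rw [if_neg (fun h => hp h.symm), if_neg (fun h => hp' h.symm), sub_zero]

theorem gen4_val {F : Type} [Field F] [Fintype F] [DecidableEq F] [Algebra (ZMod 19) F]
    (j : Fin 3) (r : F) (p p' : F × F) (hp : p ≠ 0) (hp' : p' ≠ 0) (hne : p ≠ p') (x : Om F)
    (hx : (x.1 (j + 1), x.1 (j + 2)) = p) :
    ((shA j (Multiplicative.ofAdd (dd r p p'))).1 x).1 = Function.update x.1 j (x.1 j + r) := by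
  rw [shA_apply, gen4_dd0 r p p' hp hp']
  unfold dd
  rw [if_pos hx, if_neg (fun h => hne (hx.symm.trans h)), sub_zero, sub_zero]

theorem gen4_move {F : Type} [Field F] [Fintype F] [DecidableEq F] [Algebra (ZMod 19) F]
    (j : Fin 3) (r : F) (p p' : F × F) (hp : p ≠ 0) (hp' : p' ≠ 0) (x : Om F)
    (hx : (shA j (Multiplicative.ofAdd (dd r p p'))).1 x ≠ x) :
    (x.1 (j + 1), x.1 (j + 2)) = p ∨ (x.1 (j + 1), x.1 (j + 2)) = p' := by
  by_contra h
  push Not at h
  apply hx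
  apply Subtype.ext
  rw [shA_apply, gen4_dd0 r p p' hp hp']
  unfold dd
  rw [if_neg h.1, if_neg h.2, sub_zero, sub_zero, add_zero, Function.update_eq_self]

theorem gen4_ne {F : Type} [Field F] [Fintype F] [DecidableEq F] [Algebra (ZMod 19) F]
    (j : Fin 3) (r : F) (hr : r ≠ 0) (p p' : F × F) (hp : p ≠ 0) (hp' : p' ≠ 0) (hne : p ≠ p')
    (x : Om F) (hx : (x.1 (j + 1), x.1 (j + 2)) = p) :
    (shA j (Multiplicative.ofAdd (dd r p p'))).1 x ≠ x := by
  intro h
  have h1 := gen4_val j r p p' hp hp' hne x hx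
  rw [h] at h1
  have h2 := congrFun h1 j
  rw [Function.update_self] at h2
  exact hr (by linear_combination -h2)

theorem gen4_exists {F : Type} [Field F] [Fintype F] [DecidableEq F] [Algebra (ZMod 19) F]
    (a : F) : ∃ c1 c2 : F, a ≠ c1 ∧ a ≠ c2 ∧ c1 ≠ c2 := by
  have : Fact (Nat.Prime 19) := ⟨by norm_num⟩
  have hcard : 19 ≤ Fintype.card F := by
    have h := Fintype.card_le_of_injective (algebraMap (ZMod 19) F)
      (algebraMap (ZMod 19) F).injective
    rwa [ZMod.card] at h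
  have h1 : ∃ c1, c1 ∉ ({a} : Finset F) := by
    by_contra hcon
    push Not at hcon
    have h2 : (Finset.univ : Finset F) ⊆ {a} := fun x _ => hcon x
    have h3 := Finset.card_le_card h2
    rw [Finset.card_univ, Finset.card_singleton] at h3
    omega
  obtain ⟨c1, hc1⟩ := h1
  have h4 : ∃ c2, c2 ∉ ({a, c1} : Finset F) := by
    by_contra hcon
    push Not at hcon
    have h2 : (Finset.univ : Finset F) ⊆ {a, c1} := fun x _ => hcon x
    have h3 := Finset.card_le_card h2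
    have h5 := Finset.card_le_two (a := a) (b := c1)
    rw [Finset.card_univ] at h3
    omega
  obtain ⟨c2, hc2⟩ := h4
  rw [Finset.mem_singleton] at hc1
  rw [Finset.mem_insert, Finset.mem_singleton, not_or] at hc2
  exact ⟨c1, c2, Ne.symm hc1, Ne.symm hc2.1, Ne.symm hc2.2⟩

theorem gen4_fin (l : Fin 3) : l + 1 + 1 = l + 2 ∧ l + 1 + 2 = l ∧ l + 2 + 1 = l ∧
    l + 2 + 2 = l + 1 ∧ ∀ i : Fin 3, i = l ∨ i = l + 1 ∨ i = l + 2 := by
  revert l
  decide

/-- Cycles of length three, at one index. -/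
theorem gen_cyc {F : Type} [Field F] [Fintype F] [DecidableEq F] [Algebra (ZMod 19) F]
    (N : Subgroup (alternatingGroup (Om F)))
    (hN : ∀ (j : Fin 3) (r : F) (p p' : F × F), p ≠ 0 → p' ≠ 0 →
      shA j (Multiplicative.ofAdd (dd r p p')) ∈ N)
    (z z' : Om F) (l : Fin 3) (hz : (z.1 (l + 1), z.1 (l + 2)) ≠ 0) (r : F) (hr : r ≠ 0)
    (hz' : z'.1 = Function.update z.1 l (z.1 l + r)) :
    ∃ σ ∈ N, σ.1.IsThreeCycle ∧ σ.1 z = z' := by
  obtain ⟨e1, e2, e3, e4, e5⟩ := gen4_fin l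
  -- the general step
  have key : ∀ (j : Fin 3) (p' q q' : F × F), p' ≠ 0 → q ≠ 0 → q' ≠ 0 →
      (z.1 (l + 1), z.1 (l + 2)) ≠ p' → q ≠ q' → (z.1 (j + 1), z.1 (j + 2)) = q →
      (∀ x : Om F, ((x.1 (l + 1), x.1 (l + 2)) = (z.1 (l + 1), z.1 (l + 2)) ∨
        (x.1 (l + 1), x.1 (l + 2)) = p') →
        ((x.1 (j + 1), x.1 (j + 2)) = q ∨ (x.1 (j + 1), x.1 (j + 2)) = q') → x = z) →
      ∃ σ ∈ N, σ.1.IsThreeCycle ∧ σ.1 z = z' := by
    intro j p' q q' hp' hq hq' hne hne' hzq hx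
    set p : F × F := (z.1 (l + 1), z.1 (l + 2)) with hp
    have hG := hN l r p p' hz hp'
    have hK := hN j 1 q q' hq hq'
    set G := shA l (Multiplicative.ofAdd (dd r p p')) with hGd
    set K := shA j (Multiplicative.ofAdd (dd (1:F) q q')) with hKd
    have h1 := gen4_comm G.1 K.1 z (gen4_ne l r hr p p' hz hp' hne z rfl)
      (gen4_ne j 1 one_ne_zero q q' hq hq' hne' z hzq)
      (fun x hx1 hx2 => hx x (gen4_move l r p p' hz hp' x hx1) (gen4_move j 1 q q' hq hq' x hx2))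
    refine ⟨G * K * G⁻¹ * K⁻¹,
      N.mul_mem (N.mul_mem (N.mul_mem hG hK) (N.inv_mem hG)) (N.inv_mem hK), h1.1, ?_⟩
    refine h1.2.trans ?_
    apply Subtype.ext
    rw [hz']
    exact gen4_val l r p p' hz hp' hne z rfl
  have hext : ∀ x : Om F, x.1 l = z.1 l → x.1 (l + 1) = z.1 (l + 1) →
      x.1 (l + 2) = z.1 (l + 2) → x = z := by
    intro x h1 h2 h3
    apply Subtype.ext
    funext i
    rcases e5 i with h | h | h
    · rw [h, h1]
    · rw [h, h2]
    · rw [h, h3]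
  by_cases hn : z.1 (l + 2) = 0
  · have hm : z.1 (l + 1) ≠ 0 := by
      intro h
      apply hz
      rw [h, hn]
      rfl
    obtain ⟨c1, c2, h1, h2, h3⟩ := gen4_exists (z.1 (l + 1))
    refine key (l + 2) (c1, 1) (z.1 l, z.1 (l + 1)) (1, c2) ?_ ?_ ?_ ?_ ?_ ?_ ?_
    · intro h
      exact one_ne_zero (congrArg Prod.snd h)
    · intro h
      exact hm (congrArg Prod.snd h)
    · intro h
      exact one_ne_zero (congrArg Prod.fst h)
    · intro h
      exact h1 (congrArg Prod.fst h)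
    · intro h
      exact h2 (congrArg Prod.snd h)
    · rw [e3, e4]
    · intro x hx1 hx2
      rw [e3, e4] at hx2
      simp only [Prod.mk.injEq] at hx1 hx2
      rcases hx1 with ⟨a1, a2⟩ | ⟨a1, a2⟩ <;> rcases hx2 with ⟨b1, b2⟩ | ⟨b1, b2⟩
      · exact hext x b1 b2 a2
      · exact absurd (a1.symm.trans b2) h2
      · exact absurd (b2.symm.trans a1) h1
      · exact absurd (a1.symm.trans b2) h3
  · obtain ⟨c1, c2, h1, h2, h3⟩ := gen4_exists (z.1 (l + 2))
    refine key (l + 1) (1, c1) (z.1 (l + 2), z.1 l) (c2, 1) ?_ ?_ ?_ ?_ ?_ ?_ ?_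
    · intro h
      exact one_ne_zero (congrArg Prod.fst h)
    · intro h
      exact hn (congrArg Prod.fst h)
    · intro h
      exact one_ne_zero (congrArg Prod.snd h)
    · intro h
      exact h1 (congrArg Prod.snd h)
    · intro h
      exact h2 (congrArg Prod.fst h)
    · rw [e1, e2]
    · intro x hx1 hx2
      rw [e1, e2] at hx2
      simp only [Prod.mk.injEq] at hx1 hx2
      rcases hx1 with ⟨a1, a2⟩ | ⟨a1, a2⟩ <;> rcases hx2 with ⟨b1, b2⟩ | ⟨b1, b2⟩
      · exact hext x b2 a1 a2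
      · exact absurd (a2.symm.trans b1) h2
      · exact absurd (b1.symm.trans a2) h1
      · exact absurd (a2.symm.trans b1) h3

end Pool.Agent.MPfe8e9bA
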