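import Mathlib

/-!
# MP_fe8e9b_al, alternating groups: groups generated by cycles of length three
-/

set_option autoImplicit false

open scoped BigOperators Pointwise

namespace Pool.Agent.MPfe8e9bA

/-- A block with two points is closed under the three-cycles of the group. -/
theorem gen5_closed {Ω : Type} [Fintype Ω] [DecidableEq Ω] (H : Subgroup (Equiv.Perm Ω))
    {B : Set Ω} (hB : MulAction.IsBlock H B) {σ : Equiv.Perm Ω} (hσH : σ ∈ H)
    (hσ : σ.IsThreeCycle) {x z : Ω} (hx : x ∈ B) (hz : z ∈ B) (hzx : z ≠ x) : σ x ∈ B := by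
  by_contra hn
  have hdisj : Disjoint ((⟨σ, hσH⟩ : H) • B) B := by
    rcases MulAction.isBlock_iff_smul_eq_or_disjoint.mp hB ⟨σ, hσH⟩ with h | h
    · exfalso
      apply hn
      rw [← h]
      exact ⟨x, hx, rfl⟩
    · exact h
  have hmove : ∀ b ∈ B, σ b ∉ B := by
    intro b hb h
    exact (Set.disjoint_left.mp hdisj) ⟨b, hb, rfl⟩ h
  have hxm : σ x ≠ x := fun h => hmove x hx (h.symm ▸ hx)
  have hzm : σ z ≠ z := fun h => hmove z hz (h.symm ▸ hz)
  obtain ⟨i, hi⟩ := hσ.isCycle.exists_pow_eq hxm hzm
  have h3 : orderOf σ = 3 := hσ.orderOf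
  have hmod : σ ^ i = σ ^ (i % 3) := by
    rw [← h3, pow_mod_orderOf]
  rw [hmod] at hi
  have hlt : i % 3 < 3 := Nat.mod_lt _ (by norm_num)
  have hcube : σ ^ 3 = 1 := by
    rw [← h3]
    exact pow_orderOf_eq_one σ
  interval_cases hj : i % 3
  · exact hzx (by simpa using hi.symm)
  · rw [pow_one] at hi
    exact hn (hi ▸ hz)
  · have h4 : σ z = x := by
      rw [← hi, ← Equiv.Perm.mul_apply, ← pow_succ', hcube]
      rfl
    exact hmove z hz (h4 ▸ hx)

/-- A group with many cycles of length three contains the alternating group. -/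
theorem alt_le_of_cyc {Ω : Type} [Fintype Ω] [DecidableEq Ω] (H : Subgroup (Equiv.Perm Ω))
    (r : Ω → Ω → Prop) (hr : ∀ x y, r x y → ∃ σ ∈ H, σ.IsThreeCycle ∧ σ x = y)
    (hconn : ∀ x y, Relation.EqvGen r x y) : alternatingGroup Ω ≤ H := by
  by_cases hne : ∃ x y, x ≠ y ∧ r x y
  · obtain ⟨x0, y0, hxy0, hr0⟩ := hne
    obtain ⟨g, hgH, hg3, _⟩ := hr x0 y0 hr0
    have htr : MulAction.IsPretransitive H Ω := by
      refine ⟨fun x y => ?_⟩
      have key : ∀ a b, Relation.EqvGen r a b → ∃ h : H, h • a = b := by
        intro a b hab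
        induction hab with
        | rel a b h =>
          obtain ⟨σ, hσ, _, h2⟩ := hr a b h
          exact ⟨⟨σ, hσ⟩, h2⟩
        | refl a => exact ⟨1, one_smul _ _⟩
        | symm a b _ ih =>
          obtain ⟨h, hh⟩ := ih
          exact ⟨h⁻¹, by rw [← hh, inv_smul_smul]⟩
        | trans a b c _ _ ih1 ih2 =>
          obtain ⟨h1, hh1⟩ := ih1
          obtain ⟨h2, hh2⟩ := ih2
          exact ⟨h2 * h1, by rw [mul_smul, hh1, hh2]⟩
      exact key x y (hconn x y)
    have hG : MulAction.IsPreprimitive H Ω := by
      refine { exists_smul_eq := htr.exists_smul_eq, isTrivialBlock_of_isBlock := ?_ }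
      intro B hB
      by_cases hs : B.Subsingleton
      · exact Or.inl hs
      right
      rw [Set.not_subsingleton_iff] at hs
      obtain ⟨a, ha, b, hb, hab⟩ := hs
      have hcl : ∀ (σ : Equiv.Perm Ω), σ ∈ H → σ.IsThreeCycle → ∀ x ∈ B, σ x ∈ B := by
        intro σ hσH hσ x hx
        by_cases hxa : a = x
        · exact gen5_closed H hB hσH hσ hx hb (fun h => hab (hxa.trans h.symm))
        · exact gen5_closed H hB hσH hσ hx ha hxa
      have key : ∀ x y, Relation.EqvGen r x y → (x ∈ B ↔ y ∈ B) := by
        intro x y hxy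
        induction hxy with
        | rel x y h =>
          obtain ⟨σ, hσ, h3, h2⟩ := hr x y h
          constructor
          · intro hx
            rw [← h2]
            exact hcl σ hσ h3 x hx
          · intro hy
            have h4 := hcl σ⁻¹ (H.inv_mem hσ) h3.inv y hy
            have h5 : σ⁻¹ y = x := by
              rw [← h2]
              exact σ.symm_apply_apply x
            rwa [h5] at h4
        | refl x => exact Iff.rfl
        | symm x y _ ih => exact ih.symm
        | trans x y z _ _ ih1 ih2 => exact ih1.trans ih2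
      exact Set.eq_univ_of_forall fun y => (key a y (hconn a y)).mp ha
    exact Equiv.Perm.alternatingGroup_le_of_isPreprimitive_of_isThreeCycle_mem hG hg3 hgH
  · have hss : Subsingleton Ω := by
      refine ⟨fun x y => ?_⟩
      have key : ∀ a b, Relation.EqvGen r a b → a = b := by
        intro a b hab
        induction hab with
        | rel a b h =>
          by_contra hn
          exact hne ⟨a, b, hn, h⟩
        | refl a => rfl
        | symm a b _ ih => exact ih.symm
        | trans a b c _ _ ih1 ih2 => exact ih1.trans ih2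
      exact key x y (hconn x y)
    intro g _
    have h1 : g = 1 := Equiv.ext fun x => Subsingleton.elim _ _
    rw [h1]
    exact H.one_mem

end Pool.Agent.MPfe8e9bA
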