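import Mathlib
import Pool.Agent.Lib.MP_fe8e9b_al_A.Gen1
import Pool.Agent.Lib.MP_fe8e9b_al_A.Gen2
import Pool.Agent.Lib.MP_fe8e9b_al_A.Gen4
import Pool.Agent.Lib.MP_fe8e9b_al_A.Gen5

/-!
# MP_fe8e9b_al, alternating groups: generation, assembly
-/

set_option autoImplicit false

open scoped BigOperators Pointwise

namespace Pool.Agent.MPfe8e9bA

/-- Two nonzero vectors which differ in one coordinate, the others not all zero. -/
def gen6_r (F : Type) [Field F] (z z' : Om F) : Prop :=
  ∃ (l : Fin 3) (r : F), (z.1 (l + 1), z.1 (l + 2)) ≠ 0 ∧ r ≠ 0 ∧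
    z'.1 = Function.update z.1 l (z.1 l + r)

/-- One coordinate replaced by one. -/
def gen6_up {F : Type} [Field F] (z : Om F) (l : Fin 3) : Om F :=
  ⟨Function.update z.1 l 1, by
    intro h
    have h1 := congrFun h l
    rw [Function.update_self] at h1
    exact one_ne_zero h1⟩

theorem gen6_step {F : Type} [Field F] (z : Om F) (l : Fin 3)
    (h : z.1 (l + 1) ≠ 0 ∨ z.1 (l + 2) ≠ 0) :
    Relation.EqvGen (gen6_r F) z (gen6_up z l) := by
  classical
  by_cases hl : z.1 l = 1
  · have h1 : gen6_up z l = z := by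
      apply Subtype.ext
      show Function.update z.1 l 1 = z.1
      rw [← hl, Function.update_eq_self]
    rw [h1]
    exact Relation.EqvGen.refl z
  · apply Relation.EqvGen.rel
    refine ⟨l, 1 - z.1 l, ?_, ?_, ?_⟩
    · intro h2
      have h3 := congrArg Prod.fst h2
      have h4 := congrArg Prod.snd h2
      rcases h with h | h
      · exact h h3
      · exact h h4
    · intro h2
      exact hl (sub_eq_zero.mp h2).symm
    · show Function.update z.1 l 1 = _
      rw [add_sub_cancel]

theorem gen6_one {F : Type} [Field F] : (fun _ : Fin 3 => (1 : F)) ≠ 0 := by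
  intro h
  exact one_ne_zero (congrFun h 0)

theorem gen6_conn1 {F : Type} [Field F] (z : Om F) :
    Relation.EqvGen (gen6_r F) z ⟨fun _ => 1, gen6_one⟩ := by
  have h0 : ∃ l, z.1 l ≠ 0 := by
    by_contra hc
    push Not at hc
    exact z.2 (funext hc)
  obtain ⟨l, hl⟩ := h0
  have e1 : l + 1 + 2 = l := by fin_cases l <;> decide
  have e2 : l + 2 + 1 = l := by fin_cases l <;> decide
  have n1 : l ≠ l + 1 := by fin_cases l <;> decide
  have n2 : l + 1 ≠ l + 2 := by fin_cases l <;> decide
  have s1 := gen6_step z (l + 1) (Or.inr (by rw [e1]; exact hl))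
  have s2 := gen6_step (gen6_up z (l + 1)) (l + 2) (Or.inl (by
    rw [e2]
    show Function.update z.1 (l + 1) 1 l ≠ 0
    rw [Function.update_of_ne n1]
    exact hl))
  have s3 := gen6_step (gen6_up (gen6_up z (l + 1)) (l + 2)) l (Or.inl (by
    show Function.update (Function.update z.1 (l + 1) 1) (l + 2) 1 (l + 1) ≠ 0
    rw [Function.update_of_ne n2, Function.update_self]
    exact one_ne_zero))
  have h4 : gen6_up (gen6_up (gen6_up z (l + 1)) (l + 2)) l = ⟨fun _ => 1, gen6_one⟩ := by
    apply Subtype.ext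
    show Function.update (Function.update (Function.update z.1 (l + 1) 1) (l + 2) 1) l 1 =
      fun _ => 1
    funext i
    have hi : i = l ∨ i = l + 1 ∨ i = l + 2 := by
      fin_cases l <;> fin_cases i <;> decide
    by_cases h5 : i = l
    · rw [h5, Function.update_self]
    · rw [Function.update_of_ne h5]
      by_cases h6 : i = l + 2
      · rw [h6, Function.update_self]
      · rw [Function.update_of_ne h6]
        rcases hi with hi | hi | hi
        · exact absurd hi h5
        · rw [hi, Function.update_self]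
        · exact absurd hi h6
  rw [← h4]
  exact (s1.trans _ _ _ s2).trans _ _ _ s3

theorem gen6_conn {F : Type} [Field F] (x y : Om F) : Relation.EqvGen (gen6_r F) x y :=
  (gen6_conn1 x).trans _ _ _ ((gen6_conn1 y).symm _ _)

theorem gen6_top {F : Type} [Field F] [Fintype F] [DecidableEq F] [Algebra (ZMod 19) F]
    (N : Subgroup (alternatingGroup (Om F)))
    (hN : ∀ (j : Fin 3) (r : F) (p p' : F × F), p ≠ 0 → p' ≠ 0 →
      shA j (Multiplicative.ofAdd (dd r p p')) ∈ N) : N = ⊤ := by
  have h1 : alternatingGroup (Om F) ≤ N.map (alternatingGroup (Om F)).subtype := by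
    refine alt_le_of_cyc _ (gen6_r F) ?_ gen6_conn
    rintro x y ⟨l, r, hz, hr, hy⟩
    obtain ⟨σ, hσ, h3, hx⟩ := gen_cyc N hN x y l hz r hr hy
    exact ⟨σ.1, ⟨σ, hσ, rfl⟩, h3, hx⟩
  rw [eq_top_iff]
  intro g _
  obtain ⟨σ, hσ, h2⟩ := h1 g.2
  have h3 : σ = g := Subtype.ext h2
  rw [← h3]
  exact hσ

/-- Generation. -/
theorem gen_all {Y : Type} [Fintype Y] [DecidableEq Y] (F : Y → Type) [∀ y, Field (F y)]
    [∀ y, Fintype (F y)] [∀ y, DecidableEq (F y)] [∀ y, Algebra (ZMod 19) (F y)]
    (Λ : Submodule (ZMod 19) (∀ y, F y)) (h1 : (1 : ∀ y, F y) ∈ Λ)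
    (hgen : Algebra.adjoin (ZMod 19) (Λ : Set (∀ y, F y)) = ⊤) :
    Subgroup.closure (ckS F Λ) = ⊤ := by
  have hS : ckS F Λ ⊆ Subgroup.closure (ckS F Λ) := Subgroup.subset_closure
  generalize Subgroup.closure (ckS F Λ) = N at hS ⊢
  have hq := fun (j : Fin 3) (r : ∀ y, F y) => gen_quad F Λ h1 hgen N hS j r
  have hu := fun (j : Fin 3) (h : ∀ y, F y → F y) (h0 : ∀ y, h y 0 = 0) =>
    gen_uni F N (fun j r => ⟨(hq j r).1, (hq j r).2.1, (hq j r).2.2.1, (hq j r).2.2.2.2⟩) j h h0
  have ht := fun (j : Fin 3) (y : Y) (r : F y) (p p' : F y × F y) (hp : p ≠ 0) (hp' : p' ≠ 0) =>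
    gen_two F N hu j y r p p' hp hp'
  have hy : ∀ y, Subgroup.comap
      (MonoidHom.mulSingle (fun y => alternatingGroup (Om (F y))) y) N = ⊤ := by
    intro y
    apply gen6_top
    intro j r p p' hp hp'
    exact ht j y r p p' hp hp'
  rw [eq_top_iff]
  intro g _
  apply Subgroup.pi_mem_of_mulSingle_mem g
  intro y
  have h2 : g y ∈ Subgroup.comap
      (MonoidHom.mulSingle (fun y => alternatingGroup (Om (F y))) y) N := by
    rw [hy y]
    exact Subgroup.mem_top _
  exact h2

end Pool.Agent.MPfe8e9bA
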