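import Mathlib
import Pool.Agent.Lib.MP_fe8e9b_al_A.CkT
import Pool.Agent.Lib.MP_fe8e9b_al_A.Gen6

/-!
# MP_fe8e9b_al, alternating groups: products of alternating groups and quadratic shears
-/

set_option autoImplicit false

open scoped BigOperators Pointwise

namespace Pool.Agent.MPfe8e9bA

/-- The shears with coefficients in a generating subspace control everything. -/
theorem ck_all {Y : Type} [Fintype Y] [DecidableEq Y] (F : Y → Type) [∀ y, Field (F y)]
    [∀ y, Fintype (F y)] [∀ y, DecidableEq (F y)] [∀ y, Algebra (ZMod 19) (F y)]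
    (Λ : Submodule (ZMod 19) (∀ y, F y)) (h1 : (1 : ∀ y, F y) ∈ Λ)
    (hgen : Algebra.adjoin (ZMod 19) (Λ : Set (∀ y, F y)) = ⊤) :
    Kz (ckS F Λ) 6 Set.univ := by
  have h := ckt F Λ
  rw [gen_all F Λ h1 hgen] at h
  exact h

end Pool.Agent.MPfe8e9bA
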