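import Mathlib

/-!
# MP_fe8e9b_al, alternating groups: permutations close to polynomials
-/

set_option autoImplicit false

open scoped BigOperators Pointwise

namespace Pool.Agent.MPfe8e9bA

open Polynomial in
/-- The values of a polynomial at the points of `A`. -/
noncomputable def pev {E A : Type} [Field E] (e : A → E) (g : E[X]) : A → E :=
  fun a => g.eval (e a)

/-- The values of a function at the points of a finite set with at most `m` elements. -/
private noncomputable def code1_enc {E A : Type} [Zero E] (m : ℕ) (T : Finset A) (v : A → E) :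
    Fin m → E :=
  fun i => if h : i.1 < T.card then v (T.equivFin.symm ⟨i.1, h⟩) else 0

private theorem code1_enc_inj {E A : Type} [Zero E] {m : ℕ} {T : Finset A} (hT : T.card ≤ m)
    {v v' : A → E} (h : code1_enc m T v = code1_enc m T v') {a : A} (ha : a ∈ T) :
    v a = v' a := by
  obtain ⟨k, hk⟩ : ∃ k, k = T.equivFin ⟨a, ha⟩ := ⟨_, rfl⟩
  have h1 := congrFun h ⟨k.1, k.2.trans_le hT⟩
  unfold code1_enc at h1
  rw [dif_pos k.2, dif_pos k.2, Fin.eta, hk, Equiv.symm_apply_apply] at h1
  exact h1

open Polynomial Nat in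
/-- The number of permutations which agree with a polynomial of small degree at many points. -/
theorem bad_count {E A : Type} [Field E] [Fintype E] [DecidableEq E] [Fintype A]
    [DecidableEq A] (e : A → E) (he : Function.Injective e) (D m : ℕ) :
    Nat.card {τ : Equiv.Perm A // ∃ g : E[X], g.natDegree ≤ D ∧
      Nat.card {a // e (τ a) ≠ g.eval (e a)} ≤ m} ≤
    2 ^ (Fintype.card A) * Fintype.card E ^ (D + 1) * Fintype.card E ^ m := by
  classical
  have hch : ∀ τ : {τ : Equiv.Perm A // ∃ g : E[X], g.natDegree ≤ D ∧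
      Nat.card {a // e (τ a) ≠ g.eval (e a)} ≤ m}, ∃ g : E[X], g.natDegree ≤ D ∧
      Nat.card {a // e (τ.1 a) ≠ g.eval (e a)} ≤ m := fun τ => τ.2
  choose G hG1 hG2 using hch
  set T : {τ : Equiv.Perm A // ∃ g : E[X], g.natDegree ≤ D ∧
      Nat.card {a // e (τ a) ≠ g.eval (e a)} ≤ m} → Finset A :=
    fun τ => Finset.univ.filter fun a => e (τ.1 a) ≠ (G τ).eval (e a) with hT
  have hTm : ∀ τ, (T τ).card ≤ m := by
    intro τ
    refine le_trans (le_of_eq ?_) (hG2 τ)
    rw [Nat.card_eq_fintype_card, Fintype.card_subtype]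
  have hinj : Function.Injective fun τ : {τ : Equiv.Perm A // ∃ g : E[X], g.natDegree ≤ D ∧
      Nat.card {a // e (τ a) ≠ g.eval (e a)} ≤ m} =>
      ((T τ, (fun i : Fin (D + 1) => (G τ).coeff i), code1_enc m (T τ) fun a => e (τ.1 a)) :
        Finset A × (Fin (D + 1) → E) × (Fin m → E)) := by
    intro τ τ' h
    simp only [Prod.mk.injEq] at h
    obtain ⟨h1, h2, h3⟩ := h
    have hg : G τ = G τ' := by
      ext i
      by_cases hi : i < D + 1
      · exact congrFun h2 ⟨i, hi⟩
      · have h4 := hG1 τ
        have h5 := hG1 τ'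
        rw [coeff_eq_zero_of_natDegree_lt (by omega), coeff_eq_zero_of_natDegree_lt (by omega)]
    apply Subtype.ext
    apply Equiv.ext
    intro a
    apply he
    by_cases ha : a ∈ T τ
    · rw [← h1] at h3
      exact code1_enc_inj (hTm τ) h3 ha
    · have ha' : a ∉ T τ' := by rwa [← h1]
      rw [hT] at ha ha'
      simp only [Finset.mem_filter, Finset.mem_univ, true_and, not_not] at ha ha'
      rw [ha, ha', hg]
  refine (Nat.card_le_card_of_injective _ hinj).trans (le_of_eq ?_)
  rw [Nat.card_eq_fintype_card, Fintype.card_prod, Fintype.card_prod, Fintype.card_finset,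
    Fintype.card_fun, Fintype.card_fun, Fintype.card_fin, Fintype.card_fin, mul_assoc]

end Pool.Agent.MPfe8e9bA
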