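import Mathlib
import Pool.Agent.Lib.MP_fe8e9b_al_A.Code1

/-!
# MP_fe8e9b_al, alternating groups: a code with many permutations
-/

set_option autoImplicit false

open scoped BigOperators Pointwise

namespace Pool.Agent.MPfe8e9bA

open Polynomial in
/-- The number of points at which a nonzero polynomial vanishes. -/
theorem code2_roots {E A : Type} [Field E] [Fintype A] (e : A → E)
    (he : Function.Injective e) (P : E[X]) (hP : P ≠ 0) :
    Nat.card {a // P.eval (e a) = 0} ≤ P.natDegree := by
  classical
  rw [Nat.card_eq_fintype_card, Fintype.card_subtype]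
  have h1 : (Finset.univ.filter fun a => P.eval (e a) = 0).card =
      ((Finset.univ.filter fun a => P.eval (e a) = 0).image e).card :=
    (Finset.card_image_of_injective _ he).symm
  rw [h1]
  apply card_le_degree_of_subset_roots
  intro x hx
  rw [Finset.mem_val, Finset.mem_image] at hx
  obtain ⟨a, ha, rfl⟩ := hx
  rw [Finset.mem_filter] at ha
  rw [mem_roots hP]
  exact ha.2

open Polynomial in
/-- The linear map `h ↦ x h(x)` on the points. -/
noncomputable def code2_ev {E A : Type} [Field E] (e : A → E) : E[X] →ₗ[E] (A → E) where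
  toFun h a := e a * h.eval (e a)
  map_add' x y := by
    ext a
    simp [mul_add]
  map_smul' r x := by
    ext a
    simp [mul_left_comm]

open Polynomial Nat in
/-- A linear code with many permutations, in which nonzero words take no value very often. -/
theorem code_aux {E A : Type} [Field E] [Fintype E] [DecidableEq E] [Algebra (ZMod 19) E]
    [Fintype A] [DecidableEq A] (e : A → E) (he : Function.Injective e) (he0 : ∀ a, e a ≠ 0)
    (hA : Fintype.card A + 1 = Fintype.card E) (D m : ℕ) (hD : 1 ≤ D)
    (hDm : D + m < Fintype.card A)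
    (hbad : 2 * (2 ^ (Fintype.card A) * Fintype.card E ^ (D + 1) * Fintype.card E ^ m) ≤
      (Fintype.card A)!) :
    ∃ (C : Submodule (ZMod 19) (A → E)) (X : Finset (Equiv.Perm A)),
      (∀ c ∈ C, c ≠ 0 → ∀ v, Nat.card {a // c a = v} + m < Fintype.card A) ∧
      (∀ τ ∈ X, (fun a => e (τ a)) ∈ C) ∧
      (Fintype.card A)! ≤ 2 * (X.card * Fintype.card E ^ (Fintype.card A - D)) := by
  classical
  set n := Fintype.card A with hn
  set Q := Fintype.card E with hQ
  have hQ0 : 0 < Q := Fintype.card_pos
  have hev : ∀ (h : E[X]) (a : A), code2_ev e h a = e a * h.eval (e a) := fun _ _ => rfl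
  let L : degreeLT E D →ₗ[E] (A → E) := (code2_ev e).comp (degreeLT E D).subtype
  have hL : ∀ h : degreeLT E D, L h = code2_ev e (h : E[X]) := fun _ => rfl
  -- the degree of the polynomials
  have hdeg : ∀ h : E[X], h ∈ degreeLT E D → h.natDegree + 1 ≤ D ∨ h = 0 := by
    intro h hh
    rw [mem_degreeLT] at hh
    by_cases h0 : h = 0
    · exact Or.inr h0
    · left
      rw [degree_eq_natDegree h0] at hh
      have : h.natDegree < D := by exact_mod_cast hh
      omega
  have hinj : Function.Injective L := by
    rw [← LinearMap.ker_eq_bot, LinearMap.ker_eq_bot']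
    intro h h0
    by_contra hne
    have hne' : (h : E[X]) ≠ 0 := fun h' => hne (Subtype.ext h')
    have h1 := code2_roots e he (h : E[X]) hne'
    have h2 : Nat.card {a // (h : E[X]).eval (e a) = 0} = n := by
      have : ∀ a, (h : E[X]).eval (e a) = 0 := by
        intro a
        have h3 := congrFun h0 a
        rw [hL, hev, Pi.zero_apply, _root_.mul_eq_zero] at h3
        exact h3.resolve_left (he0 a)
      rw [Nat.card_eq_fintype_card, Fintype.card_subtype, Finset.filter_true_of_mem
        (fun a _ => this a), Finset.card_univ]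
    rcases hdeg h h.2 with h3 | h3
    · omega
    · exact hne' h3
  let C0 : Submodule E (A → E) := LinearMap.range L
  have hC0 : ∀ c ∈ C0, ∃ h : E[X], h ∈ degreeLT E D ∧ c = code2_ev e h := by
    rintro c ⟨h, rfl⟩
    exact ⟨h, h.2, hL h⟩
  have hC0card : Nat.card C0 = Q ^ D := by
    rw [← Nat.card_congr (LinearEquiv.ofInjective L hinj).toEquiv,
      Nat.card_congr (degreeLTEquiv E D).toEquiv, Nat.card_eq_fintype_card, Fintype.card_fun,
      Fintype.card_fin]
  have hquot : Nat.card ((A → E) ⧸ C0) = Q ^ (n - D) := by
    have h1 : Nat.card (A → E) = Nat.card ((A → E) ⧸ C0) * Nat.card C0 :=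
      AddSubgroup.card_eq_card_quotient_mul_card_addSubgroup C0.toAddSubgroup
    have h2 : Nat.card (A → E) = Q ^ n := by
      rw [Nat.card_eq_fintype_card, Fintype.card_fun]
    have h3 : Q ^ n = Q ^ (n - D) * Q ^ D := by
      rw [← pow_add]
      congr 1
      omega
    rw [h2, h3, hC0card] at h1
    exact (Nat.eq_of_mul_eq_mul_right (pow_pos hQ0 D) h1).symm
  -- the good permutations
  let bad : Equiv.Perm A → Prop := fun τ => ∃ g : E[X], g.natDegree ≤ D ∧
    Nat.card {a // e (τ a) ≠ g.eval (e a)} ≤ m
  have hb : 2 * (Finset.univ.filter bad).card ≤ n ! := by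
    have h1 := bad_count (E := E) (A := A) e he D m
    rw [Nat.card_eq_fintype_card, Fintype.card_subtype] at h1
    exact (Nat.mul_le_mul_left 2 h1).trans hbad
  set G : Finset (Equiv.Perm A) := Finset.univ.filter (fun τ => ¬ bad τ) with hG
  have hG2 : n ! ≤ 2 * G.card := by
    have h1 : (Finset.univ.filter bad).card + G.card = n ! := by
      rw [hG, Finset.card_filter_add_card_filter_not, Finset.card_univ, Fintype.card_perm]
    omega
  have hGne : G.Nonempty := by
    rw [← Finset.card_pos]
    have := Nat.factorial_pos n
    omega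
  let π : Equiv.Perm A → ((A → E) ⧸ C0) := fun τ => C0.mkQ (fun a => e (τ a))
  obtain ⟨τ₀, hτ₀, hmax⟩ := Finset.exists_max_image G
    (fun τ => (G.filter fun x => π x = π τ).card) hGne
  set XX : Finset (Equiv.Perm A) := G.filter fun x => π x = π τ₀ with hX
  have hXcard : G.card ≤ XX.card * Q ^ (n - D) := by
    have h1 : G.card ≤ XX.card * (G.image π).card := by
      apply Finset.card_le_mul_card_image
      intro b hb
      rw [Finset.mem_image] at hb
      obtain ⟨τ, hτ, rfl⟩ := hb
      exact hmax τ hτ
    have h2 : (G.image π).card ≤ Q ^ (n - D) := by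
      rw [← hquot]
      haveI : Fintype ((A → E) ⧸ C0) := Fintype.ofFinite _
      rw [Nat.card_eq_fintype_card]
      exact Finset.card_le_univ _
    exact h1.trans (Nat.mul_le_mul_left _ h2)
  set f₀ : A → E := fun a => e (τ₀ a) with hf₀
  refine ⟨C0.restrictScalars (ZMod 19) ⊔ Submodule.span (ZMod 19) {f₀}, XX, ?_, ?_, ?_⟩
  · intro c hc hcne v
    rw [Submodule.mem_sup] at hc
    obtain ⟨c0, hc0, y, hy, hcy⟩ := hc
    rw [Submodule.mem_span_singleton] at hy
    obtain ⟨k, hk⟩ := hy
    obtain ⟨h, hh, hh2⟩ := hC0 c0 hc0
    have hval : ∀ a, c a = e a * h.eval (e a) + k • e (τ₀ a) := by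
      intro a
      rw [← hcy, ← hk, Pi.add_apply, Pi.smul_apply, hh2, hev]
    by_cases hk0 : k = 0
    · have hh0 : h ≠ 0 := by
        rintro rfl
        apply hcne
        ext a
        rw [hval a, hk0]
        simp
      have hd : h.natDegree + 1 ≤ D := (hdeg h hh).resolve_right hh0
      set P : E[X] := X * h - C v with hP
      have hP1 : P.natDegree = h.natDegree + 1 := by
        rw [hP, natDegree_sub_C, natDegree_X_mul hh0]
      have hPne : P ≠ 0 := by
        intro h'
        rw [h', natDegree_zero] at hP1
        omega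
      have h1 := code2_roots e he P hPne
      have h2 : Nat.card {a // c a = v} = Nat.card {a // P.eval (e a) = 0} := by
        apply Nat.card_congr
        apply Equiv.subtypeEquivRight
        intro a
        rw [hval a, hk0, hP]
        simp [sub_eq_zero]
      rw [h2]
      omega
    · have hgood : ¬ bad τ₀ := by
        rw [hG, Finset.mem_filter] at hτ₀
        exact hτ₀.2
      set κ : E := algebraMap (ZMod 19) E k with hκ
      haveI : Fact (Nat.Prime 19) := ⟨by norm_num⟩
      have hκ0 : κ ≠ 0 := by
        rw [hκ]
        intro h'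
        exact hk0 ((map_eq_zero _).mp h')
      set g : E[X] := C κ⁻¹ * (C v - X * h) with hg
      have hgd : g.natDegree ≤ D := by
        rw [hg]
        refine (natDegree_C_mul_le _ _).trans ?_
        refine (natDegree_sub_le _ _).trans ?_
        rw [natDegree_C]
        rcases hdeg h hh with h1 | h1
        · refine max_le (by omega) ((natDegree_mul_le).trans ?_)
          rw [natDegree_X]
          omega
        · rw [h1, mul_zero, natDegree_zero]
          simp
      have h1 : m < Nat.card {a // e (τ₀ a) ≠ g.eval (e a)} := by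
        by_contra h'
        exact hgood ⟨g, hgd, not_lt.mp h'⟩
      have h2 : ∀ a, (c a = v) ↔ ¬ (e (τ₀ a) ≠ g.eval (e a)) := by
        intro a
        rw [not_not, hval a, hg, Algebra.smul_def, ← hκ]
        simp only [eval_mul, eval_C, eval_sub, eval_X]
        rw [eq_inv_mul_iff_mul_eq₀ hκ0]
        constructor
        · intro h3
          rw [← h3]
          ring
        · intro h3
          rw [h3]
          ring
      have h3 : Nat.card {a // c a = v} + Nat.card {a // e (τ₀ a) ≠ g.eval (e a)} = n := by
        rw [Nat.card_congr (Equiv.subtypeEquivRight h2), Nat.card_eq_fintype_card,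
          Nat.card_eq_fintype_card, Fintype.card_subtype, Fintype.card_subtype, add_comm,
          Finset.card_filter_add_card_filter_not, Finset.card_univ]
      omega
  · intro τ hτ
    rw [hX, Finset.mem_filter] at hτ
    have h1 : (fun a => e (τ a)) - f₀ ∈ C0 := (Submodule.Quotient.eq C0).mp hτ.2
    rw [Submodule.mem_sup]
    exact ⟨(fun a => e (τ a)) - f₀, h1, f₀, Submodule.mem_span_singleton_self f₀,
      sub_add_cancel _ _⟩
  · exact hG2.trans (Nat.mul_le_mul_left 2 hXcard)

end Pool.Agent.MPfe8e9bA
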