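import Mathlib
import Pool.Agent.Lib.MP_fe8e9b_al_A.Code2

/-!
# MP_fe8e9b_al, alternating groups: a code with many permutations, numbers
-/

set_option autoImplicit false

open scoped BigOperators Pointwise

namespace Pool.Agent.MPfe8e9bA

open Nat in
theorem code3_fact (n : ℕ) : n ^ n ≤ 3 ^ n * n ! := by
  have h1 := Real.pow_div_factorial_le_exp (n : ℝ) (Nat.cast_nonneg n) n
  have h2 : Real.exp (n : ℝ) ≤ 3 ^ n := by
    have h3 : Real.exp (n : ℝ) = Real.exp 1 ^ n := by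
      rw [← Real.exp_nat_mul, mul_one]
    rw [h3]
    exact pow_le_pow_left₀ (Real.exp_pos _).le Real.exp_one_lt_three.le n
  have h4 : (0 : ℝ) < (n ! : ℝ) := by exact_mod_cast Nat.factorial_pos n
  have h5 : (n : ℝ) ^ n ≤ 3 ^ n * (n ! : ℝ) := by
    rw [div_le_iff₀ h4] at h1
    exact h1.trans (mul_le_mul_of_nonneg_right h2 h4.le)
  exact_mod_cast h5

open Nat in
theorem code3_pred {Q : ℕ} (hQ : 1 ≤ Q) : Q ^ (Q - 1) ≤ 3 ^ Q * (Q - 1)! := by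
  have h1 := code3_fact Q
  obtain ⟨k, rfl⟩ : ∃ k, Q = k + 1 := ⟨Q - 1, by omega⟩
  rw [Nat.add_sub_cancel]
  rw [Nat.factorial_succ, pow_succ] at h1
  have h2 : (k + 1) ^ k * (k + 1) ≤ (3 ^ (k + 1) * k !) * (k + 1) := by
    calc (k + 1) ^ k * (k + 1) ≤ 3 ^ (k + 1) * ((k + 1) * k !) := h1
      _ = (3 ^ (k + 1) * k !) * (k + 1) := by ring
  exact Nat.le_of_mul_le_mul_right h2 (Nat.succ_pos k)

open Nat in
theorem code3_bad {Q : ℕ} (hQ : 6 ^ 16 ≤ Q) :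
    2 * (2 ^ (Q - 1) * Q ^ (3 * Q / 4 + 1) * Q ^ (Q / 8)) ≤ (Q - 1)! := by
  have h6 : (6 : ℕ) ^ 16 = 2821109907456 := by norm_num
  have h1 := code3_pred (Q := Q) (by omega)
  set s : ℕ := Q - 2 - 3 * Q / 4 - Q / 8 with hs
  have hs1 : Q ≤ 16 * s := by omega
  have h2 : 6 ^ Q ≤ Q ^ s := by
    calc 6 ^ Q ≤ 6 ^ (16 * s) := Nat.pow_le_pow_right (by norm_num) hs1
      _ = (6 ^ 16) ^ s := pow_mul _ _ _
      _ ≤ Q ^ s := Nat.pow_le_pow_left hQ s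
  have h3 : 2 * (2 ^ (Q - 1) * Q ^ (3 * Q / 4 + 1) * Q ^ (Q / 8)) * 3 ^ Q =
      6 ^ Q * Q ^ (3 * Q / 4 + 1 + Q / 8) := by
    have h4 : (6 : ℕ) ^ Q = 2 ^ (Q - 1) * 2 * 3 ^ Q := by
      rw [← pow_succ, Nat.sub_add_cancel (by omega : 1 ≤ Q), ← mul_pow]
      norm_num
    rw [h4, pow_add]
    ring
  have h5 : 2 * (2 ^ (Q - 1) * Q ^ (3 * Q / 4 + 1) * Q ^ (Q / 8)) * 3 ^ Q ≤ (Q - 1)! * 3 ^ Q := by
    rw [h3]
    calc 6 ^ Q * Q ^ (3 * Q / 4 + 1 + Q / 8)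
        ≤ Q ^ s * Q ^ (3 * Q / 4 + 1 + Q / 8) := Nat.mul_le_mul_right _ h2
      _ = Q ^ (Q - 1) := by
          rw [← pow_add]
          congr 1
          omega
      _ ≤ 3 ^ Q * (Q - 1)! := h1
      _ = (Q - 1)! * 3 ^ Q := mul_comm _ _
  exact Nat.le_of_mul_le_mul_right h5 (by positivity)

open Nat in
theorem code3_many {Q X : ℕ} (hQ : 6 ^ 16 ≤ Q)
    (h : (Q - 1)! ≤ 2 * (X * Q ^ (Q - 1 - 3 * Q / 4))) : Q ! ≤ X ^ 4 := by
  have h6 : (6 : ℕ) ^ 16 = 2821109907456 := by norm_num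
  have h1 := code3_pred (Q := Q) (by omega)
  set P : ℕ := (Q - 1)! with hP
  have hP0 : 0 < P := Nat.factorial_pos _
  have hQP : Q ! = Q * P := by
    obtain ⟨k, rfl⟩ : ∃ k, Q = k + 1 := ⟨Q - 1, by omega⟩
    rw [hP, Nat.add_sub_cancel, Nat.factorial_succ]
  have hQ0 : 0 < Q := by omega
  -- the cube of P is large
  have h2 : 16 * Q ^ Q ≤ P ^ 3 := by
    have h3 : (Q ^ (Q - 1)) ^ 3 ≤ 27 ^ Q * P ^ 3 := by
      calc (Q ^ (Q - 1)) ^ 3 ≤ (3 ^ Q * P) ^ 3 := Nat.pow_le_pow_left h1 3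
        _ = 27 ^ Q * P ^ 3 := by
            rw [mul_pow, ← pow_mul, mul_comm Q 3, pow_mul]
            norm_num
    have h4 : 16 * 27 ^ Q ≤ Q ^ (2 * Q - 3) := by
      calc 16 * 27 ^ Q ≤ 27 * 27 ^ Q := Nat.mul_le_mul_right _ (by norm_num)
        _ = 27 ^ (Q + 1) := by rw [pow_succ, mul_comm]
        _ ≤ 27 ^ (2 * Q - 3) := Nat.pow_le_pow_right (by norm_num) (by omega)
        _ ≤ Q ^ (2 * Q - 3) := Nat.pow_le_pow_left (by omega) _
    have h5 : 27 ^ Q * (16 * Q ^ Q) ≤ 27 ^ Q * P ^ 3 := by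
      calc 27 ^ Q * (16 * Q ^ Q) = (16 * 27 ^ Q) * Q ^ Q := by ring
        _ ≤ Q ^ (2 * Q - 3) * Q ^ Q := Nat.mul_le_mul_right _ h4
        _ = (Q ^ (Q - 1)) ^ 3 := by
            rw [← pow_add, ← pow_mul]
            congr 1
            omega
        _ ≤ 27 ^ Q * P ^ 3 := h3
    exact Nat.le_of_mul_le_mul_left h5 (by positivity)
  have h7 : P ^ 4 ≤ 16 * X ^ 4 * Q ^ (Q - 1) := by
    calc P ^ 4 ≤ (2 * (X * Q ^ (Q - 1 - 3 * Q / 4))) ^ 4 := Nat.pow_le_pow_left h 4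
      _ = 16 * X ^ 4 * Q ^ ((Q - 1 - 3 * Q / 4) * 4) := by
          rw [mul_pow, mul_pow, ← pow_mul]
          ring
      _ ≤ 16 * X ^ 4 * Q ^ (Q - 1) := by
          refine Nat.mul_le_mul_left _ (Nat.pow_le_pow_right hQ0 ?_)
          omega
  have h8 : 16 * Q ^ (Q - 1) * (Q * P) ≤ 16 * Q ^ (Q - 1) * X ^ 4 := by
    calc 16 * Q ^ (Q - 1) * (Q * P) = 16 * (Q ^ (Q - 1) * Q) * P := by ring
      _ = 16 * Q ^ Q * P := by
          rw [← pow_succ, Nat.sub_add_cancel hQ0]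
      _ ≤ P ^ 3 * P := Nat.mul_le_mul_right _ h2
      _ = P ^ 4 := by ring
      _ ≤ 16 * X ^ 4 * Q ^ (Q - 1) := h7
      _ = 16 * Q ^ (Q - 1) * X ^ 4 := by ring
  rw [hQP]
  exact Nat.le_of_mul_le_mul_left h8 (by positivity)

open Nat in
/-- A linear code with many permutations. -/
theorem code_exists : ∃ Q₀ : ℕ, ∀ (E A : Type) [Field E] [Fintype E] [Algebra (ZMod 19) E]
    [Fintype A] [DecidableEq A], Q₀ ≤ Fintype.card E → Fintype.card A + 1 = Fintype.card E →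
    ∃ (e : A → E) (C : Submodule (ZMod 19) (A → E)) (X : Finset (Equiv.Perm A)),
      Function.Injective e ∧
      (∀ c ∈ C, c ≠ 0 → ∀ v, (Nat.card {a // c a = v} : ℝ) ≤ (1 - 1 / 16) * Fintype.card A) ∧
      (∀ τ ∈ X, (fun a => e (τ a)) ∈ C) ∧ (Fintype.card E)! ≤ X.card ^ 4 := by
  classical
  refine ⟨6 ^ 16, ?_⟩
  intro E A _ _ _ _ _ hQ hA
  have h6 : (6 : ℕ) ^ 16 = 2821109907456 := by norm_num
  have hcard : Fintype.card A = Fintype.card {x : E // x ≠ 0} := by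
    have h1 : Fintype.card {x : E // x ≠ 0} = Fintype.card E - 1 := by
      have := Fintype.card_subtype_compl fun x : E => x = 0
      rw [this, Fintype.card_subtype_eq]
    omega
  have g : A ≃ {x : E // x ≠ 0} := Fintype.equivOfCardEq hcard
  have hA1 : Fintype.card A = Fintype.card E - 1 := by omega
  obtain ⟨C, X, h1, h2, h3⟩ := code_aux (fun a => (g a).1)
    (fun a b hab => g.injective (Subtype.ext hab)) (fun a => (g a).2) hA
    (3 * Fintype.card E / 4) (Fintype.card E / 8) (by omega) (by omega)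
    (by
      rw [hA1]
      exact code3_bad hQ)
  refine ⟨fun a => (g a).1, C, X, fun a b hab => g.injective (Subtype.ext hab), ?_, h2, ?_⟩
  · intro c hc hc0 v
    have h4 := h1 c hc hc0 v
    have h5 : Nat.card {a // c a = v} * 16 ≤ 15 * Fintype.card A := by omega
    have h7 : (Nat.card {a // c a = v} : ℝ) * 16 ≤ 15 * Fintype.card A := by exact_mod_cast h5
    linarith
  · rw [hA1] at h3
    exact code3_many hQ h3

end Pool.Agent.MPfe8e9bA
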