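import Mathlib

/-!
# MP_fe8e9b_al, alternating groups: random even permutations
-/

set_option autoImplicit false

open scoped BigOperators Pointwise

namespace Pool.Agent.MPfe8e9bA

/-- the three-cycle `a ↦ b ↦ d ↦ a` -/
def tr_cyc {A : Type} [Fintype A] [DecidableEq A] (a b d : A) (hab : a ≠ b) (hbd : b ≠ d) :
    alternatingGroup A :=
  ⟨Equiv.swap a b * Equiv.swap b d, by
    rw [Equiv.Perm.mem_alternatingGroup, Equiv.Perm.sign_mul, Equiv.Perm.sign_swap hab,
      Equiv.Perm.sign_swap hbd]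
    rfl⟩

theorem tr_cyc_a {A : Type} [Fintype A] [DecidableEq A] {a b d : A} (hab : a ≠ b) (hbd : b ≠ d)
    (had : a ≠ d) : (tr_cyc a b d hab hbd).1 a = b := by
  show Equiv.swap a b (Equiv.swap b d a) = b
  rw [Equiv.swap_apply_of_ne_of_ne hab had, Equiv.swap_apply_left]

theorem tr_cyc_b {A : Type} [Fintype A] [DecidableEq A] {a b d : A} (hab : a ≠ b) (hbd : b ≠ d)
    (had : a ≠ d) : (tr_cyc a b d hab hbd).1 b = d := by
  show Equiv.swap a b (Equiv.swap b d b) = d
  rw [Equiv.swap_apply_left, Equiv.swap_apply_of_ne_of_ne had.symm hbd.symm]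

theorem tr_cyc_d {A : Type} [Fintype A] [DecidableEq A] {a b d : A} (hab : a ≠ b) (hbd : b ≠ d) :
    (tr_cyc a b d hab hbd).1 d = a := by
  show Equiv.swap a b (Equiv.swap b d d) = a
  rw [Equiv.swap_apply_right, Equiv.swap_apply_right]

theorem tr_cyc_ne {A : Type} [Fintype A] [DecidableEq A] {a b d x : A} (hab : a ≠ b)
    (hbd : b ≠ d) (ha : x ≠ a) (hb : x ≠ b) (hd : x ≠ d) :
    (tr_cyc a b d hab hbd).1 x = x := by
  show Equiv.swap a b (Equiv.swap b d x) = x
  rw [Equiv.swap_apply_of_ne_of_ne hb hd, Equiv.swap_apply_of_ne_of_ne ha hb]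

/-- the difference of the sums for `σ` and `σ g` -/
theorem tr_diff {A V : Type} [Fintype A] [DecidableEq A] [AddCommGroup V] (c : A → A → V)
    {a b d : A} (hab : a ≠ b) (hbd : b ≠ d) (had : a ≠ d) (σ : alternatingGroup A) :
    ∑ w, c w (σ.1 w) - ∑ w, c w ((σ * tr_cyc a b d hab hbd).1 w) =
      (c a (σ.1 a) - c a (σ.1 b)) + (c b (σ.1 b) - c b (σ.1 d)) +
        (c d (σ.1 d) - c d (σ.1 a)) := by
  have h1 : ∀ w, (σ * tr_cyc a b d hab hbd).1 w = σ.1 ((tr_cyc a b d hab hbd).1 w) := fun w => rfl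
  rw [← Finset.sum_sub_distrib]
  have hs : ({a, b, d} : Finset A) ⊆ Finset.univ := Finset.subset_univ _
  rw [← Finset.sum_subset hs]
  · rw [Finset.sum_insert, Finset.sum_insert, Finset.sum_singleton, h1, h1, h1,
      tr_cyc_a hab hbd had, tr_cyc_b hab hbd had, tr_cyc_d hab hbd]
    · abel
    · simpa using hbd
    · simp only [Finset.mem_insert, Finset.mem_singleton, not_or]
      exact ⟨hab, had⟩
  · intro x _ hx
    simp only [Finset.mem_insert, Finset.mem_singleton, not_or] at hx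
    rw [h1, tr_cyc_ne hab hbd hx.1 hx.2.1 hx.2.2, sub_self]

/-- A sum over a random even permutation is not concentrated at one value. -/
theorem tr_count {A V : Type} [Fintype A] [DecidableEq A] [AddCommGroup V] (c : A → A → V)
    (ε₀ : ℝ) (hε : 0 < ε₀) (hA : 8 ≤ ε₀ * Fintype.card A) (w₁ w₂ : A)
    (hw : ∀ v : V, (Nat.card {x // c w₁ x - c w₂ x = v} : ℝ) ≤ (1 - ε₀) * Fintype.card A)
    (v₀ : V) :
    ε₀ / 4 * Nat.card (alternatingGroup A) ≤
      Nat.card {σ : alternatingGroup A // ∑ w, c w (σ.1 w) ≠ v₀} := by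
  classical
  have hcard : ∀ v : V, (Nat.card {x // c w₁ x - c w₂ x = v} : ℝ) =
      ((Finset.univ.filter fun x => c w₁ x - c w₂ x = v).card : ℝ) := by
    intro v
    rw [Nat.card_eq_fintype_card, Fintype.card_subtype]
  have hn0 : (0 : ℝ) < Fintype.card A := by
    by_contra h
    have h1 : (Fintype.card A : ℝ) = 0 := le_antisymm (not_lt.1 h) (Nat.cast_nonneg _)
    rw [h1, mul_zero] at hA
    linarith
  have hε1 : ε₀ ≤ 1 := by
    by_contra h
    rw [not_le] at h
    have h1 := hw 0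
    have h2 : (0 : ℝ) ≤ (Nat.card {x // c w₁ x - c w₂ x = 0} : ℝ) := Nat.cast_nonneg _
    nlinarith
  have hn8 : (8 : ℝ) ≤ Fintype.card A := by nlinarith
  have hn8' : 8 ≤ Fintype.card A := by exact_mod_cast hn8
  have h12 : w₁ ≠ w₂ := by
    rintro rfl
    have h1 := hw 0
    rw [hcard] at h1
    have h2 : (Finset.univ.filter fun x : A => c w₁ x - c w₁ x = 0) = Finset.univ := by
      ext x
      simp
    rw [h2, Finset.card_univ] at h1
    nlinarith
  obtain ⟨w₃, hw₃⟩ : ∃ w₃, w₃ ∉ ({w₁, w₂} : Finset A) := by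
    by_contra h
    push Not at h
    have h1 : (Finset.univ : Finset A) ⊆ {w₁, w₂} := fun x _ => h x
    have h2 := (Finset.card_le_card h1).trans Finset.card_le_two
    rw [Finset.card_univ] at h2
    omega
  obtain ⟨w₄, hw₄⟩ : ∃ w₄, w₄ ∉ ({w₁, w₂, w₃} : Finset A) := by
    by_contra h
    push Not at h
    have h1 : (Finset.univ : Finset A) ⊆ {w₁, w₂, w₃} := fun x _ => h x
    have h2 := (Finset.card_le_card h1).trans Finset.card_le_three
    rw [Finset.card_univ] at h2
    omega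
  simp only [Finset.mem_insert, Finset.mem_singleton, not_or] at hw₃ hw₄
  obtain ⟨h31, h32⟩ := hw₃
  obtain ⟨h41, h42, h43⟩ := hw₄
  set W : Finset A := {w₁, w₂, w₃, w₄} with hW
  have hWc : W.card ≤ 4 := Finset.card_le_four
  set g : alternatingGroup A := tr_cyc w₁ w₂ w₃ h12 (Ne.symm h32) with hg
  set D : alternatingGroup A → V := fun σ =>
    ∑ w, c w (σ.1 w) - ∑ w, c w ((σ * g).1 w) with hD
  have hDe : ∀ σ, D σ = (c w₁ (σ.1 w₁) - c w₁ (σ.1 w₂)) + (c w₂ (σ.1 w₂) - c w₂ (σ.1 w₃)) +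
      (c w₃ (σ.1 w₃) - c w₃ (σ.1 w₁)) := fun σ => tr_diff c h12 (Ne.symm h32) (Ne.symm h31) σ
  set h : A → alternatingGroup A := fun y =>
    if hy : y ≠ w₂ ∧ y ≠ w₄ then tr_cyc w₂ y w₄ (Ne.symm hy.1) hy.2 else 1 with hh
  have hDh : ∀ (σ : alternatingGroup A) (y : A), y ∉ W →
      (D (σ * h y) = 0 ↔ c w₁ (σ.1 y) - c w₂ (σ.1 y) =
        (c w₁ (σ.1 w₁) - c w₃ (σ.1 w₁)) + (c w₃ (σ.1 w₃) - c w₂ (σ.1 w₃))) := by
    intro σ y hy
    simp only [hW, Finset.mem_insert, Finset.mem_singleton, not_or] at hy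
    obtain ⟨hy1, hy2, hy3, hy4⟩ := hy
    have e0 : h y = tr_cyc w₂ y w₄ (Ne.symm hy2) hy4 := by
      simp only [hh]
      rw [dif_pos ⟨hy2, hy4⟩]
    have e1 : ∀ w, (σ * h y).1 w = σ.1 ((tr_cyc w₂ y w₄ (Ne.symm hy2) hy4).1 w) := by
      intro w
      rw [e0]
      rfl
    rw [hDe, e1, e1, e1, tr_cyc_a (Ne.symm hy2) hy4 (Ne.symm h42),
      tr_cyc_ne (Ne.symm hy2) hy4 h12 (Ne.symm hy1) (Ne.symm h41),
      tr_cyc_ne (Ne.symm hy2) hy4 h32 (Ne.symm hy3) (Ne.symm h43)]
    constructor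
    · intro e
      have e2 : c w₁ (σ.1 y) - c w₂ (σ.1 y) - ((c w₁ (σ.1 w₁) - c w₃ (σ.1 w₁)) +
          (c w₃ (σ.1 w₃) - c w₂ (σ.1 w₃))) = -((c w₁ (σ.1 w₁) - c w₁ (σ.1 y)) +
          (c w₂ (σ.1 y) - c w₂ (σ.1 w₃)) + (c w₃ (σ.1 w₃) - c w₃ (σ.1 w₁))) := by abel
      rw [e, neg_zero] at e2
      exact sub_eq_zero.1 e2
    · intro e
      have e2 : (c w₁ (σ.1 w₁) - c w₁ (σ.1 y)) + (c w₂ (σ.1 y) - c w₂ (σ.1 w₃)) +
          (c w₃ (σ.1 w₃) - c w₃ (σ.1 w₁)) = -(c w₁ (σ.1 y) - c w₂ (σ.1 y) -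
          ((c w₁ (σ.1 w₁) - c w₃ (σ.1 w₁)) + (c w₃ (σ.1 w₃) - c w₂ (σ.1 w₃)))) := by abel
      rw [e2, e, sub_self, neg_zero]
  -- for every `σ` there are many `y`
  have hmany : ∀ σ : alternatingGroup A, ε₀ * Fintype.card A / 2 ≤
      (((Finset.univ \ W).filter fun y => D (σ * h y) ≠ 0).card : ℝ) := by
    intro σ
    set v : V := (c w₁ (σ.1 w₁) - c w₃ (σ.1 w₁)) + (c w₃ (σ.1 w₃) - c w₂ (σ.1 w₃)) with hv
    have e1 : (Finset.univ : Finset A) ⊆ (W ∪ ((Finset.univ \ W).filter
        fun y => D (σ * h y) ≠ 0)) ∪ (Finset.univ.filter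
        fun x => c w₁ x - c w₂ x = v).map σ.1.symm.toEmbedding := by
      intro y _
      by_cases hy : y ∈ W
      · exact Finset.mem_union_left _ (Finset.mem_union_left _ hy)
      · by_cases hDy : D (σ * h y) = 0
        · refine Finset.mem_union_right _ ?_
          rw [Finset.mem_map]
          refine ⟨σ.1 y, ?_, ?_⟩
          · rw [Finset.mem_filter]
            exact ⟨Finset.mem_univ _, (hDh σ y hy).1 hDy⟩
          · show σ.1.symm (σ.1 y) = y
            exact Equiv.symm_apply_apply _ _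
        · refine Finset.mem_union_left _ (Finset.mem_union_right _ ?_)
          rw [Finset.mem_filter, Finset.mem_sdiff]
          exact ⟨⟨Finset.mem_univ _, hy⟩, hDy⟩
    have e2 := Finset.card_le_card e1
    have e3 := Finset.card_union_le (W ∪ ((Finset.univ \ W).filter
        fun y => D (σ * h y) ≠ 0)) ((Finset.univ.filter
        fun x => c w₁ x - c w₂ x = v).map σ.1.symm.toEmbedding)
    have e4 := Finset.card_union_le W ((Finset.univ \ W).filter fun y => D (σ * h y) ≠ 0)
    rw [Finset.card_map] at e3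
    have e5 := hw v
    rw [hcard] at e5
    rw [Finset.card_univ] at e2
    have e6 : (Fintype.card A : ℝ) ≤ 4 + (((Finset.univ \ W).filter
        fun y => D (σ * h y) ≠ 0).card : ℝ) +
        ((Finset.univ.filter fun x => c w₁ x - c w₂ x = v).card : ℝ) := by
      have : Fintype.card A ≤ 4 + ((Finset.univ \ W).filter
        fun y => D (σ * h y) ≠ 0).card +
        (Finset.univ.filter fun x => c w₁ x - c w₂ x = v).card := by omega
      exact_mod_cast this
    linarith
  -- double counting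
  set N : ℕ := (Finset.univ.filter fun σ : alternatingGroup A => D σ ≠ 0).card with hN
  have hshift : ∀ y, (Finset.univ.filter fun σ : alternatingGroup A =>
      D (σ * h y) ≠ 0).card = N := by
    intro y
    rw [hN]
    refine Finset.card_bij (fun σ _ => σ * h y) (fun σ hσ => ?_) (fun σ _ τ _ e => ?_)
      (fun τ hτ => ?_)
    · rw [Finset.mem_filter] at hσ ⊢
      exact ⟨Finset.mem_univ _, hσ.2⟩
    · exact mul_right_cancel e
    · refine ⟨τ * (h y)⁻¹, ?_, ?_⟩
      · rw [Finset.mem_filter] at hτ ⊢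
        refine ⟨Finset.mem_univ _, ?_⟩
        rw [inv_mul_cancel_right]
        exact hτ.2
      · exact inv_mul_cancel_right _ _
  have hdc : ∑ σ : alternatingGroup A, ((Finset.univ \ W).filter
      fun y => D (σ * h y) ≠ 0).card = (Finset.univ \ W).card * N := by
    simp only [Finset.card_filter]
    rw [Finset.sum_comm]
    simp only [← Finset.card_filter]
    rw [Finset.sum_congr rfl fun y _ => hshift y, Finset.sum_const, smul_eq_mul]
  have hsum : (Fintype.card (alternatingGroup A) : ℝ) * (ε₀ * Fintype.card A / 2) ≤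
      (Fintype.card A : ℝ) * N := by
    have e1 : ∑ _σ : alternatingGroup A, (ε₀ * Fintype.card A / 2) ≤
        ∑ σ : alternatingGroup A, (((Finset.univ \ W).filter
          fun y => D (σ * h y) ≠ 0).card : ℝ) := Finset.sum_le_sum fun σ _ => hmany σ
    rw [Finset.sum_const, Finset.card_univ, nsmul_eq_mul] at e1
    have e2 : (∑ σ : alternatingGroup A, (((Finset.univ \ W).filter
          fun y => D (σ * h y) ≠ 0).card : ℝ)) = ((Finset.univ \ W).card * N : ℕ) := by
      rw [← hdc]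
      push_cast
      rfl
    rw [e2] at e1
    refine e1.trans ?_
    push_cast
    have e3 : ((Finset.univ \ W).card : ℝ) ≤ Fintype.card A := by
      exact_mod_cast Finset.card_le_univ _
    gcongr
  have hNlow : ε₀ / 2 * Fintype.card (alternatingGroup A) ≤ (N : ℝ) := by
    have e1 : (Fintype.card A : ℝ) * (ε₀ / 2 * Fintype.card (alternatingGroup A)) ≤
        (Fintype.card A : ℝ) * N := by
      refine le_trans (le_of_eq ?_) hsum
      ring
    exact le_of_mul_le_mul_left e1 hn0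
  -- the upper bound for `N`
  set Q : ℕ := (Finset.univ.filter fun σ : alternatingGroup A =>
    ∑ w, c w (σ.1 w) ≠ v₀).card with hQ
  have hQg : (Finset.univ.filter fun σ : alternatingGroup A =>
      ∑ w, c w ((σ * g).1 w) ≠ v₀).card = Q := by
    rw [hQ]
    refine Finset.card_bij (fun σ _ => σ * g) (fun σ hσ => ?_) (fun σ _ τ _ e => ?_)
      (fun τ hτ => ?_)
    · rw [Finset.mem_filter] at hσ ⊢
      exact ⟨Finset.mem_univ _, hσ.2⟩
    · exact mul_right_cancel e
    · refine ⟨τ * g⁻¹, ?_, ?_⟩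
      · rw [Finset.mem_filter] at hτ ⊢
        refine ⟨Finset.mem_univ _, ?_⟩
        rw [inv_mul_cancel_right]
        exact hτ.2
      · exact inv_mul_cancel_right _ _
  have hNQ : N ≤ Q + Q := by
    have e1 : (Finset.univ.filter fun σ : alternatingGroup A => D σ ≠ 0) ⊆
        (Finset.univ.filter fun σ : alternatingGroup A => ∑ w, c w (σ.1 w) ≠ v₀) ∪
        (Finset.univ.filter fun σ : alternatingGroup A =>
          ∑ w, c w ((σ * g).1 w) ≠ v₀) := by
      intro σ hσ
      rw [Finset.mem_filter] at hσ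
      rw [Finset.mem_union, Finset.mem_filter, Finset.mem_filter]
      by_contra hcon
      rw [not_or] at hcon
      have f1 : ∑ w, c w (σ.1 w) = v₀ := by
        by_contra f
        exact hcon.1 ⟨Finset.mem_univ _, f⟩
      have f2 : ∑ w, c w ((σ * g).1 w) = v₀ := by
        by_contra f
        exact hcon.2 ⟨Finset.mem_univ _, f⟩
      refine hσ.2 ?_
      simp only [hD]
      rw [f1, f2, sub_self]
    have e2 := (Finset.card_le_card e1).trans (Finset.card_union_le _ _)
    rw [hQg] at e2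
    exact e2
  have hNQ' : (N : ℝ) ≤ Q + Q := by exact_mod_cast hNQ
  have hc1 : Nat.card (alternatingGroup A) = Fintype.card (alternatingGroup A) :=
    Nat.card_eq_fintype_card
  have hc2 : Nat.card {σ : alternatingGroup A // ∑ w, c w (σ.1 w) ≠ v₀} = Q := by
    rw [Nat.card_eq_fintype_card, Fintype.card_subtype]
  rw [hc1, hc2]
  linarith

end Pool.Agent.MPfe8e9bA
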