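import Mathlib
import Pool.Agent.Lib.MP_fe8e9b_al_A.Defs
import Pool.Agent.Lib.MP_fe8e9b_al_A.Tr

/-!
# MP_fe8e9b_al, alternating groups: characters and random block permutations
-/

set_option autoImplicit false

open scoped BigOperators Pointwise

namespace Pool.Agent.MPfe8e9bA

variable {K : Type} (A I : K → Type) [∀ k, Fintype (A k)] [∀ k, DecidableEq (A k)]

/-- The action of even permutations of the blocks on functions. -/
def actY (σ : ∀ k, alternatingGroup (A k)) :
    (YY A I → ZMod 19) ≃ₗ[ZMod 19] (YY A I → ZMod 19) where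
  toFun u := fun y => u ⟨y.1, y.2.1, (σ y.1).1⁻¹ y.2.2⟩
  invFun u := fun y => u ⟨y.1, y.2.1, (σ y.1).1 y.2.2⟩
  left_inv u := by
    funext y
    simp
  right_inv u := by
    funext y
    simp
  map_add' _ _ := rfl
  map_smul' _ _ := rfl

theorem actY_apply (σ : ∀ k, alternatingGroup (A k)) (u : YY A I → ZMod 19) (y : YY A I) :
    actY A I σ u y = u ⟨y.1, y.2.1, (σ y.1).1⁻¹ y.2.2⟩ := rfl

theorem actY_mul (σ τ : ∀ k, alternatingGroup (A k)) (u : YY A I → ZMod 19) :
    actY A I (σ * τ) u = actY A I σ (actY A I τ u) := by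
  funext y
  simp [actY_apply, mul_inv_rev]

/-- Random permutations of the block `k` move the sum away from any value. -/
theorem comb_split [Fintype K] [DecidableEq K] {V : Type} [AddCommGroup V]
    (T : ∀ k, alternatingGroup (A k) → V) (k : K) (r : ℝ)
    (h : ∀ v₀ : V, r * Nat.card (alternatingGroup (A k)) ≤
      Nat.card {g : alternatingGroup (A k) // T k g ≠ v₀}) :
    r * Nat.card (∀ k, alternatingGroup (A k)) ≤
      Nat.card {σ : ∀ k, alternatingGroup (A k) // ∑ k, T k (σ k) ≠ 0} := by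
  classical
  let e := Equiv.piSplitAt k (fun k => alternatingGroup (A k))
  have h1 : Nat.card (∀ k, alternatingGroup (A k)) =
      Nat.card (alternatingGroup (A k)) *
        Nat.card (∀ j : {j // j ≠ k}, alternatingGroup (A j.1)) := by
    rw [← Nat.card_prod]
    exact Nat.card_congr e
  have h2 : ∀ σ : ∀ k, alternatingGroup (A k), ∑ k, T k (σ k) =
      T k (e σ).1 + ∑ j : {j // j ≠ k}, T j.1 ((e σ).2 j) := by
    intro σ
    exact (Fintype.sum_eq_add_sum_subtype_ne (fun k => T k (σ k)) k)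
  have h3 : Nat.card {σ : ∀ k, alternatingGroup (A k) // ∑ k, T k (σ k) ≠ 0} =
      ∑ b : (∀ j : {j // j ≠ k}, alternatingGroup (A j.1)),
        Nat.card {g : alternatingGroup (A k) //
          T k g ≠ -∑ j : {j // j ≠ k}, T j.1 (b j)} := by
    rw [← Nat.card_sigma]
    refine Nat.card_congr
      ((e.subtypeEquiv (q := fun p => T k p.1 + ∑ j : {j // j ≠ k}, T j.1 (p.2 j) ≠ 0)
        (fun σ => by rw [h2 σ])).trans ?_)
    exact
      { toFun := fun p => ⟨p.1.2, ⟨p.1.1, fun h => p.2 (by rw [h, neg_add_cancel])⟩⟩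
        invFun := fun p => ⟨(p.2.1, p.1), fun h => p.2.2 (eq_neg_of_add_eq_zero_left h)⟩
        left_inv := fun p => rfl
        right_inv := fun p => rfl }
  rw [h3, h1, Nat.cast_sum, Nat.cast_mul]
  calc r * ((Nat.card (alternatingGroup (A k)) : ℝ) *
        (Nat.card (∀ j : {j // j ≠ k}, alternatingGroup (A j.1)) : ℝ))
      = ∑ _b : (∀ j : {j // j ≠ k}, alternatingGroup (A j.1)),
        r * (Nat.card (alternatingGroup (A k)) : ℝ) := by
        rw [Finset.sum_const, Finset.card_univ, nsmul_eq_mul, ← Nat.card_eq_fintype_card]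
        ring
    _ ≤ _ := Finset.sum_le_sum (fun b _ => h _)

/-- A nontrivial functional on the span of the orbit is often nonzero. -/
theorem comb [Fintype K] [DecidableEq K] [∀ k, Fintype (I k)] {V J : Type} [AddCommGroup V]
    [Module (ZMod 19) V] [Fintype J] (x : ∀ k, I k → A k → V)
    (f : J → (V →ₗ[ZMod 19] ZMod 19)) (ε₀ c₁ : ℝ) (hε : 0 < ε₀) (hε1 : ε₀ ≤ 1) (hc : 0 ≤ c₁)
    (hA : ∀ k, 8 ≤ ε₀ * Fintype.card (A k))
    (hF : ∀ s : V, s ≠ 0 → c₁ * Nat.card J ≤ Nat.card {j // f j s ≠ 0})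
    (hcode : ∀ k (q : I k → ZMod 19), (∀ a, ∑ i, q i • x k i a = 0) ∨
      ∀ v : V, (Nat.card {a // ∑ i, q i • x k i a = v} : ℝ) ≤ (1 - ε₀) * Fintype.card (A k))
    (l : (YY A I → ZMod 19) →ₗ[ZMod 19] ZMod 19)
    (hl : ∃ j σ, l (actY A I σ fun y => f j (x y.1 y.2.1 y.2.2)) ≠ 0) :
    c₁ * ε₀ / 4 * (Nat.card J * Nat.card (∀ k, alternatingGroup (A k))) ≤
      Nat.card {p : J × (∀ k, alternatingGroup (A k)) //
        l (actY A I p.2 fun y => f p.1 (x y.1 y.2.1 y.2.2)) ≠ 0} := by
  classical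
  let q : YY A I → ZMod 19 := fun y => l (Pi.single y 1)
  let c : ∀ k, A k → A k → V := fun k a b => ∑ i, q ⟨k, i, a⟩ • x k i b
  let T : ∀ k, alternatingGroup (A k) → V := fun k g => ∑ a, c k a (g.1⁻¹ a)
  have hT : ∀ (j : J) (σ : ∀ k, alternatingGroup (A k)),
      l (actY A I σ fun y => f j (x y.1 y.2.1 y.2.2)) = f j (∑ k, T k (σ k)) := by
    intro j σ
    rw [LinearMap.pi_apply_eq_sum_univ l]
    simp only [T, c, map_sum, map_smul, actY_apply, smul_eq_mul]
    rw [← Finset.univ_sigma_univ, Finset.sum_sigma]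
    refine Finset.sum_congr rfl (fun k _ => ?_)
    rw [← Finset.univ_product_univ, Finset.sum_product_right]
    refine Finset.sum_congr rfl (fun a _ => ?_)
    refine Finset.sum_congr rfl (fun i _ => ?_)
    rw [mul_comm]
    congr 1
    show l _ = l _
    congr 1
    funext y
    rw [Pi.single_apply]
    simp only [eq_comm]
  -- many values of the sum are nonzero
  have key : ε₀ / 4 * Nat.card (∀ k, alternatingGroup (A k)) ≤
      Nat.card {σ : ∀ k, alternatingGroup (A k) // ∑ k, T k (σ k) ≠ 0} := by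
    by_cases hcase : ∃ k a₁ a₂, c k a₁ ≠ c k a₂
    · obtain ⟨k, a₁, a₂, hne⟩ := hcase
      refine comb_split A T k (ε₀ / 4) (fun v₀ => ?_)
      have hw : ∀ v : V, (Nat.card {b // c k a₁ b - c k a₂ b = v} : ℝ) ≤
          (1 - ε₀) * Fintype.card (A k) := by
        have h1 : ∀ b, c k a₁ b - c k a₂ b =
            ∑ i, (q ⟨k, i, a₁⟩ - q ⟨k, i, a₂⟩) • x k i b := by
          intro b
          simp only [c, sub_smul, Finset.sum_sub_distrib]
        rcases hcode k (fun i => q ⟨k, i, a₁⟩ - q ⟨k, i, a₂⟩) with h2 | h2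
        · exfalso
          apply hne
          funext b
          have h3 := h2 b
          rw [← h1 b] at h3
          exact sub_eq_zero.1 h3
        · intro v
          have h3 := h2 v
          simpa only [h1] using h3
      have h4 := tr_count (c k) ε₀ hε (hA k) a₁ a₂ hw v₀
      refine h4.trans (le_of_eq ?_)
      congr 1
      refine Nat.card_congr ((Equiv.inv _).subtypeEquiv (fun g => ?_))
      simp only [T, Equiv.inv_apply, InvMemClass.coe_inv, inv_inv]
    · push Not at hcase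
      have hconst : ∀ σ : ∀ k, alternatingGroup (A k), ∑ k, T k (σ k) = ∑ k, ∑ b, c k b b := by
        intro σ
        refine Finset.sum_congr rfl (fun k _ => ?_)
        show ∑ a, c k a ((σ k).1⁻¹ a) = _
        rw [← Equiv.sum_comp (σ k).1⁻¹ (fun b => c k b b)]
        refine Finset.sum_congr rfl (fun a _ => ?_)
        rw [hcase k a ((σ k).1⁻¹ a)]
      obtain ⟨j, σ₀, hj⟩ := hl
      rw [hT] at hj
      have hne : ∑ k, ∑ b, c k b b ≠ 0 := by
        intro h
        apply hj
        rw [hconst, h, map_zero]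
      have h5 : Nat.card {σ : ∀ k, alternatingGroup (A k) // ∑ k, T k (σ k) ≠ 0} =
          Nat.card (∀ k, alternatingGroup (A k)) :=
        Nat.card_congr (Equiv.subtypeUnivEquiv (fun σ => by rw [hconst σ]; exact hne))
      rw [h5]
      have h6 : (0 : ℝ) ≤ (Nat.card (∀ k, alternatingGroup (A k)) : ℝ) := Nat.cast_nonneg _
      nlinarith
  -- count the pairs
  have hcount : Nat.card {p : J × (∀ k, alternatingGroup (A k)) //
        l (actY A I p.2 fun y => f p.1 (x y.1 y.2.1 y.2.2)) ≠ 0} =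
      ∑ σ : (∀ k, alternatingGroup (A k)), Nat.card {j : J // f j (∑ k, T k (σ k)) ≠ 0} := by
    rw [← Nat.card_sigma]
    exact Nat.card_congr
      { toFun := fun p => ⟨p.1.2, ⟨p.1.1, by rw [← hT]; exact p.2⟩⟩
        invFun := fun p => ⟨(p.2.1, p.1), by rw [hT]; exact p.2.2⟩
        left_inv := fun p => rfl
        right_inv := fun p => rfl }
  rw [hcount, Nat.cast_sum]
  have h7 : ∑ σ ∈ (Finset.univ.filter (fun σ : (∀ k, alternatingGroup (A k)) =>
      ∑ k, T k (σ k) ≠ 0)), c₁ * (Nat.card J : ℝ) ≤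
      ∑ σ : (∀ k, alternatingGroup (A k)),
        (Nat.card {j : J // f j (∑ k, T k (σ k)) ≠ 0} : ℝ) := by
    refine (Finset.sum_le_sum (fun σ hσ => hF _ (Finset.mem_filter.1 hσ).2)).trans ?_
    exact Finset.sum_le_sum_of_subset_of_nonneg (Finset.filter_subset _ _)
      (fun _ _ _ => Nat.cast_nonneg _)
  refine le_trans ?_ h7
  rw [Finset.sum_const, nsmul_eq_mul]
  have h8 : (((Finset.univ.filter (fun σ : (∀ k, alternatingGroup (A k)) =>
      ∑ k, T k (σ k) ≠ 0)).card : ℕ) : ℝ) =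
      (Nat.card {σ : ∀ k, alternatingGroup (A k) // ∑ k, T k (σ k) ≠ 0} : ℝ) := by
    rw [Nat.card_eq_fintype_card, Fintype.card_subtype]
  rw [h8]
  have h9 : (0 : ℝ) ≤ c₁ * (Nat.card J : ℝ) := mul_nonneg hc (Nat.cast_nonneg _)
  have h10 := mul_le_mul_of_nonneg_right key h9
  linarith [h10]

end Pool.Agent.MPfe8e9bA
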