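import Mathlib
import Pool.Agent.Lib.MP_fe8e9b_al_A.Defs

/-!
# MP_fe8e9b_al, alternating groups: elements of order nineteen inside blocks
-/

set_option autoImplicit false

open scoped BigOperators Pointwise

namespace Pool.Agent.MPfe8e9bA

/-- the rotation of nineteen points -/
private theorem conjp_rot : ∃ r : alternatingGroup (Fin 19), r ^ 19 = 1 ∧
    r.1.support = Finset.univ := by
  have hs : Equiv.Perm.sign (finRotate 19) = 1 := by
    rw [sign_finRotate]
    exact Even.neg_one_pow ⟨9, rfl⟩
  have hsupp : (finRotate 19).support = Finset.univ := support_finRotate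
  have hp : (finRotate 19) ^ 19 = 1 := by
    have h2 : orderOf (finRotate 19) = 19 := by
      have h3 : (finRotate 19).IsCycle := isCycle_finRotate
      rw [h3.orderOf, hsupp, Finset.card_univ, Fintype.card_fin]
    have h4 := pow_orderOf_eq_one (finRotate 19)
    rwa [h2] at h4
  refine ⟨⟨finRotate 19, hs⟩, ?_, hsupp⟩
  apply Subtype.ext
  exact hp

/-- a cycle of length nineteen in a large type -/
private theorem conjp_cycle {W : Type} [Fintype W] [DecidableEq W] (h1 : 19 ≤ Fintype.card W) :
    ∃ c : alternatingGroup W, c ^ 19 = 1 ∧ c.1.support.card = 19 := by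
  obtain ⟨e⟩ := Function.Embedding.nonempty_of_card_le
    (show Fintype.card (Fin 19) ≤ Fintype.card W by rw [Fintype.card_fin]; exact h1)
  obtain ⟨r, hr, hsupp⟩ := conjp_rot
  refine ⟨emb e r, ?_, ?_⟩
  · rw [← map_pow, hr, map_one]
  · have h2 : (emb e r).1.support = Finset.univ.map e := by
      ext x
      rw [Equiv.Perm.mem_support, Finset.mem_map]
      constructor
      · intro hx
        by_contra hcon
        apply hx
        apply emb_apply_of_notMem
        rintro ⟨i, hi⟩
        exact hcon ⟨i, Finset.mem_univ _, hi⟩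
      · rintro ⟨i, -, rfl⟩
        rw [emb_apply]
        intro h3
        have h4 : r.1 i = i := e.injective h3
        have h5 : i ∈ r.1.support := by
          rw [hsupp]
          exact Finset.mem_univ i
        exact (Equiv.Perm.mem_support.1 h5) h4
    rw [h2, Finset.card_map, Finset.card_univ, Fintype.card_fin]

/-- the cycle type of an element of order nineteen -/
private theorem conjp_type {β : Type} [Fintype β] [DecidableEq β] (s : Equiv.Perm β)
    (hs : s ^ 19 = 1) (hs1 : s ≠ 1) :
    s.cycleType = Multiset.replicate (s.support.card / 19) 19 ∧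
      (s.support.card / 19) * 19 = s.support.card := by
  have : Fact (Nat.Prime 19) := ⟨by norm_num⟩
  have h1 : orderOf s = 19 := orderOf_eq_prime hs hs1
  obtain ⟨n, hn⟩ := Equiv.Perm.cycleType_prime_order (σ := s) (by rw [h1]; norm_num)
  rw [h1] at hn
  have h2 := Equiv.Perm.sum_cycleType s
  rw [hn, Multiset.sum_replicate, smul_eq_mul] at h2
  rw [hn, ← h2, Nat.mul_div_cancel _ (by norm_num)]
  exact ⟨rfl, rfl⟩

/-- conjugation by an even permutation -/
private theorem conjp_conj {β : Type} [Fintype β] [DecidableEq β] (s t : alternatingGroup β)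
    (hs : s ^ 19 = 1) (hs1 : s ≠ 1) (ht : t ^ 19 = 1) (ht1 : t ≠ 1)
    (hc : s.1.support.card = t.1.support.card)
    (hfix : s.1.support.card + 2 ≤ Fintype.card β) :
    ∃ h : alternatingGroup β, h * s * h⁻¹ = t := by
  have hs1' : s.1 ≠ 1 := fun h => hs1 (Subtype.ext h)
  have ht1' : t.1 ≠ 1 := fun h => ht1 (Subtype.ext h)
  have hsp : s.1 ^ 19 = 1 := congrArg Subtype.val hs
  have htp : t.1 ^ 19 = 1 := congrArg Subtype.val ht
  have h1 := (conjp_type s.1 hsp hs1').1
  have h2 := (conjp_type t.1 htp ht1').1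
  rw [← hc] at h2
  obtain ⟨π, hπ⟩ := isConj_iff.1 (Equiv.Perm.isConj_iff_cycleType_eq.2 (h1.trans h2.symm))
  have hfix2 : 1 < (s.1.supportᶜ).card := by
    rw [Finset.card_compl]
    omega
  obtain ⟨x, hx, y, hy, hxy⟩ := Finset.one_lt_card.1 hfix2
  have hx' : s.1 x = x := by
    rw [Finset.mem_compl, Equiv.Perm.notMem_support] at hx
    exact hx
  have hy' : s.1 y = y := by
    rw [Finset.mem_compl, Equiv.Perm.notMem_support] at hy
    exact hy
  rcases Int.units_eq_one_or (Equiv.Perm.sign π) with h3 | h3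
  · refine ⟨⟨π, h3⟩, ?_⟩
    apply Subtype.ext
    exact hπ
  · refine ⟨⟨π * Equiv.swap x y, ?_⟩, ?_⟩
    · rw [Equiv.Perm.mem_alternatingGroup, map_mul, h3, Equiv.Perm.sign_swap hxy, neg_mul_neg,
        one_mul]
    · apply Subtype.ext
      show π * Equiv.swap x y * s.1 * (π * Equiv.swap x y)⁻¹ = t.1
      have h4 : s.1 * Equiv.swap x y = Equiv.swap x y * s.1 := by
        rw [Equiv.mul_swap_eq_swap_mul, hx', hy']
      rw [mul_inv_rev, mul_assoc π, ← h4, ← hπ]
      group

/-- the support of an element preserving the blocks -/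
private theorem conjp_supp {A : Type} [Fintype A] [DecidableEq A] (A' : Finset A)
    (c : alternatingGroup WW) (b : A → alternatingGroup WW)
    (hb1 : ∀ a ∈ A', b a = c) (hb2 : ∀ a, a ∉ A' → b a = 1) :
    (fb A b).1.support = A' ×ˢ c.1.support := by
  ext x
  rw [Equiv.Perm.mem_support, Finset.mem_product, Equiv.Perm.mem_support, fb_apply]
  by_cases ha : x.1 ∈ A'
  · rw [hb1 x.1 ha]
    constructor
    · intro h
      refine ⟨ha, fun h2 => h ?_⟩
      rw [h2]
    · rintro ⟨-, h⟩ h2
      exact h (congrArg Prod.snd h2)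
  · rw [hb2 x.1 ha]
    constructor
    · intro h
      exact absurd (Prod.ext rfl rfl) h
    · rintro ⟨h, -⟩
      exact absurd h ha

/-- An element of order nineteen with small support is conjugate to an element preserving every
block. -/
theorem conj_block {A : Type} [Fintype A] [DecidableEq A] (s : alternatingGroup (A × WW))
    (hs : s ^ 19 = 1) (hsupp : s.1.support.card ≤ Fintype.card A) :
    ∃ (h : alternatingGroup (A × WW)) (b : A → alternatingGroup WW),
      h * s * h⁻¹ = fb A b := by
  by_cases hs1 : s = 1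
  · refine ⟨1, 1, ?_⟩
    rw [hs1, map_one, mul_one, one_mul, inv_one]
  have hs1' : s.1 ≠ 1 := fun h => hs1 (Subtype.ext h)
  have hsp : s.1 ^ 19 = 1 := congrArg Subtype.val hs
  obtain ⟨r, hr⟩ : ∃ r, r = s.1.support.card / 19 := ⟨_, rfl⟩
  have hr1 := (conjp_type s.1 hsp hs1').2
  rw [← hr] at hr1
  obtain ⟨m, hm⟩ : ∃ m, m = s.1.support.card := ⟨_, rfl⟩
  have hm0 : 0 < m := by
    rcases Nat.eq_zero_or_pos m with h0 | h0
    · rw [h0] at hm
      exact absurd (Equiv.Perm.card_support_eq_zero.1 hm.symm) hs1'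
    · exact h0
  obtain ⟨n, hn⟩ : ∃ n, n = Fintype.card A := ⟨_, rfl⟩
  have hmn : m ≤ n := by
    rw [hm, hn]
    exact hsupp
  rw [← hm] at hr1
  have hrn : r ≤ n := by omega
  have hcu : r ≤ (Finset.univ : Finset A).card := by
    rw [Finset.card_univ, ← hn]
    exact hrn
  obtain ⟨A', -, hA'⟩ := Finset.exists_subset_card_eq hcu
  obtain ⟨c, hc1, hc2⟩ := conjp_cycle (W := WW) (by
    rw [card_WW]
    norm_num)
  obtain ⟨b, hb⟩ : ∃ b : A → alternatingGroup WW, ∀ a, b a = if a ∈ A' then c else 1 :=
    ⟨_, fun _ => rfl⟩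
  have hb1 : ∀ a ∈ A', b a = c := fun a ha => by rw [hb, if_pos ha]
  have hb2 : ∀ a, a ∉ A' → b a = 1 := fun a ha => by rw [hb, if_neg ha]
  have hbp : (fb A b) ^ 19 = 1 := by
    have h1 : b ^ 19 = 1 := by
      funext a
      rw [Pi.pow_apply, Pi.one_apply]
      by_cases ha : a ∈ A'
      · rw [hb1 a ha, hc1]
      · rw [hb2 a ha, one_pow]
    rw [← map_pow, h1, map_one]
  have hbc : (fb A b).1.support.card = m := by
    rw [conjp_supp A' c b hb1 hb2, Finset.card_product, hA', hc2, hr1]
  have hbn : fb A b ≠ 1 := by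
    intro h1
    have h2 : (fb A b).1 = 1 := congrArg Subtype.val h1
    rw [h2, Equiv.Perm.support_one, Finset.card_empty] at hbc
    omega
  have hfix : s.1.support.card + 2 ≤ Fintype.card (A × WW) := by
    rw [← hm, Fintype.card_prod, card_WW, ← hn]
    omega
  obtain ⟨h, hh⟩ := conjp_conj s (fb A b) hs hs1 hbp hbn (by rw [hbc, hm]) hfix
  exact ⟨h, b, hh⟩

end Pool.Agent.MPfe8e9bA
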