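import Mathlib
import Pool.Agent.Lib.MP_fe8e9b_al_A.KzB
import Pool.Agent.Lib.MP_fe8e9b_al_A.CkAll

/-!
# MP_fe8e9b_al, alternating groups: twelve elements
-/

set_option autoImplicit false

open scoped BigOperators Pointwise

namespace Pool.Agent.MPfe8e9bA

/-- A homomorphism on the combinations of two elements over `ZMod 19`. -/
theorem dgen_comb {M G : Type} [AddCommGroup M] [Module (ZMod 19) M] [Group G]
    (φ : Multiplicative M →* G) (α β : ZMod 19) (x y : M) :
    φ (Multiplicative.ofAdd (α • x + β • y)) =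
      φ (Multiplicative.ofAdd x) ^ α.val * φ (Multiplicative.ofAdd y) ^ β.val := by
  have h : ∀ (γ : ZMod 19) (z : M), γ • z = γ.val • z := by
    intro γ z
    conv_lhs => rw [← ZMod.natCast_zmod_val γ]
    exact Nat.cast_smul_eq_nsmul _ _ _
  rw [h α x, h β y, ofAdd_add, map_mul, ofAdd_nsmul, ofAdd_nsmul, map_pow, map_pow]

/-- The coefficients `1` and `t` give all coefficients in their span. -/
theorem kz_twelve {Y : Type} [Fintype Y] [DecidableEq Y] (F : Y → Type) [∀ y, CommRing (F y)]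
    [∀ y, Fintype (F y)] [∀ y, DecidableEq (F y)] [∀ y, Algebra (ZMod 19) (F y)]
    (t : ∀ y, F y) :
    Kz {g | ∃ θ : Fin 3 × Bool, g = qq F θ (Multiplicative.ofAdd 1) ∨
        g = qq F θ (Multiplicative.ofAdd t)} 72
      (ckS F (Submodule.span (ZMod 19) {1, t})) := by
  have h := (Kz.self {g : ∀ y, alternatingGroup (Om (F y)) | ∃ θ : Fin 3 × Bool,
    g = qq F θ (Multiplicative.ofAdd 1) ∨ g = qq F θ (Multiplicative.ofAdd t)}).prod
    zero_le_one 72
  refine h.mono (subset_refl _) (by norm_num) ?_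
  rintro g ⟨j, a, b, ha, hb, rfl⟩
  obtain ⟨α, β, rfl⟩ := Submodule.mem_span_pair.1 ha
  obtain ⟨γ, δ, rfl⟩ := Submodule.mem_span_pair.1 hb
  have e2 : ∀ x, q2 F j x = qq F (j, true) x := fun x => rfl
  have e1 : ∀ x, q1 F j x = qq F (j, false) x := fun x => rfl
  refine ⟨List.replicate α.val (qq F (j, true) (Multiplicative.ofAdd 1)) ++
    List.replicate β.val (qq F (j, true) (Multiplicative.ofAdd t)) ++
    (List.replicate γ.val (qq F (j, false) (Multiplicative.ofAdd 1)) ++
    List.replicate δ.val (qq F (j, false) (Multiplicative.ofAdd t))), ?_, ?_, ?_⟩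
  · have h1 := ZMod.val_lt α
    have h2 := ZMod.val_lt β
    have h3 := ZMod.val_lt γ
    have h4 := ZMod.val_lt δ
    simp only [List.length_append, List.length_replicate]
    omega
  · intro y hy
    simp only [List.mem_append, List.mem_replicate] at hy
    rcases hy with (⟨-, rfl⟩ | ⟨-, rfl⟩) | (⟨-, rfl⟩ | ⟨-, rfl⟩)
    · exact ⟨(j, true), Or.inl rfl⟩
    · exact ⟨(j, true), Or.inr rfl⟩
    · exact ⟨(j, false), Or.inl rfl⟩
    · exact ⟨(j, false), Or.inr rfl⟩
  · rw [List.prod_append, List.prod_append, List.prod_append, List.prod_replicate,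
      List.prod_replicate, List.prod_replicate, List.prod_replicate, dgen_comb, dgen_comb]
    rfl

/-- Generators of the diagonal group. -/
theorem d_gen {K : Type} [Fintype K] [DecidableEq K] (F : K → Type) [∀ k, Field (F k)]
    [∀ k, Fintype (F k)] [∀ k, DecidableEq (F k)] [∀ k, Algebra (ZMod 19) (F k)] (t : ∀ k, F k)
    (ht : Algebra.adjoin (ZMod 19) {t} = ⊤) :
    ∃ g : Fin 12 → (∀ k, alternatingGroup (Om (F k))), Kz (Set.range g) 432 Set.univ := by
  have h1 : (1 : ∀ k, F k) ∈ Submodule.span (ZMod 19) {1, t} :=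
    Submodule.subset_span (Set.mem_insert _ _)
  have h2 : t ∈ Submodule.span (ZMod 19) {1, t} :=
    Submodule.subset_span (Set.mem_insert_of_mem _ rfl)
  have h3 : Algebra.adjoin (ZMod 19)
      ((Submodule.span (ZMod 19) {1, t} : Submodule (ZMod 19) (∀ k, F k)) : Set (∀ k, F k)) =
      ⊤ := by
    rw [eq_top_iff, ← ht]
    exact Algebra.adjoin_mono (Set.singleton_subset_iff.2 h2)
  have h4 := (kz_twelve F t).trans (by norm_num) (ck_all F _ h1 h3)
  have hc : Fintype.card ((Fin 3 × Bool) × Bool) = 12 := by simp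
  let e := (Fintype.equivFinOfCardEq hc).symm
  refine ⟨fun i => qq F (e i).1 (Multiplicative.ofAdd (if (e i).2 then 1 else t)), ?_⟩
  refine h4.mono ?_ (by norm_num) (subset_refl _)
  rintro g ⟨θ, rfl | rfl⟩
  · refine ⟨e.symm (θ, true), ?_⟩
    simp
  · refine ⟨e.symm (θ, false), ?_⟩
    simp

end Pool.Agent.MPfe8e9bA
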