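import Mathlib
import Pool.Agent.Lib.MP_fe8e9b_al_A.Defs
import Pool.Agent.Lib.MP_fe8e9b_al_A.Av
import Pool.Agent.Lib.MP_fe8e9b_al.Final

/-!
# MP_fe8e9b_al, alternating groups: from control to spectral gap
-/

set_option autoImplicit false

open scoped BigOperators Pointwise

namespace Pool.Agent.MPfe8e9bA

theorem kze_tr (G : Type) [Group G] [Fintype G] (s : G) (f : EuclideanSpace ℂ G) (x : G) :
    (LinearIsometryEquiv.piLpCongrLeft 2 ℂ ℂ (Equiv.mulRight s⁻¹) f) x = f (x * s) := by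
  simp [LinearIsometryEquiv.piLpCongrLeft_apply, Equiv.piCongrLeft']

/-- The regular representation. -/
noncomputable def kze_rho (G : Type) [Group G] [Fintype G] :
    G →* (EuclideanSpace ℂ G ≃ₗᵢ[ℂ] EuclideanSpace ℂ G) where
  toFun s := LinearIsometryEquiv.piLpCongrLeft 2 ℂ ℂ (Equiv.mulRight s⁻¹)
  map_one' := by
    ext f x
    rw [kze_tr, mul_one]
    rfl
  map_mul' a b := by
    ext f x
    rw [kze_tr]
    show _ = (LinearIsometryEquiv.piLpCongrLeft 2 ℂ ℂ (Equiv.mulRight a⁻¹)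
      (LinearIsometryEquiv.piLpCongrLeft 2 ℂ ℂ (Equiv.mulRight b⁻¹) f)) x
    rw [kze_tr, kze_tr, mul_assoc]

theorem kze_rho_apply (G : Type) [Group G] [Fintype G] (s : G) (f : EuclideanSpace ℂ G) (x : G) :
    kze_rho G s f x = f (x * s) := kze_tr G s f x

open Pool.Agent.MPfe8e9b in
theorem kze_dsp (G : Type) [Group G] [Fintype G] (s : G) (f : G → ℂ) :
    ‖kze_rho G s (WithLp.toLp 2 f) - WithLp.toLp 2 f‖ = SLn.dsp f s := by
  rw [EuclideanSpace.norm_eq, SLn.dsp, SLn.nrm, MPfe8e9b.sq]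
  congr 1
  refine Finset.sum_congr rfl fun x _ => ?_
  rw [PiLp.sub_apply, kze_rho_apply]
  rfl

open Pool.Agent.MPfe8e9b in
/-- Control of the whole group gives a spectral gap. -/
theorem kz_expd (N : ℕ) (C : ℝ) (hC : 0 ≤ C) (G : Type) [Group G] [Fintype G] (g : Fin N → G)
    (h : Kz (Set.range g) C Set.univ) : Expd G N (1 / (C ^ 2 + 1)) := by
  refine ⟨g, fun f hf => ?_⟩
  have h0 : ∀ i, 0 ≤ MPfe8e9b.sq (rt (g i) f - f) := fun i => MPfe8e9b.sq_nonneg' _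
  have hE : 0 ≤ ∑ i, MPfe8e9b.sq (rt (g i) f - f) := Finset.sum_nonneg fun i _ => h0 i
  have h1 := h (EuclideanSpace ℂ G) (kze_rho G) (WithLp.toLp 2 f)
    (Real.sqrt (∑ i, MPfe8e9b.sq (rt (g i) f - f))) (Real.sqrt_nonneg _) (by
      rintro _ ⟨i, rfl⟩
      rw [kze_dsp]
      exact Real.sqrt_le_sqrt
        (Finset.single_le_sum (f := fun i => MPfe8e9b.sq (rt (g i) f - f)) (fun i _ => h0 i)
          (Finset.mem_univ i)))
  have h2 : ∀ t, SLn.dsp f t ≤ C * Real.sqrt (∑ i, MPfe8e9b.sq (rt (g i) f - f)) := by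
    intro t
    rw [← kze_dsp]
    exact h1 t (Set.mem_univ t)
  have h3 := SLn.sq_le_of_dsp f hf h2
  rw [mul_pow, Real.sq_sqrt hE] at h3
  have h4 : (0 : ℝ) < C ^ 2 + 1 := by positivity
  rw [div_mul_eq_mul_div, one_mul, div_le_iff₀ h4]
  nlinarith

end Pool.Agent.MPfe8e9bA
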