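import Mathlib

/-!
# MP_fe8e9b_al, alternating groups: generators of products of distinct finite fields
-/

set_option autoImplicit false

open scoped BigOperators Pointwise

namespace Pool.Agent.MPfe8e9bA

private theorem gent_one {E : Type} [Field E] [Fintype E] [Algebra (ZMod 19) E] :
    ∃ x : E, Algebra.adjoin (ZMod 19) {x} = ⊤ := by
  obtain ⟨g, hg⟩ := IsCyclic.exists_generator (α := Eˣ)
  refine ⟨(g : E), ?_⟩
  rw [eq_top_iff]
  intro y _
  have hgm : (g : E) ∈ Algebra.adjoin (ZMod 19) {(g : E)} :=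
    Algebra.subset_adjoin (Set.mem_singleton _)
  by_cases hy : y = 0
  · rw [hy]
    exact Subalgebra.zero_mem _
  · have h1 : Units.mk0 y hy ∈ Submonoid.powers g := by
      rw [mem_powers_iff_mem_zpowers]
      exact hg _
    obtain ⟨n, hn⟩ := h1
    have h2 : (g : E) ^ n = y := by
      have h3 : g ^ n = Units.mk0 y hy := hn
      rw [← Units.val_pow_eq_pow_val, h3, Units.val_mk0]
    rw [← h2]
    exact Subalgebra.pow_mem _ hgm n

private theorem gent_card [Fact (Nat.Prime 19)] {E : Type} [Field E] [Fintype E]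
    [Algebra (ZMod 19) E] {x : E} (hx : Algebra.adjoin (ZMod 19) {x} = ⊤) :
    Fintype.card E = 19 ^ (minpoly (ZMod 19) x).natDegree := by
  have hfin : FiniteDimensional (ZMod 19) E := Module.Finite.of_finite
  have hi : IsIntegral (ZMod 19) x := IsIntegral.of_finite _ _
  have h1 := (PowerBasis.ofAdjoinEqTop hi hx).finrank
  rw [PowerBasis.ofAdjoinEqTop_dim] at h1
  rw [Module.card_eq_pow_finrank (K := ZMod 19) (V := E), ZMod.card, h1]

/-- A product of finite fields of distinct orders is generated by one element. -/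
theorem gen_t {K : Type} [Fintype K] [DecidableEq K] (F : K → Type) [∀ k, Field (F k)]
    [∀ k, Fintype (F k)] [∀ k, Algebra (ZMod 19) (F k)]
    (hF : ∀ k k', Fintype.card (F k) = Fintype.card (F k') → k = k') :
    ∃ t : ∀ k, F k, Algebra.adjoin (ZMod 19) {t} = ⊤ ∧
      ∀ k, Algebra.adjoin (ZMod 19) {t k} = ⊤ := by
  have : Fact (Nat.Prime 19) := ⟨by norm_num⟩
  choose t ht using fun k => gent_one (E := F k)
  refine ⟨t, ?_, ht⟩
  have hfin : ∀ k, FiniteDimensional (ZMod 19) (F k) := fun k => Module.Finite.of_finite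
  have hi : ∀ k, IsIntegral (ZMod 19) (t k) := fun k => IsIntegral.of_finite _ _
  -- the minimal polynomials are distinct
  have hne : ∀ k k', k ≠ k' →
      Polynomial.aeval (t k) (minpoly (ZMod 19) (t k')) ≠ 0 := by
    intro k k' hkk h0
    apply hkk
    apply hF
    have h1 : minpoly (ZMod 19) (t k') = minpoly (ZMod 19) (t k) :=
      minpoly.eq_of_irreducible_of_monic (minpoly.irreducible (hi k')) h0 (minpoly.monic (hi k'))
    rw [gent_card (ht k), gent_card (ht k'), h1]
  have hP : ∀ k, Polynomial.aeval (t k)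
      (∏ k' ∈ Finset.univ.erase k, minpoly (ZMod 19) (t k')) ≠ 0 := by
    intro k
    rw [map_prod, Finset.prod_ne_zero_iff]
    intro k' hk'
    exact hne k k' (Finset.ne_of_mem_erase hk').symm
  have hsur : ∀ k (z : F k), ∃ Q : Polynomial (ZMod 19), Polynomial.aeval (t k) Q = z := by
    intro k z
    have h1 : z ∈ Algebra.adjoin (ZMod 19) {t k} := by
      rw [ht k]
      exact Algebra.mem_top
    rw [Algebra.adjoin_singleton_eq_range_aeval] at h1
    exact h1
  rw [eq_top_iff]
  intro z _
  rw [Algebra.adjoin_singleton_eq_range_aeval]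
  choose Q hQ using fun k => hsur k (z k / Polynomial.aeval (t k)
      (∏ k' ∈ Finset.univ.erase k, minpoly (ZMod 19) (t k')))
  refine ⟨∑ k, (∏ k' ∈ Finset.univ.erase k, minpoly (ZMod 19) (t k')) * Q k, ?_⟩
  funext k
  have h1 : (Polynomial.aeval t (∑ k, (∏ k' ∈ Finset.univ.erase k,
      minpoly (ZMod 19) (t k')) * Q k)) k = Polynomial.aeval (t k)
        (∑ k, (∏ k' ∈ Finset.univ.erase k, minpoly (ZMod 19) (t k')) * Q k) :=
    (Polynomial.aeval_algHom_apply (Pi.evalAlgHom (ZMod 19) F k) t _).symm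
  refine h1.trans ?_
  rw [map_sum, Finset.sum_eq_single k]
  · rw [map_mul, hQ, mul_div_cancel₀ _ (hP k)]
  · intro k' _ hkk
    rw [map_mul]
    have h2 : Polynomial.aeval (t k)
        (∏ k'' ∈ Finset.univ.erase k', minpoly (ZMod 19) (t k'')) = 0 := by
      rw [map_prod]
      exact Finset.prod_eq_zero (Finset.mem_erase.2 ⟨hkk.symm, Finset.mem_univ k⟩)
        (minpoly.aeval _ _)
    rw [h2, zero_mul]
  · intro h3
    exact absurd (Finset.mem_univ k) h3

end Pool.Agent.MPfe8e9bA
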