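import Mathlib
import Pool.Agent.Lib.MP_fe8e9b_al_A.Fou

/-!
# MP_fe8e9b_al, alternating groups: relative property T
-/

set_option autoImplicit false

open scoped BigOperators Pointwise

namespace Pool.Agent.MPfe8e9bA

/-- Double counting of the spectral measure. -/
theorem rta_count {P L : Type} [Fintype P] [Fintype L] (μ : L → ℝ) (hμ : ∀ l, 0 ≤ μ l)
    (Z : L → Prop) [DecidablePred Z] (A : P → L → Prop) [∀ p l, Decidable (A p l)] (c B : ℝ)
    (hB : ∀ p, ∑ l, (if A p l then 0 else μ l) ≤ B)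
    (hc : ∀ l, ¬ Z l → c * Fintype.card P ≤ Nat.card {p // ¬ A p l}) :
    c * Fintype.card P * ∑ l, (if Z l then 0 else μ l) ≤ Fintype.card P * B := by
  classical
  have h1 : ∑ p : P, ∑ l, (if A p l then 0 else μ l) ≤ Fintype.card P * B := by
    calc ∑ p : P, ∑ l, (if A p l then 0 else μ l) ≤ ∑ _p : P, B :=
          Finset.sum_le_sum fun p _ => hB p
      _ = Fintype.card P * B := by
          rw [Finset.sum_const, Finset.card_univ, nsmul_eq_mul]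
  refine le_trans ?_ h1
  rw [Finset.sum_comm, Finset.mul_sum]
  refine Finset.sum_le_sum fun l _ => ?_
  have h2 : ∑ p : P, (if A p l then 0 else μ l) = (Nat.card {p // ¬ A p l} : ℝ) * μ l := by
    rw [Nat.card_eq_fintype_card, Fintype.card_subtype]
    have h3 : ∀ p : P, (if A p l then (0 : ℝ) else μ l) = if ¬ A p l then μ l else 0 := by
      intro p
      by_cases h : A p l <;> simp [h]
    rw [Finset.sum_congr rfl fun p _ => h3 p, ← Finset.sum_filter, Finset.sum_const,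
      nsmul_eq_mul]
  rw [h2]
  by_cases hz : Z l
  · rw [if_pos hz, mul_zero]
    exact mul_nonneg (Nat.cast_nonneg _) (hμ l)
  · rw [if_neg hz]
    exact mul_le_mul_of_nonneg_right (hc l hz) (hμ l)

/-- Relative property T from characters which are often nontrivial. -/
theorem rta {Γ D U J : Type} [Group Γ] [Group D] [Fintype D] [AddCommGroup U]
    [Module (ZMod 19) U] [Fintype U] [Fintype J] [Nonempty J] (ψ : D →* Γ)
    (ε : Multiplicative U →* Γ) (a : D → U ≃ₗ[ZMod 19] U)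
    (hconj : ∀ d u, ψ d * ε (Multiplicative.ofAdd u) * (ψ d)⁻¹ =
      ε (Multiplicative.ofAdd (a d u)))
    (u : J → U) (c : ℝ) (hc : 0 < c)
    (hcount : ∀ l : U →ₗ[ZMod 19] ZMod 19, l ≠ 0 → c * (Nat.card J * Nat.card D) ≤
      Nat.card {p : J × D // l (a p.2 (u p.1)) ≠ 0}) :
    Kz (Set.range ψ ∪ {g | ∃ j, g = ε (Multiplicative.ofAdd (u j))}) (2 + 30 / Real.sqrt c)
      (Set.range ε) := by
  classical
  intro V _ _ _ ρ v δ hδ hs t ht
  obtain ⟨t, rfl⟩ := ht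
  haveI : Finite (U →ₗ[ZMod 19] ZMod 19) := DFunLike.finite _
  haveI : Fintype (U →ₗ[ZMod 19] ZMod 19) := Fintype.ofFinite _
  obtain ⟨v1, hv1⟩ : ∃ v1, v1 = av (ρ.comp ψ) v := ⟨_, rfl⟩
  have hfix : ∀ d, ρ (ψ d) v1 = v1 := by
    intro d
    rw [hv1]
    exact rho_av (ρ.comp ψ) d v
  have hd1 : ‖v - v1‖ ≤ δ := by
    rw [hv1]
    exact norm_sub_av_le (ρ.comp ψ) v fun d => hs _ (Or.inl ⟨d, rfl⟩)
  -- displacement of `v1`
  have hmove : ∀ (g : Γ) (x : ℝ), ‖ρ g v - v‖ ≤ x → ‖ρ g v1 - v1‖ ≤ x + 2 * δ := by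
    intro g x hx
    have h1 : ρ g v1 - v1 = (ρ g v - v) - (ρ g (v - v1) - (v - v1)) := by
      rw [map_sub]
      abel
    rw [h1]
    have h2 := norm_sub_le (ρ g v - v) (ρ g (v - v1) - (v - v1))
    have h3 := norm_sub_le (ρ g (v - v1)) (v - v1)
    rw [LinearIsometryEquiv.norm_map] at h3
    linarith
  have hj : ∀ j, ‖ρ (ε (Multiplicative.ofAdd (u j))) v1 - v1‖ ≤ 3 * δ := by
    intro j
    have := hmove _ δ (hs _ (Or.inr ⟨j, rfl⟩))
    linarith
  have hjd : ∀ (j : J) (d : D),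
      ‖(ρ.comp ε) (Multiplicative.ofAdd (a d (u j))) v1 - v1‖ ≤ 3 * δ := by
    intro j d
    have h0 : (ρ.comp ε) (Multiplicative.ofAdd (a d (u j))) =
        ρ (ψ d) * ρ (ε (Multiplicative.ofAdd (u j))) * ρ (ψ d)⁻¹ := by
      rw [MonoidHom.comp_apply, ← hconj, map_mul, map_mul]
    have hinv : ρ (ψ d)⁻¹ v1 = v1 := by
      rw [← map_inv]
      exact hfix _
    have h1 : (ρ.comp ε) (Multiplicative.ofAdd (a d (u j))) v1 - v1 =
        ρ (ψ d) (ρ (ε (Multiplicative.ofAdd (u j))) v1 - v1) := by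
      rw [h0, map_sub, hfix d]
      show ρ (ψ d) (ρ (ε (Multiplicative.ofAdd (u j))) (ρ (ψ d)⁻¹ v1)) - v1 = _
      rw [hinv]
    rw [h1, LinearIsometryEquiv.norm_map]
    exact hj j
  obtain ⟨μ, hμ0, -, hμd, -, hμa, -⟩ := spectral (ρ.comp ε) v1
  have hcard : (Fintype.card (J × D) : ℝ) = (Nat.card J : ℝ) * (Nat.card D : ℝ) := by
    rw [Fintype.card_prod, Nat.cast_mul, Nat.card_eq_fintype_card, Nat.card_eq_fintype_card]
  have hpos : (0 : ℝ) < (Fintype.card (J × D) : ℝ) := by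
    exact_mod_cast Fintype.card_pos
  have key := rta_count (P := J × D) μ hμ0 (fun l => l = 0)
    (fun p l => l (a p.2 (u p.1)) = 0) c (225 * δ ^ 2) (by
      intro p
      refine (hμd (a p.2 (u p.1))).trans ?_
      have h1 := hjd p.1 p.2
      have h2 : ‖(ρ.comp ε) (Multiplicative.ofAdd (a p.2 (u p.1))) v1 - v1‖ ^ 2 ≤
          (3 * δ) ^ 2 := pow_le_pow_left₀ (norm_nonneg _) h1 2
      linarith) (by
      intro l hl
      rw [hcard]
      exact hcount l hl)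
  rw [← hμa] at key
  have h225 : c * ‖v1 - av (ρ.comp ε) v1‖ ^ 2 ≤ 225 * δ ^ 2 := by
    have h1 : (Fintype.card (J × D) : ℝ) * (c * ‖v1 - av (ρ.comp ε) v1‖ ^ 2) ≤
        (Fintype.card (J × D) : ℝ) * (225 * δ ^ 2) := by
      calc (Fintype.card (J × D) : ℝ) * (c * ‖v1 - av (ρ.comp ε) v1‖ ^ 2)
          = c * (Fintype.card (J × D) : ℝ) * ‖v1 - av (ρ.comp ε) v1‖ ^ 2 := by ring
        _ ≤ _ := key
    exact le_of_mul_le_mul_left h1 hpos
  have hsq : 0 < Real.sqrt c := Real.sqrt_pos.2 hc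
  have h15 : ‖v1 - av (ρ.comp ε) v1‖ ≤ 15 * δ / Real.sqrt c := by
    rw [le_div_iff₀ hsq]
    have h1 : (‖v1 - av (ρ.comp ε) v1‖ * Real.sqrt c) ^ 2 ≤ (15 * δ) ^ 2 := by
      rw [mul_pow, Real.sq_sqrt hc.le]
      calc ‖v1 - av (ρ.comp ε) v1‖ ^ 2 * c = c * ‖v1 - av (ρ.comp ε) v1‖ ^ 2 := by ring
        _ ≤ 225 * δ ^ 2 := h225
        _ = (15 * δ) ^ 2 := by ring
    exact (pow_le_pow_iff_left₀ (by positivity) (by positivity) two_ne_zero).1 h1
  have h30 : ‖ρ (ε t) v1 - v1‖ ≤ 30 * δ / Real.sqrt c := by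
    have h1 : ‖ρ (ε t) v1 - v1‖ ≤ 2 * ‖v1 - av (ρ.comp ε) v1‖ :=
      disp_le_of_fix ρ (rho_av (ρ.comp ε) t v1)
    calc ‖ρ (ε t) v1 - v1‖ ≤ 2 * ‖v1 - av (ρ.comp ε) v1‖ := h1
      _ ≤ 2 * (15 * δ / Real.sqrt c) := by linarith
      _ = 30 * δ / Real.sqrt c := by ring
  have h1 : ρ (ε t) v - v = (ρ (ε t) v1 - v1) + (ρ (ε t) (v - v1) - (v - v1)) := by
    rw [map_sub]
    abel
  have h2 := norm_add_le (ρ (ε t) v1 - v1) (ρ (ε t) (v - v1) - (v - v1))
  have h3 := norm_sub_le (ρ (ε t) (v - v1)) (v - v1)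
  rw [LinearIsometryEquiv.norm_map] at h3
  rw [h1]
  calc ‖(ρ (ε t) v1 - v1) + (ρ (ε t) (v - v1) - (v - v1))‖
      ≤ 30 * δ / Real.sqrt c + 2 * δ := by linarith
    _ = (2 + 30 / Real.sqrt c) * δ := by ring

end Pool.Agent.MPfe8e9bA
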