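import Mathlib
import Pool.Agent.Lib.MP_fe8e9b_al_A.Rta
import Pool.Agent.Lib.MP_fe8e9b_al_A.Comb
import Pool.Agent.Lib.MP_fe8e9b_al_A.KzB

/-!
# MP_fe8e9b_al, alternating groups: relative property T for functions on the set of blocks
-/

set_option autoImplicit false

open scoped BigOperators Pointwise

namespace Pool.Agent.MPfe8e9bA

variable {K : Type} (A I : K → Type) [∀ k, Fintype (A k)] [∀ k, DecidableEq (A k)]

theorem blM_conj_EE (σ : ∀ k, alternatingGroup (A k)) (θ : Fin 3 × Bool)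
    (u : YY A I → ZMod 19) :
    blM A I σ * EE A I θ (Multiplicative.ofAdd u) * (blM A I σ)⁻¹ =
      EE A I θ (Multiplicative.ofAdd (actY A I σ u)) := by
  have h1 : ∀ y : YY A I, qq (fun _ : YY A I => ZMod 19) θ
      (Multiplicative.ofAdd (actY A I σ u)) y =
      qq (fun _ : YY A I => ZMod 19) θ (Multiplicative.ofAdd u)
        ⟨y.1, y.2.1, (σ y.1).1⁻¹ y.2.2⟩ := by
    intro y
    unfold qq
    split_ifs
    · rfl
    · rfl
  funext k i
  refine (bl_conj (A k) (σ k).1 fun a =>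
    qq (fun _ : YY A I => ZMod 19) θ (Multiplicative.ofAdd u) ⟨k, i, a⟩).trans ?_
  show fb (A k) _ = fb (A k) _
  congr 1
  funext a
  exact (h1 ⟨k, i, a⟩).symm

theorem rtm_actY_one (u : YY A I → ZMod 19) : actY A I 1 u = u := by
  funext y
  rw [actY_apply]
  simp

theorem rtm_symm (σ : ∀ k, alternatingGroup (A k)) (u : YY A I → ZMod 19) :
    (actY A I σ).symm u = actY A I σ⁻¹ u := by
  rw [LinearEquiv.symm_apply_eq, ← actY_mul, mul_inv_cancel, rtm_actY_one]

/-- The span is stable. -/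
theorem rtm_stable {J : Type} (w : J → YY A I → ZMod 19) (τ : ∀ k, alternatingGroup (A k))
    {u : YY A I → ZMod 19}
    (hu : u ∈ Submodule.span (ZMod 19) {u | ∃ j σ, u = actY A I σ (w j)}) :
    actY A I τ u ∈ Submodule.span (ZMod 19) {u | ∃ j σ, u = actY A I σ (w j)} := by
  have h1 : Submodule.span (ZMod 19) {u | ∃ j σ, u = actY A I σ (w j)} ≤
      (Submodule.span (ZMod 19) {u | ∃ j σ, u = actY A I σ (w j)}).comap
        (actY A I τ).toLinearMap := by
    rw [Submodule.span_le]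
    rintro v ⟨j, σ, rfl⟩
    show actY A I τ (actY A I σ (w j)) ∈
      Submodule.span (ZMod 19) {u | ∃ j σ, u = actY A I σ (w j)}
    rw [← actY_mul]
    exact Submodule.subset_span ⟨j, τ * σ, rfl⟩
  exact h1 hu

/-- The action on the span. -/
noncomputable def rtm_act {J : Type} (w : J → YY A I → ZMod 19)
    (τ : ∀ k, alternatingGroup (A k)) :
    (Submodule.span (ZMod 19) {u | ∃ j σ, u = actY A I σ (w j)}) ≃ₗ[ZMod 19]
      (Submodule.span (ZMod 19) {u | ∃ j σ, u = actY A I σ (w j)}) where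
  toFun u := ⟨actY A I τ u.1, rtm_stable A I w τ u.2⟩
  invFun u := ⟨(actY A I τ).symm u.1, by
    rw [rtm_symm]
    exact rtm_stable A I w τ⁻¹ u.2⟩
  left_inv u := by
    apply Subtype.ext
    exact (actY A I τ).symm_apply_apply u.1
  right_inv u := by
    apply Subtype.ext
    exact (actY A I τ).apply_symm_apply u.1
  map_add' u v := by
    apply Subtype.ext
    exact map_add (actY A I τ) u.1 v.1
  map_smul' r u := by
    apply Subtype.ext
    exact map_smul (actY A I τ) r u.1

/-- Relative property T. -/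
theorem rtm [Fintype K] [DecidableEq K] [∀ k, Fintype (I k)] {V J : Type} [AddCommGroup V]
    [Module (ZMod 19) V] [Fintype J] [Nonempty J] (x : ∀ k, I k → A k → V)
    (f : J → (V →ₗ[ZMod 19] ZMod 19)) (ε₀ c₁ : ℝ) (hε : 0 < ε₀) (hε1 : ε₀ ≤ 1) (hc : 0 < c₁)
    (hA : ∀ k, 8 ≤ ε₀ * Fintype.card (A k))
    (hF : ∀ s : V, s ≠ 0 → c₁ * Nat.card J ≤ Nat.card {j // f j s ≠ 0})
    (hcode : ∀ k (q : I k → ZMod 19), (∀ a, ∑ i, q i • x k i a = 0) ∨
      ∀ v : V, (Nat.card {a // ∑ i, q i • x k i a = v} : ℝ) ≤ (1 - ε₀) * Fintype.card (A k))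
    (θ : Fin 3 × Bool) :
    Kz (Set.range (blM A I) ∪ {g | ∃ j, g = EE A I θ (Multiplicative.ofAdd
        fun y => f j (x y.1 y.2.1 y.2.2))})
      (2 + 30 / Real.sqrt (c₁ * ε₀ / 4))
      {g | ∃ u ∈ Submodule.span (ZMod 19) {u | ∃ j σ, u = actY A I σ
        fun y => f j (x y.1 y.2.1 y.2.2)}, g = EE A I θ (Multiplicative.ofAdd u)} := by
  have : Fact (Nat.Prime 19) := ⟨by norm_num⟩
  set w : J → YY A I → ZMod 19 := fun j y => f j (x y.1 y.2.1 y.2.2) with hw
  have : Finite (YY A I → ZMod 19) := inferInstance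
  have : Finite (Submodule.span (ZMod 19) {u | ∃ j σ, u = actY A I σ (w j)}) := inferInstance
  let _ : Fintype (Submodule.span (ZMod 19) {u | ∃ j σ, u = actY A I σ (w j)}) :=
    Fintype.ofFinite _
  let _ : Fintype (∀ k, alternatingGroup (A k)) := Fintype.ofFinite _
  have hmem : ∀ j, w j ∈ Submodule.span (ZMod 19) {u | ∃ j σ, u = actY A I σ (w j)} :=
    fun j => Submodule.subset_span ⟨j, 1, (rtm_actY_one A I (w j)).symm⟩
  have key := rta (Γ := MM A I) (D := ∀ k, alternatingGroup (A k))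
    (U := Submodule.span (ZMod 19) {u | ∃ j σ, u = actY A I σ (w j)}) (J := J)
    (blM A I)
    ((EE A I θ).comp (AddMonoidHom.toMultiplicative (Submodule.subtype (Submodule.span (ZMod 19)
      {u | ∃ j σ, u = actY A I σ (w j)})).toAddMonoidHom))
    (rtm_act A I w)
    (fun d u => blM_conj_EE A I d θ u.1)
    (fun j => ⟨w j, hmem j⟩) (c₁ * ε₀ / 4) (by positivity) (by
      intro l hl
      obtain ⟨l', hl'⟩ := LinearMap.exists_extend l
      have h1 : ∀ u, l u = l' u.1 := fun u => by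
        rw [← hl']
        rfl
      have h2 : ∃ j σ, l' (actY A I σ (w j)) ≠ 0 := by
        by_contra hcon
        push Not at hcon
        apply hl
        ext u
        rw [h1, LinearMap.zero_apply]
        have h3 : Submodule.span (ZMod 19) {u | ∃ j σ, u = actY A I σ (w j)} ≤
            LinearMap.ker l' := by
          rw [Submodule.span_le]
          rintro v ⟨j, σ, rfl⟩
          exact LinearMap.mem_ker.2 (hcon j σ)
        exact LinearMap.mem_ker.1 (h3 u.2)
      have h4 := comb A I x f ε₀ c₁ hε hε1 hc.le hA hF hcode l' h2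
      refine h4.trans (le_of_eq ?_)
      norm_cast
      exact Nat.card_congr (Equiv.subtypeEquivRight fun p => by
        rw [h1]
        exact Iff.rfl))
  intro W _ _ _ ρ v δ hδ hS t ht
  refine key W ρ v δ hδ hS t ?_
  obtain ⟨u, hu, rfl⟩ := ht
  exact ⟨Multiplicative.ofAdd ⟨u, hu⟩, rfl⟩

end Pool.Agent.MPfe8e9bA
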