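import Mathlib

/-!
# MP_fe8e9b_al, alternating groups: separating subspaces generate
-/

set_option autoImplicit false

open scoped BigOperators Pointwise

namespace Pool.Agent.MPfe8e9bA

/-- The indicators of points. -/
theorem sep_single {Y : Type} [Fintype Y] [DecidableEq Y]
    (Λ : Submodule (ZMod 19) (Y → ZMod 19))
    (hsep : ∀ y y', y ≠ y' → ∃ u ∈ Λ, u y ≠ u y') (y₀ : Y) :
    (Pi.single y₀ 1 : Y → ZMod 19) ∈ Algebra.adjoin (ZMod 19) (Λ : Set (Y → ZMod 19)) := by
  have hprime : Fact (Nat.Prime 19) := ⟨by norm_num⟩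
  have hex : ∀ y, ∃ u ∈ Λ, y ≠ y₀ → u y ≠ u y₀ := by
    intro y
    by_cases h : y = y₀
    · exact ⟨0, Λ.zero_mem, fun h' => absurd h h'⟩
    · obtain ⟨u, hu, hne⟩ := hsep y y₀ h
      exact ⟨u, hu, fun _ => hne⟩
  choose u hu hne using hex
  have he : (Pi.single y₀ 1 : Y → ZMod 19) = ∏ y ∈ Finset.univ.erase y₀,
      ((u y y₀ - u y y)⁻¹ • (u y - algebraMap (ZMod 19) (Y → ZMod 19) (u y y))) := by
    funext z
    rw [Finset.prod_apply]
    by_cases hz : z = y₀
    · subst hz
      rw [Pi.single_eq_same]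
      symm
      refine Finset.prod_eq_one fun y hy => ?_
      have h1 : u y z - u y y ≠ 0 := sub_ne_zero.2 (hne y (Finset.ne_of_mem_erase hy)).symm
      show (u y z - u y y)⁻¹ * (u y z - u y y) = 1
      exact inv_mul_cancel₀ h1
    · rw [Pi.single_eq_of_ne hz]
      symm
      refine Finset.prod_eq_zero (Finset.mem_erase.2 ⟨hz, Finset.mem_univ z⟩) ?_
      show (u z y₀ - u z z)⁻¹ * (u z z - u z z) = 0
      rw [sub_self, mul_zero]
  rw [he]
  refine Subalgebra.prod_mem _ fun y _ => ?_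
  refine Subalgebra.smul_mem _ (Subalgebra.sub_mem _ ?_ (Subalgebra.algebraMap_mem _ _)) _
  exact Algebra.subset_adjoin (hu y)

/-- A subspace which separates points generates the algebra of functions. -/
theorem adjoin_of_sep {Y : Type} [Fintype Y] [DecidableEq Y]
    (Λ : Submodule (ZMod 19) (Y → ZMod 19))
    (hsep : ∀ y y', y ≠ y' → ∃ u ∈ Λ, u y ≠ u y') :
    Algebra.adjoin (ZMod 19) (Λ : Set (Y → ZMod 19)) = ⊤ := by
  rw [eq_top_iff]
  intro f _
  have he : f = ∑ y, f y • (Pi.single y 1 : Y → ZMod 19) := by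
    funext z
    rw [Finset.sum_apply]
    simp [Pi.single_apply]
  rw [he]
  exact Subalgebra.sum_mem _ fun y _ =>
    Subalgebra.smul_mem _ (sep_single Λ hsep y) _

end Pool.Agent.MPfe8e9bA
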