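import Mathlib
import Pool.Agent.Lib.MP_fe8e9b_al_A.Rtm
import Pool.Agent.Lib.MP_fe8e9b_al_A.CkAll
import Pool.Agent.Lib.MP_fe8e9b_al_A.Sep

/-!
# MP_fe8e9b_al, alternating groups: functions on the set of blocks
-/

set_option autoImplicit false

open scoped BigOperators Pointwise

namespace Pool.Agent.MPfe8e9bA

/-- Even permutations are twofold transitive. -/
theorem stepb_two {α : Type} [Fintype α] [DecidableEq α] (h4 : 4 ≤ Fintype.card α)
    {h h' a a' : α} (hh : h ≠ h') (ha : a ≠ a') :
    ∃ σ : alternatingGroup α, σ.1 h = a ∧ σ.1 h' = a' := by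
  obtain ⟨c, d, hc, hd, hcd⟩ : ∃ c d : α, c ∈ ({h, h'} : Finset α)ᶜ ∧
      d ∈ ({h, h'} : Finset α)ᶜ ∧ c ≠ d := by
    have h1 : 1 < (({h, h'} : Finset α)ᶜ).card := by
      rw [Finset.card_compl]
      have := Finset.card_le_two (a := h) (b := h')
      omega
    obtain ⟨c, hc, d, hd, hcd⟩ := Finset.one_lt_card.1 h1
    exact ⟨c, d, hc, hd, hcd⟩
  simp only [Finset.mem_compl, Finset.mem_insert, Finset.mem_singleton, not_or] at hc hd
  set x : α := Equiv.swap h a h' with hx
  have hxa : x ≠ a := by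
    intro hxa
    apply hh
    apply (Equiv.swap h a).injective
    rw [Equiv.swap_apply_left, ← hx, hxa]
  set τ : Equiv.Perm α := Equiv.swap x a' * Equiv.swap h a with hτ
  have h1 : τ h = a := by
    rw [hτ, Equiv.Perm.mul_apply, Equiv.swap_apply_left,
      Equiv.swap_apply_of_ne_of_ne hxa.symm ha]
  have h2 : τ h' = a' := by
    rw [hτ, Equiv.Perm.mul_apply, ← hx, Equiv.swap_apply_left]
  rcases Int.units_eq_one_or (Equiv.Perm.sign τ) with hs | hs
  · exact ⟨⟨τ, Equiv.Perm.mem_alternatingGroup.2 hs⟩, h1, h2⟩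
  · refine ⟨⟨τ * Equiv.swap c d, ?_⟩, ?_, ?_⟩
    · rw [Equiv.Perm.mem_alternatingGroup, Equiv.Perm.sign_mul, hs, Equiv.Perm.sign_swap hcd]
      rfl
    · show τ (Equiv.swap c d h) = a
      rw [Equiv.swap_apply_of_ne_of_ne (Ne.symm hc.1) (Ne.symm hd.1), h1]
    · show τ (Equiv.swap c d h') = a'
      rw [Equiv.swap_apply_of_ne_of_ne (Ne.symm hc.2) (Ne.symm hd.2), h2]

/-- Multiples of the constant function. -/
theorem stepb_pow {K : Type} (A I : K → Type) [∀ k, Fintype (A k)] [∀ k, DecidableEq (A k)]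
    {S : Set (MM A I)} (θ : Fin 3 × Bool) (u : YY A I → ZMod 19)
    (hu : EE A I θ (Multiplicative.ofAdd u) ∈ S) :
    Kz S ((19 : ℕ) * 1) {g | ∃ c : ZMod 19, g = EE A I θ (Multiplicative.ofAdd (c • u))} := by
  have h1 : Kz S 1 {EE A I θ (Multiplicative.ofAdd u)} := by
    refine (Kz.self S).mono subset_rfl le_rfl ?_
    intro g hg
    rw [Set.mem_singleton_iff] at hg
    rw [hg]
    exact hu
  refine (Kz.prod zero_le_one h1 19).mono subset_rfl le_rfl ?_
  rintro g ⟨c, rfl⟩
  refine ⟨List.replicate c.val (EE A I θ (Multiplicative.ofAdd u)), ?_, ?_, ?_⟩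
  · rw [List.length_replicate]
    exact (ZMod.val_lt c).le
  · intro y hy
    exact (List.mem_replicate.1 hy).2
  · rw [List.prod_replicate, ← map_pow]
    congr 1
    apply Multiplicative.toAdd.injective
    rw [toAdd_pow]
    show c • u = c.val • u
    rw [← Nat.cast_smul_eq_nsmul (ZMod 19), ZMod.natCast_zmod_val]

theorem stepb_card {α : Type} {P : α → Prop} (T : Finset α) (h : ∀ a, P a → a ∈ T) :
    Nat.card {a // P a} ≤ T.card := by
  have h1 : Nat.card {a // P a} ≤ Nat.card T :=
    Nat.card_le_card_of_injective (fun x : {a // P a} => (⟨x.1, h x.1 x.2⟩ : T))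
      (fun x y hxy => Subtype.ext (congrArg (fun z : T => z.1) hxy))
  rwa [Nat.card_eq_fintype_card (α := T), Fintype.card_coe] at h1

/-- The code of a balanced function. -/
theorem stepb_code {α : Type} [Fintype α] [DecidableEq α] (h64 : 64 ≤ Fintype.card α)
    (H : Finset α) (hH : H.card = Fintype.card α / 2) (c : ZMod 19) (hc : c ≠ 0) (v : ZMod 19) :
    (Nat.card {a // c • (if a ∈ H then (1 : ZMod 19) else 0) = v} : ℝ) ≤
      (1 - 1 / 8) * Fintype.card α := by
  have hle : Nat.card {a // c • (if a ∈ H then (1 : ZMod 19) else 0) = v} ≤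
      Fintype.card α - Fintype.card α / 2 := by
    by_cases hv : v = 0
    · have h3 := stepb_card (P := fun a => c • (if a ∈ H then (1 : ZMod 19) else 0) = v) Hᶜ
        (fun a ha => by
          rw [Finset.mem_compl]
          intro h
          rw [if_pos h, hv, smul_eq_mul, mul_one] at ha
          exact hc ha)
      rw [Finset.card_compl, hH] at h3
      exact h3
    · have h3 := stepb_card (P := fun a => c • (if a ∈ H then (1 : ZMod 19) else 0) = v) H
        (fun a ha => by
          by_contra h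
          rw [if_neg h, smul_zero] at ha
          exact hv ha.symm)
      rw [hH] at h3
      omega
  have h4 : (Nat.card {a // c • (if a ∈ H then (1 : ZMod 19) else 0) = v} : ℝ) ≤
      Fintype.card α - (Fintype.card α / 2 : ℕ) := by
    rw [← Nat.cast_sub (Nat.div_le_self _ _)]
    exact_mod_cast hle
  have h5 : (64 : ℝ) ≤ Fintype.card α := by exact_mod_cast h64
  have h6 : (Fintype.card α : ℝ) ≤ 2 * (Fintype.card α / 2 : ℕ) + 1 := by
    have : Fintype.card α ≤ 2 * (Fintype.card α / 2) + 1 := by omega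
    exact_mod_cast this
  linarith

/-- Block permutations and twelve elements control all permutations inside the blocks. -/
theorem step_b : ∃ C : ℝ, 0 ≤ C ∧ ∀ (K : Type) [Fintype K] [DecidableEq K] (A : K → Type)
    [∀ k, Fintype (A k)] [∀ k, DecidableEq (A k)], (∀ k, 64 ≤ Fintype.card (A k)) →
    ∃ b : YY A (fun _ => Unit) → ZMod 19,
      Kz (Set.range (blM A fun _ => Unit) ∪
          {g | ∃ θ, g = EE A (fun _ => Unit) θ (Multiplicative.ofAdd 1) ∨
            g = EE A (fun _ => Unit) θ (Multiplicative.ofAdd b)}) C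
        (Set.range (fbM A fun _ => Unit)) := by
  have hprime : Fact (Nat.Prime 19) := ⟨by norm_num⟩
  set C0 : ℝ := 2 + 30 / Real.sqrt (1 * (1 / 8) / 4) with hC0
  have hC0' : 0 ≤ C0 := by positivity
  set C1 : ℝ := ((19 : ℕ) * 1 + C0) + ((19 : ℕ) * 1 + C0) with hC1
  have hC1' : 0 ≤ C1 := by positivity
  refine ⟨6 * C1, by positivity, ?_⟩
  intro K _ _ A _ _ hA
  -- half of the blocks
  have hHex : ∀ k, ∃ H : Finset (A k), H.card = Fintype.card (A k) / 2 := by
    intro k
    obtain ⟨t, _, ht⟩ := Finset.exists_subset_card_eq (s := (Finset.univ : Finset (A k)))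
      (n := Fintype.card (A k) / 2) (by rw [Finset.card_univ]; omega)
    exact ⟨t, ht⟩
  choose H hH using hHex
  set b : YY A (fun _ => Unit) → ZMod 19 := fun y => if y.2.2 ∈ H y.1 then 1 else 0 with hb
  refine ⟨b, ?_⟩
  set S : Set (MM A fun _ => Unit) := Set.range (blM A fun _ => Unit) ∪
          {g | ∃ θ, g = EE A (fun _ => Unit) θ (Multiplicative.ofAdd 1) ∨
            g = EE A (fun _ => Unit) θ (Multiplicative.ofAdd b)} with hS
  set Ub : Submodule (ZMod 19) (YY A (fun _ => Unit) → ZMod 19) :=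
    Submodule.span (ZMod 19) {u | ∃ (_ : Unit) (σ : ∀ k, alternatingGroup (A k)),
      u = actY A (fun _ => Unit) σ b} with hUb
  -- relative property T
  have hR : ∀ θ : Fin 3 × Bool, Kz S C0
      {g | ∃ u ∈ Ub, g = EE A (fun _ => Unit) θ (Multiplicative.ofAdd u)} := by
    intro θ
    have h1 := rtm A (fun _ => Unit) (V := ZMod 19) (J := Unit)
      (fun k _ a => if a ∈ H k then 1 else 0)
      (fun _ => LinearMap.id) (1 / 8) 1 (by norm_num) (by norm_num) one_pos
      (fun k => by
        have h2 : (64 : ℝ) ≤ Fintype.card (A k) := by exact_mod_cast hA k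
        linarith)
      (fun s hs => by
        have h2 : Nat.card {j : Unit // (LinearMap.id : ZMod 19 →ₗ[ZMod 19] ZMod 19) s ≠ 0} =
            1 := by
          rw [Nat.card_eq_one_iff_unique]
          exact ⟨⟨fun a b => Subsingleton.elim a b⟩, ⟨⟨(), hs⟩⟩⟩
        rw [h2]
        simp)
      (fun k q => by
        simp only [Finset.univ_unique, Finset.sum_singleton]
        by_cases hc0 : q default = 0
        · left
          intro a
          rw [hc0, zero_smul]
        · right
          intro v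
          exact stepb_code (hA k) (H k) (hH k) (q default) hc0 v) θ
    refine h1.mono ?_ le_rfl subset_rfl
    refine Set.union_subset_union_right _ ?_
    rintro g ⟨j, hg⟩
    exact ⟨θ, Or.inr hg⟩
  -- the subspace
  set Λ : Submodule (ZMod 19) (YY A (fun _ => Unit) → ZMod 19) :=
    Submodule.span (ZMod 19) {1} ⊔ Ub with hΛ
  have h1Λ : (1 : YY A (fun _ => Unit) → ZMod 19) ∈ Λ :=
    Submodule.mem_sup_left (Submodule.mem_span_singleton_self _)
  have hΛc : ∀ θ : Fin 3 × Bool, Kz S ((19 : ℕ) * 1 + C0)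
      {g | ∃ u ∈ Λ, g = EE A (fun _ => Unit) θ (Multiplicative.ofAdd u)} := by
    intro θ
    have h2 := (stepb_pow A (fun _ => Unit) (S := S) θ 1 (Or.inr ⟨θ, Or.inl rfl⟩)).mul (hR θ)
    refine h2.mono subset_rfl le_rfl ?_
    rintro g ⟨u, hu, rfl⟩
    obtain ⟨y, hy, z, hz, rfl⟩ := Submodule.mem_sup.1 hu
    obtain ⟨c, rfl⟩ := Submodule.mem_span_singleton.1 hy
    exact ⟨_, ⟨c, rfl⟩, _, ⟨z, hz, rfl⟩, by
      show EE A (fun _ => Unit) θ _ * EE A (fun _ => Unit) θ _ = _
      rw [← map_mul]
      rfl⟩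
  -- it separates the points
  have hsep : ∀ y y' : YY A (fun _ => Unit), y ≠ y' → ∃ u ∈ Λ, u y ≠ u y' := by
    rintro ⟨k, _, a⟩ ⟨k', _, a'⟩ hne
    have hin : ∀ k, ∃ h, h ∈ H k := by
      intro k
      have : 0 < (H k).card := by rw [hH]; have := hA k; omega
      exact Finset.card_pos.1 this
    have hout : ∀ k, ∃ h, h ∉ H k := by
      intro k
      by_contra hcon
      push Not at hcon
      have h2 : H k = Finset.univ := Finset.eq_univ_iff_forall.2 hcon
      have h3 := hH k
      rw [h2, Finset.card_univ] at h3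
      have := hA k
      omega
    have hσ : ∃ σ : ∀ k, alternatingGroup (A k), (σ k).1⁻¹ a ∈ H k ∧ (σ k').1⁻¹ a' ∉ H k' := by
      obtain ⟨h, hh⟩ := hin k
      obtain ⟨h', hh'⟩ := hout k'
      by_cases hk : k = k'
      · subst hk
        have haa : a ≠ a' := fun h => hne (by rw [h])
        have hhh : h ≠ h' := fun h0 => hh' (by rw [← h0]; exact hh)
        obtain ⟨τ, hτ1, hτ2⟩ := stepb_two (by have := hA k; omega) hhh haa
        refine ⟨Function.update (fun _ => 1) k τ, ?_, ?_⟩
        · rw [Function.update_self, ← hτ1]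
          simpa using hh
        · rw [Function.update_self, ← hτ2]
          simpa using hh'
      · have hone : ∀ (k : K) (h a : A k), ∃ τ : alternatingGroup (A k), τ.1 h = a := by
          intro k h a
          have hnt : Nontrivial (A k) := by
            rw [← Fintype.one_lt_card_iff_nontrivial]
            have := hA k
            omega
          obtain ⟨h2, hh2⟩ := exists_ne h
          obtain ⟨a2, ha2⟩ := exists_ne a
          obtain ⟨τ, hτ1, _⟩ := stepb_two (by have := hA k; omega) (Ne.symm hh2) (Ne.symm ha2)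
          exact ⟨τ, hτ1⟩
        obtain ⟨τ, hτ⟩ := hone k h a
        obtain ⟨τ', hτ'⟩ := hone k' h' a'
        refine ⟨Function.update (Function.update (fun _ => 1) k' τ') k τ, ?_, ?_⟩
        · rw [Function.update_self, ← hτ]
          simpa using hh
        · rw [Function.update_of_ne (Ne.symm hk), Function.update_self, ← hτ']
          simpa using hh'
    obtain ⟨σ, hσ1, hσ2⟩ := hσ
    refine ⟨actY A (fun _ => Unit) σ b,
      Submodule.mem_sup_right (Submodule.subset_span ⟨(), σ, rfl⟩), ?_⟩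
    rw [actY_apply, actY_apply]
    simp only [hb]
    rw [if_pos hσ1, if_neg hσ2]
    exact one_ne_zero
  -- the conclusion
  have hck : Kz (ckS (fun _ : YY A (fun _ => Unit) => ZMod 19) Λ) 6 Set.univ :=
    ck_all (fun _ : YY A (fun _ => Unit) => ZMod 19) Λ h1Λ (adjoin_of_sep Λ hsep)
  have hmap := hck.map (fbM A fun _ => Unit)
  rw [Set.image_univ] at hmap
  have hS1 : Kz S C1 ((fbM A fun _ => Unit) ''
      ckS (fun _ : YY A (fun _ => Unit) => ZMod 19) Λ) := by
    have h3 : Kz S C1 ({g | ∃ θ : Fin 3 × Bool, ∃ u ∈ Λ,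
        g = EE A (fun _ => Unit) θ (Multiplicative.ofAdd u)} *
        {g | ∃ θ : Fin 3 × Bool, ∃ u ∈ Λ,
        g = EE A (fun _ => Unit) θ (Multiplicative.ofAdd u)}) := by
      have h4 : Kz S ((19 : ℕ) * 1 + C0) {g | ∃ θ : Fin 3 × Bool, ∃ u ∈ Λ,
          g = EE A (fun _ => Unit) θ (Multiplicative.ofAdd u)} := by
        intro V _ _ _ ρ v δ hδ hs t ht
        obtain ⟨θ, u, hu, rfl⟩ := ht
        exact hΛc θ V ρ v δ hδ hs _ ⟨u, hu, rfl⟩
      exact h4.mul h4
    refine h3.mono subset_rfl le_rfl ?_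
    rintro g ⟨x, ⟨j, u, w, hu, hw, rfl⟩, rfl⟩
    refine ⟨_, ⟨(j, true), u, hu, rfl⟩, _, ⟨(j, false), w, hw, rfl⟩, ?_⟩
    rw [map_mul]
    rfl
  exact hS1.trans hC1' hmap

end Pool.Agent.MPfe8e9bA
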