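import Mathlib
import Pool.Agent.Lib.MP_fe8e9b_al_A.Rtm
import Pool.Agent.Lib.MP_fe8e9b_al_A.CkAll
import Pool.Agent.Lib.MP_fe8e9b_al_A.Sep

/-!
# MP_fe8e9b_al, alternating groups: functions on all blocks
-/

set_option autoImplicit false

open scoped BigOperators Pointwise

namespace Pool.Agent.MPfe8e9bA

/-- Most functionals do not vanish at a given vector. -/
theorem stepc_card {V : Type} [AddCommGroup V] [Module (ZMod 19) V] [Finite V] (s : V)
    (hs : s ≠ 0) : (18 / 19 : ℝ) * Nat.card (V →ₗ[ZMod 19] ZMod 19) ≤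
      Nat.card {j : V →ₗ[ZMod 19] ZMod 19 // j s ≠ 0} := by
  have hprime : Fact (Nat.Prime 19) := ⟨by norm_num⟩
  have hfin : Finite (V →ₗ[ZMod 19] ZMod 19) :=
    Finite.of_injective (fun j : V →ₗ[ZMod 19] ZMod 19 => (j : V → ZMod 19))
      DFunLike.coe_injective
  obtain ⟨ev, hev⟩ : ∃ ev : (V →ₗ[ZMod 19] ZMod 19) →ₗ[ZMod 19] ZMod 19, ∀ j, ev j = j s :=
    ⟨LinearMap.applyₗ s, fun j => rfl⟩
  obtain ⟨j₀, hj₀⟩ : ∃ j₀ : V →ₗ[ZMod 19] ZMod 19, j₀ s ≠ 0 := by
    by_contra hcon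
    push Not at hcon
    exact hs ((Module.forall_dual_apply_eq_zero_iff (ZMod 19) s).1 hcon)
  have hsurj : Function.Surjective ev := by
    intro c
    refine ⟨(c * (j₀ s)⁻¹) • j₀, ?_⟩
    rw [hev, LinearMap.smul_apply, smul_eq_mul, mul_assoc, inv_mul_cancel₀ hj₀, mul_one]
  have h1 := Submodule.card_eq_card_quotient_mul_card (LinearMap.ker ev)
  have h2 : Nat.card ((V →ₗ[ZMod 19] ZMod 19) ⧸ LinearMap.ker ev) = 19 := by
    rw [Nat.card_congr (LinearMap.quotKerEquivOfSurjective ev hsurj).toEquiv, Nat.card_zmod]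
  have h3 : Nat.card (V →ₗ[ZMod 19] ZMod 19) =
      Nat.card {j : V →ₗ[ZMod 19] ZMod 19 // j s = 0} +
        Nat.card {j : V →ₗ[ZMod 19] ZMod 19 // j s ≠ 0} := by
    classical
    rw [← Nat.card_sum]
    exact Nat.card_congr (Equiv.sumCompl _).symm
  have h4 : Nat.card (LinearMap.ker ev) = Nat.card {j : V →ₗ[ZMod 19] ZMod 19 // j s = 0} := by
    refine Nat.card_congr (Equiv.subtypeEquivRight fun j => ?_)
    rw [LinearMap.mem_ker, hev]
  rw [h2, h4] at h1
  have h5 : (Nat.card (V →ₗ[ZMod 19] ZMod 19) : ℝ) =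
      Nat.card {j : V →ₗ[ZMod 19] ZMod 19 // j s = 0} +
        Nat.card {j : V →ₗ[ZMod 19] ZMod 19 // j s ≠ 0} := by exact_mod_cast h3
  have h6 : (Nat.card (V →ₗ[ZMod 19] ZMod 19) : ℝ) =
      Nat.card {j : V →ₗ[ZMod 19] ZMod 19 // j s = 0} * 19 := by
    exact_mod_cast (by omega : Nat.card (V →ₗ[ZMod 19] ZMod 19) =
      Nat.card {j : V →ₗ[ZMod 19] ZMod 19 // j s = 0} * 19)
  linarith

/-- The shears are defined pointwise. -/
theorem stepc_qq {Y Y' : Type} (φ : Y' → Y) (θ : Fin 3 × Bool) (u : Y → ZMod 19) (y : Y') :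
    qq (fun _ : Y' => ZMod 19) θ (Multiplicative.ofAdd fun y => u (φ y)) y =
      qq (fun _ : Y => ZMod 19) θ (Multiplicative.ofAdd u) (φ y) := by
  unfold qq
  split <;> rfl

section Mid

variable {K : Type} (A I : K → Type) [∀ k, Fintype (A k)] [∀ k, DecidableEq (A k)]

theorem stepc_conj (τ : ∀ k, I k → Equiv.Perm (A k)) (b : YY A I → alternatingGroup WW) :
    (blS A I τ)⁻¹ * fbM A I b * blS A I τ =
      fbM A I (fun y => b ⟨y.1, y.2.1, τ y.1 y.2.1 y.2.2⟩) := by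
  funext k i
  have h := bl_conj (A k) (τ k i)⁻¹ (fun a => b ⟨k, i, a⟩)
  rw [map_inv, inv_inv] at h
  simp only [inv_inv] at h
  exact h

theorem stepc_EE_conj (τ : ∀ k, I k → Equiv.Perm (A k)) (θ : Fin 3 × Bool)
    (u : YY A I → ZMod 19) :
    (blS A I τ)⁻¹ * EE A I θ (Multiplicative.ofAdd u) * blS A I τ =
      EE A I θ (Multiplicative.ofAdd fun y => u ⟨y.1, y.2.1, τ y.1 y.2.1 y.2.2⟩) := by
  have h := stepc_conj A I τ (qq (fun _ : YY A I => ZMod 19) θ (Multiplicative.ofAdd u))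
  refine h.trans ?_
  show fbM A I _ = fbM A I _
  congr 1
  funext y
  exact (stepc_qq (fun y : YY A I => (⟨y.1, y.2.1, τ y.1 y.2.1 y.2.2⟩ : YY A I)) θ u y).symm

theorem stepc_EE_dg (θ : Fin 3 × Bool) (g : YY A (fun _ => Unit) → ZMod 19) :
    dgM A I (EE A (fun _ => Unit) θ (Multiplicative.ofAdd g)) =
      EE A I θ (Multiplicative.ofAdd fun y => g ⟨y.1, (), y.2.2⟩) := by
  funext k i
  show fb (A k) (fun a => qq (fun _ : YY A (fun _ => Unit) => ZMod 19) θ
    (Multiplicative.ofAdd g) ⟨k, (), a⟩) = fb (A k) (fun a => qq (fun _ : YY A I => ZMod 19) θ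
      (Multiplicative.ofAdd fun y => g ⟨y.1, (), y.2.2⟩) ⟨k, i, a⟩)
  congr 1
  funext a
  exact (stepc_qq (fun y : YY A I => (⟨y.1, (), y.2.2⟩ : YY A (fun _ => Unit))) θ g
    ⟨k, i, a⟩).symm

end Mid

/-- Even permutations are transitive. -/
theorem stepc_trans {A : Type} [Fintype A] [DecidableEq A] (h : 3 ≤ Fintype.card A) (a b : A) :
    ∃ σ : alternatingGroup A, σ.1 a = b := by
  by_cases hab : a = b
  · exact ⟨1, hab⟩
  · obtain ⟨c, hc⟩ : ∃ c, c ∉ ({a, b} : Finset A) := by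
      by_contra hcon
      push Not at hcon
      have h1 : (Finset.univ : Finset A) ⊆ {a, b} := fun x _ => hcon x
      have h2 := Finset.card_le_card h1
      have h3 : ({a, b} : Finset A).card ≤ 2 := Finset.card_le_two
      rw [Finset.card_univ] at h2
      omega
    simp only [Finset.mem_insert, Finset.mem_singleton, not_or] at hc
    refine ⟨⟨Equiv.swap c b * Equiv.swap a c, ?_⟩, ?_⟩
    · rw [Equiv.Perm.mem_alternatingGroup, Equiv.Perm.sign_mul, Equiv.Perm.sign_swap hc.2,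
        Equiv.Perm.sign_swap (fun h => hc.1 h.symm)]
      decide
    · show (Equiv.swap c b * Equiv.swap a c) a = b
      rw [Equiv.Perm.mul_apply, Equiv.swap_apply_left, Equiv.swap_apply_left]

/-- Permutations inside the blocks, for all indices. -/
theorem step_c (ε₀ : ℝ) (hε : 0 < ε₀) (hε1 : ε₀ ≤ 1) (s : ℕ) : ∃ C : ℝ, 0 ≤ C ∧
    ∀ (K : Type) [Fintype K] [DecidableEq K] (A I : K → Type) [∀ k, Fintype (A k)]
    [∀ k, DecidableEq (A k)] [∀ k, Fintype (I k)] (E : K → Type) [∀ k, AddCommGroup (E k)]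
    [∀ k, Module (ZMod 19) (E k)] [∀ k, Fintype (E k)] (e : ∀ k, A k → E k)
    (τ : Fin s → ∀ k, I k → Equiv.Perm (A k)), (∀ k, Function.Injective (e k)) →
    (∀ k, 8 ≤ ε₀ * Fintype.card (A k)) →
    (∀ t k (q : I k → ZMod 19), (∀ a, ∑ i, q i • e k (τ t k i a) = 0) ∨
      ∀ v, (Nat.card {a // ∑ i, q i • e k (τ t k i a) = v} : ℝ) ≤
        (1 - ε₀) * Fintype.card (A k)) →
    (∀ k (i i' : I k), i ≠ i' → ∃ t, τ t k i ≠ τ t k i') →
    Kz (dgM A I '' (Set.range (blM A fun _ => Unit) ∪ Set.range (fbM A fun _ => Unit)) ∪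
        {g | ∃ t, g = blS A I (τ t)}) C (Set.range (fbM A I)) := by
  obtain ⟨C₁, hC₁⟩ : ∃ C₁ : ℝ, C₁ = 2 + 30 / Real.sqrt (18 / 19 * ε₀ / 4) := ⟨_, rfl⟩
  have hC₁0 : 0 ≤ C₁ := by
    rw [hC₁]
    positivity
  refine ⟨6 * ((1 + s * (C₁ * 3)) + (1 + s * (C₁ * 3))), by positivity, ?_⟩
  intro K _ _ A I _ _ _ E _ _ _ e τ he hA hcode hsep
  have hprime : Fact (Nat.Prime 19) := ⟨by norm_num⟩
  obtain ⟨S, hS⟩ : ∃ S : Set (MM A I), S = dgM A I '' (Set.range (blM A fun _ => Unit) ∪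
      Set.range (fbM A fun _ => Unit)) ∪ {g | ∃ t, g = blS A I (τ t)} := ⟨_, rfl⟩
  rw [← hS]
  -- the elements of the generating set
  have m1 : ∀ σ, blM A I σ ∈ S := by
    intro σ
    rw [hS]
    exact Or.inl ⟨blM A (fun _ => Unit) σ, Or.inl ⟨σ, rfl⟩, rfl⟩
  have m2 : ∀ (θ : Fin 3 × Bool) (g : YY A (fun _ => Unit) → ZMod 19),
      EE A I θ (Multiplicative.ofAdd fun y => g ⟨y.1, (), y.2.2⟩) ∈ S := by
    intro θ g
    rw [hS]
    refine Or.inl ⟨EE A (fun _ => Unit) θ (Multiplicative.ofAdd g), Or.inr ⟨_, rfl⟩, ?_⟩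
    exact stepc_EE_dg A I θ g
  have m3 : ∀ t, blS A I (τ t) ∈ S := by
    intro t
    rw [hS]
    exact Or.inr ⟨t, rfl⟩
  classical
  obtain ⟨x, hx⟩ : ∃ x : Fin s → ∀ k, I k → A k → (∀ k, E k),
      x = fun t k i a => Pi.single k (e k (τ t k i a)) := ⟨_, rfl⟩
  have hJfin : Finite ((∀ k, E k) →ₗ[ZMod 19] ZMod 19) :=
    Finite.of_injective (fun j : (∀ k, E k) →ₗ[ZMod 19] ZMod 19 => (j : (∀ k, E k) → ZMod 19))
      DFunLike.coe_injective
  have hJ : Fintype ((∀ k, E k) →ₗ[ZMod 19] ZMod 19) := Fintype.ofFinite _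
  -- the shears with coefficients in the orbit
  have k1 : ∀ t θ, Kz S 3 (Set.range (blM A I) ∪ {g | ∃ j : (∀ k, E k) →ₗ[ZMod 19] ZMod 19,
      g = EE A I θ (Multiplicative.ofAdd fun y => j (x t y.1 y.2.1 y.2.2))}) := by
    intro t θ
    refine Kz.union ?_ ?_
    · refine (Kz.self S).mono le_rfl (by norm_num) ?_
      rintro _ ⟨σ, rfl⟩
      exact m1 σ
    · refine ((Kz.self S).conj' (m3 t)).mono le_rfl (by norm_num) ?_
      rintro _ ⟨j, rfl⟩
      refine ⟨_, m2 θ fun y => j (Pi.single y.1 (e y.1 y.2.2)), ?_⟩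
      rw [stepc_EE_conj, hx]
  have k2 : ∀ t θ, Kz S (C₁ * 3) {g | ∃ u ∈ Submodule.span (ZMod 19) {u | ∃ (j : (∀ k, E k)
      →ₗ[ZMod 19] ZMod 19) (σ : ∀ k, alternatingGroup (A k)), u = actY A I σ
        fun y => j (x t y.1 y.2.1 y.2.2)}, g = EE A I θ (Multiplicative.ofAdd u)} := by
    intro t θ
    refine (k1 t θ).trans (by norm_num) ?_
    rw [hC₁]
    refine rtm A I (x t) (fun j => j) ε₀ (18 / 19) hε hε1 (by norm_num) hA
      (fun v hv => stepc_card v hv) (fun k q => ?_) θ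
    have hsum : ∀ a, ∑ i, q i • x t k i a =
        Pi.single k (∑ i, q i • e k (τ t k i a)) := by
      intro a
      rw [hx]
      simp only
      have h1 : ∀ i, q i • (Pi.single k (e k (τ t k i a)) : ∀ k, E k) =
          LinearMap.single (ZMod 19) E k (q i • e k (τ t k i a)) := by
        intro i
        rw [map_smul]
        rfl
      simp only [h1]
      rw [← map_sum]
      rfl
    rcases hcode t k q with h | h
    · left
      intro a
      rw [hsum, h, Pi.single_zero]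
    · right
      intro v
      refine le_trans ?_ (h (v k))
      have h2 : Nat.card {a // ∑ i, q i • x t k i a = v} ≤
          Nat.card {a // ∑ i, q i • e k (τ t k i a) = v k} := by
        refine Nat.card_le_card_of_injective (fun a => ⟨a.1, ?_⟩) ?_
        · have h3 := a.2
          rw [hsum] at h3
          have h4 := congrFun h3 k
          rw [Pi.single_eq_same] at h4
          exact h4
        · intro a b hab
          apply Subtype.ext
          exact congrArg (fun z => z.1) hab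
      exact_mod_cast h2
  obtain ⟨Lt, hLt⟩ : ∃ Lt : Fin s → Submodule (ZMod 19) (YY A I → ZMod 19),
      Lt = fun t => Submodule.span (ZMod 19) {u | ∃ (j : (∀ k, E k) →ₗ[ZMod 19] ZMod 19)
        (σ : ∀ k, alternatingGroup (A k)), u = actY A I σ fun y => j (x t y.1 y.2.1 y.2.2)} :=
    ⟨_, rfl⟩
  have k3 : ∀ t θ, Kz S (C₁ * 3) {g | ∃ u ∈ Lt t, g = EE A I θ (Multiplicative.ofAdd u)} := by
    intro t θ
    rw [hLt]
    exact k2 t θ
  -- the subspace
  obtain ⟨Λ, hΛ⟩ : ∃ Λ : Submodule (ZMod 19) (YY A I → ZMod 19), ∀ u, u ∈ Λ ↔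
      ∃ (g : YY A (fun _ => Unit) → ZMod 19) (w : Fin s → YY A I → ZMod 19),
        (∀ t, w t ∈ Lt t) ∧ u = (fun y : YY A I => g ⟨y.1, (), y.2.2⟩) + ∑ t, w t := by
    refine ⟨⟨⟨⟨{u | ∃ (g : YY A (fun _ => Unit) → ZMod 19) (w : Fin s → YY A I → ZMod 19),
        (∀ t, w t ∈ Lt t) ∧ u = (fun y : YY A I => g ⟨y.1, (), y.2.2⟩) + ∑ t, w t}, ?_⟩, ?_⟩, ?_⟩,
      fun u => Iff.rfl⟩
    · rintro _ _ ⟨g, w, hw, rfl⟩ ⟨g', w', hw', rfl⟩
      refine ⟨g + g', w + w', fun t => (Lt t).add_mem (hw t) (hw' t), ?_⟩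
      have h1 : ∑ t, (w + w') t = ∑ t, w t + ∑ t, w' t := by
        rw [← Finset.sum_add_distrib]
        rfl
      have h2 : (fun y : YY A I => (g + g') ⟨y.1, (), y.2.2⟩) =
          (fun y : YY A I => g ⟨y.1, (), y.2.2⟩) + fun y : YY A I => g' ⟨y.1, (), y.2.2⟩ := rfl
      rw [h1, h2]
      abel
    · refine ⟨0, 0, fun t => (Lt t).zero_mem, ?_⟩
      have h1 : ∑ t : Fin s, (0 : Fin s → YY A I → ZMod 19) t = 0 := by
        simp
      rw [h1, add_zero]
      rfl
    · rintro c _ ⟨g, w, hw, rfl⟩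
      refine ⟨c • g, c • w, fun t => (Lt t).smul_mem c (hw t), ?_⟩
      rw [smul_add, Finset.smul_sum]
      rfl
  have k4 : ∀ θ, Kz S (1 + s * (C₁ * 3))
      {g | ∃ u ∈ Λ, g = EE A I θ (Multiplicative.ofAdd u)} := by
    intro θ V _ _ _ ρ v δ hδ hs
    rintro _ ⟨u, hu, rfl⟩
    obtain ⟨g, w, hw, rfl⟩ := (hΛ u).1 hu
    have key : ∀ T : Finset (Fin s), ‖ρ (EE A I θ (Multiplicative.ofAdd
        ((fun y : YY A I => g ⟨y.1, (), y.2.2⟩) + ∑ t ∈ T, w t))) v - v‖ ≤
          (1 + T.card * (C₁ * 3)) * δ := by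
      intro T
      induction T using Finset.induction_on with
      | empty =>
        rw [Finset.sum_empty, add_zero, Finset.card_empty]
        have h1 := hs _ (m2 θ g)
        simpa using h1
      | insert t T ht ih =>
        rw [Finset.sum_insert ht, Finset.card_insert_of_notMem ht,
          add_comm (w t), ← add_assoc, ofAdd_add, map_mul]
        refine (disp_mul ρ v _ _).trans ?_
        have h1 := k3 t θ V ρ v δ hδ hs _ ⟨w t, hw t, rfl⟩
        push_cast
        linarith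
    have h1 := key Finset.univ
    rwa [Finset.card_univ, Fintype.card_fin] at h1
  -- the constants and separation
  have one_mem : (1 : YY A I → ZMod 19) ∈ Λ := by
    rw [hΛ]
    refine ⟨1, 0, fun t => (Lt t).zero_mem, ?_⟩
    have h1 : ∑ t : Fin s, (0 : Fin s → YY A I → ZMod 19) t = 0 := by
      simp
    rw [h1, add_zero]
    rfl
  have g_mem : ∀ g : YY A (fun _ => Unit) → ZMod 19,
      (fun y : YY A I => g ⟨y.1, (), y.2.2⟩) ∈ Λ := by
    intro g
    rw [hΛ]
    refine ⟨g, 0, fun t => (Lt t).zero_mem, ?_⟩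
    have h1 : ∑ t : Fin s, (0 : Fin s → YY A I → ZMod 19) t = 0 := by
      simp
    rw [h1, add_zero]
  have L_mem : ∀ t, Lt t ≤ Λ := by
    intro t u hu
    rw [hΛ]
    refine ⟨0, Pi.single t u, fun t' => ?_, ?_⟩
    · by_cases h : t' = t
      · subst h
        rwa [Pi.single_eq_same]
      · rw [Pi.single_eq_of_ne h]
        exact (Lt t').zero_mem
    · rw [Finset.sum_eq_single t (fun t' _ h => by rw [Pi.single_eq_of_ne h])
        (fun h => absurd (Finset.mem_univ t) h), Pi.single_eq_same]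
      exact (zero_add u).symm
  have sep : ∀ y y' : YY A I, y ≠ y' → ∃ u ∈ Λ, u y ≠ u y' := by
    rintro ⟨k, i, a⟩ ⟨k', i', a'⟩ hne
    by_cases hka : (⟨k, (), a⟩ : YY A (fun _ => Unit)) = ⟨k', (), a'⟩
    · have hk : k = k' := congrArg (fun z => z.1) hka
      subst hk
      have ha : a = a' := by
        have h1 := eq_of_heq (Sigma.mk.inj hka).2
        exact congrArg (fun z => z.2) h1
      subst ha
      have hi : i ≠ i' := by
        rintro rfl
        exact hne rfl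
      obtain ⟨t, ht⟩ := hsep k i i' hi
      obtain ⟨a₁, ha₁⟩ : ∃ a₁, τ t k i a₁ ≠ τ t k i' a₁ := by
        by_contra hcon
        push Not at hcon
        exact ht (Equiv.ext hcon)
      have hv : (Pi.single k (e k (τ t k i a₁)) : ∀ k, E k) ≠
          Pi.single k (e k (τ t k i' a₁)) := by
        intro h
        exact ha₁ (he k (Pi.single_injective k h))
      obtain ⟨j, hj⟩ : ∃ j : (∀ k, E k) →ₗ[ZMod 19] ZMod 19,
          j (Pi.single k (e k (τ t k i a₁)) - Pi.single k (e k (τ t k i' a₁))) ≠ 0 := by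
        by_contra hcon
        push Not at hcon
        exact hv (sub_eq_zero.1 ((Module.forall_dual_apply_eq_zero_iff (ZMod 19) _).1 hcon))
      have hcard : 3 ≤ Fintype.card (A k) := by
        have h1 := hA k
        have h2 : (8 : ℝ) ≤ Fintype.card (A k) := by
          have h3 : (0 : ℝ) ≤ Fintype.card (A k) := Nat.cast_nonneg _
          nlinarith
        have h4 : 8 ≤ Fintype.card (A k) := by exact_mod_cast h2
        omega
      obtain ⟨σ₀, hσ₀⟩ := stepc_trans hcard a₁ a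
      obtain ⟨σ, hσ⟩ : ∃ σ : ∀ k, alternatingGroup (A k),
          σ = Function.update (1 : ∀ k, alternatingGroup (A k)) k σ₀ := ⟨_, rfl⟩
      have hσa : (σ k).1⁻¹ a = a₁ := by
        rw [hσ, Function.update_self, ← hσ₀]
        exact σ₀.1.symm_apply_apply a₁
      refine ⟨actY A I σ fun y => j (x t y.1 y.2.1 y.2.2), L_mem t ?_, ?_⟩
      · rw [hLt]
        exact Submodule.subset_span ⟨j, σ, rfl⟩
      · rw [actY_apply, actY_apply]
        simp only [hσa, hx]
        intro h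
        apply hj
        rw [map_sub, h, sub_self]
    · refine ⟨fun y => (Pi.single (⟨k, (), a⟩ : YY A (fun _ => Unit)) (1 : ZMod 19) :
        YY A (fun _ => Unit) → ZMod 19) ⟨y.1, (), y.2.2⟩, g_mem _, ?_⟩
      simp only
      rw [Pi.single_eq_same, Pi.single_eq_of_ne (fun h => hka h.symm)]
      exact one_ne_zero
  have hgen := adjoin_of_sep Λ sep
  have k5 : Kz (ckS (fun _ : YY A I => ZMod 19) Λ) 6 Set.univ :=
    ck_all (fun _ : YY A I => ZMod 19) Λ one_mem hgen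
  have k6 := Kz.map (fbM A I) k5
  rw [Set.image_univ] at k6
  refine Kz.trans (T := fbM A I '' ckS (fun _ : YY A I => ZMod 19) Λ) ?_ (by positivity) k6
  intro V _ _ _ ρ v δ hδ hs
  rintro _ ⟨_, ⟨j, a, b, ha, hb, rfl⟩, rfl⟩
  rw [map_mul]
  refine (disp_mul ρ v _ _).trans ?_
  rw [add_mul]
  exact add_le_add (k4 (j, true) V ρ v δ hδ hs _ ⟨a, ha, rfl⟩)
    (k4 (j, false) V ρ v δ hδ hs _ ⟨b, hb, rfl⟩)

end Pool.Agent.MPfe8e9bA
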