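import Mathlib
import Pool.Agent.Lib.MP_fe8e9b_al_A.ConjP
import Pool.Agent.Lib.MP_fe8e9b_al_A.Dgen

/-!
# MP_fe8e9b_al, alternating groups: one copy of the alternating groups of the set of blocks
-/

set_option autoImplicit false

open scoped BigOperators Pointwise

namespace Pool.Agent.MPfe8e9bA

/-- A point of the block. -/
def w₀ : WW := ⟨fun _ => 1, by decide⟩

/-- The set of blocks as a set of points. -/
def inE (A : Type) : A ↪ A × WW := ⟨fun a => (a, w₀), fun _ _ h => (Prod.ext_iff.mp h).1⟩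

/-- The alternating groups of the sets of blocks, acting on one point of every block. -/
noncomputable def incM {K : Type} (A I : K → Type) [∀ k, Fintype (A k)]
    [∀ k, DecidableEq (A k)] : (∀ k, I k → alternatingGroup (A k)) →* MM A I where
  toFun g := fun k i => emb (inE (A k)) (g k i)
  map_one' := by
    funext k i
    exact map_one (emb (inE (A k)))
  map_mul' a b := by
    funext k i
    exact map_mul (emb (inE (A k))) _ _

/-! auxiliary lemmas -/

theorem stepd_order {Y : Type} (F : Y → Type) [∀ y, CommRing (F y)] [∀ y, Fintype (F y)]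
    [∀ y, DecidableEq (F y)] [∀ y, Algebra (ZMod 19) (F y)] (θ : Fin 3 × Bool) (c : ∀ y, F y) :
    (qq F θ (Multiplicative.ofAdd c)) ^ 19 = 1 := by
  have h1 : (19 : ℕ) • c = 0 := by
    funext y
    show (19 : ℕ) • c y = 0
    have h2 : ((19 : ℕ) : ZMod 19) • c y = 0 := by
      rw [ZMod.natCast_self, zero_smul]
    rwa [Nat.cast_smul_eq_nsmul] at h2
  rw [← map_pow, ← ofAdd_nsmul, h1, ofAdd_zero, map_one]

theorem stepd_comp {Y Y' : Type} (F : Y → Type) [∀ y, CommRing (F y)] [∀ y, Fintype (F y)]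
    [∀ y, DecidableEq (F y)] [∀ y, Algebra (ZMod 19) (F y)] (p : Y' → Y) (θ : Fin 3 × Bool)
    (a : ∀ y, F (p y)) (a' : ∀ y, F y) (y' : Y') (h : a y' = a' (p y')) :
    (qq (fun y => F (p y)) θ (Multiplicative.ofAdd a)) y' =
      (qq F θ (Multiplicative.ofAdd a')) (p y') := by
  obtain ⟨j, b⟩ := θ
  cases b
  · show shA j (Multiplicative.ofAdd fun x _ => a y' * x) =
      shA j (Multiplicative.ofAdd fun x _ => a' (p y') * x)
    rw [h]
  · show shA j (Multiplicative.ofAdd fun x _ => a y' * x ^ 2) =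
      shA j (Multiplicative.ofAdd fun x _ => a' (p y') * x ^ 2)
    rw [h]

theorem stepd_supp {A : Type} [Fintype A] [DecidableEq A] (s : alternatingGroup A) :
    (emb (inE A) s).1.support.card ≤ Fintype.card A := by
  have h1 : (emb (inE A) s).1.support ⊆ Finset.univ.map (inE A) := by
    intro x hx
    rw [Finset.mem_map]
    by_contra hcon
    rw [Equiv.Perm.mem_support] at hx
    apply hx
    apply emb_apply_of_notMem
    rintro ⟨a, ha⟩
    exact hcon ⟨a, Finset.mem_univ a, ha⟩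
  refine (Finset.card_le_card h1).trans ?_
  rw [Finset.card_map, Finset.card_univ]

/-- Families of elements of the spans of `1` and `t y` generate. -/
theorem stepd_adjoin {Y : Type} [Fintype Y] [DecidableEq Y] (F : Y → Type) [∀ y, CommRing (F y)]
    [∀ y, Algebra (ZMod 19) (F y)] (t : ∀ y, F y)
    (ht : ∀ y, Algebra.adjoin (ZMod 19) {t y} = ⊤) (Λ : Submodule (ZMod 19) (∀ y, F y))
    (hΛ : ∀ a : ∀ y, F y, (∀ y, a y ∈ Submodule.span (ZMod 19) {1, t y}) → a ∈ Λ) :
    Algebra.adjoin (ZMod 19) (Λ : Set (∀ y, F y)) = ⊤ := by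
  have hs : ∀ (y : Y) (z : F y), z ∈ Submodule.span (ZMod 19) {1, t y} →
      (Pi.single y z : ∀ y, F y) ∈ Λ := by
    intro y z hz
    apply hΛ
    intro y'
    by_cases h : y' = y
    · subst h
      rw [Pi.single_eq_same]
      exact hz
    · rw [Pi.single_eq_of_ne h]
      exact Submodule.zero_mem _
  have key : ∀ (y : Y) (z : F y), (Pi.single y z : ∀ y, F y) ∈
      Algebra.adjoin (ZMod 19) (Λ : Set (∀ y, F y)) := by
    intro y z
    have hz : z ∈ Algebra.adjoin (ZMod 19) {t y} := by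
      rw [ht y]
      exact Algebra.mem_top
    refine Algebra.adjoin_induction (p := fun z _ => (Pi.single y z : ∀ y, F y) ∈
      Algebra.adjoin (ZMod 19) (Λ : Set (∀ y, F y))) ?_ ?_ ?_ ?_ hz
    · intro x hx
      rw [Set.mem_singleton_iff] at hx
      rw [hx]
      exact Algebra.subset_adjoin (hs y _ (Submodule.subset_span (by simp)))
    · intro r
      refine Algebra.subset_adjoin (hs y _ ?_)
      rw [Algebra.algebraMap_eq_smul_one]
      exact Submodule.smul_mem _ _ (Submodule.subset_span (by simp))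
    · intro a b _ _ ha hb
      rw [Pi.single_add]
      exact Subalgebra.add_mem _ ha hb
    · intro a b _ _ ha hb
      have h1 : (Pi.single y (a * b) : ∀ y, F y) = Pi.single y a * Pi.single y b := by
        rw [Pi.single_mul]
      rw [h1]
      exact Subalgebra.mul_mem _ ha hb
  rw [eq_top_iff]
  intro f _
  have he : f = ∑ y, (Pi.single y (f y) : ∀ y, F y) := (Finset.univ_sum_single f).symm
  rw [he]
  exact Subalgebra.sum_mem _ fun y _ => key y (f y)

/-- Permutations inside the blocks and twelve elements control the alternating groups. -/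
theorem step_d : ∃ C : ℝ, 0 ≤ C ∧ ∀ (K : Type) [Fintype K] [DecidableEq K] (F : K → Type)
    [∀ k, Field (F k)] [∀ k, Fintype (F k)] [∀ k, DecidableEq (F k)]
    [∀ k, Algebra (ZMod 19) (F k)] (I : K → Type) [∀ k, Fintype (I k)] (t : ∀ k, F k),
    (∀ k, Algebra.adjoin (ZMod 19) {t k} = ⊤) →
    ∃ h : Fin 12 → MM (fun k => Om (F k)) I,
      Kz (Set.range h ∪ Set.range (fbM (fun k => Om (F k)) I)) C
        (Set.range (incM (fun k => Om (F k)) I)) := by
  classical
  refine ⟨72, by norm_num, ?_⟩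
  intro K _ _ F _ _ _ _ I _ t ht
  let c : Bool → ∀ k, F k := fun e => if e then t else 1
  have hex : ∀ (θ : Fin 3 × Bool) (e : Bool) (k : K),
      ∃ (h : alternatingGroup (Om (F k) × WW)) (b : Om (F k) → alternatingGroup WW),
        h * emb (inE (Om (F k))) (qq F θ (Multiplicative.ofAdd (c e)) k) * h⁻¹ =
          fb (Om (F k)) b := by
    intro θ e k
    refine conj_block _ ?_ (stepd_supp _)
    have h1 := congrFun (stepd_order F θ (c e)) k
    rw [Pi.pow_apply, Pi.one_apply] at h1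
    rw [← map_pow, h1, map_one]
  choose hh bb hb using hex
  obtain ⟨ee⟩ : Nonempty (Fin 12 ≃ (Fin 3 × Bool) × Bool) :=
    ⟨Fintype.equivOfCardEq (by simp)⟩
  let H : (Fin 3 × Bool) × Bool → MM (fun k => Om (F k)) I := fun x k _ => hh x.1 x.2 k
  refine ⟨fun n => H (ee n), ?_⟩
  set S : Set (MM (fun k => Om (F k)) I) :=
    Set.range (fun n => H (ee n)) ∪ Set.range (fbM (fun k => Om (F k)) I) with hS
  have hmem : ∀ x, H x ∈ S := fun x => Or.inl ⟨ee.symm x, by simp⟩
  have hT : Kz S 3 {x | ∃ y, ∃ u ∈ Set.range (fbM (fun k => Om (F k)) I),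
      x = (H y)⁻¹ * u * H y} := by
    intro V _ _ _ ρ v δ hδ hs u hu
    obtain ⟨y, u', hu', rfl⟩ := hu
    have h1 : Kz S 1 (Set.range (fbM (fun k => Om (F k)) I)) :=
      (Kz.self S).mono le_rfl le_rfl (fun _ h => Or.inr h)
    have h2 := h1.conj' (hmem y) V ρ v δ hδ hs _ ⟨u', hu', rfl⟩
    linarith
  set T : Set (MM (fun k => Om (F k)) I) := {x | ∃ y, ∃ u ∈ Set.range (fbM (fun k => Om (F k)) I),
      x = (H y)⁻¹ * u * H y} with hTdef
  let φ : (∀ y : (Σ k, I k), alternatingGroup (Om (F y.1))) →* MM (fun k => Om (F k)) I :=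
    { toFun := fun g => incM (fun k => Om (F k)) I (fun k i => g ⟨k, i⟩)
      map_one' := map_one (incM (fun k => Om (F k)) I)
      map_mul' := fun a b => map_mul (incM (fun k => Om (F k)) I) (fun k i => a ⟨k, i⟩)
        (fun k i => b ⟨k, i⟩) }
  have hφ : ∀ (θ : Fin 3 × Bool) (e : Bool) (α : (Σ k, I k) → ZMod 19),
      φ (qq (fun y : (Σ k, I k) => F y.1) θ
        (Multiplicative.ofAdd (fun y => α y • c e y.1))) ∈ T := by
    intro θ e α
    refine ⟨(θ, e), fbM (fun k => Om (F k)) I (fun y => (bb θ e y.1 y.2.2) ^ (α ⟨y.1, y.2.1⟩).val),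
      ⟨_, rfl⟩, ?_⟩
    funext k i
    have h1 : qq (fun y : (Σ k, I k) => F y.1) θ
        (Multiplicative.ofAdd (fun y => α y • c e y.1)) ⟨k, i⟩ =
        (qq F θ (Multiplicative.ofAdd (c e)) k) ^ (α ⟨k, i⟩).val := by
      have h2 := stepd_comp F (fun y : (Σ k, I k) => y.1) θ (fun y => α y • c e y.1)
        ((α ⟨k, i⟩).val • c e) ⟨k, i⟩ (by
          show α ⟨k, i⟩ • c e k = (α ⟨k, i⟩).val • c e k
          rw [← Nat.cast_smul_eq_nsmul (ZMod 19), ZMod.natCast_zmod_val])
      rw [h2, ofAdd_nsmul, map_pow]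
      rfl
    have h3 : fb (Om (F k)) (fun a => (bb θ e k a) ^ (α ⟨k, i⟩).val) =
        (fb (Om (F k)) (bb θ e k)) ^ (α ⟨k, i⟩).val := by
      rw [← map_pow]
      rfl
    show emb (inE (Om (F k))) (qq (fun y : (Σ k, I k) => F y.1) θ
        (Multiplicative.ofAdd (fun y => α y • c e y.1)) ⟨k, i⟩) =
      (hh θ e k)⁻¹ * fb (Om (F k)) (fun a => (bb θ e k a) ^ (α ⟨k, i⟩).val) * hh θ e k
    rw [h1, map_pow, h3, ← hb θ e k]
    have h4 : ∀ (x h : alternatingGroup (Om (F k) × WW)) (n : ℕ),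
        x ^ n = h⁻¹ * (h * x * h⁻¹) ^ n * h := by
      intro x h n
      rw [conj_pow]
      group
    exact h4 _ _ _
  have hφ2 : ∀ (θ : Fin 3 × Bool) (a : ∀ y : (Σ k, I k), F y.1),
      (∀ y, a y ∈ Submodule.span (ZMod 19) {1, t y.1}) →
      ∃ x ∈ T, ∃ x' ∈ T, φ (qq (fun y : (Σ k, I k) => F y.1) θ (Multiplicative.ofAdd a)) =
        x * x' := by
    intro θ a ha
    have h1 : ∀ y, ∃ α β : ZMod 19, α • (1 : F y.1) + β • t y.1 = a y := fun y =>
      Submodule.mem_span_pair.1 (ha y)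
    choose α β hαβ using h1
    refine ⟨_, hφ θ false α, _, hφ θ true β, ?_⟩
    rw [← map_mul, ← map_mul, ← ofAdd_add]
    congr 3
    funext y
    exact (hαβ y).symm
  let Λ : Submodule (ZMod 19) (∀ y : (Σ k, I k), F y.1) :=
    Submodule.pi Set.univ (fun y => Submodule.span (ZMod 19) {1, t y.1})
  have hΛ : ∀ a : ∀ y : (Σ k, I k), F y.1, a ∈ Λ ↔
      ∀ y, a y ∈ Submodule.span (ZMod 19) {1, t y.1} := by
    intro a
    rw [Submodule.mem_pi]
    exact ⟨fun h y => h y (Set.mem_univ y), fun h y _ => h y⟩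
  have hck := (ck_all (fun y : (Σ k, I k) => F y.1) Λ
    ((hΛ _).2 fun y => Submodule.subset_span (by simp))
    (stepd_adjoin (fun y : (Σ k, I k) => F y.1) (fun y => t y.1) (fun y => ht y.1) Λ
      (fun a ha => (hΛ a).2 ha))).map φ
  have h12 : Kz S 12 (φ '' (ckS (fun y : (Σ k, I k) => F y.1) Λ)) := by
    refine (hT.prod (by norm_num) 4).mono le_rfl (by norm_num) ?_
    rintro _ ⟨_, ⟨j, a, b, ha, hb', rfl⟩, rfl⟩
    obtain ⟨x1, hx1, x2, hx2, h1⟩ := hφ2 (j, true) a ((hΛ a).1 ha)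
    obtain ⟨x3, hx3, x4, hx4, h2⟩ := hφ2 (j, false) b ((hΛ b).1 hb')
    refine ⟨[x1, x2, x3, x4], by simp, ?_, ?_⟩
    · intro y hy
      simp only [List.mem_cons, List.not_mem_nil, or_false] at hy
      rcases hy with rfl | rfl | rfl | rfl <;> assumption
    · rw [map_mul]
      have h3 : φ (q2 (fun y : (Σ k, I k) => F y.1) j (Multiplicative.ofAdd a)) = x1 * x2 := h1
      have h4 : φ (q1 (fun y : (Σ k, I k) => F y.1) j (Multiplicative.ofAdd b)) = x3 * x4 := h2
      rw [h3, h4]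
      simp [mul_assoc]
  refine (h12.trans (by norm_num) hck).mono le_rfl (by norm_num) ?_
  rintro _ ⟨g, rfl⟩
  exact ⟨fun y => g y.1 y.2, Set.mem_univ _, rfl⟩

end Pool.Agent.MPfe8e9bA
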