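import Mathlib
import Pool.Agent.Lib.MP_fe8e9b_al_A.KzB
import Pool.Agent.Lib.MP_fe8e9b_al_A.AltP
import Pool.Agent.Lib.MP_fe8e9b_al_A.StepB
import Pool.Agent.Lib.MP_fe8e9b_al_A.StepC
import Pool.Agent.Lib.MP_fe8e9b_al_A.StepD
import Pool.Agent.Lib.MP_fe8e9b_al_A.Code3
import Pool.Agent.Lib.MP_fe8e9b_al_A.Gent

/-!
# MP_fe8e9b_al, alternating groups: the group of the construction
-/

set_option autoImplicit false

open scoped BigOperators Pointwise

namespace Pool.Agent.MPfe8e9bA

/-- A field whose order is the cube of the order of a given field. -/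
theorem mall_field (F : Type) [Field F] [Fintype F] [Algebra (ZMod 19) F] :
    ∃ (E : Type) (_ : Field E) (_ : Fintype E) (_ : Algebra (ZMod 19) E),
      Fintype.card E = Fintype.card F ^ 3 := by
  have : Fact (Nat.Prime 19) := ⟨by norm_num⟩
  have : Module.Finite (ZMod 19) F := Module.Finite.of_finite
  have h1 : Fintype.card F = 19 ^ Module.finrank (ZMod 19) F := by
    rw [Module.card_eq_pow_finrank (K := ZMod 19) (V := F), ZMod.card]
  have h2 : Module.finrank (ZMod 19) F ≠ 0 := Module.finrank_pos.ne'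
  letI fE : Fintype (GaloisField 19 (Module.finrank (ZMod 19) F * 3)) := Fintype.ofFinite _
  refine ⟨GaloisField 19 (Module.finrank (ZMod 19) F * 3), inferInstance, fE,
    inferInstance, ?_⟩
  have h3 := GaloisField.card 19 (Module.finrank (ZMod 19) F * 3) (by omega)
  rw [Nat.card_eq_fintype_card] at h3
  rw [h3, h1, ← pow_mul]

theorem mall_card (F : Type) [Field F] [Fintype F] [DecidableEq F] :
    Fintype.card (Om F) + 1 = Fintype.card F ^ 3 := by
  have h1 : Fintype.card {x : Fin 3 → F // x = 0} = 1 := Fintype.card_subtype_eq 0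
  have h2 := Fintype.card_subtype_compl (fun x : Fin 3 → F => x = 0)
  rw [h1, Fintype.card_fun, Fintype.card_fin] at h2
  have h3 : Fintype.card (Om F) = Fintype.card F ^ 3 - 1 := h2
  have h4 : 0 < Fintype.card F ^ 3 := pow_pos Fintype.card_pos 3
  omega

open Nat in
/-- The codes, for one index. -/
theorem mall_code : ∃ Q₁ : ℕ, ∀ (s : ℕ) (F : Type) [Field F] [Fintype F] [DecidableEq F]
    [Algebra (ZMod 19) F] (I : Type) [Fintype I], Q₁ ≤ Fintype.card F →
    Fintype.card I ≤ ((Fintype.card F ^ 3)!) ^ s →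
    ∃ (E : Type) (_ : AddCommGroup E) (_ : Module (ZMod 19) E) (_ : Fintype E)
      (e : Om F → E) (τ : Fin (4 * s) → I → Equiv.Perm (Om F)), Function.Injective e ∧
      (∀ (t : Fin (4 * s)) (q : I → ZMod 19), (∀ a, ∑ i, q i • e (τ t i a) = 0) ∨
        ∀ v, (Nat.card {a // ∑ i, q i • e (τ t i a) = v} : ℝ) ≤
          (1 - 1 / 16) * Fintype.card (Om F)) ∧
      ∀ i i' : I, i ≠ i' → ∃ t, τ t i ≠ τ t i' := by
  obtain ⟨Q₁, hQ₁⟩ := code_exists
  refine ⟨Q₁, ?_⟩
  intro s F _ _ _ _ I _ hF hI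
  obtain ⟨E, iE, fE, aE, hE⟩ := mall_field F
  have hF1 : Fintype.card F ≤ Fintype.card F ^ 3 := Nat.le_self_pow (by norm_num) _
  obtain ⟨e, C, X, he, hC, hX, hcard⟩ := hQ₁ E (Om F) (by rw [hE]; exact hF.trans hF1)
    (by rw [hE]; exact mall_card F)
  rw [hE] at hcard
  have h1 : Fintype.card I ≤ Fintype.card (Fin (4 * s) → X) := by
    rw [Fintype.card_fun, Fintype.card_fin, Fintype.card_coe, pow_mul]
    exact hI.trans (Nat.pow_le_pow_left hcard s)
  obtain ⟨ι⟩ := Function.Embedding.nonempty_of_card_le h1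
  refine ⟨E, inferInstance, inferInstance, fE, e, fun t i => (ι i t).1, he, ?_, ?_⟩
  · intro t q
    have hc : (fun a => ∑ i, q i • e ((ι i t).1 a)) ∈ C := by
      have h2 : (fun a => ∑ i, q i • e ((ι i t).1 a)) =
          ∑ i, q i • fun a => e ((ι i t).1 a) := by
        funext a
        rw [Finset.sum_apply]
        rfl
      rw [h2]
      exact Submodule.sum_mem _ fun i _ => Submodule.smul_mem _ _ (hX _ (ι i t).2)
    by_cases h0 : (fun a => ∑ i, q i • e ((ι i t).1 a)) = 0
    · left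
      intro a
      exact congrFun h0 a
    · right
      intro v
      exact hC _ hc h0 v
  · intro i i' hii
    by_contra hcon
    push Not at hcon
    apply hii
    apply ι.injective
    funext t
    exact Subtype.ext (hcon t)

theorem mall_prod {K : Type} (A I : K → Type) [∀ k, Fintype (A k)] [∀ k, DecidableEq (A k)]
    {L : ℕ} (h : ∀ k, Fin L → alternatingGroup (A k × WW))
    (hh : ∀ k (σ : alternatingGroup (A k × WW)), ∃ x : Fin L → alternatingGroup (A k),
      σ = (List.ofFn fun l => h k l * emb (inE (A k)) (x l) * (h k l)⁻¹).prod)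
    (m : MM A I) : ∃ x : Fin L → ∀ k, I k → alternatingGroup (A k),
      m = (List.ofFn fun l => (fun k _ => h k l : MM A I) * incM A I (x l) *
        (fun k _ => h k l : MM A I)⁻¹).prod := by
  choose x hx using fun k i => hh k (m k i)
  refine ⟨fun l k i => x k i l, ?_⟩
  funext k i
  have h1 : ∀ l : List (MM A I), l.prod k i = (l.map fun g => g k i).prod := by
    intro l
    induction l with
    | nil => rfl
    | cons a l ih =>
      rw [List.prod_cons, List.map_cons, List.prod_cons, ← ih]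
      rfl
  rw [h1, List.map_ofFn]
  exact hx k i

/-- The index set of the generators. -/
abbrev mall_T (s L : ℕ) : Type :=
  Fin 12 ⊕ ((Fin 3 × Bool) × Bool) ⊕ Fin s ⊕ Fin 12 ⊕ Fin L

/-- All the generators. -/
noncomputable def mall_G {K : Type} (A I : K → Type) [∀ k, Fintype (A k)]
    [∀ k, DecidableEq (A k)] {s L : ℕ} (gd : Fin 12 → ∀ k, alternatingGroup (A k))
    (b : YY A (fun _ => Unit) → ZMod 19) (τ : Fin s → ∀ k, I k → Equiv.Perm (A k))
    (h : Fin 12 → MM A I) (H : ∀ k, Fin L → alternatingGroup (A k × WW)) :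
    mall_T s L → MM A I :=
  Sum.elim (fun i => dgM A I (blM A (fun _ => Unit) (gd i)))
    (Sum.elim (fun i => dgM A I (if i.2 then EE A (fun _ => Unit) i.1 (Multiplicative.ofAdd 1)
        else EE A (fun _ => Unit) i.1 (Multiplicative.ofAdd b)))
      (Sum.elim (fun i => blS A I (τ i)) (Sum.elim h fun l k _ => H k l)))

theorem mall_aux {K : Type} (A I : K → Type) [∀ k, Fintype (A k)] [∀ k, DecidableEq (A k)]
    {s L : ℕ} {Cb Cc Cd : ℝ} (hCb : 0 ≤ Cb) (hCc : 0 ≤ Cc) (hCd : 0 ≤ Cd)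
    (gd : Fin 12 → ∀ k, alternatingGroup (A k)) (hgd : Kz (Set.range gd) 432 Set.univ)
    (b : YY A (fun _ => Unit) → ZMod 19)
    (hb : Kz (Set.range (blM A fun _ => Unit) ∪
        {g | ∃ θ, g = EE A (fun _ => Unit) θ (Multiplicative.ofAdd 1) ∨
          g = EE A (fun _ => Unit) θ (Multiplicative.ofAdd b)}) Cb
      (Set.range (fbM A fun _ => Unit)))
    (τ : Fin s → ∀ k, I k → Equiv.Perm (A k))
    (hc : Kz (dgM A I '' (Set.range (blM A fun _ => Unit) ∪ Set.range (fbM A fun _ => Unit)) ∪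
        {g | ∃ t, g = blS A I (τ t)}) Cc (Set.range (fbM A I)))
    (h : Fin 12 → MM A I)
    (hd : Kz (Set.range h ∪ Set.range (fbM A I)) Cd (Set.range (incM A I)))
    (H : ∀ k, Fin L → alternatingGroup (A k × WW))
    (hH : ∀ k (σ : alternatingGroup (A k × WW)), ∃ x : Fin L → alternatingGroup (A k),
      σ = (List.ofFn fun l => H k l * emb (inE (A k)) (x l) * (H k l)⁻¹).prod) :
    Kz (Set.range (mall_G A I gd b τ h H))
      (L * (Cd * (Cc * (432 + Cb * 432 + 1) + 1) + 2)) Set.univ := by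
  obtain ⟨G, hG⟩ : ∃ G, G = mall_G A I gd b τ h H := ⟨_, rfl⟩
  rw [← hG]
  -- the diagonal group
  have k1 : Kz (Set.range G) (432 + Cb * 432) (dgM A I ''
      (Set.range (blM A fun _ => Unit) ∪ Set.range (fbM A fun _ => Unit))) := by
    obtain ⟨B, hB⟩ : ∃ B : Set (MM A fun _ => Unit), B =
      {g | ∃ θ, g = EE A (fun _ => Unit) θ (Multiplicative.ofAdd 1) ∨
          g = EE A (fun _ => Unit) θ (Multiplicative.ofAdd b)} := ⟨_, rfl⟩
    rw [← hB] at hb
    have h1 : Kz (blM A (fun _ => Unit) '' Set.range gd ∪ B) (432 + Cb * 432)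
        (Set.range (blM A fun _ => Unit) ∪ Set.range (fbM A fun _ => Unit)) := by
      have h2 := hgd.map (blM A fun _ => Unit)
      rw [Set.image_univ] at h2
      have h3 := h2.mono (S' := blM A (fun _ => Unit) '' Set.range gd ∪ B)
        Set.subset_union_left le_rfl subset_rfl
      have h4 := (Kz.self (blM A (fun _ => Unit) '' Set.range gd ∪ B)).mono subset_rfl
          (show (1 : ℝ) ≤ 432 by norm_num) (T' := B) Set.subset_union_right
      have h5 := (h3.union h4).trans (by norm_num) hb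
      exact (h3.mono subset_rfl (by linarith) subset_rfl).union
        (h5.mono subset_rfl (by linarith) subset_rfl)
    refine (h1.map (dgM A I)).mono ?_ le_rfl subset_rfl
    rintro _ ⟨g, hg, rfl⟩
    rw [hB] at hg
    rcases hg with ⟨_, ⟨i, rfl⟩, rfl⟩ | ⟨θ, hg | hg⟩
    · refine ⟨Sum.inl i, ?_⟩
      rw [hG]
      rfl
    · refine ⟨Sum.inr (Sum.inl (θ, true)), ?_⟩
      rw [hG, hg]
      rfl
    · refine ⟨Sum.inr (Sum.inl (θ, false)), ?_⟩
      rw [hG, hg]
      rfl
  have k2 : Kz (Set.range G) (432 + Cb * 432 + 1)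
      (dgM A I '' (Set.range (blM A fun _ => Unit) ∪ Set.range (fbM A fun _ => Unit)) ∪
        {g | ∃ t, g = blS A I (τ t)}) := by
    refine (k1.mono subset_rfl (by linarith) subset_rfl).union
      ((Kz.self (Set.range G)).mono subset_rfl (by linarith) ?_)
    rintro _ ⟨i, rfl⟩
    refine ⟨Sum.inr (Sum.inr (Sum.inl i)), ?_⟩
    rw [hG]
    rfl
  -- permutations inside the blocks
  have k4 : Kz (Set.range G) (Cc * (432 + Cb * 432 + 1)) (Set.range (fbM A I)) :=
    k2.trans (by positivity) hc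
  have hC4 : 0 ≤ Cc * (432 + Cb * 432 + 1) := by positivity
  have k6 : Kz (Set.range G) (Cd * (Cc * (432 + Cb * 432 + 1) + 1))
      (Set.range (incM A I)) := by
    have h1 : Kz (Set.range G) (Cc * (432 + Cb * 432 + 1) + 1)
        (Set.range h ∪ Set.range (fbM A I)) := by
      refine ((Kz.self (Set.range G)).mono subset_rfl (by linarith) ?_).union
        (k4.mono subset_rfl (by linarith) subset_rfl)
      rintro _ ⟨i, rfl⟩
      refine ⟨Sum.inr (Sum.inr (Sum.inr (Sum.inl i))), ?_⟩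
      rw [hG]
      rfl
    exact h1.trans (by positivity) hd
  -- conjugates
  have k7 : Kz (Set.range G) (Cd * (Cc * (432 + Cb * 432 + 1) + 1) + 2)
      {x | ∃ (l : Fin L), ∃ u ∈ Set.range (incM A I),
      x = (fun k _ => H k l : MM A I) * u * (fun k _ => H k l : MM A I)⁻¹} := by
    intro V _ _ _ ρ v δ hδ hs x hx
    obtain ⟨l, u, hu, rfl⟩ := hx
    have h1 : (fun k _ => H k l : MM A I) ∈ Set.range G := by
      refine ⟨Sum.inr (Sum.inr (Sum.inr (Sum.inr l))), ?_⟩
      rw [hG]
      rfl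
    exact k6.conj h1 V ρ v δ hδ hs _ ⟨u, hu, rfl⟩
  refine (k7.prod (by positivity) L).mono subset_rfl le_rfl ?_
  intro m _
  obtain ⟨x, hx⟩ := mall_prod A I H hH m
  refine ⟨_, ?_, ?_, hx⟩
  · rw [List.length_ofFn]
  · intro y hy
    rw [List.mem_ofFn] at hy
    obtain ⟨l, rfl⟩ := hy
    exact ⟨l, _, ⟨x l, rfl⟩, rfl⟩

open Nat in
/-- The group of the construction is controlled by boundedly many elements. -/
theorem m_all : ∃ Q₀ : ℕ, ∀ s : ℕ, ∃ (N : ℕ) (C : ℝ), 0 ≤ C ∧ ∀ (K : Type) [Fintype K]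
    [DecidableEq K] (F : K → Type) [∀ k, Field (F k)] [∀ k, Fintype (F k)]
    [∀ k, DecidableEq (F k)] [∀ k, Algebra (ZMod 19) (F k)] (I : K → Type)
    [∀ k, Fintype (I k)],
    (∀ k k', Fintype.card (F k) = Fintype.card (F k') → k = k') →
    (∀ k, Q₀ ≤ Fintype.card (F k)) →
    (∀ k, Fintype.card (I k) ≤ ((Fintype.card (F k) ^ 3)!) ^ s) →
    ∃ g : Fin N → MM (fun k => Om (F k)) I, Kz (Set.range g) C Set.univ := by
  obtain ⟨Q₁, hQ₁⟩ := mall_code
  obtain ⟨Cb, hCb, hb⟩ := step_b
  obtain ⟨Cd, hCd, hd⟩ := step_d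
  obtain ⟨L, hL⟩ := alt_prod 6858
  refine ⟨Q₁ + 10, fun s => ?_⟩
  obtain ⟨Cc, hCc, hc⟩ := step_c (1 / 16) (by norm_num) (by norm_num) (4 * s)
  refine ⟨Fintype.card (mall_T (4 * s) L), L * (Cd * (Cc * (432 + Cb * 432 + 1) + 1) + 2),
    by positivity, ?_⟩
  intro K _ _ F _ _ _ _ I _ hF hQ hI
  obtain ⟨t, ht, htk⟩ := gen_t F hF
  obtain ⟨gd, hgd⟩ := d_gen F t ht
  have hcard : ∀ k, 999 ≤ Fintype.card (Om (F k)) := by
    intro k
    have h1 := mall_card (F k)
    have h2 : 10 ^ 3 ≤ Fintype.card (F k) ^ 3 :=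
      Nat.pow_le_pow_left (by have := hQ k; omega) 3
    omega
  -- codes
  choose E iE mE fE e τ he hcode hsep using fun k =>
    hQ₁ s (F k) (I k) (by have := hQ k; omega) (hI k)
  obtain ⟨b, hb⟩ := hb K (fun k => Om (F k)) fun k => by have := hcard k; omega
  obtain ⟨h, hd⟩ := hd K F I t htk
  choose H hH using fun k => hL (Om (F k)) (Om (F k) × WW) (inE (Om (F k)))
    (by have := hcard k; omega) (by rw [Fintype.card_prod, card_WW, mul_comm])
  have hc' := hc K (fun k => Om (F k)) I E e (fun i k => τ k i) he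
    (fun k => by
      have h1 : (999 : ℝ) ≤ Fintype.card (Om (F k)) := by exact_mod_cast hcard k
      linarith)
    (fun i k q => hcode k i q) fun k i i' hii => hsep k i i' hii
  have key := mall_aux (fun k => Om (F k)) I hCb hCc hCd gd hgd b hb (fun i k => τ k i) hc' h hd
    H hH
  refine ⟨fun n => mall_G (fun k => Om (F k)) I gd b (fun i k => τ k i) h H
    ((Fintype.equivFin (mall_T (4 * s) L)).symm n), ?_⟩
  have hrange : Set.range (fun n => mall_G (fun k => Om (F k)) I gd b (fun i k => τ k i) h H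
      ((Fintype.equivFin (mall_T (4 * s) L)).symm n)) =
      Set.range (mall_G (fun k => Om (F k)) I gd b (fun i k => τ k i) h H) :=
    (Fintype.equivFin (mall_T (4 * s) L)).symm.surjective.range_comp
      (mall_G (fun k => Om (F k)) I gd b (fun i k => τ k i) h H)
  rw [hrange]
  exact key

end Pool.Agent.MPfe8e9bA
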