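import Mathlib

/-!
# MP_fe8e9b_al, alternating groups: numbers
-/

set_option autoImplicit false

open scoped BigOperators Pointwise

namespace Pool.Agent.MPfe8e9bA

/-- The exponent which belongs to `n` points. -/
def kk (n : ℕ) : ℕ := Nat.log 6859 (n / 6858 + 1)

theorem kk_spec {n : ℕ} (h : 6858 * 6858 ≤ n) :
    1 ≤ kk n ∧ (6859 ^ kk n - 1) * 6858 ≤ n ∧ n ≤ 6859 ^ 3 * (6859 ^ kk n - 1) := by
  have h0 : 6858 ≤ n / 6858 := by omega
  have h1 : 1 ≤ kk n := by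
    unfold kk
    exact Nat.log_pos (by norm_num) (by omega)
  have h2 : 6859 ^ kk n ≤ n / 6858 + 1 := Nat.pow_log_le_self 6859 (by omega)
  have h3 : n / 6858 + 1 < 6859 ^ (kk n + 1) :=
    Nat.lt_pow_succ_log_self (by norm_num) (n / 6858 + 1)
  have h4 : 6859 ≤ 6859 ^ kk n := by
    calc 6859 = 6859 ^ 1 := by norm_num
      _ ≤ 6859 ^ kk n := Nat.pow_le_pow_right (by norm_num) h1
  rw [pow_succ] at h3
  generalize 6859 ^ kk n = q at h2 h3 h4 ⊢
  have h5 : n / 6858 * 6858 ≤ n := Nat.div_mul_le_self n 6858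
  have h6 : n < (n / 6858 + 1) * 6858 := by
    have := Nat.lt_div_mul_add (a := n) (b := 6858) (by norm_num)
    linarith
  generalize n / 6858 = m at h2 h3 h5 h6
  obtain ⟨p, rfl⟩ : ∃ p, q = p + 1 := ⟨q - 1, by omega⟩
  rw [Nat.add_sub_cancel]
  refine ⟨h1, ?_, ?_⟩
  · linarith
  · norm_num
    linarith

theorem kk_large (k₀ : ℕ) : ∃ n₀ : ℕ, 6858 * 6858 ≤ n₀ ∧ ∀ n, n₀ ≤ n → k₀ ≤ kk n := by
  refine ⟨6858 * 6859 ^ k₀ + 6858 * 6858, by omega, fun n hn => ?_⟩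
  unfold kk
  refine Nat.le_log_of_pow_le (by norm_num) ?_
  generalize 6859 ^ k₀ = q at hn ⊢
  omega

open Nat in
theorem numf_pow_self (q : ℕ) : q ^ q ≤ (q !) ^ 2 := by
  have h1 : (q !) ^ 2 = ∏ i ∈ Finset.range q, ((i + 1) * (q - 1 - i + 1)) := by
    rw [Finset.prod_mul_distrib, Finset.prod_range_reflect (fun i => i + 1) q,
      Finset.prod_range_add_one_eq_factorial, sq]
  have h2 : q ^ q = ∏ _i ∈ Finset.range q, q := by
    rw [Finset.prod_const, Finset.card_range]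
  rw [h1]
  nth_rewrite 1 [h2]
  refine Finset.prod_le_prod' fun i hi => ?_
  rw [Finset.mem_range] at hi
  obtain ⟨j, hj⟩ : ∃ j, q = i + 1 + j := ⟨q - (i + 1), by omega⟩
  have h3 : q - 1 - i + 1 = j + 1 := by omega
  rw [h3, hj]
  nlinarith

open Nat in
theorem numf_fac_le (n : ℕ) : n ! ≤ n ^ n := by
  rw [← Finset.prod_range_add_one_eq_factorial]
  calc ∏ i ∈ Finset.range n, (i + 1) ≤ ∏ _i ∈ Finset.range n, n :=
        Finset.prod_le_prod' fun i hi => by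
          rw [Finset.mem_range] at hi
          omega
    _ = n ^ n := by rw [Finset.prod_const, Finset.card_range]

open Nat in
theorem numf_bound (B q d : ℕ) (hq : 5 ≤ q) (hB : B ≤ q ^ 3) :
    (B * q + 1) * ((B * q)!) ^ d ≤ (q !) ^ (2 * (1 + 4 * B * d)) := by
  have hq0 : 0 < q := by omega
  have h1 : B * q ≤ q ^ 4 := by
    calc B * q ≤ q ^ 3 * q := Nat.mul_le_mul_right q hB
      _ = q ^ 4 := by ring
  have h2 : (B * q)! ≤ (q ^ q) ^ (4 * B) := by
    calc (B * q)! ≤ (B * q) ^ (B * q) := numf_fac_le _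
      _ ≤ (q ^ 4) ^ (B * q) := Nat.pow_le_pow_left h1 _
      _ = (q ^ q) ^ (4 * B) := by rw [← pow_mul, ← pow_mul]; congr 1; ring
  have h3 : B * q + 1 ≤ q ^ q := by
    have h4 : 1 ≤ q ^ 4 := Nat.one_le_pow _ _ hq0
    calc B * q + 1 ≤ q ^ 4 * 5 := by omega
      _ ≤ q ^ 4 * q := Nat.mul_le_mul_left _ hq
      _ = q ^ 5 := by ring
      _ ≤ q ^ q := Nat.pow_le_pow_right hq0 hq
  calc (B * q + 1) * ((B * q)!) ^ d ≤ q ^ q * ((q ^ q) ^ (4 * B)) ^ d :=
        Nat.mul_le_mul h3 (Nat.pow_le_pow_left h2 d)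
    _ = (q ^ q) ^ (1 + 4 * B * d) := by rw [← pow_mul, pow_add, pow_one]
    _ ≤ ((q !) ^ 2) ^ (1 + 4 * B * d) := Nat.pow_le_pow_left (numf_pow_self q) _
    _ = (q !) ^ (2 * (1 + 4 * B * d)) := by rw [← pow_mul]

open Nat in
theorem numf_count {ι : Type} [Fintype ι] (n : ι → ℕ) (d M : ℕ)
    (h : ∀ m, Nat.card {i // n i = m} ≤ (m !) ^ d) (P : ι → Prop) (hP : ∀ i, P i → n i ≤ M) :
    Nat.card {i // P i} ≤ (M + 1) * (M !) ^ d := by
  classical
  rw [Nat.card_eq_fintype_card, Fintype.card_subtype]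
  have hsub : (Finset.univ.filter P) ⊆
      (Finset.range (M + 1)).biUnion fun m => Finset.univ.filter fun i => n i = m := by
    intro i hi
    rw [Finset.mem_filter] at hi
    rw [Finset.mem_biUnion]
    exact ⟨n i, Finset.mem_range.2 (Nat.lt_succ_of_le (hP i hi.2)), by simp⟩
  refine (Finset.card_le_card hsub).trans (Finset.card_biUnion_le.trans ?_)
  calc ∑ m ∈ Finset.range (M + 1), (Finset.univ.filter fun i => n i = m).card
      ≤ ∑ _m ∈ Finset.range (M + 1), (M !) ^ d := by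
        refine Finset.sum_le_sum fun m hm => ?_
        have h1 := h m
        rw [Nat.card_eq_fintype_card, Fintype.card_subtype] at h1
        rw [Finset.mem_range] at hm
        exact h1.trans (Nat.pow_le_pow_left (Nat.factorial_le (by omega)) d)
    _ = (M + 1) * (M !) ^ d := by
        rw [Finset.sum_const, Finset.card_range, smul_eq_mul]

open Nat in
/-- Multiplicities. -/
theorem kk_mult (d : ℕ) : ∃ s : ℕ, ∀ (ι : Type) [Fintype ι] (n : ι → ℕ),
    (∀ m, Nat.card {i // n i = m} ≤ (m !) ^ d) → ∀ k, 1 ≤ k →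
    Nat.card {i // 6858 * 6858 ≤ n i ∧ kk (n i) = k} ≤ ((6859 ^ k)!) ^ s := by
  obtain ⟨B, hB⟩ : ∃ B : ℕ, B = 6859 ^ 3 := ⟨_, rfl⟩
  refine ⟨2 * (1 + 4 * B * d), ?_⟩
  intro ι _ n h k hk
  have h4 : 6859 ≤ 6859 ^ k := by
    calc 6859 = 6859 ^ 1 := by norm_num
      _ ≤ 6859 ^ k := Nat.pow_le_pow_right (by norm_num) hk
  have hcount := numf_count n d (B * 6859 ^ k) h
    (fun i => 6858 * 6858 ≤ n i ∧ kk (n i) = k) (fun i hi => by
      have h5 := (kk_spec hi.1).2.2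
      rw [hi.2, ← hB] at h5
      exact h5.trans (Nat.mul_le_mul_left _ (Nat.sub_le _ _)))
  refine hcount.trans (numf_bound B (6859 ^ k) d (by omega) ?_)
  rw [hB]
  exact Nat.pow_le_pow_left h4 3

end Pool.Agent.MPfe8e9bA
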