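import Mathlib
import Pool.Agent.Lib.MP_fe8e9b_al.Final

/-!
# MP_fe8e9b_al, alternating groups: small factors
-/

set_option autoImplicit false

open scoped BigOperators Pointwise

namespace Pool.Agent.MPfe8e9bA

open Nat in
private theorem small_card (m : ℕ) : Nat.card (alternatingGroup (Fin m)) ≤ m ! := by
  have h : Nat.card (alternatingGroup (Fin m)) ≤ Nat.card (Equiv.Perm (Fin m)) :=
    Nat.card_le_card_of_injective (fun A => A.1) Subtype.val_injective
  rwa [Nat.card_perm, Nat.card_fin] at h

open Pool.Agent.MPfe8e9b Nat in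
/-- The small factors. -/
theorem small_alt (d n₀ : ℕ) : ∃ B : ℕ, ∀ (ι : Type) [Fintype ι] (n : ι → ℕ),
    (∀ m, Nat.card {i // n i = m} ≤ (m !) ^ d) →
    FExpd (∀ i : {i // n i < n₀}, alternatingGroup (Fin (n i.1))) B 2 := by
  classical
  refine ⟨(n₀ !) ^ ((n₀ !) ^ d * n₀), ?_⟩
  intro ι _ n hn
  have h1 : (Finset.univ.filter (fun i => n i < n₀)).card ≤ (n₀ !) ^ d * n₀ := by
    have := Finset.card_le_mul_card_image_of_maps_to
      (s := Finset.univ.filter (fun i => n i < n₀)) (f := fun i => n i)
      (t := Finset.range n₀) (by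
        intro i hi
        exact Finset.mem_range.2 (Finset.mem_filter.mp hi).2) ((n₀ !) ^ d) (by
        intro m hm
        have hm' := Finset.mem_range.1 hm
        have h2 := hn m
        rw [Nat.card_eq_fintype_card, Fintype.card_subtype] at h2
        refine (le_trans (Finset.card_le_card ?_) h2).trans
          (Nat.pow_le_pow_left (Nat.factorial_le hm'.le) d)
        intro i hi
        exact Finset.mem_filter.2 ⟨Finset.mem_univ i, (Finset.mem_filter.1 hi).2⟩)
    simpa using this
  let inst : Fintype (∀ i : {i // n i < n₀}, alternatingGroup (Fin (n i.1))) :=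
    Fintype.ofFinite _
  refine ⟨inst, ?_⟩
  apply expd_card
  rw [← Nat.card_eq_fintype_card, Nat.card_pi]
  calc ∏ i : {i // n i < n₀}, Nat.card (alternatingGroup (Fin (n i.1)))
      ≤ ∏ _i : {i // n i < n₀}, n₀ ! := by
        refine Finset.prod_le_prod' fun i _ => ?_
        exact (small_card _).trans (Nat.factorial_le i.2.le)
    _ = (n₀ !) ^ (Finset.univ.filter (fun i => n i < n₀)).card := by
        rw [Finset.prod_const, Finset.card_univ, Fintype.card_subtype]
    _ ≤ _ := Nat.pow_le_pow_right (Nat.factorial_pos _) h1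

end Pool.Agent.MPfe8e9bA
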