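import Mathlib
import Pool.Agent.Lib.MP_fe8e9b_al_A.MAll
import Pool.Agent.Lib.MP_fe8e9b_al_A.KzE
import Pool.Agent.Lib.MP_fe8e9b_al_A.Small
import Pool.Agent.Lib.MP_fe8e9b_al_A.NumF
import Pool.Agent.Lib.MP_fe8e9b_al.Images
import Pool.Agent.Lib.MP_fe8e9b_al.Final
import Pool.Agent.Lib.MP_fe8e9b_al.Final3

/-!
# MP_fe8e9b_al, alternating groups: products of alternating groups
-/

set_option autoImplicit false

open scoped BigOperators Pointwise

namespace Pool.Agent.MPfe8e9bA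

open Nat in
/-- `Q` is isomorphic to a finite direct product of alternating groups of degrees at least five,
with at most `(m !) ^ d` factors of degree `m` for every `m`. -/
def AltProduct (d : ℕ) (Q : Type) [Group Q] : Prop :=
  ∃ (ι : Type) (_ : Fintype ι) (n : ι → ℕ), (∀ i, 5 ≤ n i) ∧
    (∀ m, Nat.card {i // n i = m} ≤ (m !) ^ d) ∧
    Nonempty (Q ≃* (∀ i, alternatingGroup (Fin (n i))))

/-- Regrouping of a product. -/
theorem fina_surj {J K : Type} (c : J → K) (G : K → Type) [∀ k, Group (G k)] :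
    ∃ φ : (∀ k, {i : J // c i = k} → G k) →* (∀ i, G (c i)), Function.Surjective φ := by
  refine ⟨MonoidHom.mk' (fun z i => z (c i) ⟨i, rfl⟩) (fun _ _ => rfl), fun y => ?_⟩
  exact ⟨fun k j => j.2 ▸ y j.1, rfl⟩

theorem fina_card (F : Type) [Field F] [Fintype F] [DecidableEq F] :
    Fintype.card (Om F × WW) = (Fintype.card F ^ 3 - 1) * 6858 := by
  rw [Fintype.card_prod, card_WW]
  congr 1
  have h1 : Fintype.card {x : Fin 3 → F // x = 0} = 1 := Fintype.card_subtype_eq 0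
  have h2 := Fintype.card_subtype_compl (fun x : Fin 3 → F => x = 0)
  rw [h1, Fintype.card_fun, Fintype.card_fin] at h2
  exact h2

open Pool.Agent.MPfe8e9b in
/-- The large factors, from the data. -/
theorem fina_core {N L : ℕ} {κ : ℝ} {k' : ℕ} {κ' : ℝ} (c₀ : ℕ)
    (himg : ∀ (ι : Type) [Fintype ι] [DecidableEq ι] (H G : ι → Type) [∀ i, Group (H i)]
      [∀ i, Fintype (H i)] [∀ i, Group (G i)] [∀ i, Fintype (G i)],
      (∀ i, ∃ φ : Fin L → (H i →* G i), ∀ g : G i, ∃ x : Fin L → H i,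
        g = (List.ofFn fun j => φ j (x j)).prod) →
      Expd (∀ i, H i) N κ → Expd (∀ i, G i) k' κ')
    (hL : ∀ (α β : Type) [Fintype α] [DecidableEq α] [Fintype β]
      [DecidableEq β] (e : α ↪ β), 9 ≤ Fintype.card α → Fintype.card β ≤ c₀ * Fintype.card α →
      ∃ h : Fin L → alternatingGroup β, ∀ σ : alternatingGroup β,
        ∃ x : Fin L → alternatingGroup α,
          σ = (List.ofFn fun i => h i * emb e (x i) * (h i)⁻¹).prod)
    (J K : Type) [Fintype J] (c : J → K) (n : J → ℕ)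
    (F : K → Type) [∀ k, Field (F k)] [∀ k, Fintype (F k)]
    [∀ k, DecidableEq (F k)]
    (h1 : ∀ i, (Fintype.card (F (c i)) ^ 3 - 1) * 6858 ≤ n i)
    (h2 : ∀ i, n i ≤ c₀ * ((Fintype.card (F (c i)) ^ 3 - 1) * 6858))
    (hE : FExpd (MM (fun k => Om (F k)) (fun k => {i : J // c i = k})) N κ) :
    FExpd (∀ i, alternatingGroup (Fin (n i))) k' κ' := by
  classical
  obtain ⟨φ, hφ⟩ := fina_surj c (fun k => alternatingGroup (Om (F k) × WW))
  have hH : FExpd (∀ i, alternatingGroup (Om (F (c i)) × WW)) N κ := FExpd.surj φ hφ hE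
  refine (himg J (fun i => alternatingGroup (Om (F (c i)) × WW))
    (fun i => alternatingGroup (Fin (n i))) ?_ hH.expd).fexpd
  intro i
  have hcard := fina_card (F (c i))
  have he : Nonempty ((Om (F (c i)) × WW) ↪ Fin (n i)) := by
    refine Function.Embedding.nonempty_of_card_le ?_
    rw [hcard, Fintype.card_fin]
    exact h1 i
  obtain ⟨e⟩ := he
  have hF2 : 2 ≤ Fintype.card (F (c i)) := Fintype.one_lt_card
  have hF8 : 2 ^ 3 ≤ Fintype.card (F (c i)) ^ 3 := Nat.pow_le_pow_left hF2 3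
  obtain ⟨h, hh⟩ := hL (Om (F (c i)) × WW) (Fin (n i)) e (by rw [hcard]; omega)
    (by rw [hcard, Fintype.card_fin]; exact h2 i)
  refine ⟨fun j => (MulAut.conj (h j)).toMonoidHom.comp (emb e), fun g => ?_⟩
  obtain ⟨x, hx⟩ := hh g
  exact ⟨x, hx⟩

open Pool.Agent.MPfe8e9b in
/-- Large factors. -/
theorem large_alt (d : ℕ) : ∃ (n₀ k : ℕ) (κ : ℝ), 0 < κ ∧ ∀ (ι : Type) [Fintype ι]
    (n : ι → ℕ), (∀ m, Nat.card {i // n i = m} ≤ (Nat.factorial m) ^ d) →
    FExpd (∀ i : {i // n₀ ≤ n i}, alternatingGroup (Fin (n i.1))) k κ := by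
  classical
  obtain ⟨s, hs⟩ := kk_mult d
  obtain ⟨Q₀, hQ₀⟩ := m_all
  obtain ⟨N, C, hC, hm⟩ := hQ₀ s
  obtain ⟨n₀, hn₀, hkl⟩ := kk_large (Q₀ + 1)
  obtain ⟨L, hL⟩ := alt_prod (6859 ^ 3)
  have hκ : 0 < 1 / (C ^ 2 + 1) := by positivity
  obtain ⟨k', κ', hκ', himg⟩ := expd_images L N (1 / (C ^ 2 + 1)) hκ
  refine ⟨n₀, k', κ', hκ', fun ι _ n hmult => ?_⟩
  have : Fact (Nat.Prime 19) := ⟨by norm_num⟩
  set J : Type := {i : ι // n₀ ≤ n i} with hJ
  set K : Type := ↥(Set.range (fun i : J => kk (n i.1))) with hK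
  have hKfin : Finite K := Set.finite_range _
  have : Fintype K := Fintype.ofFinite K
  set c : J → K := fun i => ⟨kk (n i.1), i, rfl⟩ with hc
  have hKk : ∀ k : K, Q₀ + 1 ≤ k.1 := by
    rintro ⟨_, i, rfl⟩
    exact hkl _ i.2
  have : ∀ k : K, Fintype (GaloisField 19 k.1) := fun k => Fintype.ofFinite _
  have hFcard : ∀ k : K, Fintype.card (GaloisField 19 k.1) = 19 ^ k.1 := by
    intro k
    rw [← Nat.card_eq_fintype_card]
    exact GaloisField.card 19 k.1 (by have := hKk k; omega)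
  have hF3 : ∀ k : K, Fintype.card (GaloisField 19 k.1) ^ 3 = 6859 ^ k.1 := by
    intro k
    rw [hFcard, ← pow_mul, mul_comm, pow_mul]
    norm_num
  have hspec : ∀ i : J, 1 ≤ kk (n i.1) ∧ (6859 ^ kk (n i.1) - 1) * 6858 ≤ n i.1 ∧
      n i.1 ≤ 6859 ^ 3 * (6859 ^ kk (n i.1) - 1) := fun i => kk_spec (hn₀.trans i.2)
  obtain ⟨g, hg⟩ := hm K (fun k => GaloisField 19 k.1) (fun k => {i : J // c i = k})
    (fun k k' h => by
      rw [hFcard, hFcard] at h
      exact Subtype.ext (Nat.pow_right_injective (by norm_num) h))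
    (fun k => by
      rw [hFcard]
      have h1 := hKk k
      have h2 : k.1 < 19 ^ k.1 := Nat.lt_pow_self (by norm_num)
      omega)
    (fun k => by
      rw [hF3]
      refine le_trans ?_ (hs ι n hmult k.1 (by have := hKk k; omega))
      rw [← Nat.card_eq_fintype_card]
      refine Nat.card_le_card_of_injective
        (fun i : {i : J // c i = k} => (⟨i.1.1, hn₀.trans i.1.2, congrArg Subtype.val i.2⟩ :
          {i // 6858 * 6858 ≤ n i ∧ kk (n i) = k.1})) ?_
      intro a b hab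
      have hab' : a.1.1 = b.1.1 := Subtype.mk.inj hab
      exact Subtype.ext (Subtype.ext hab'))
  refine fina_core (6859 ^ 3) himg hL J K c (fun i => n i.1) (fun k => GaloisField 19 k.1)
    (fun i => ?_) (fun i => ?_) (kz_expd N C hC _ g hg).fexpd
  · rw [hF3]
    exact (hspec i).2.1
  · rw [hF3]
    refine (hspec i).2.2.trans (Nat.mul_le_mul_left _ ?_)
    exact Nat.le_mul_of_pos_right _ (by norm_num)

open Pool.Agent.MPfe8e9b in
/-- Products of alternating groups. -/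
theorem alt_expd (d : ℕ) : ∃ (k : ℕ) (κ : ℝ), 0 < κ ∧ ∀ (Q : Type) [Group Q],
    AltProduct d Q → FExpd Q k κ := by
  obtain ⟨n₀, k, κ, hκ, hlarge⟩ := large_alt d
  obtain ⟨B, hsmall⟩ := small_alt d n₀
  refine ⟨k + B, min κ 2, lt_min hκ two_pos, fun Q _ hQ => ?_⟩
  obtain ⟨ι, hι, n, -, hmult, ⟨e⟩⟩ := hQ
  have h1 := (hlarge ι n hmult).mono le_rfl (min_le_left κ 2)
  have h2 := (hsmall ι n hmult).mono le_rfl (min_le_right κ 2)
  have h3 := FExpd.union (fun i => alternatingGroup (Fin (n i))) (fun i => n₀ ≤ n i)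
    (fun i => n i < n₀) (lt_min hκ two_pos).le h1 h2
  let ψ : (∀ i : {i // n₀ ≤ n i ∨ n i < n₀}, alternatingGroup (Fin (n i.1))) →*
      (∀ i, alternatingGroup (Fin (n i))) :=
    MonoidHom.mk' (fun z i => z ⟨i, le_or_gt n₀ (n i)⟩) (fun _ _ => rfl)
  have h4 : FExpd (∀ i, alternatingGroup (Fin (n i))) (k + B) (min κ 2) :=
    FExpd.surj ψ (fun z => ⟨fun i => z i.1, rfl⟩) h3
  exact FExpd.surj e.symm.toMonoidHom e.symm.surjective h4

end Pool.Agent.MPfe8e9bA
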